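import Pool.Agent.FOK.Stmts1

/-!
# Module IRR: all lines of a long window are in `Y_p` (3.3, conclusion)
-/

namespace FOK

open Lib_helper64.FO FO2
open scoped RealInnerProductSpace Nat

namespace IRR

/-- the arithmetic of factorials: the smallest case -/
theorem base (k : ℕ) : k ! * 2 ^ (2 * k + 4) < (2 * k + 4)! := by
  induction k with
  | zero => decide
  | succ k ih =>
    have e1 : 2 * (k + 1) + 4 = (2 * k + 4) + 1 + 1 := by ring
    rw [e1, Nat.factorial_succ (2 * k + 4 + 1), Nat.factorial_succ (2 * k + 4),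
      Nat.factorial_succ k, pow_succ, pow_succ]
    have h1 : (k + 1) * k ! * (2 ^ (2 * k + 4) * 2 * 2) = (4 * (k + 1)) * (k ! * 2 ^ (2 * k + 4)) := by
      ring
    have h0 : (2 * k + 4 + 1 + 1) * ((2 * k + 4 + 1) * (2 * k + 4)!) =
        ((2 * k + 4 + 1 + 1) * (2 * k + 4 + 1)) * (2 * k + 4)! := by ring
    rw [h1, h0]
    have h2 : 4 * (k + 1) ≤ (2 * k + 4 + 1 + 1) * (2 * k + 4 + 1) := by nlinarith
    calc (4 * (k + 1)) * (k ! * 2 ^ (2 * k + 4)) < (4 * (k + 1)) * (2 * k + 4)! :=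
          Nat.mul_lt_mul_of_pos_left ih (by omega)
      _ ≤ ((2 * k + 4 + 1 + 1) * (2 * k + 4 + 1)) * (2 * k + 4)! := Nat.mul_le_mul_right _ h2

/-- the arithmetic of factorials -/
theorem arith (k m : ℕ) : k ! * 2 ^ (2 * k + 4 + m) < (2 * k + 4 + m)! := by
  induction m with
  | zero => exact base k
  | succ m ih =>
    rw [← add_assoc, Nat.factorial_succ (2 * k + 4 + m), pow_succ]
    calc k ! * (2 ^ (2 * k + 4 + m) * 2) = 2 * (k ! * 2 ^ (2 * k + 4 + m)) := by ring
      _ < 2 * (2 * k + 4 + m)! := Nat.mul_lt_mul_of_pos_left ih (by omega)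
      _ ≤ (2 * k + 4 + m + 1) * (2 * k + 4 + m)! := Nat.mul_le_mul_right _ (by omega)

theorem arith' {k n : ℕ} (h : 2 * k + 4 ≤ n) : k ! * 2 ^ n < n ! := by
  obtain ⟨m, rfl⟩ := Nat.exists_eq_add_of_le h
  exact arith k m

end IRR

theorem t_IRR : M_IRR := by
  intro hORD hDICH hISO d k Γ _ _ X _ G u q hk hW g p hup hpq i hpi hiq
  rcases Nat.eq_or_lt_of_le hpi with rfl | hlt
  · exact G.D_le_Y g p
  · rcases hDICH d k Γ X G u q hW p hup (by omega) g with h | h
    · exact h i hlt hiq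
    · exfalso
      have h1 := hISO d k Γ X G u q hW p hup (by omega) g h
      have hq := hW.hq
      have h2 := hORD d k Γ X G p q (by omega) (by omega)
      have e : q - p + 1 = q + 1 - p := by omega
      rw [e] at h2
      have h3 : k ! * 2 ^ (q + 1 - p) < (q + 1 - p)! := IRR.arith' (by omega)
      omega

end FOK
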