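import Pool.Agent.FOK.Stmts2
import Pool.Agent.FO2.R3A
import Pool.Agent.FO2.R3B
import Pool.Agent.FO2.R3C

/-!
# Module AD: section 7.2 of the paper, types `A` and `D` in a subspace

The root system `Φ` in the subspace `I` is transported to `E n` by a linear isometry `T` of `E n`
onto `I`, and the classification of the two-orbit case is applied there.
-/

namespace FOK

open Lib_helper64.FO FO2
open scoped RealInnerProductSpace

noncomputable section

namespace AD

variable {d n : ℕ}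

/-- an isometry of `E n` onto a subspace of dimension `n` -/
theorem exists_iso (I : Submodule ℝ (E d)) (hn : Module.finrank ℝ I = n) :
    ∃ T : E n →ₗᵢ[ℝ] E d, ∀ x, x ∈ I ↔ ∃ y, T y = x := by
  let b : OrthonormalBasis (Fin n) ℝ I := (stdOrthonormalBasis ℝ I).reindex (finCongr hn)
  refine ⟨I.subtypeₗᵢ.comp b.repr.symm.toLinearIsometry, fun x => ⟨fun hx => ?_, ?_⟩⟩
  · refine ⟨b.repr ⟨x, hx⟩, ?_⟩
    simp
  · rintro ⟨y, rfl⟩
    simp

theorem map_sref' (T : E n →ₗᵢ[ℝ] E d) (a v : E n) : T (sref a v) = sref (T a) (T v) := by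
  simp only [sref, map_sub, map_smul, LinearIsometry.inner_map_map]

variable {I : Submodule ℝ (E d)} {𝒢 : Subgroup (E d ≃ₗᵢ[ℝ] E d)} {Φ : Set (E d)}

/-- the root system spans `I` -/
theorem span_eq (h : Hom d I 𝒢 Φ) : Submodule.span ℝ Φ = I := by
  rcases h.irr (Submodule.span ℝ Φ) (Submodule.span_le.2 h.sub) (by
    intro g hg w hw
    induction hw using Submodule.span_induction with
    | mem x hx => exact Submodule.subset_span (h.inv g hg x hx)
    | zero => rw [map_zero]; exact zero_mem _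
    | add x y _ _ hx hy => rw [map_add]; exact add_mem hx hy
    | smul a x _ hx => rw [map_smul]; exact Submodule.smul_mem _ _ hx) with h1 | h1
  · exfalso
    obtain ⟨a, ha⟩ := h.rs.ne
    have h2 : a ∈ Submodule.span ℝ Φ := Submodule.subset_span ha
    rw [h1, Submodule.mem_bot] at h2
    have h3 := h.rs.norm a ha
    rw [h2, norm_zero] at h3
    exact zero_ne_one h3
  · exact h1

variable {T : E n →ₗᵢ[ℝ] E d} (hT : ∀ x, x ∈ I ↔ ∃ y, T y = x)

include hT

theorem exists_pre (h : Hom d I 𝒢 Φ) {a : E d} (ha : a ∈ Φ) : ∃ y ∈ T ⁻¹' Φ, T y = a := by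
  obtain ⟨y, rfl⟩ := (hT a).1 (h.sub ha)
  exact ⟨y, ha, rfl⟩

theorem isRS (h : Hom d I 𝒢 Φ) : IsRS (T ⁻¹' Φ) where
  fin := h.rs.fin.preimage T.injective.injOn
  ne := by
    obtain ⟨a, ha⟩ := h.rs.ne
    obtain ⟨y, hy, _⟩ := exists_pre hT h ha
    exact ⟨y, hy⟩
  norm := fun a ha => by
    rw [← T.norm_map a]
    exact h.rs.norm _ ha
  refl := fun a ha b hb => by
    show T (sref a b) ∈ Φ
    rw [map_sref']
    exact h.rs.refl _ ha _ hb

theorem irrRS (h : Hom d I 𝒢 Φ) (hi : IrrRS Φ) : IrrRS (T ⁻¹' Φ) := by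
  intro L hL
  have key : ∀ a : E n, T a ∈ (L.map T.toLinearMap)ᗮ ↔ a ∈ Lᗮ := by
    intro a
    rw [Submodule.mem_orthogonal, Submodule.mem_orthogonal]
    constructor
    · intro h1 u hu
      have h2 := h1 (T u) (Submodule.mem_map_of_mem (f := T.toLinearMap) hu)
      rwa [LinearIsometry.inner_map_map] at h2
    · rintro h1 _ ⟨u, hu, rfl⟩
      have h2 := h1 u hu
      rw [← LinearIsometry.inner_map_map T] at h2
      exact h2
  have key2 : ∀ a : E n, T a ∈ L.map T.toLinearMap ↔ a ∈ L := by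
    intro a
    constructor
    · rintro ⟨u, hu, h1⟩
      have h2 : u = a := T.injective h1
      rw [← h2]
      exact hu
    · intro h1
      exact Submodule.mem_map_of_mem (f := T.toLinearMap) h1
  rcases hi (L.map T.toLinearMap) (by
    intro a ha
    obtain ⟨y, hy, rfl⟩ := exists_pre hT h ha
    rcases hL y hy with h1 | h1
    · exact Or.inl ((key2 y).2 h1)
    · exact Or.inr ((key y).2 h1)) with h1 | h1
  · exact Or.inl fun a ha => (key2 a).1 (h1 _ ha)
  · exact Or.inr fun a ha => (key a).1 (h1 _ ha)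

theorem span_top (h : Hom d I 𝒢 Φ) : Submodule.span ℝ (T ⁻¹' Φ) = ⊤ := by
  have h1 : (Submodule.span ℝ (T ⁻¹' Φ)).map T.toLinearMap = I := by
    rw [Submodule.map_span, ← span_eq h]
    congr 1
    ext x
    constructor
    · rintro ⟨y, hy, rfl⟩
      exact hy
    · intro hx
      obtain ⟨y, hy, rfl⟩ := exists_pre hT h hx
      exact ⟨y, hy, rfl⟩
  rw [eq_top_iff]
  intro y _
  have h2 : T y ∈ I := (hT _).2 ⟨y, rfl⟩
  rw [← h1] at h2
  obtain ⟨z, hz, h3⟩ := h2
  have h4 : z = y := T.injective h3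
  rw [← h4]
  exact hz

omit hT in
theorem sl (hs : SL Φ) : SL (T ⁻¹' Φ) := by
  intro a ha b hb
  have h1 := hs _ ha _ hb
  rw [LinearIsometry.inner_map_map] at h1
  rcases h1 with h1 | h1 | h1 | h1 | h1
  · exact Or.inl h1
  · exact Or.inr (Or.inl h1)
  · exact Or.inr (Or.inr (Or.inl h1))
  · exact Or.inr (Or.inr (Or.inr (Or.inl (T.injective h1))))
  · refine Or.inr (Or.inr (Or.inr (Or.inr (T.injective ?_))))
    rw [h1, map_neg]

theorem modA (h : Hom d I 𝒢 Φ) {v : Fin (n + 1) → E n} (hv : IsA (T ⁻¹' Φ) v) :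
    ModA d n I Φ (fun i => T (v i)) where
  mem := fun i => (hT _).2 ⟨_, rfl⟩
  gram := fun i j => by
    rw [LinearIsometry.inner_map_map]
    exact hv.1 i j
  iff := fun a => by
    constructor
    · intro ha
      obtain ⟨y, hy, rfl⟩ := exists_pre hT h ha
      obtain ⟨i, j, hij, t, ht, h1, h2⟩ := (hv.2 y).1 hy
      refine ⟨i, j, hij, t, ht, ?_, ?_⟩
      · rw [T.norm_map, h1]
      · conv_lhs => rw [h2]
        rw [map_smul, map_sub]
    · rintro ⟨i, j, hij, t, ht, h1, h2⟩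
      have h3 : a = T (t • (v i - v j)) := by rw [h2, map_smul, map_sub]
      rw [h3]
      refine (hv.2 _).2 ⟨i, j, hij, t, ht, ?_, rfl⟩
      rw [h3, T.norm_map] at h1
      exact h1

theorem modD (h : Hom d I 𝒢 Φ) {u : OrthonormalBasis (Fin n) ℝ (E n)} (hu : IsD (T ⁻¹' Φ) u) :
    ModD d n I Φ (fun i => T (u i)) where
  mem := fun i => (hT _).2 ⟨_, rfl⟩
  orth := u.orthonormal.comp_linearIsometry T
  iff := fun a => by
    have key : ∀ (i j : Fin n) (s t : ℤˣ),
        T ((1 / √2 : ℝ) • (sg s • u i + sg t • u j)) =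
          (1 / √2 : ℝ) • (sg s • T (u i) + sg t • T (u j)) := by
      intro i j s t
      rw [map_smul, map_add, map_smul, map_smul]
    constructor
    · intro ha
      obtain ⟨y, hy, rfl⟩ := exists_pre hT h ha
      obtain ⟨i, j, hij, s, t, h1⟩ := (hu y).1 hy
      exact ⟨i, j, hij, s, t, by rw [← key, ← h1]⟩
    · rintro ⟨i, j, hij, s, t, h1⟩
      rw [h1, ← key]
      exact (hu _).2 ⟨i, j, hij, s, t, rfl⟩

end AD

open AD in
theorem t_AD : S_AD := by
  intro d n I 𝒢 Φ h hn h9 hi hs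
  obtain ⟨T, hT⟩ := exists_iso I hn
  have h1 := isRS hT h
  have h2 := irrRS hT h hi
  have h3 := span_top hT h
  have h4 : SL (T ⁻¹' Φ) := sl hs
  by_cases h5 : HasD4 (T ⁻¹' Φ)
  · right
    obtain ⟨m, u, hm, hu, hc⟩ := rg3b n _ h1 h4 h5
    obtain ⟨u, hu⟩ := rg3c n _ h9 h1 h2 h3 h4 m u hm hu hc
    exact ⟨_, modD hT h hu⟩
  · left
    obtain ⟨v, hv⟩ := rg3a n _ (by omega) h1 h2 h3 h4 h5
    exact ⟨_, modA hT h hv⟩

end

end FOK
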