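import Pool.Agent.FOK.Stmts2
import Pool.Agent.FO2.AUA
import Pool.Agent.FO2.AUD

/-!
# FOK, 7.2: automorphisms of the root systems `A_n` and `D_n` in a subspace (helper58)
-/

namespace FOK

open Lib_helper64.FO FO2
open scoped RealInnerProductSpace

noncomputable section

namespace AUT

variable {d n : ℕ} {I : Submodule ℝ (E d)}

/-- an isometry of `I` with `E n` -/
def iso (hI : Module.finrank ℝ I = n) : I ≃ₗᵢ[ℝ] E n :=
  ((stdOrthonormalBasis ℝ I).reindex (finCongr hI)).repr

/-- the restriction of `h` to `I`, as an isometry -/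
def res (h : E d ≃ₗᵢ[ℝ] E d) (hp : ∀ w ∈ I, h w ∈ I) : I →ₗᵢ[ℝ] I where
  toFun w := ⟨h w, hp w w.2⟩
  map_add' x y := Subtype.ext (by simp)
  map_smul' c x := Subtype.ext (by simp)
  norm_map' x := h.norm_map x

/-- the transported isometry -/
def tr (hI : Module.finrank ℝ I = n) (h : E d ≃ₗᵢ[ℝ] E d) (hp : ∀ w ∈ I, h w ∈ I) :
    E n ≃ₗᵢ[ℝ] E n :=
  (((iso hI).toLinearIsometry.comp (res h hp)).comp
    (iso hI).symm.toLinearIsometry).toLinearIsometryEquiv rfl

theorem tr_apply (hI : Module.finrank ℝ I = n) (h : E d ≃ₗᵢ[ℝ] E d) (hp : ∀ w ∈ I, h w ∈ I)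
    (x : E n) : tr hI h hp x = iso hI ⟨h ((iso hI).symm x), hp _ ((iso hI).symm x).2⟩ := rfl

theorem tr_iso (hI : Module.finrank ℝ I = n) (h : E d ≃ₗᵢ[ℝ] E d) (hp : ∀ w ∈ I, h w ∈ I)
    (w : I) : tr hI h hp (iso hI w) = iso hI ⟨h w, hp w w.2⟩ := by
  rw [tr_apply]
  congr 1
  apply Subtype.ext
  simp only [LinearIsometryEquiv.symm_apply_apply]

/-- the transported set -/
def trS (hI : Module.finrank ℝ I = n) (Φ : Set (E d)) : Set (E n) :=
  {x | ((iso hI).symm x : E d) ∈ Φ}

theorem tr_mem (hI : Module.finrank ℝ I = n) {Φ : Set (E d)} (h : E d ≃ₗᵢ[ℝ] E d)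
    (hp : ∀ w ∈ I, h w ∈ I) (hΦ : ∀ b ∈ Φ, h b ∈ Φ) {x : E n} (hx : x ∈ trS hI Φ) :
    tr hI h hp x ∈ trS hI Φ := by
  have h1 : ((iso hI).symm x : E d) ∈ Φ := hx
  change ((iso hI).symm (tr hI h hp x) : E d) ∈ Φ
  rw [tr_apply, LinearIsometryEquiv.symm_apply_apply]
  exact hΦ _ h1

theorem symm_eq_iff (hI : Module.finrank ℝ I = n) (a : E n) (w : I) :
    ((iso hI).symm a : E d) = (w : E d) ↔ a = iso hI w := by
  constructor
  · intro h
    have h1 : (iso hI).symm a = w := Subtype.ext h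
    rw [← h1, LinearIsometryEquiv.apply_symm_apply]
  · intro h
    rw [h, LinearIsometryEquiv.symm_apply_apply]

theorem isA (hI : Module.finrank ℝ I = n) {Φ : Set (E d)} {v : Fin (n + 1) → E d}
    (hv : ModA d n I Φ v) : IsA (trS hI Φ) (fun i => iso hI ⟨v i, hv.mem i⟩) := by
  constructor
  · intro i j
    rw [LinearIsometryEquiv.inner_map_map]
    exact hv.gram i j
  · intro a
    have h1 : a ∈ trS hI Φ ↔ ((iso hI).symm a : E d) ∈ Φ := Iff.rfl
    rw [h1, hv.iff]
    refine exists_congr fun i => exists_congr fun j => and_congr_right fun _ =>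
      exists_congr fun t => and_congr_right fun _ => and_congr ?_ ?_
    · have : ‖((iso hI).symm a : E d)‖ = ‖a‖ := (iso hI).symm.norm_map a
      rw [this]
    · have h2 := symm_eq_iff hI a (t • ((⟨v i, hv.mem i⟩ : I) - ⟨v j, hv.mem j⟩))
      rw [map_smul, map_sub] at h2
      exact h2

/-- an orthonormal basis of `E n` from an orthonormal family in `I` -/
def onb (hI : Module.finrank ℝ I = n) {u : Fin n → E d} (hm : ∀ i, u i ∈ I)
    (hu : Orthonormal ℝ u) : OrthonormalBasis (Fin n) ℝ (E n) :=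
  OrthonormalBasis.mk (v := fun i => iso hI ⟨u i, hm i⟩)
    (by
      have h1 : Orthonormal ℝ (fun i => (⟨u i, hm i⟩ : I)) :=
        ⟨fun i => hu.1 i, fun i j hij => hu.2 hij⟩
      exact h1.comp_linearIsometryEquiv (iso hI))
    (by
      have h1 : Orthonormal ℝ (fun i => (⟨u i, hm i⟩ : I)) :=
        ⟨fun i => hu.1 i, fun i j hij => hu.2 hij⟩
      have h2 : Orthonormal ℝ (fun i => iso hI ⟨u i, hm i⟩) :=
        h1.comp_linearIsometryEquiv (iso hI)
      rcases Nat.eq_zero_or_pos n with h0 | h0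
      · subst h0
        haveI : Subsingleton (E 0) := inferInstance
        intro x _
        have : x = 0 := Subsingleton.elim _ _
        rw [this]
        exact zero_mem _
      · haveI : Nonempty (Fin n) := ⟨⟨0, h0⟩⟩
        have h3 := (basisOfOrthonormalOfCardEqFinrank h2 (by simp)).span_eq
        rw [coe_basisOfOrthonormalOfCardEqFinrank] at h3
        exact h3.ge)

theorem onb_apply (hI : Module.finrank ℝ I = n) {u : Fin n → E d} (hm : ∀ i, u i ∈ I)
    (hu : Orthonormal ℝ u) (i : Fin n) : onb hI hm hu i = iso hI ⟨u i, hm i⟩ := by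
  rw [onb, OrthonormalBasis.coe_mk]

theorem isD (hI : Module.finrank ℝ I = n) {Φ : Set (E d)} {u : Fin n → E d}
    (hu : ModD d n I Φ u) : IsD (trS hI Φ) (onb hI hu.mem hu.orth) := by
  intro a
  have h1 : a ∈ trS hI Φ ↔ ((iso hI).symm a : E d) ∈ Φ := Iff.rfl
  rw [h1, hu.iff]
  refine exists_congr fun i => exists_congr fun j => and_congr_right fun _ =>
    exists_congr fun s => exists_congr fun t => ?_
  rw [onb_apply, onb_apply]
  have h2 := symm_eq_iff hI a ((1 / √2 : ℝ) • (sg s • (⟨u i, hu.mem i⟩ : I) +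
    sg t • ⟨u j, hu.mem j⟩))
  rw [map_smul, map_add, map_smul, map_smul] at h2
  exact h2

end AUT

open AUT in
theorem t_AUT : S_AUT := by
  intro d n I 𝒢 Φ hH hI hn
  refine ⟨fun v hv h hh => ?_, fun u hu h hh => ?_⟩
  · have hp := hH.pres h hh
    obtain ⟨π, hπ⟩ := autA n (trS hI Φ) _ hn (isA hI hv) (tr hI h hp)
      (fun a ha => tr_mem hI h hp (hH.inv h hh) ha)
    refine ⟨π, ?_⟩
    rcases hπ with hπ | hπ
    · left
      intro i
      have h1 := hπ i
      rw [tr_iso] at h1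
      exact congrArg Subtype.val ((iso hI).injective h1)
    · right
      intro i
      have h1 := hπ i
      rw [tr_iso, ← map_neg] at h1
      exact congrArg Subtype.val ((iso hI).injective h1)
  · have hp := hH.pres h hh
    obtain ⟨π, s, hπ⟩ := autD n (trS hI Φ) _ hn (isD hI hu) (tr hI h hp)
      (fun a ha => tr_mem hI h hp (hH.inv h hh) ha)
    refine ⟨π, s, fun i => ?_⟩
    have h1 := hπ i
    rw [onb_apply, onb_apply, tr_iso, ← map_smul] at h1
    exact congrArg Subtype.val ((iso hI).injective h1)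

end

end FOK
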