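import Pool.Agent.FOK.Stmts2
import Pool.Agent.FO2.BL

/-!
# 7.1. The root system is irreducible or a frame
-/

namespace FOK

open Lib_helper64.FO FO2
open scoped RealInnerProductSpace Nat

noncomputable section

namespace COMP

open FO2.BL

variable {d : ℕ} {Φ : Set (E d)}

theorem LL_le_span (a : E d) : LL Φ a ≤ Submodule.span ℝ Φ :=
  Submodule.span_mono fun _ hb => hb.1

/-- a vector of the span of `Φ` is orthogonal to each vector which is orthogonal to all its
projections -/
theorem ortho_of_pr (hfin : Φ.Finite) {x y : E d} (hx : x ∈ Submodule.span ℝ Φ)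
    (hy : ∀ a ∈ Φ, ⟪y, pr Φ x a⟫ = (0 : ℝ)) : ⟪y, x⟫ = (0 : ℝ) := by
  classical
  set S : Finset (Submodule ℝ (E d)) := hfin.toFinset.image (LL Φ) with hS
  set z : E d := ∑ L ∈ S, L.starProjection x with hz
  have hzs : z ∈ Submodule.span ℝ Φ := by
    rw [hz]
    refine Submodule.sum_mem _ fun L hL => ?_
    rw [hS, Finset.mem_image] at hL
    obtain ⟨c, _, rfl⟩ := hL
    exact LL_le_span c (Submodule.starProjection_apply_mem _ _)
  have hzx : z = x := by
    have h1 : ∀ b ∈ Φ, ⟪b, z - x⟫ = (0 : ℝ) := by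
      intro b hb
      rw [inner_sub_right, hz, inner_sum, Finset.sum_eq_single (LL Φ b)]
      · have := inner_pr x b (self_mem hb)
        unfold pr at this
        rw [this, sub_self]
      · intro L hL hne
        rw [hS, Finset.mem_image] at hL
        obtain ⟨c, hc, rfl⟩ := hL
        have hcon : ¬ con Φ b c := fun h => hne (LL_eq h).symm
        exact LL_ortho hcon b (self_mem hb) _ (Submodule.starProjection_apply_mem _ _)
      · intro h
        exact absurd (Finset.mem_image_of_mem _ (hfin.mem_toFinset.2 hb)) h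
    have h2 : z - x ∈ (Submodule.span ℝ Φ)ᗮ := by
      rw [Submodule.mem_orthogonal]
      intro u hu
      induction hu using Submodule.span_induction with
      | mem w hw => exact h1 w hw
      | zero => exact inner_zero_left _
      | add u w _ _ h1 h2 => rw [inner_add_left, h1, h2, add_zero]
      | smul c u _ h1 => rw [inner_smul_left, h1, mul_zero]
    have h3 : (⟪z - x, z - x⟫ : ℝ) = 0 :=
      (Submodule.mem_orthogonal _ _).1 h2 _ (Submodule.sub_mem _ hzs hx)
    exact sub_eq_zero.1 (inner_self_eq_zero.1 h3)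
  rw [← hzx, hz, inner_sum]
  apply Finset.sum_eq_zero
  intro L hL
  rw [hS, Finset.mem_image] at hL
  obtain ⟨c, hc, rfl⟩ := hL
  exact hy c (hfin.mem_toFinset.1 hc)

/-- if `Φ` is not irreducible, there are two components -/
theorem two (hirr : ¬ IrrRS Φ) : ∃ a ∈ Φ, ∃ b ∈ Φ, ¬ con Φ a b := by
  by_contra hcon
  push Not at hcon
  apply hirr
  intro L hL
  by_contra hno
  push Not at hno
  obtain ⟨⟨a, ha, ha'⟩, ⟨b, hb, hb'⟩⟩ := hno
  have hbL : b ∈ L := (hL b hb).resolve_right hb'
  have key : ∀ c, con Φ b c → c ∈ L := by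
    intro c hc
    induction hc with
    | refl => exact hbL
    | tail _ h2 ih =>
        rename_i p q _
        rcases hL q h2.2.1 with h3 | h3
        · exact h3
        · exfalso
          rw [Submodule.mem_orthogonal] at h3
          exact h2.2.2 (h3 p ih)
  exact ha' (key a (hcon b hb a ha))

theorem line_smul {e v : E d} (he : ‖e‖ = 1) : ⟪v - (⟪e, v⟫ : ℝ) • e, e⟫ = (0 : ℝ) := by
  have h1 : (⟪e, e⟫ : ℝ) = 1 := by rw [real_inner_self_eq_norm_sq, he, one_pow]
  rw [inner_sub_left, inner_smul_left, h1, real_inner_comm v e]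
  simp

end COMP

open COMP FO2.BL in
/-- 7.1 -/
theorem t_COMP : S_COMP := by
  intro d I 𝒢 K Φ e hH hK hS
  by_cases hirr : IrrRS Φ
  · exact Or.inl hirr
  right
  have hΦ := hH.rs
  obtain ⟨a0, ha0⟩ := hΦ.ne
  have nz : ∀ a ∈ Φ, a ≠ 0 := by
    intro a ha e
    have := hΦ.norm a ha
    rw [e, norm_zero] at this
    exact zero_ne_one this
  have hst : ∀ h ∈ K, ∀ b ∈ Φ, h b ∈ Φ := fun h hh => hH.inv h (hK hh)
  have hsymm : ∀ h ∈ K, ∀ b ∈ Φ, h.symm b ∈ Φ := fun h hh b hb =>
    hH.inv h⁻¹ (inv_mem (hK hh)) b hb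
  have hsI : ∀ h ∈ K, ∀ b ∈ I, h.symm b ∈ I := fun h hh b hb =>
    hH.pres h⁻¹ (inv_mem (hK hh)) b hb
  -- the roots span `I`
  have hle : Submodule.span ℝ Φ ≤ I := Submodule.span_le.2 hH.sub
  have hspan : Submodule.span ℝ Φ = I := by
    have hinv : ∀ h ∈ 𝒢, ∀ v ∈ Submodule.span ℝ Φ, h v ∈ Submodule.span ℝ Φ := by
      intro h hh v hv
      induction hv using Submodule.span_induction with
      | mem w hw => exact Submodule.subset_span (hH.inv h hh w hw)
      | zero => rw [map_zero]; exact Submodule.zero_mem _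
      | add u w _ _ h1 h2 => rw [map_add]; exact Submodule.add_mem _ h1 h2
      | smul c u _ h1 => rw [map_smul]; exact Submodule.smul_mem _ _ h1
    rcases hH.irr _ hle hinv with h | h
    · exfalso
      have h1 : a0 ∈ Submodule.span ℝ Φ := Submodule.subset_span ha0
      rw [h, Submodule.mem_bot] at h1
      exact nz a0 ha0 h1
    · exact h
  have hLI : ∀ a, LL Φ a ≤ I := fun a => (LL_le_span a).trans hle
  have heS : e ∈ Submodule.span ℝ Φ := by rw [hspan]; exact hS.mem
  have he0 : e ≠ 0 := by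
    intro h
    have := hS.norm
    rw [h, norm_zero] at this
    exact zero_ne_one this
  have hee : (⟪e, e⟫ : ℝ) = 1 := by rw [real_inner_self_eq_norm_sq, hS.norm, one_pow]
  have memU : ∀ v, v ∈ I ⊓ (ℝ ∙ e)ᗮ ↔ v ∈ I ∧ ⟪v, e⟫ = (0 : ℝ) := by
    intro v
    rw [Submodule.mem_inf, Submodule.mem_orthogonal_singleton_iff_inner_left]
  -- two components
  have htwo := two hirr
  -- `B`
  set B : Submodule ℝ (E d) :=
    { carrier := {y | y ∈ I ∧ ∀ a ∈ Φ, ⟪y, pr Φ e a⟫ = (0 : ℝ)}
      add_mem' := by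
        intro u v hu hv
        refine ⟨I.add_mem hu.1 hv.1, fun a ha => ?_⟩
        rw [inner_add_left, hu.2 a ha, hv.2 a ha, add_zero]
      zero_mem' := by
        refine ⟨I.zero_mem, fun a _ => ?_⟩
        exact inner_zero_left _
      smul_mem' := by
        intro c u hu
        refine ⟨I.smul_mem c hu.1, fun a ha => ?_⟩
        rw [inner_smul_left, hu.2 a ha, mul_zero] } with hB
  have memB : ∀ y, y ∈ B ↔ y ∈ I ∧ ∀ a ∈ Φ, ⟪y, pr Φ e a⟫ = (0 : ℝ) := fun y => Iff.rfl
  have hBU : B ≤ I ⊓ (ℝ ∙ e)ᗮ := by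
    intro y hy
    rw [memU]
    exact ⟨((memB y).1 hy).1, ortho_of_pr hΦ.fin heS ((memB y).1 hy).2⟩
  have hBst : ∀ h ∈ K, ∀ v ∈ B, h v ∈ B := by
    intro h hh v hv
    rw [memB] at hv ⊢
    refine ⟨hS.pres h hh v hv.1, ?_⟩
    intro a ha
    have h1 := pr_map h (hst h hh) (hsymm h hh) (hS.fix h hh) (h.symm a)
    rw [LinearIsometryEquiv.apply_symm_apply] at h1
    rw [← h1, LinearIsometryEquiv.inner_map_map]
    exact hv.2 _ (hsymm h hh a ha)
  rcases hS.irr B hBU hBst with hBot | hTop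
  · -- `B = ⊥`
    have key : ∀ a ∈ Φ, ∀ v ∈ LL Φ a, ⟪v, pr Φ e a⟫ = (0 : ℝ) → v = 0 := by
      intro a ha v hv h0
      have : v ∈ B := by
        rw [memB]
        refine ⟨hLI a hv, ?_⟩
        intro b hb
        by_cases hc : con Φ a b
        · have e : pr Φ e b = pr Φ e a := by simp only [pr, LL_eq hc]
          rw [e, h0]
        · exact LL_ortho hc v hv _ (pr_mem _ _)
      rw [hBot, Submodule.mem_bot] at this
      exact this
    have hne : ∀ a ∈ Φ, ⟪a, e⟫ ≠ (0 : ℝ) := by
      intro a ha h0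
      rw [← inner_pr e a (self_mem ha)] at h0
      exact nz a ha (key a ha a (self_mem ha) h0)
    apply frame_of_line hΦ
    intro a ha b hb
    have hna : (⟪a, pr Φ e a⟫ : ℝ) ≠ 0 := by
      rw [inner_pr e a (self_mem ha)]
      exact hne a ha
    refine ⟨⟪b, pr Φ e a⟫ / ⟪a, pr Φ e a⟫, ?_⟩
    rw [← sub_eq_zero]
    apply key a ha
    · exact Submodule.sub_mem _ hb (Submodule.smul_mem _ _ (self_mem ha))
    · rw [inner_sub_left, inner_smul_left]
      simp only [conj_trivial]
      rw [div_mul_cancel₀ _ hna, sub_self]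
  · -- `B = I ⊓ eᗮ`
    have hprV : ∀ a ∈ Φ, ∃ c : ℝ, pr Φ e a = c • e := by
      intro a ha
      refine ⟨⟪e, pr Φ e a⟫, ?_⟩
      have hpI : pr Φ e a ∈ I := hLI a (pr_mem _ _)
      have h1 := line_smul (v := pr Φ e a) hS.norm
      have h2 : pr Φ e a - (⟪e, pr Φ e a⟫ : ℝ) • e ∈ B := by
        rw [hTop, memU]
        exact ⟨I.sub_mem hpI (I.smul_mem _ hS.mem), h1⟩
      have h3 := ((memB _).1 h2).2 a ha
      have h4 : (⟪pr Φ e a - (⟪e, pr Φ e a⟫ : ℝ) • e,
          pr Φ e a - (⟪e, pr Φ e a⟫ : ℝ) • e⟫ : ℝ) = 0 := by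
        rw [inner_sub_right, h3, inner_smul_right, h1, mul_zero, sub_zero]
      exact sub_eq_zero.1 (inner_self_eq_zero.1 h4)
    -- a component whose span contains `e`
    obtain ⟨a1, ha1, hxa1⟩ : ∃ a ∈ Φ, e ∈ LL Φ a := by
      by_contra hno
      push Not at hno
      have h0 : ∀ a ∈ Φ, pr Φ e a = 0 := by
        intro a ha
        obtain ⟨c, hc⟩ := hprV a ha
        by_cases hc0 : c = 0
        · rw [hc, hc0, zero_smul]
        · exfalso
          apply hno a ha
          have h2 := pr_mem (Φ := Φ) e a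
          rw [hc] at h2
          have h3 := Submodule.smul_mem _ c⁻¹ h2
          rwa [inv_smul_smul₀ hc0] at h3
      have h1 : (⟪e, e⟫ : ℝ) = 0 := by
        apply ortho_of_pr hΦ.fin heS
        intro a ha
        rw [h0 a ha, inner_zero_right]
      exact he0 (inner_self_eq_zero.1 h1)
    -- its orthogonal complement
    have hLU : I ⊓ (LL Φ a1)ᗮ ≤ I ⊓ (ℝ ∙ e)ᗮ := by
      intro v hv
      rw [memU]
      rw [Submodule.mem_inf, Submodule.mem_orthogonal'] at hv
      exact ⟨hv.1, hv.2 _ hxa1⟩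
    have hsame : ∀ h ∈ K, con Φ a1 (h a1) := by
      intro h hh
      by_contra hcon
      have h1 : e ∈ LL Φ (h a1) := by
        have := LL_map h (hst h hh) _ hxa1
        rwa [hS.fix h hh] at this
      exact he0 (inner_self_eq_zero.1 (LL_ortho hcon _ hxa1 _ h1))
    have hLst : ∀ h ∈ K, ∀ v ∈ I ⊓ (LL Φ a1)ᗮ, h v ∈ I ⊓ (LL Φ a1)ᗮ := by
      intro h hh v hv
      refine ⟨hS.pres h hh v hv.1, ?_⟩
      have hv2 := (Submodule.mem_orthogonal _ _).1 hv.2
      rw [SetLike.mem_coe, Submodule.mem_orthogonal]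
      intro u hu
      have h1 : h.symm u ∈ LL Φ a1 := by
        rw [LL_eq (hsame h hh)] at hu
        have := LL_map h.symm (hsymm h hh) _ hu
        rwa [LinearIsometryEquiv.symm_apply_apply] at this
      have h2 := hv2 _ h1
      rw [← LinearIsometryEquiv.inner_map_map h, LinearIsometryEquiv.apply_symm_apply] at h2
      exact h2
    have hline1 : ∀ b ∈ LL Φ a1, ∃ c : ℝ, b = c • e := by
      intro b hb
      rcases hS.irr _ hLU hLst with h | h
      · exfalso
        obtain ⟨a, ha, b, hb, hab⟩ := htwo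
        have : ∀ c ∈ Φ, con Φ a1 c := by
          intro c hc
          by_contra hcon
          have h1 : c ∈ I ⊓ (LL Φ a1)ᗮ := by
            refine ⟨hH.sub hc, ?_⟩
            rw [SetLike.mem_coe, Submodule.mem_orthogonal]
            intro u hu
            exact LL_ortho hcon u hu c (self_mem hc)
          rw [h, Submodule.mem_bot] at h1
          exact nz c hc h1
        exact hab (con_trans (con_symm (this a ha)) (this b hb))
      · refine ⟨⟪e, b⟫, ?_⟩
        have h1 := line_smul (v := b) hS.norm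
        have h2 : b - (⟪e, b⟫ : ℝ) • e ∈ I ⊓ (LL Φ a1)ᗮ := by
          rw [h, memU]
          exact ⟨I.sub_mem (hLI a1 hb) (I.smul_mem _ hS.mem), h1⟩
        have h3 := (Submodule.mem_orthogonal _ _).1 h2.2 _
          (Submodule.sub_mem _ hb (Submodule.smul_mem _ (⟪e, b⟫ : ℝ) hxa1))
        exact sub_eq_zero.1 (inner_self_eq_zero.1 h3)
    have hline2 : ∀ b ∈ LL Φ a1, ∃ c : ℝ, b = c • a1 := by
      intro b hb
      obtain ⟨c, hc⟩ := hline1 b hb
      obtain ⟨c', hc'⟩ := hline1 a1 (self_mem ha1)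
      have hc0 : c' ≠ 0 := by
        intro h
        rw [h, zero_smul] at hc'
        exact nz a1 ha1 hc'
      refine ⟨c * c'⁻¹, ?_⟩
      rw [hc, hc', smul_smul, mul_assoc, inv_mul_cancel₀ hc0, mul_one]
    apply frame_of_line hΦ
    intro a ha b hb
    obtain ⟨h, hh, hha⟩ := hH.trans a ha a1 ha1
    have h1 : h b ∈ LL Φ a1 := by
      have h2 := LL_map h (hH.inv h hh) _ hb
      rcases hha with h3 | h3
      · rwa [h3] at h2
      · rw [h3] at h2
        have h4 : con Φ a1 (-a1) := by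
          refine Relation.ReflTransGen.single ⟨ha1, hΦ.neg_mem ha1, ?_⟩
          rw [inner_neg_right, hΦ.inner_self ha1]
          norm_num
        rwa [LL_eq h4]
    obtain ⟨c, hc⟩ := hline2 _ h1
    rcases hha with h3 | h3
    · refine ⟨c, ?_⟩
      apply h.injective
      rw [map_smul, h3, hc]
    · refine ⟨-c, ?_⟩
      apply h.injective
      rw [map_smul, h3, hc]
      simp

end

end FOK
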