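import Pool.Agent.FOK.Stmts1

/-!
# Statements of the modules, part 2: sections 7 - 9 of the paper
-/

namespace FOK

open Lib_helper64.FO FO2
open scoped RealInnerProductSpace Nat

noncomputable section

/-! ## Section 7: root systems in a subspace -/

/-- the group `𝒢` acts irreducibly on the subspace `I` -/
def Irred {d : ℕ} (𝒢 : Subgroup (E d ≃ₗᵢ[ℝ] E d)) (I : Submodule ℝ (E d)) : Prop :=
  ∀ B ≤ I, (∀ h ∈ 𝒢, ∀ w ∈ B, h w ∈ B) → B = ⊥ ∨ B = I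

/-- the assumptions of 7.1 -/
structure Hom (d : ℕ) (I : Submodule ℝ (E d)) (𝒢 : Subgroup (E d ≃ₗᵢ[ℝ] E d))
    (Φ : Set (E d)) : Prop where
  pres : ∀ h ∈ 𝒢, ∀ w ∈ I, h w ∈ I
  irr : Irred 𝒢 I
  rs : IsRS Φ
  sub : Φ ⊆ (I : Set (E d))
  inv : ∀ h ∈ 𝒢, ∀ b ∈ Φ, h b ∈ Φ
  trans : ∀ b ∈ Φ, ∀ c ∈ Φ, ∃ h ∈ 𝒢, h b = c ∨ h b = -c

/-- the assumptions on the stabiliser `K` of `e` -/
structure Stb (d : ℕ) (I : Submodule ℝ (E d)) (K : Subgroup (E d ≃ₗᵢ[ℝ] E d)) (e : E d) :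
    Prop where
  mem : e ∈ I
  norm : ‖e‖ = 1
  fix : ∀ h ∈ K, h e = e
  pres : ∀ h ∈ K, ∀ w ∈ I, h w ∈ I
  irr : Irred K (I ⊓ (ℝ ∙ e)ᗮ)

/-- 7.1 -/
def S_COMP : Prop :=
  ∀ (d : ℕ) (I : Submodule ℝ (E d)) (𝒢 K : Subgroup (E d ≃ₗᵢ[ℝ] E d)) (Φ : Set (E d)) (e : E d),
    Hom d I 𝒢 Φ → K ≤ 𝒢 → Stb d I K e → IrrRS Φ ∨ FrameRS Φ

/-- type `A_n` in the subspace `I` of dimension `n` -/
structure ModA (d n : ℕ) (I : Submodule ℝ (E d)) (Φ : Set (E d)) (v : Fin (n + 1) → E d) :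
    Prop where
  mem : ∀ i, v i ∈ I
  gram : ∀ i j, ⟪v i, v j⟫ = if i = j then (1 : ℝ) else -1 / n
  iff : ∀ a : E d, a ∈ Φ ↔ ∃ i j, i ≠ j ∧ ∃ t : ℝ, 0 < t ∧ ‖a‖ = 1 ∧ a = t • (v i - v j)

/-- type `D_n` -/
structure ModD (d n : ℕ) (I : Submodule ℝ (E d)) (Φ : Set (E d)) (u : Fin n → E d) : Prop where
  mem : ∀ i, u i ∈ I
  orth : Orthonormal ℝ u
  iff : ∀ a : E d, a ∈ Φ ↔ ∃ i j, i ≠ j ∧ ∃ s t : ℤˣ, a = (1 / √2 : ℝ) • (sg s • u i + sg t • u j)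

/-- a frame -/
structure ModF (d n : ℕ) (I : Submodule ℝ (E d)) (Φ : Set (E d)) (u : Fin n → E d) : Prop where
  mem : ∀ i, u i ∈ I
  orth : Orthonormal ℝ u
  iff : ∀ a : E d, a ∈ Φ ↔ ∃ i, a = u i ∨ a = -u i

/-- `±` permutations of the `v i` -/
def PermA {d n : ℕ} (𝒢 : Subgroup (E d ≃ₗᵢ[ℝ] E d)) (v : Fin (n + 1) → E d) : Prop :=
  ∀ h ∈ 𝒢, ∃ π : Equiv.Perm (Fin (n + 1)), (∀ i, h (v i) = v (π i)) ∨ (∀ i, h (v i) = -v (π i))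

/-- signed permutations of the `u i` -/
def PermD {d n : ℕ} (𝒢 : Subgroup (E d ≃ₗᵢ[ℝ] E d)) (u : Fin n → E d) : Prop :=
  ∀ h ∈ 𝒢, ∃ (π : Equiv.Perm (Fin n)) (s : Fin n → ℤˣ), ∀ i, h (u i) = sg (s i) • u (π i)

/-- simply laced: from FO2.rg1 (`rga`, `rgb`, `rgc`, `rgd`) by an isometry of `I` with `E n` -/
def S_SL : Prop :=
  ∀ (d n : ℕ) (I : Submodule ℝ (E d)) (𝒢 : Subgroup (E d ≃ₗᵢ[ℝ] E d)) (Φ : Set (E d)),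
    Hom d I 𝒢 Φ → Module.finrank ℝ I = n → 5 ≤ n → IrrRS Φ → SL Φ

/-- classification: from FO2.rg3a, rg3b, rg3c by an isometry of `I` with `E n` -/
def S_AD : Prop :=
  ∀ (d n : ℕ) (I : Submodule ℝ (E d)) (𝒢 : Subgroup (E d ≃ₗᵢ[ℝ] E d)) (Φ : Set (E d)),
    Hom d I 𝒢 Φ → Module.finrank ℝ I = n → 9 ≤ n → IrrRS Φ → SL Φ →
    (∃ v, ModA d n I Φ v) ∨ ∃ u, ModD d n I Φ u

/-- automorphisms: from FO2.autA, autD by an isometry of `I` with `E n` -/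
def S_AUT : Prop :=
  ∀ (d n : ℕ) (I : Submodule ℝ (E d)) (𝒢 : Subgroup (E d ≃ₗᵢ[ℝ] E d)) (Φ : Set (E d)),
    Hom d I 𝒢 Φ → Module.finrank ℝ I = n → 5 ≤ n →
    (∀ v, ModA d n I Φ v → PermA 𝒢 v) ∧ ∀ u, ModD d n I Φ u → PermD 𝒢 u

/-- a frame root system -/
def S_FR : Prop :=
  ∀ (d n : ℕ) (I : Submodule ℝ (E d)) (𝒢 : Subgroup (E d ≃ₗᵢ[ℝ] E d)) (Φ : Set (E d)),
    Hom d I 𝒢 Φ → Module.finrank ℝ I = n → FrameRS Φ → ∃ u, ModF d n I Φ u ∧ PermD 𝒢 u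

/-- 7.3, type `A` -/
def S_VECA : Prop :=
  ∀ (d n : ℕ) (I : Submodule ℝ (E d)) (K : Subgroup (E d ≃ₗᵢ[ℝ] E d)) (v : Fin (n + 1) → E d)
    (e : E d), 3 ≤ n → Module.finrank ℝ I = n → (∀ i, v i ∈ I) →
    (∀ i j, ⟪v i, v j⟫ = if i = j then (1 : ℝ) else -1 / n) → PermA K v → Stb d I K e →
    (∃ i, e = v i ∨ e = -v i) ∨
      ∃ (B : Finset (Fin (n + 1))) (c : ℝ), 2 * B.card = n + 1 ∧ e = c • ∑ i ∈ B, v i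

/-- 7.3, type `D` and frames -/
def S_VECD : Prop :=
  ∀ (d n : ℕ) (I : Submodule ℝ (E d)) (K : Subgroup (E d ≃ₗᵢ[ℝ] E d)) (u : Fin n → E d)
    (e : E d), 3 ≤ n → Module.finrank ℝ I = n → (∀ i, u i ∈ I) → Orthonormal ℝ u →
    PermD K u → Stb d I K e → (∃ i, e = u i ∨ e = -u i) ∨ ∀ i, ⟪e, u i⟫ ^ 2 = (1 / n : ℝ)

/-! ### 7.4 - 7.6 -/

/-- `κ` is the isometry of 6.1 -/
def IsKap {d k : ℕ} {Γ : Type} [Group Γ] {X : Type} [MulAction Γ X] (G : KGeo d k Γ X)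
    (q j1 : ℕ) (g : Γ) (l : ℕ) (κ : E d ≃ₗᵢ[ℝ] E d) (ε : ℝ) : Prop :=
  IsK G g l κ ε ∧ (∀ y ∈ G.XX q j1, G.F g (G.ρ l • y) = κ (G.F g y)) ∧
    ∀ w ∈ G.S q g j1, κ w ∈ G.S q g j1

/-- the isometries of `N_p` -/
def KK {d k : ℕ} {Γ : Type} [Group Γ] {X : Type} [MulAction Γ X] (G : KGeo d k Γ X) (g : Γ)
    (p : ℕ) : Subgroup (E d ≃ₗᵢ[ℝ] E d) :=
  Subgroup.closure {h | ∃ n ∈ G.Ni p, G.R g n = h}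

/-- the group of 7.4 -/
def GG {d k : ℕ} {Γ : Type} [Group Γ] {X : Type} [MulAction Γ X] (G : KGeo d k Γ X)
    (q j1 j2 : ℕ) (g : Γ) : Subgroup (E d ≃ₗᵢ[ℝ] E d) :=
  Subgroup.closure ({h | ∃ n ∈ G.Ni j1, G.R g n = h} ∪
    {h | ∃ l, j1 ≤ l ∧ l + 2 ≤ j2 ∧ ∃ ε, IsKap G q j1 g l h ε} ∪ {LinearIsometryEquiv.neg ℝ})

/-- `KK` is irreducible on `Y`, and satisfies `Stb` for a unit vector of `D_p` -/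
def S_KK : Prop :=
  ∀ (d k : ℕ) (Γ : Type) [Group Γ] [Finite Γ] (X : Type) [MulAction Γ X] (G : KGeo d k Γ X)
    (u q j1 j2 : ℕ), 1 ≤ k → Sub G u q j1 j2 → ∀ g p, j1 ≤ p → p ≤ j2 →
    (∀ h, h ∈ KK G g p ↔ ∃ n ∈ G.Ni p, G.R g n = h) ∧
    (∀ h ∈ KK G g p, ∀ w ∈ G.Y g p, h w ∈ G.Y g p) ∧ Irred (KK G g p) (G.Y g p) ∧
    (p < j2 → ∀ e ∈ G.D g p, ‖e‖ = 1 → Stb d (G.Y g p) (KK G g (p + 1)) e ∧
      G.Y g p ⊓ (ℝ ∙ e)ᗮ = G.Y g (p + 1))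

def M_KK : Prop := S_Y → S_KK

/-- 7.4, first part: the root system `Φ` in `Y_{j1}` -/
def S_E0 : Prop :=
  ∀ (d k : ℕ) (Γ : Type) [Group Γ] [Finite Γ] (X : Type) [MulAction Γ X] (G : KGeo d k Γ X)
    (u q j1 j2 : ℕ), 1 ≤ k → Sub G u q j1 j2 → ∀ g, ∃ (a : E d) (Φ : Set (E d)),
    ‖a‖ = 1 ∧ a ∈ Φ ∧ a ∈ G.D g j1 ⊔ G.D g (j1 + 1) ∧ a ∉ G.D g j1 ∧ a ∉ G.D g (j1 + 1) ∧
    KK G g (j1 + 1) ≤ GG G q j1 j2 g ∧ Hom d (G.Y g j1) (GG G q j1 j2 g) Φ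

def M_E0 : Prop := S_Y → S_PL → S_KK → S_E0

/-- what we want to know about `κ_l` -/
structure RootAt {d k : ℕ} {Γ : Type} [Group Γ] {X : Type} [MulAction Γ X] (G : KGeo d k Γ X)
    (q j1 : ℕ) (g : Γ) (l : ℕ) (a : E d) : Prop where
  norm : ‖a‖ = 1
  mem : a ∈ G.D g l ⊔ G.D g (l + 1)
  n1 : a ∉ G.D g l
  n2 : a ∉ G.D g (l + 1)
  act : ∀ y ∈ G.XX q j1, G.F g (G.ρ l • y) = sref a (G.F g y)

/-- all `l` in `[b, j2 - 2]` have a root in the frame `g` -/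
def RootsFrom {d k : ℕ} {Γ : Type} [Group Γ] {X : Type} [MulAction Γ X] (G : KGeo d k Γ X)
    (q j1 j2 b : ℕ) (g : Γ) : Prop :=
  (∀ l, b ≤ l → l + 2 ≤ j2 → ∃ a, RootAt G q j1 g l a) ∧
    ∀ l a a', b ≤ l → l + 3 ≤ j2 → RootAt G q j1 g l a → RootAt G q j1 g (l + 1) a' →
      ⟪a, a'⟫ ^ 2 = (1 / 4 : ℝ)

/-- case (II) of 7.4 -/
def CaseII {d k : ℕ} {Γ : Type} [Group Γ] {X : Type} [MulAction Γ X] (G : KGeo d k Γ X)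
    (q j1 j2 : ℕ) (g : Γ) : Prop :=
  ∃ e : ℕ → E d, (∀ l, j1 ≤ l → l + 1 ≤ j2 → e l ∈ G.D g l ∧ ‖e l‖ = 1) ∧
    ∀ l, j1 ≤ l → l + 2 ≤ j2 → ∃ κ ε, IsKap G q j1 g l κ ε ∧ κ (e l) = e (l + 1) ∧
      κ (e (l + 1)) = e l

/-- 7.4, type `A`, the vector `e ∈ D_{j1}` is not of the form `(1^m, -1^m)` -/
def S_EA0 : Prop :=
  ∀ (d k : ℕ) (Γ : Type) [Group Γ] [Finite Γ] (X : Type) [MulAction Γ X] (G : KGeo d k Γ X)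
    (u q j1 j2 : ℕ), 1 ≤ k → Sub G u q j1 j2 → ∀ g (a e : E d) (Φ : Set (E d)) (n : ℕ)
    (v : Fin (n + 1) → E d), Module.finrank ℝ (G.Y g j1) = n → a ∈ Φ →
    a ∈ G.D g j1 ⊔ G.D g (j1 + 1) → a ∉ G.D g j1 → a ∉ G.D g (j1 + 1) →
    ModA d n (G.Y g j1) Φ v → PermA (GG G q j1 j2 g) v → e ∈ G.D g j1 → ‖e‖ = 1 →
    ∀ (B : Finset (Fin (n + 1))) (c : ℝ), 2 * B.card = n + 1 → e ≠ c • ∑ i ∈ B, v i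

def M_EA0 : Prop := S_PL → S_KK → S_EA0

/-- 7.4, case (I), type `A` -/
def S_EA : Prop :=
  ∀ (d k : ℕ) (Γ : Type) [Group Γ] [Finite Γ] (X : Type) [MulAction Γ X] (G : KGeo d k Γ X)
    (u q j1 j2 : ℕ), 1 ≤ k → Sub G u q j1 j2 → ∀ g (e : E d) (n : ℕ)
    (v : Fin (n + 1) → E d), Module.finrank ℝ (G.Y g j1) = n → (∀ i, v i ∈ G.Y g j1) →
    (∀ i j, ⟪v i, v j⟫ = if i = j then (1 : ℝ) else -1 / n) → PermA (GG G q j1 j2 g) v →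
    e ∈ G.D g j1 → (∃ i, e = v i ∨ e = -v i) → RootsFrom G q j1 j2 (j1 + 1) g

def M_EA : Prop := S_PL → S_EA

/-- 7.4, case (I), type `D` and frames -/
def S_ED : Prop :=
  ∀ (d k : ℕ) (Γ : Type) [Group Γ] [Finite Γ] (X : Type) [MulAction Γ X] (G : KGeo d k Γ X)
    (u q j1 j2 : ℕ), 1 ≤ k → Sub G u q j1 j2 → ∀ g (e : E d) (n : ℕ)
    (w : Fin n → E d), Module.finrank ℝ (G.Y g j1) = n → (∀ i, w i ∈ G.Y g j1) →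
    Orthonormal ℝ w → PermD (GG G q j1 j2 g) w →
    e ∈ G.D g j1 → ‖e‖ = 1 → (∀ i, ⟪e, w i⟫ ^ 2 = (1 / n : ℝ)) → RootsFrom G q j1 j2 (j1 + 1) g

def M_ED : Prop := S_PL → S_ED

/-- 7.4, case (II) -/
def S_EX : Prop :=
  ∀ (d k : ℕ) (Γ : Type) [Group Γ] [Finite Γ] (X : Type) [MulAction Γ X] (G : KGeo d k Γ X)
    (u q j1 j2 : ℕ), 1 ≤ k → Sub G u q j1 j2 → ∀ g (e : E d) (n : ℕ)
    (w : Fin n → E d), Module.finrank ℝ (G.Y g j1) = n → (∀ i, w i ∈ G.Y g j1) →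
    Orthonormal ℝ w → PermD (GG G q j1 j2 g) w →
    e ∈ G.D g j1 → (∃ i, e = w i ∨ e = -w i) → CaseII G q j1 j2 g

def M_EX : Prop := S_PL → S_EX

/-- 7.5 -/
def S_EP : Prop :=
  ∀ (d k : ℕ) (Γ : Type) [Group Γ] [Finite Γ] (X : Type) [MulAction Γ X] (G : KGeo d k Γ X)
    (u q j1 j2 : ℕ), 1 ≤ k → Sub G u q j1 j2 → ∀ g, CaseII G q j1 j2 g →
    RootsFrom G q j1 j2 (j1 + 2) g

def M_EP : Prop := S_PL → S_EP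

/-- 7.6 -/
def S_RUN : Prop :=
  ∀ (d k : ℕ) (Γ : Type) [Group Γ] [Finite Γ] (X : Type) [MulAction Γ X] (G : KGeo d k Γ X)
    (u q j1 j2 : ℕ), 1 ≤ k → Sub G u q j1 j2 → ∀ g, RootsFrom G q j1 j2 (j1 + 2) g

def M_RUN : Prop := S_COMP → S_SL → S_AD → S_AUT → S_FR → S_VECA → S_VECD → S_KK → S_E0 → S_EA0 →
  S_EA → S_ED → S_EX → S_EP → S_RUN

/-! ## Section 8 -/

/-- 8.1 -/
def S_N1 : Prop :=
  ∀ (d k : ℕ) (Γ : Type) [Group Γ] [Finite Γ] (X : Type) [MulAction Γ X] (G : KGeo d k Γ X)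
    (u q j1 j2 : ℕ), 1 ≤ k → Sub G u q j1 j2 → (∀ g, RootsFrom G q j1 j2 (j1 + 2) g) →
    (∀ l, j1 + 2 ≤ l → l + 3 ≤ j2 → (G.ρ l * G.ρ (l + 1)) ^ 3 = 1) ∧
    ∀ l l', j1 + 2 ≤ l → l + 2 ≤ j2 → j1 + 2 ≤ l' → l' + 2 ≤ j2 → G.ρ l * G.ρ l' ∈ G.N

/-- a finite set of linear maps of an `m`-dimensional space, closed under products, with squares `1` -/
def S_ELEM : Prop :=
  ∀ (m : ℕ) (W : Type) [AddCommGroup W] [Module ℝ W] [FiniteDimensional ℝ W] (𝒯 : Set (W →ₗ[ℝ] W)),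
    Module.finrank ℝ W = m → (∀ s ∈ 𝒯, ∀ t ∈ 𝒯, s * t ∈ 𝒯) → (∀ t ∈ 𝒯, t * t = 1) →
    𝒯.Finite ∧ 𝒯.ncard ≤ 2 ^ m

/-- 8.2 -/
def S_N2 : Prop :=
  ∀ (d k : ℕ) (Γ : Type) [Group Γ] [Finite Γ] (X : Type) [MulAction Γ X] (G : KGeo d k Γ X)
    (u q j1 j2 : ℕ), 1 ≤ k → Sub G u q j1 j2 →
    (∀ l, j1 + 2 ≤ l → l + 3 ≤ j2 → (G.ρ l * G.ρ (l + 1)) ^ 3 = 1) →
    (∀ l l', j1 + 2 ≤ l → l + 2 ≤ j2 → j1 + 2 ≤ l' → l' + 2 ≤ j2 → G.ρ l * G.ρ l' ∈ G.N) →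
    ∀ l l', j1 + 2 ≤ l → l + 2 ≤ j2 → j1 + 2 ≤ l' → l' + 2 ≤ j2 →
      ∀ g, ∀ w ∈ (G.S q g j1)ᗮ, G.R g (G.ρ l * G.ρ l') w = w

def M_N2 : Prop := S_ELEM → S_N2

/-- 8.3 -/
def S_N3 : Prop :=
  ∀ (d k : ℕ) (Γ : Type) [Group Γ] [Finite Γ] (X : Type) [MulAction Γ X] (G : KGeo d k Γ X)
    (u q j1 j2 : ℕ), 1 ≤ k → Sub G u q j1 j2 →
    ∀ g l i a a', j1 + 2 ≤ l → l + 2 ≤ j2 → (i + 2 ≤ l ∨ l + 2 ≤ i) → RootAt G q j1 g l a →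
      RootAt G q j1 (g * G.ρ i) l a' → a' = a ∨ a' = -a

/-- 8.4 -/
def S_N4 : Prop :=
  ∀ (d k : ℕ) (Γ : Type) [Group Γ] [Finite Γ] (X : Type) [MulAction Γ X] (G : KGeo d k Γ X)
    (u q j1 j2 : ℕ), 1 ≤ k → Sub G u q j1 j2 → (∀ g, RootsFrom G q j1 j2 (j1 + 2) g) →
    ∀ l, j1 + 2 ≤ l → l + 2 ≤ j2 → G.ρ l ∈ G.N ∧
      ∀ g a, RootAt G q j1 g l a → ∀ v, G.R g (G.ρ l) v = sref a v

def M_N4 : Prop := S_N1 → S_N2 → S_N3 → S_N4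

/-! ## Section 9 -/

/-- the conjugates of `ρ l` under `up i` -/
def TT {d k : ℕ} {Γ : Type} [Group Γ] {X : Type} [MulAction Γ X] (G : KGeo d k Γ X)
    (i l : ℕ) : Set Γ := {x | ∃ γ ∈ G.up i, x = γ * G.ρ l * γ⁻¹}

/-- the roots of these elements in the frame `g` -/
def Ph {d k : ℕ} {Γ : Type} [Group Γ] {X : Type} [MulAction Γ X] (G : KGeo d k Γ X)
    (g : Γ) (i l : ℕ) : Set (E d) := {a | ‖a‖ = 1 ∧ ∃ x ∈ TT G i l, ∀ v, G.R g x v = sref a v}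

/-- the data of section 9 for the index `m` -/
structure Nine {d k : ℕ} {Γ : Type} [Group Γ] {X : Type} [MulAction Γ X] (G : KGeo d k Γ X)
    (m : ℕ) : Prop where
  hm : 2 ≤ m
  TN : TT G m m ⊆ G.Ni m
  N0 : G.ρ (m - 1) ∈ G.N
  root0 : ∀ g, ∃ a ∈ G.D g (m - 1) ⊔ G.D g m, ∀ v, G.R g (G.ρ (m - 1)) v = sref a v
  root : ∀ g, ∀ x ∈ TT G m m, ∃ a ∈ Ph G g m m, ∀ v, G.R g x v = sref a v
  sub : ∀ g, Ph G g m m ⊆ (G.Y g m : Set (E d))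
  span : ∀ g, Submodule.span ℝ (Ph G g m m) = G.Y g m
  rs : ∀ g, IsRS (Ph G g m m)
  irr : ∀ g, IrrRS (Ph G g m m)
  sl : ∀ g, SL (Ph G g m m)
  /-- the fixed space of the conjugates of `ρ (m + 1)` under `up (m + 1)` in `Y_m` is `D_m` -/
  next : TT G (m + 1) (m + 1) ⊆ TT G m m
  fixD : ∀ g, ∀ w ∈ G.Y g m, (∀ x ∈ TT G (m + 1) (m + 1), G.R g x w = w) → w ∈ G.D g m
  Dfix : ∀ g, ∀ w ∈ G.D g m, ∀ x ∈ TT G (m + 1) (m + 1), G.R g x w = w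
  DY : ∀ g, G.D g m ≤ G.Y g m
  VY : ∀ g, G.V g m ≤ (G.Y g m)ᗮ
  line : ∀ g, Module.finrank ℝ (G.D g m) = 1

def S_NINE : Prop :=
  ∀ (d k : ℕ) (Γ : Type) [Group Γ] [Finite Γ] (X : Type) [MulAction Γ X] (G : KGeo d k Γ X)
    (u q j1 j2 : ℕ), 1 ≤ k → Sub G u q j1 j2 → (∀ g, RootsFrom G q j1 j2 (j1 + 2) g) →
    (∀ l, j1 + 2 ≤ l → l + 3 ≤ j2 → (G.ρ l * G.ρ (l + 1)) ^ 3 = 1) →
    (∀ l, j1 + 2 ≤ l → l + 2 ≤ j2 → G.ρ l ∈ G.N ∧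
      ∀ g a, RootAt G q j1 g l a → ∀ v, G.R g (G.ρ l) v = sref a v) →
    ∀ m, j1 + 3 ≤ m → m ≤ j1 + 5 → Nine G m

def M_NINE : Prop := S_COMP → S_SL → S_KK → S_PL → S_NINE

/-- `β` is the isometry of 9.1 -/
structure IsBeta {d k : ℕ} {Γ : Type} [Group Γ] {X : Type} [MulAction Γ X] (G : KGeo d k Γ X)
    (g : Γ) (m : ℕ) (γ : Γ) (β : E d ≃ₗᵢ[ℝ] E d) : Prop where
  out : ∀ v ∈ (G.Y g m)ᗮ, β v = v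
  D : ∀ v ∈ G.D g m, β v = v
  conj : ∀ x ∈ TT G m m, ∀ v, β (G.R g x v) = G.R g (γ * x * γ⁻¹) (β v)

/-- 9.1 -/
def S_BET : Prop :=
  ∀ (d k : ℕ) (Γ : Type) [Group Γ] [Finite Γ] (X : Type) [MulAction Γ X] (G : KGeo d k Γ X)
    (m : ℕ), Nine G m →
    (∀ g, ∀ γ ∈ G.up (m + 1), ∃ β, IsBeta G g m γ β) ∧
    (∀ g γ β β', IsBeta G g m γ β → IsBeta G g m γ β' → β = β') ∧
    (∀ g γ γ' β β', γ' ∈ G.up m → IsBeta G g m γ β → IsBeta G g m γ' β' →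
      IsBeta G g m (γ * γ') (β * β')) ∧
    ∀ g γ i β, γ ∈ G.up m → i + 2 ≤ m → IsBeta G g m γ β → IsBeta G (g * G.ρ i) m γ β

/-- 9.2 -/
def S_FS : Prop :=
  ∀ (d k : ℕ) (Γ : Type) [Group Γ] [Finite Γ] (X : Type) [MulAction Γ X] (G : KGeo d k Γ X)
    (m : ℕ), Nine G m → G.up (m + 1) ≤ G.N

def M_FS : Prop := S_BET → S_FS

end

end FOK
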