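import Mathlib
import Pool.Agent.FOK.Stmts2

/-!
# Elementary abelian groups of linear maps (MP_0bb2d9_co, section 8.2)
-/

set_option autoImplicit false

namespace FOK

namespace ELEM

variable {W : Type} [AddCommGroup W] [Module ℝ W]

/-- the restriction of `s` to a submodule, `0` if there is none -/
noncomputable def rs (P : Submodule ℝ W) (s : W →ₗ[ℝ] W) : P →ₗ[ℝ] P :=
  open Classical in
  if h : ∃ u : P →ₗ[ℝ] P, ∀ x : P, ((u x : P) : W) = s x then h.choose else 0

theorem rs_apply (P : Submodule ℝ W) (s : W →ₗ[ℝ] W) (h : ∀ x ∈ P, s x ∈ P) (x : P) :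
    ((rs P s x : P) : W) = s x := by
  have h1 : ∃ u : P →ₗ[ℝ] P, ∀ x : P, ((u x : P) : W) = s x :=
    ⟨s.restrict h, fun x => by rw [LinearMap.restrict_apply]⟩
  unfold rs
  rw [dif_pos h1]
  exact h1.choose_spec x

theorem comm {T : Set (W →ₗ[ℝ] W)} (h1 : ∀ s ∈ T, ∀ t ∈ T, s * t ∈ T)
    (h2 : ∀ t ∈ T, t * t = 1) {s t : W →ₗ[ℝ] W} (hs : s ∈ T) (ht : t ∈ T) : s * t = t * s := by
  have h3 := h2 _ (h1 s hs t ht)
  have h4 : (t * s) * (s * t) = 1 := by
    calc (t * s) * (s * t) = t * (s * s) * t := by simp only [mul_assoc]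
      _ = 1 := by rw [h2 s hs, mul_one, h2 t ht]
  calc s * t = (t * s) * (s * t) * (s * t) := by rw [h4, one_mul]
    _ = (t * s) * ((s * t) * (s * t)) := by rw [mul_assoc (t * s)]
    _ = t * s := by rw [h3, mul_one]

/-- the restricted set -/
def RT (P : Submodule ℝ W) (T : Set (W →ₗ[ℝ] W)) : Set (P →ₗ[ℝ] P) :=
  {u | ∃ s ∈ T, ∀ x : P, ((u x : P) : W) = s x}

theorem RT_mul {P : Submodule ℝ W} {T : Set (W →ₗ[ℝ] W)} (h1 : ∀ s ∈ T, ∀ t ∈ T, s * t ∈ T) :
    ∀ s ∈ RT P T, ∀ t ∈ RT P T, s * t ∈ RT P T := by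
  rintro u ⟨s, hs, h⟩ v ⟨t, ht, h'⟩
  refine ⟨s * t, h1 s hs t ht, fun x => ?_⟩
  rw [Module.End.mul_apply, Module.End.mul_apply, h, h']

theorem RT_sq {P : Submodule ℝ W} {T : Set (W →ₗ[ℝ] W)} (h2 : ∀ t ∈ T, t * t = 1) :
    ∀ t ∈ RT P T, t * t = 1 := by
  rintro u ⟨s, hs, h⟩
  ext x
  rw [Module.End.mul_apply, h, h, Module.End.one_apply]
  have := LinearMap.congr_fun (h2 s hs) (x : W)
  simpa using this

theorem main (n : ℕ) : ∀ (W : Type) [AddCommGroup W] [Module ℝ W] [FiniteDimensional ℝ W]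
    (T : Set (W →ₗ[ℝ] W)), Module.finrank ℝ W ≤ n → (∀ s ∈ T, ∀ t ∈ T, s * t ∈ T) →
    (∀ t ∈ T, t * t = 1) → T.Finite ∧ T.ncard ≤ 2 ^ Module.finrank ℝ W := by
  induction n with
  | zero =>
    intro W _ _ _ T hW h1 h2
    have hW0 : Module.finrank ℝ W = 0 := by omega
    have hs : Subsingleton W := Module.finrank_zero_iff.1 hW0
    have h3 : T ⊆ {0} := by
      intro t _
      rw [Set.mem_singleton_iff]
      ext x
      exact Subsingleton.elim _ _
    refine ⟨(Set.finite_singleton _).subset h3, ?_⟩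
    rw [hW0, pow_zero]
    exact (Set.ncard_le_ncard h3 (Set.finite_singleton _)).trans (by rw [Set.ncard_singleton])
  | succ n ih =>
    intro W _ _ _ T hW h1 h2
    by_cases hsc : ∀ t ∈ T, t = 1 ∨ t = -1
    · by_cases hW0 : Module.finrank ℝ W = 0
      · have hs : Subsingleton W := Module.finrank_zero_iff.1 hW0
        have h3 : T ⊆ {0} := by
          intro t _
          rw [Set.mem_singleton_iff]
          ext x
          exact Subsingleton.elim _ _
        refine ⟨(Set.finite_singleton _).subset h3, ?_⟩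
        rw [hW0, pow_zero]
        exact (Set.ncard_le_ncard h3 (Set.finite_singleton _)).trans (by rw [Set.ncard_singleton])
      · have h3 : T ⊆ {1, -1} := by
          intro t ht
          simpa using hsc t ht
        have hfin : ({1, -1} : Set (W →ₗ[ℝ] W)).Finite := (Set.finite_singleton _).insert _
        refine ⟨hfin.subset h3, ?_⟩
        calc T.ncard ≤ ({1, -1} : Set (W →ₗ[ℝ] W)).ncard := Set.ncard_le_ncard h3 hfin
          _ ≤ 2 := by
            refine (Set.ncard_insert_le _ _).trans ?_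
            rw [Set.ncard_singleton]
          _ = 2 ^ 1 := (pow_one 2).symm
          _ ≤ 2 ^ Module.finrank ℝ W := Nat.pow_le_pow_right (by norm_num) (by omega)
    · push Not at hsc
      obtain ⟨t, ht, ht1, ht2⟩ := hsc
      set P : Submodule ℝ W := LinearMap.ker (t - 1) with hP
      set Q : Submodule ℝ W := LinearMap.ker (t + 1) with hQ
      have mP : ∀ x, x ∈ P ↔ t x = x := by
        intro x
        rw [hP, LinearMap.mem_ker, LinearMap.sub_apply, Module.End.one_apply, sub_eq_zero]
      have mQ : ∀ x, x ∈ Q ↔ t x = -x := by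
        intro x
        rw [hQ, LinearMap.mem_ker, LinearMap.add_apply, Module.End.one_apply, add_eq_zero_iff_eq_neg]
      have htt : ∀ x, t (t x) = x := by
        intro x
        have := LinearMap.congr_fun (h2 t ht) x
        simpa using this
      have hcompl : IsCompl P Q := by
        refine IsCompl.of_eq ?_ ?_
        · rw [Submodule.eq_bot_iff]
          intro x hx
          obtain ⟨hx1, hx2⟩ := Submodule.mem_inf.1 hx
          have h3 : x = -x := ((mP x).1 hx1).symm.trans ((mQ x).1 hx2)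
          have h4 : (2 : ℝ) • x = 0 := by
            rw [two_smul]
            nth_rewrite 2 [h3]
            exact add_neg_cancel x
          exact (smul_eq_zero.1 h4).resolve_left two_ne_zero
        · rw [eq_top_iff]
          intro x _
          rw [Submodule.mem_sup]
          refine ⟨(1 / 2 : ℝ) • (x + t x), ?_, (1 / 2 : ℝ) • (x - t x), ?_, ?_⟩
          · rw [mP, map_smul, map_add, htt, add_comm]
          · rw [mQ, map_smul, map_sub, htt, ← smul_neg, neg_sub]
          · rw [← smul_add, add_add_sub_cancel, ← two_smul ℝ x, smul_smul]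
            norm_num
      have hst : ∀ s ∈ T, ∀ x, s (t x) = t (s x) := by
        intro s hs x
        have := LinearMap.congr_fun (comm h1 h2 hs ht) x
        simpa using this
      have sP : ∀ s ∈ T, ∀ x ∈ P, s x ∈ P := by
        intro s hs x hx
        rw [mP] at hx ⊢
        rw [← hst s hs, hx]
      have sQ : ∀ s ∈ T, ∀ x ∈ Q, s x ∈ Q := by
        intro s hs x hx
        rw [mQ] at hx ⊢
        rw [← hst s hs, hx, map_neg]
      have hrk : Module.finrank ℝ P + Module.finrank ℝ Q = Module.finrank ℝ W :=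
        Submodule.finrank_add_eq_of_isCompl hcompl
      have hPtop : P ≠ ⊤ := by
        intro h
        apply ht1
        ext x
        have : x ∈ P := by rw [h]; exact Submodule.mem_top
        rw [(mP x).1 this, Module.End.one_apply]
      have hQtop : Q ≠ ⊤ := by
        intro h
        apply ht2
        ext x
        have : x ∈ Q := by rw [h]; exact Submodule.mem_top
        rw [(mQ x).1 this, LinearMap.neg_apply, Module.End.one_apply]
      have hP' : Module.finrank ℝ P < Module.finrank ℝ W := Submodule.finrank_lt hPtop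
      have hQ' : Module.finrank ℝ Q < Module.finrank ℝ W := Submodule.finrank_lt hQtop
      obtain ⟨fP, cP⟩ := ih P (RT P T) (by omega) (RT_mul h1) (RT_sq h2)
      obtain ⟨fQ, cQ⟩ := ih Q (RT Q T) (by omega) (RT_mul h1) (RT_sq h2)
      have hfin : (RT P T ×ˢ RT Q T).Finite := fP.prod fQ
      have hmap : ∀ s ∈ T, (rs P s, rs Q s) ∈ RT P T ×ˢ RT Q T := by
        intro s hs
        exact ⟨⟨s, hs, rs_apply P s (sP s hs)⟩, ⟨s, hs, rs_apply Q s (sQ s hs)⟩⟩
      have hinj : Set.InjOn (fun s => (rs P s, rs Q s)) T := by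
        intro s hs s' hs' he
        obtain ⟨e1, e2⟩ := Prod.ext_iff.1 he
        simp only at e1 e2
        ext x
        have hx : x ∈ P ⊔ Q := by rw [hcompl.sup_eq_top]; exact Submodule.mem_top
        obtain ⟨y, hy, z, hz, rfl⟩ := Submodule.mem_sup.1 hx
        have h3 : s y = s' y := by
          have a1 := rs_apply P s (sP s hs) ⟨y, hy⟩
          have a2 := rs_apply P s' (sP s' hs') ⟨y, hy⟩
          rw [← a1, ← a2, e1]
        have h4 : s z = s' z := by
          have a1 := rs_apply Q s (sQ s hs) ⟨z, hz⟩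
          have a2 := rs_apply Q s' (sQ s' hs') ⟨z, hz⟩
          rw [← a1, ← a2, e2]
        rw [map_add, map_add, h3, h4]
      refine ⟨Set.Finite.of_injOn hmap hinj hfin, ?_⟩
      calc T.ncard ≤ (RT P T ×ˢ RT Q T).ncard := Set.ncard_le_ncard_of_injOn _ hmap hinj hfin
        _ = (RT P T).ncard * (RT Q T).ncard := Set.ncard_prod
        _ ≤ 2 ^ Module.finrank ℝ P * 2 ^ Module.finrank ℝ Q := Nat.mul_le_mul cP cQ
        _ = 2 ^ Module.finrank ℝ W := by rw [← pow_add, hrk]

end ELEM

theorem t_ELEM : S_ELEM := by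
  intro m W _ _ _ T hm h1 h2
  obtain ⟨h3, h4⟩ := ELEM.main (Module.finrank ℝ W) W T le_rfl h1 h2
  exact ⟨h3, hm ▸ h4⟩

end FOK
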