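import Pool.Agent.FOK.Stmts2

/-!
# `S_FR`: a frame root system gives an orthonormal basis of `I` and signed permutations
-/

namespace FOK

open Lib_helper64.FO FO2
open scoped RealInnerProductSpace

namespace FR

variable {d : ℕ}

theorem neg_mem {Φ : Set (E d)} (h : IsRS Φ) {a : E d} (ha : a ∈ Φ) : -a ∈ Φ := by
  have h1 := h.refl a ha a ha
  rwa [sref_self (h.norm a ha)] at h1

/-- the relation `a = ± b` on `Φ` -/
def rel (Φ : Set (E d)) : Setoid Φ where
  r a b := (a : E d) = b ∨ (a : E d) = -b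
  iseqv := by
    refine ⟨fun a => Or.inl rfl, ?_, ?_⟩
    · rintro a b (h | h)
      · exact Or.inl h.symm
      · exact Or.inr (by rw [h, neg_neg])
    · rintro a b c (h | h) (h' | h')
      · exact Or.inl (h.trans h')
      · exact Or.inr (h.trans h')
      · exact Or.inr (by rw [h, h'])
      · exact Or.inl (by rw [h, h', neg_neg])

/-- the representative of a class -/
noncomputable def rep (Φ : Set (E d)) (q : Quotient (rel Φ)) : E d := (Quotient.out q : Φ)

theorem rep_mem (Φ : Set (E d)) (q : Quotient (rel Φ)) : rep Φ q ∈ Φ := (Quotient.out q : Φ).2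

theorem rep_orth {Φ : Set (E d)} (h : IsRS Φ) (hF : FrameRS Φ) : Orthonormal ℝ (rep Φ) := by
  refine ⟨fun q => h.norm _ (rep_mem Φ q), ?_⟩
  intro p q hpq
  rcases hF _ (rep_mem Φ p) _ (rep_mem Φ q) with h1 | h1
  · exact h1
  · exfalso
    apply hpq
    have h2 : (rel Φ).r (Quotient.out p) (Quotient.out q) := h1
    have h3 := Quotient.sound (s := rel Φ) h2
    rwa [Quotient.out_eq, Quotient.out_eq] at h3

theorem exists_rep {Φ : Set (E d)} {a : E d} (ha : a ∈ Φ) : ∃ q, a = rep Φ q ∨ a = -rep Φ q := by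
  refine ⟨Quotient.mk (rel Φ) ⟨a, ha⟩, ?_⟩
  have h1 : (rel Φ).r (Quotient.out (Quotient.mk (rel Φ) ⟨a, ha⟩)) ⟨a, ha⟩ :=
    Quotient.mk_out (s := rel Φ) ⟨a, ha⟩
  have h2 := (rel Φ).iseqv.symm h1
  exact h2

theorem span_eq {I : Submodule ℝ (E d)} {𝒢 : Subgroup (E d ≃ₗᵢ[ℝ] E d)} {Φ : Set (E d)}
    (H : Hom d I 𝒢 Φ) : Submodule.span ℝ Φ = I := by
  have h1 : Submodule.span ℝ Φ ≤ I := Submodule.span_le.2 H.sub
  rcases H.irr (Submodule.span ℝ Φ) h1 (by
    intro h hh w hw
    induction hw using Submodule.span_induction with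
    | mem x hx => exact Submodule.subset_span (H.inv h hh x hx)
    | zero => rw [map_zero]; exact zero_mem _
    | add x y _ _ hx hy => rw [map_add]; exact add_mem hx hy
    | smul c x _ hx => rw [map_smul]; exact Submodule.smul_mem _ c hx) with h2 | h2
  · exfalso
    obtain ⟨a, ha⟩ := H.rs.ne
    have h3 : a ∈ Submodule.span ℝ Φ := Submodule.subset_span ha
    rw [h2, Submodule.mem_bot] at h3
    have h4 := H.rs.norm a ha
    rw [h3, norm_zero] at h4
    exact zero_ne_one h4
  · exact h2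

end FR

theorem t_FR : S_FR := by
  intro d n I 𝒢 Φ H hn hF
  have : Finite Φ := H.rs.fin
  have : Finite (Quotient (FR.rel Φ)) := Quotient.finite _
  have : Fintype (Quotient (FR.rel Φ)) := Fintype.ofFinite _
  have ho := FR.rep_orth H.rs hF
  have hsp : Submodule.span ℝ (Set.range (FR.rep Φ)) = I := by
    rw [← FR.span_eq H]
    apply le_antisymm
    · apply Submodule.span_mono
      rintro _ ⟨q, rfl⟩
      exact FR.rep_mem Φ q
    · rw [Submodule.span_le]
      intro a ha
      obtain ⟨q, h1 | h1⟩ := FR.exists_rep ha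
      · rw [h1]
        exact Submodule.subset_span ⟨q, rfl⟩
      · rw [h1]
        exact neg_mem (Submodule.subset_span ⟨q, rfl⟩)
  have hcard : Fintype.card (Quotient (FR.rel Φ)) = n := by
    have h1 := finrank_span_eq_card ho.linearIndependent
    rw [hsp, hn] at h1
    exact h1.symm
  have e : Fin n ≃ Quotient (FR.rel Φ) := (Fintype.equivFinOfCardEq hcard).symm
  have hmem : ∀ i, FR.rep Φ (e i) ∈ Φ := fun i => FR.rep_mem Φ (e i)
  have horth : Orthonormal ℝ (fun i => FR.rep Φ (e i)) := ho.comp e e.injective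
  have hiff : ∀ a : E d, a ∈ Φ ↔ ∃ i, a = FR.rep Φ (e i) ∨ a = -FR.rep Φ (e i) := by
    intro a
    constructor
    · intro ha
      obtain ⟨q, hq⟩ := FR.exists_rep ha
      refine ⟨e.symm q, ?_⟩
      rw [Equiv.apply_symm_apply]
      exact hq
    · rintro ⟨i, h1 | h1⟩
      · rw [h1]; exact hmem i
      · rw [h1]; exact FR.neg_mem H.rs (hmem i)
  refine ⟨fun i => FR.rep Φ (e i), ⟨fun i => H.sub (hmem i), horth, hiff⟩, ?_⟩
  intro h hh
  have h1 : ∀ i, ∃ j, ∃ t : ℤˣ, h (FR.rep Φ (e i)) = sg t • FR.rep Φ (e j) := by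
    intro i
    obtain ⟨j, h2 | h2⟩ := (hiff _).1 (H.inv h hh _ (hmem i))
    · exact ⟨j, 1, by rw [h2]; simp [Lib_helper64.FO.sg]⟩
    · exact ⟨j, -1, by rw [h2]; simp [Lib_helper64.FO.sg]⟩
  choose π s hs using h1
  have hinj : Function.Injective π := by
    intro i i' hii
    by_contra hne
    have h3 : ⟪FR.rep Φ (e i), FR.rep Φ (e i')⟫ = (0 : ℝ) := horth.2 hne
    rw [← LinearIsometryEquiv.inner_map_map h, hs i, hs i', hii, real_inner_smul_left,
      real_inner_smul_right, real_inner_self_eq_norm_sq, horth.1 (π i')] at h3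
    have h4 : ∀ t : ℤˣ, Lib_helper64.FO.sg t ≠ 0 := by
      intro t
      rcases Int.units_eq_one_or t with rfl | rfl <;> simp [Lib_helper64.FO.sg]
    have h5 := h4 (s i)
    have h6 := h4 (s i')
    simp [h5, h6] at h3
  refine ⟨Equiv.ofBijective π (Finite.injective_iff_bijective.1 hinj), s, fun i => hs i⟩

end FOK
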