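import Pool.Agent.FOK.AUT
import Pool.Agent.FO2.Asm
import Pool.Agent.FO2.RGA
import Pool.Agent.FO2.RGB
import Pool.Agent.FO2.RGC
import Pool.Agent.FO2.RGD

/-!
# FOK, 7.2: irreducible homogeneous root systems in a subspace are simply laced (helper93)
-/

namespace FOK

open Lib_helper64.FO FO2
open scoped RealInnerProductSpace

noncomputable section

namespace SL

open AUT

variable {d n : ℕ} {I : Submodule ℝ (E d)}

/-- membership in the transported set of the image of a vector of `I` -/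
theorem mem_trS (hI : Module.finrank ℝ I = n) {Φ : Set (E d)} (w : I) :
    iso hI w ∈ trS hI Φ ↔ (w : E d) ∈ Φ := by
  change ((iso hI).symm (iso hI w) : E d) ∈ Φ ↔ _
  rw [LinearIsometryEquiv.symm_apply_apply]

theorem inner_symm (hI : Module.finrank ℝ I = n) (x y : E n) :
    ⟪((iso hI).symm x : E d), ((iso hI).symm y : E d)⟫ = ⟪x, y⟫ := by
  rw [← Submodule.coe_inner]
  exact (iso hI).symm.inner_map_map x y

theorem sref_symm (hI : Module.finrank ℝ I = n) (x y : E n) :
    ((iso hI).symm (sref x y) : E d) = sref ((iso hI).symm x : E d) ((iso hI).symm y : E d) := by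
  simp only [sref]
  rw [inner_symm, map_sub, map_smul]
  rfl

theorem isRS (hI : Module.finrank ℝ I = n) {Φ : Set (E d)} (h : IsRS Φ)
    (hs : Φ ⊆ (I : Set (E d))) : IsRS (trS hI Φ) := by
  refine ⟨?_, ?_, ?_, ?_⟩
  · have hinj : Function.Injective (fun x : E n => ((iso hI).symm x : E d)) :=
      Subtype.val_injective.comp (iso hI).symm.injective
    exact Set.Finite.preimage hinj.injOn h.fin
  · obtain ⟨a, ha⟩ := h.ne
    exact ⟨iso hI ⟨a, hs ha⟩, (mem_trS hI _).2 ha⟩
  · intro x hx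
    have h1 : ‖((iso hI).symm x : E d)‖ = 1 := h.norm _ hx
    have h2 : ‖((iso hI).symm x : E d)‖ = ‖x‖ := (iso hI).symm.norm_map x
    rw [← h2, h1]
  · intro x hx y hy
    change ((iso hI).symm (sref x y) : E d) ∈ Φ
    rw [sref_symm]
    exact h.refl _ hx _ hy

/-- the subspace of `E d` corresponding to a subspace of `E n` -/
def bk (hI : Module.finrank ℝ I = n) (L : Submodule ℝ (E n)) : Submodule ℝ (E d) :=
  (L.map (iso hI).symm.toLinearEquiv.toLinearMap).map I.subtype

theorem mem_bk (hI : Module.finrank ℝ I = n) (L : Submodule ℝ (E n)) (w : I) :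
    (w : E d) ∈ bk hI L ↔ iso hI w ∈ L := by
  constructor
  · intro h
    obtain ⟨w', ⟨x, hx, hxw⟩, hw⟩ := h
    have h1 : w' = w := Subtype.ext hw
    have h2 : (iso hI).symm x = w := by rw [← h1, ← hxw]; rfl
    rw [← h2, LinearIsometryEquiv.apply_symm_apply]
    exact hx
  · intro h
    exact ⟨w, ⟨iso hI w, h, LinearIsometryEquiv.symm_apply_apply _ _⟩, rfl⟩

theorem mem_bk_orth (hI : Module.finrank ℝ I = n) (L : Submodule ℝ (E n)) (w : I) :
    (w : E d) ∈ (bk hI L)ᗮ ↔ iso hI w ∈ Lᗮ := by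
  rw [Submodule.mem_orthogonal, Submodule.mem_orthogonal]
  constructor
  · intro h x hx
    have h1 := h ((iso hI).symm x : E d) ((mem_bk hI L _).2 (by
      rw [LinearIsometryEquiv.apply_symm_apply]; exact hx))
    have h2 : ⟪((iso hI).symm x : E d), (w : E d)⟫ = ⟪x, iso hI w⟫ := by
      have := inner_symm hI x (iso hI w)
      rw [LinearIsometryEquiv.symm_apply_apply] at this
      exact this
    rw [← h2, h1]
  · rintro h _ ⟨w', ⟨x, hx, hxw⟩, rfl⟩
    have h1 := h x hx
    have h2 : ⟪((iso hI).symm x : E d), (w : E d)⟫ = ⟪x, iso hI w⟫ := by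
      have := inner_symm hI x (iso hI w)
      rw [LinearIsometryEquiv.symm_apply_apply] at this
      exact this
    rw [h1] at h2
    rw [← hxw]
    exact h2

theorem irrRS (hI : Module.finrank ℝ I = n) {Φ : Set (E d)} (h : IrrRS Φ)
    (hs : Φ ⊆ (I : Set (E d))) : IrrRS (trS hI Φ) := by
  intro L hL
  have h1 : ∀ a ∈ Φ, a ∈ bk hI L ∨ a ∈ (bk hI L)ᗮ := by
    intro a ha
    rcases hL (iso hI ⟨a, hs ha⟩) ((mem_trS hI _).2 ha) with h2 | h2
    · exact Or.inl ((mem_bk hI L ⟨a, hs ha⟩).2 h2)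
    · exact Or.inr ((mem_bk_orth hI L ⟨a, hs ha⟩).2 h2)
  rcases h _ h1 with h2 | h2
  · left
    intro x hx
    have h3 := (mem_bk hI L ((iso hI).symm x)).1 (h2 _ hx)
    rwa [LinearIsometryEquiv.apply_symm_apply] at h3
  · right
    intro x hx
    have h3 := (mem_bk_orth hI L ((iso hI).symm x)).1 (h2 _ hx)
    rwa [LinearIsometryEquiv.apply_symm_apply] at h3

/-- the root system spans the subspace -/
theorem span_eq {𝒢 : Subgroup (E d ≃ₗᵢ[ℝ] E d)} {Φ : Set (E d)} (hH : Hom d I 𝒢 Φ) :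
    Submodule.span ℝ Φ = I := by
  rcases hH.irr (Submodule.span ℝ Φ) (Submodule.span_le.2 hH.sub) (by
    intro h hh w hw
    induction hw using Submodule.span_induction with
    | mem x hx => exact Submodule.subset_span (hH.inv h hh x hx)
    | zero => rw [map_zero]; exact zero_mem _
    | add x y _ _ hx hy => rw [map_add]; exact add_mem hx hy
    | smul c x _ hx => rw [map_smul]; exact Submodule.smul_mem _ _ hx) with h1 | h1
  · exfalso
    obtain ⟨a, ha⟩ := hH.rs.ne
    have h2 : a = 0 := by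
      have h3 : a ∈ Submodule.span ℝ Φ := Submodule.subset_span ha
      rw [h1] at h3
      exact (Submodule.mem_bot ℝ).1 h3
    have h3 := hH.rs.norm a ha
    rw [h2, norm_zero] at h3
    exact zero_ne_one h3
  · exact h1

theorem span_trS (hI : Module.finrank ℝ I = n) {𝒢 : Subgroup (E d ≃ₗᵢ[ℝ] E d)} {Φ : Set (E d)}
    (hH : Hom d I 𝒢 Φ) : Submodule.span ℝ (trS hI Φ) = ⊤ := by
  rw [eq_top_iff]
  intro x _
  have h1 : ∀ w : E d, w ∈ Submodule.span ℝ Φ → ∀ hw : w ∈ I,
      iso hI ⟨w, hw⟩ ∈ Submodule.span ℝ (trS hI Φ) := by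
    intro w hw
    induction hw using Submodule.span_induction with
    | mem x hx => exact fun hw => Submodule.subset_span ((mem_trS hI _).2 hx)
    | zero =>
      intro hw
      have : (⟨0, hw⟩ : I) = 0 := rfl
      rw [this, map_zero]
      exact zero_mem _
    | add x y hx0 hy0 hx hy =>
      intro hw
      have hxI : x ∈ I := by rw [← span_eq hH]; exact hx0
      have hyI : y ∈ I := by rw [← span_eq hH]; exact hy0
      have : (⟨x + y, hw⟩ : I) = ⟨x, hxI⟩ + ⟨y, hyI⟩ := rfl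
      rw [this, map_add]
      exact add_mem (hx hxI) (hy hyI)
    | smul c x hx0 hx =>
      intro hw
      have hxI : x ∈ I := by rw [← span_eq hH]; exact hx0
      have : (⟨c • x, hw⟩ : I) = c • ⟨x, hxI⟩ := rfl
      rw [this, map_smul]
      exact Submodule.smul_mem _ _ (hx hxI)
  have h2 := h1 ((iso hI).symm x : E d) (by rw [span_eq hH]; exact ((iso hI).symm x).2)
    ((iso hI).symm x).2
  have h3 : iso hI ⟨((iso hI).symm x : E d), ((iso hI).symm x).2⟩ = x :=
    LinearIsometryEquiv.apply_symm_apply (iso hI) x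
  rw [h3] at h2
  exact h2

theorem homRS (hI : Module.finrank ℝ I = n) {𝒢 : Subgroup (E d ≃ₗᵢ[ℝ] E d)} {Φ : Set (E d)}
    (hH : Hom d I 𝒢 Φ) : HomRS (trS hI Φ) := by
  intro x hx y hy
  obtain ⟨h, hh, h1⟩ := hH.trans _ hx _ hy
  have hp := hH.pres h hh
  refine ⟨tr hI h hp, fun c hc => tr_mem hI h hp (hH.inv h hh) hc, ?_⟩
  rcases h1 with h1 | h1
  · left
    rw [tr_apply]
    have h2 : (⟨h ((iso hI).symm x), hp _ ((iso hI).symm x).2⟩ : I) = (iso hI).symm y :=
      Subtype.ext h1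
    rw [h2, LinearIsometryEquiv.apply_symm_apply]
  · right
    rw [tr_apply]
    have h2 : (⟨h ((iso hI).symm x), hp _ ((iso hI).symm x).2⟩ : I) = -(iso hI).symm y :=
      Subtype.ext h1
    rw [h2, map_neg, LinearIsometryEquiv.apply_symm_apply]

end SL

open SL AUT in
theorem t_SL : S_SL := by
  intro d n I 𝒢 Φ hH hI hn hirr
  have h1 : FO2.SL (trS hI Φ) := rg1 rga rgb rgc rgd hn (isRS hI hH.rs hH.sub)
    (irrRS hI hirr hH.sub) (span_trS hI hH) (homRS hI hH)
  intro a ha b hb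
  have haI : a ∈ I := hH.sub ha
  have hbI : b ∈ I := hH.sub hb
  have h2 := h1 (iso hI ⟨a, haI⟩) ((mem_trS hI _).2 ha) (iso hI ⟨b, hbI⟩) ((mem_trS hI _).2 hb)
  have h3 : ⟪iso hI ⟨a, haI⟩, iso hI ⟨b, hbI⟩⟫ = ⟪a, b⟫ :=
    (iso hI).inner_map_map ⟨a, haI⟩ ⟨b, hbI⟩
  rw [h3] at h2
  rcases h2 with h2 | h2 | h2 | h2 | h2
  · exact Or.inl h2
  · exact Or.inr (Or.inl h2)
  · exact Or.inr (Or.inr (Or.inl h2))
  · exact Or.inr (Or.inr (Or.inr (Or.inl (congrArg Subtype.val ((iso hI).injective h2)))))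
  · refine Or.inr (Or.inr (Or.inr (Or.inr ?_)))
    rw [← map_neg] at h2
    exact congrArg Subtype.val ((iso hI).injective h2)

end

end FOK
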