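import Pool.Agent.FOK.Stmts1

/-!
# FOK, 3.3 (SW): a set of words of length `L` closed under exchange of adjacent letters which
contains a nonconstant word has at least `L` elements
-/

namespace FOK

namespace SW

/-- closed under exchange of any two letters -/
theorem closed_swap {L : ℕ} {O : Set (Fin L → Bool)}
    (h : ∀ w ∈ O, ∀ (i : ℕ) (h : i + 1 < L),
      (fun x => w (Equiv.swap (⟨i, by omega⟩ : Fin L) ⟨i + 1, h⟩ x)) ∈ O) :
    ∀ (n : ℕ) (a : ℕ) (hb : a + n + 1 < L), ∀ w ∈ O,
      (fun x => w (Equiv.swap (⟨a, by omega⟩ : Fin L) ⟨a + n + 1, hb⟩ x)) ∈ O := by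
  intro n
  induction n with
  | zero => intro a hb w hw; exact h w hw a hb
  | succ n ih =>
    intro a hb w hw
    have hb' : a + n + 1 < L := by omega
    have h1 := h w hw (a + n + 1) (by omega)
    have h2 := ih a hb' _ h1
    have h3 := h _ h2 (a + n + 1) (by omega)
    have e2 : (⟨a, by omega⟩ : Fin L) ≠ ⟨a + n + 1, by omega⟩ := by
      intro hh
      have := congrArg Fin.val hh
      simp only at this
      omega
    have e3 : (⟨a, by omega⟩ : Fin L) ≠ ⟨a + n + 1 + 1, by omega⟩ := by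
      intro hh
      have := congrArg Fin.val hh
      simp only at this
      omega
    have key := Equiv.swap_mul_swap_mul_swap e2 e3
    have e4 : (fun x => w (Equiv.swap (⟨a, by omega⟩ : Fin L) ⟨a + (n + 1) + 1, hb⟩ x)) =
        (fun x => w (Equiv.swap (⟨a + n + 1, by omega⟩ : Fin L) ⟨a + n + 1 + 1, by omega⟩
          (Equiv.swap (⟨a, by omega⟩ : Fin L) ⟨a + n + 1, by omega⟩
          (Equiv.swap (⟨a + n + 1, by omega⟩ : Fin L) ⟨a + n + 1 + 1, by omega⟩ x)))) := by
      funext x
      have k2 := congrArg (fun σ : Equiv.Perm (Fin L) => σ x) key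
      simp only [Equiv.Perm.mul_apply] at k2
      rw [k2, Equiv.swap_comm]
      rfl
    rw [e4]
    exact h3

theorem closed_swap' {L : ℕ} {O : Set (Fin L → Bool)}
    (h : ∀ w ∈ O, ∀ (i : ℕ) (h : i + 1 < L),
      (fun x => w (Equiv.swap (⟨i, by omega⟩ : Fin L) ⟨i + 1, h⟩ x)) ∈ O)
    (a b : Fin L) {w : Fin L → Bool} (hw : w ∈ O) : (fun x => w (Equiv.swap a b x)) ∈ O := by
  rcases lt_trichotomy a.val b.val with hab | hab | hab
  · obtain ⟨n, hn⟩ : ∃ n, b.val = a.val + n + 1 := ⟨b.val - a.val - 1, by omega⟩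
    have := closed_swap h n a.val (by have := b.isLt; omega) w hw
    have e : (⟨a.val + n + 1, by have := b.isLt; omega⟩ : Fin L) = b := Fin.ext hn.symm
    rw [e] at this
    exact this
  · have : a = b := Fin.ext hab
    subst this
    simpa using hw
  · obtain ⟨n, hn⟩ : ∃ n, a.val = b.val + n + 1 := ⟨a.val - b.val - 1, by omega⟩
    have := closed_swap h n b.val (by have := a.isLt; omega) w hw
    have e : (⟨b.val + n + 1, by have := a.isLt; omega⟩ : Fin L) = a := Fin.ext hn.symm
    rw [e] at this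
    rw [Equiv.swap_comm]
    exact this

/-- the `L` words -/
def word {L : ℕ} (w : Fin L → Bool) (a b i : Fin L) : Fin L → Bool :=
  if i = b then w else if w i = w b then (fun x => w (Equiv.swap a i x))
    else (fun x => w (Equiv.swap b i x))

theorem swap_at {L : ℕ} (w : Fin L → Bool) (a i : Fin L) (h : w a ≠ w i) (x : Fin L) :
    w (Equiv.swap a i x) ≠ w x ↔ x = a ∨ x = i := by
  rw [Equiv.swap_apply_def]
  split_ifs with h1 h2
  · subst h1
    simp [Ne.symm h]
  · subst h2
    simp [h]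
  · simp [h1, h2]

theorem word_at {L : ℕ} (w : Fin L → Bool) (a b i : Fin L) (hab : w a ≠ w b) (x : Fin L) :
    word w a b i x ≠ w x ↔ i ≠ b ∧ (x = i ∨ (w i = w b ∧ x = a) ∨ (w i ≠ w b ∧ x = b)) := by
  unfold word
  split_ifs with h1 h2
  · simp [h1]
  · have : w a ≠ w i := by rw [h2]; exact hab
    rw [swap_at w a i this x]
    simp only [h1, h2, ne_eq, not_false_eq_true, true_and, not_true_eq_false, false_and, or_false]
    tauto
  · have : w b ≠ w i := fun h => h2 h.symm
    rw [swap_at w b i this x]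
    simp only [h1, h2, ne_eq, not_false_eq_true, true_and, false_and, false_or]
    tauto

theorem word_inj {L : ℕ} (w : Fin L → Bool) (a b : Fin L) (hab : w a ≠ w b) :
    Function.Injective (word w a b) := by
  intro i j hij
  have hiff : ∀ x, (i ≠ b ∧ (x = i ∨ (w i = w b ∧ x = a) ∨ (w i ≠ w b ∧ x = b))) ↔
      (j ≠ b ∧ (x = j ∨ (w j = w b ∧ x = a) ∨ (w j ≠ w b ∧ x = b))) := by
    intro x
    rw [← word_at w a b i hab x, ← word_at w a b j hab x, hij]
  by_cases hi : i = b
  · by_cases hj : j = b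
    · rw [hi, hj]
    · have := ((hiff j).2 ⟨hj, Or.inl rfl⟩).1
      exact absurd hi this
  · have h1 := (hiff i).1 ⟨hi, Or.inl rfl⟩
    have hj := h1.1
    have h2 := (hiff j).2 ⟨hj, Or.inl rfl⟩
    rcases h1.2 with h | ⟨h, h'⟩ | ⟨h, h'⟩
    · exact h
    · rcases h2.2 with k | ⟨k, k'⟩ | ⟨k, k'⟩
      · exact k.symm
      · rw [h', k']
      · exact absurd k' hj
    · exact absurd h' hi

theorem word_mem {L : ℕ} {O : Set (Fin L → Bool)}
    (h : ∀ w ∈ O, ∀ (i : ℕ) (h : i + 1 < L),
      (fun x => w (Equiv.swap (⟨i, by omega⟩ : Fin L) ⟨i + 1, h⟩ x)) ∈ O)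
    (a b i : Fin L) {w : Fin L → Bool} (hw : w ∈ O) : word w a b i ∈ O := by
  unfold word
  split_ifs
  · exact hw
  · exact closed_swap' h a i hw
  · exact closed_swap' h b i hw

end SW

theorem t_SW : S_SW := by
  intro L O h hw
  obtain ⟨w, hw, a, b, hab⟩ := hw
  have h1 : (Set.range (SW.word w a b)).ncard = L := by
    rw [Set.ncard_range_of_injective (SW.word_inj w a b hab)]
    simp
  calc L = (Set.range (SW.word w a b)).ncard := h1.symm
    _ ≤ O.ncard := by
      apply Set.ncard_le_ncard _ (Set.toFinite O)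
      rintro _ ⟨i, rfl⟩
      exact SW.word_mem h a b i hw

end FOK
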