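import Pool.Agent.FOK.Stmts2

/-!
# FOK, module VECA: 7.3, type A
-/

namespace FOK

open Lib_helper64.FO FO2
open scoped RealInnerProductSpace

namespace VECA

variable {d n : ℕ}

lemma inner_sum {v : Fin (n + 1) → E d}
    (hv : ∀ i j, ⟪v i, v j⟫ = if i = j then (1 : ℝ) else -1 / n) (x : Fin (n + 1) → ℝ)
    (j : Fin (n + 1)) :
    ⟪∑ i, x i • v i, v j⟫ = (1 + 1 / n) * x j - (1 / n) * ∑ i, x i := by
  rw [_root_.sum_inner]
  have h : ∀ i, ⟪x i • v i, v j⟫ = (if i = j then (1 + 1 / n) * x j else 0) - (1 / n) * x i := by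
    intro i
    rw [real_inner_smul_left, hv i j]
    split_ifs with h
    · subst h
      ring
    · ring
  simp only [h]
  rw [Finset.sum_sub_distrib, ← Finset.mul_sum]
  simp

lemma span_eq {I : Submodule ℝ (E d)} (hn0 : 0 < n) (hn : Module.finrank ℝ I = n)
    {v : Fin (n + 1) → E d} (hm : ∀ i, v i ∈ I)
    (hv : ∀ i j, ⟪v i, v j⟫ = if i = j then (1 : ℝ) else -1 / n) :
    Submodule.span ℝ (Set.range v) = I := by
  have hnR : (0 : ℝ) < n := by exact_mod_cast hn0
  have hli : LinearIndependent ℝ (fun i : Fin n => v i.castSucc) := by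
    rw [Fintype.linearIndependent_iff]
    intro g hg i
    set x : Fin (n + 1) → ℝ := Fin.snoc g 0 with hx
    have hxc : ∀ i : Fin n, x i.castSucc = g i := fun i => by rw [hx, Fin.snoc_castSucc]
    have hxl : x (Fin.last n) = 0 := by rw [hx, Fin.snoc_last]
    have h0 : ∑ i, x i • v i = 0 := by
      rw [Fin.sum_univ_castSucc, hxl, zero_smul, add_zero]
      simp only [hxc]
      exact hg
    have h1 := inner_sum hv x (Fin.last n)
    have h2 := inner_sum hv x i.castSucc
    rw [h0, inner_zero_left, hxl, mul_zero, zero_sub] at h1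
    have h3 : ∑ i, x i = 0 := by
      have h4 : (1 / (n : ℝ)) * ∑ i, x i = 0 := by linarith
      rcases mul_eq_zero.1 h4 with h5 | h5
      · exact absurd h5 (by positivity)
      · exact h5
    rw [h0, inner_zero_left, h3, mul_zero, sub_zero, hxc] at h2
    rcases mul_eq_zero.1 h2.symm with h5 | h5
    · exact absurd h5 (by positivity)
    · exact h5
  refine Submodule.eq_of_le_of_finrank_le ?_ ?_
  · rw [Submodule.span_le]
    rintro _ ⟨i, rfl⟩
    exact hm i
  · have h1 : Submodule.span ℝ (Set.range fun i : Fin n => v i.castSucc) ≤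
        Submodule.span ℝ (Set.range v) := by
      refine Submodule.span_mono ?_
      rintro _ ⟨i, rfl⟩
      exact ⟨_, rfl⟩
    have h2 := Submodule.finrank_mono h1
    rw [finrank_span_eq_card hli, Fintype.card_fin] at h2
    rw [hn]
    exact h2

lemma eq_zero {I : Submodule ℝ (E d)} {v : Fin (n + 1) → E d}
    (hs : Submodule.span ℝ (Set.range v) = I) {w : E d} (hw : w ∈ I)
    (h : ∀ i, ⟪w, v i⟫ = 0) : w = 0 := by
  rw [← hs] at hw
  have key : ∀ u ∈ Submodule.span ℝ (Set.range v), ⟪w, u⟫ = 0 := by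
    intro u hu
    induction hu using Submodule.span_induction with
    | mem x hx => obtain ⟨i, rfl⟩ := hx; exact h i
    | zero => exact inner_zero_right _
    | add x y _ _ hx hy => rw [inner_add_right, hx, hy, add_zero]
    | smul a x _ hx => rw [inner_smul_right, hx, mul_zero]
  exact inner_self_eq_zero.1 (key w hw)

/-- two isometries which agree on the `v i` agree on `I` -/
lemma eq_on {I : Submodule ℝ (E d)} {v : Fin (n + 1) → E d}
    (hs : Submodule.span ℝ (Set.range v) = I) {f g : E d →ₗ[ℝ] E d}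
    (h : ∀ i, f (v i) = g (v i)) : ∀ w ∈ I, f w = g w := by
  intro w hw
  rw [← hs] at hw
  induction hw using Submodule.span_induction with
  | mem x hx => obtain ⟨i, rfl⟩ := hx; exact h i
  | zero => rw [map_zero, map_zero]
  | add x y _ _ hx hy => rw [map_add, map_add, hx, hy]
  | smul a x _ hx => rw [map_smul, map_smul, hx]

lemma finrank_perp {I : Submodule ℝ (E d)} {e : E d} (he0 : e ≠ 0) (he : e ∈ I)
    (hn : Module.finrank ℝ I = n) :
    1 + Module.finrank ℝ (I ⊓ (Submodule.span ℝ {e})ᗮ : Submodule ℝ (E d)) = n := by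
  have h1 := Submodule.finrank_add_inf_finrank_orthogonal
    (K₁ := Submodule.span ℝ {e}) (K₂ := I) (by
      rw [Submodule.span_singleton_le_iff_mem]; exact he)
  rw [finrank_span_singleton he0, hn, inf_comm] at h1
  exact h1

/-- a line which is invariant contradicts irreducibility in dimension at least two -/
lemma no_line {I : Submodule ℝ (E d)} {K : Subgroup (E d ≃ₗᵢ[ℝ] E d)} {e : E d} (hn3 : 3 ≤ n)
    (hn : Module.finrank ℝ I = n) (hS : Stb d I K e) (he0 : e ≠ 0) {u : E d} (hu0 : u ≠ 0)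
    (hu : u ∈ I ⊓ (Submodule.span ℝ {e})ᗮ) (hK : ∀ h ∈ K, h u = u ∨ h u = -u) : False := by
  rcases hS.irr (Submodule.span ℝ {u}) (by
    rw [Submodule.span_singleton_le_iff_mem]; exact hu) (by
    intro h hh w hw
    obtain ⟨a, rfl⟩ := Submodule.mem_span_singleton.1 hw
    rw [map_smul]
    rcases hK h hh with h1 | h1
    · rw [h1]; exact hw
    · rw [h1, smul_neg]; exact Submodule.neg_mem _ hw) with h | h
  · exact hu0 (Submodule.span_singleton_eq_bot.1 h)
  · have h1 := finrank_perp he0 hS.mem hn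
    have h2 := finrank_span_singleton (K := ℝ) hu0
    rw [← h, h2] at h1
    omega

/-- the signs and permutations on the coordinates -/
lemma act {I : Submodule ℝ (E d)} {K : Subgroup (E d ≃ₗᵢ[ℝ] E d)} {v : Fin (n + 1) → E d}
    {e : E d} (hP : PermA K v) (hS : Stb d I K e) {h : E d ≃ₗᵢ[ℝ] E d} (hh : h ∈ K) :
    ∃ (π : Equiv.Perm (Fin (n + 1))) (ε : ℝ), (ε = 1 ∨ ε = -1) ∧ (∀ i, h (v i) = ε • v (π i)) ∧
      ∀ i, ⟪e, v i⟫ = ε * ⟪e, v (π i)⟫ := by
  obtain ⟨π, hπ⟩ := hP h hh
  have key : ∀ ε : ℝ, (∀ i, h (v i) = ε • v (π i)) → ∀ i, ⟪e, v i⟫ = ε * ⟪e, v (π i)⟫ := by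
    intro ε hε i
    have h1 : ⟪h e, h (v i)⟫ = ⟪e, v i⟫ := h.inner_map_map e (v i)
    rw [hS.fix h hh, hε i, real_inner_smul_right] at h1
    exact h1.symm
  rcases hπ with hπ | hπ
  · have h1 : ∀ i, h (v i) = (1 : ℝ) • v (π i) := fun i => by rw [hπ i, one_smul]
    exact ⟨π, 1, Or.inl rfl, h1, key 1 h1⟩
  · have h1 : ∀ i, h (v i) = (-1 : ℝ) • v (π i) := fun i => by rw [hπ i, neg_smul, one_smul]
    exact ⟨π, -1, Or.inr rfl, h1, key (-1) h1⟩

/-- the coordinates are not all different -/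
lemma not_inj {I : Submodule ℝ (E d)} {K : Subgroup (E d ≃ₗᵢ[ℝ] E d)} {v : Fin (n + 1) → E d}
    {e : E d} (hn3 : 3 ≤ n) (hn : Module.finrank ℝ I = n)
    (hs : Submodule.span ℝ (Set.range v) = I) (hP : PermA K v) (hS : Stb d I K e) (he0 : e ≠ 0)
    (hinj : ∀ i j, ⟪e, v i⟫ = ⟪e, v j⟫ → i = j) : False := by
  obtain ⟨w, hw, hw0⟩ : ∃ w ∈ I ⊓ (Submodule.span ℝ {e})ᗮ, w ≠ 0 := by
    rw [← Submodule.ne_bot_iff]
    intro h
    have h1 := finrank_perp he0 hS.mem hn
    rw [h, finrank_bot] at h1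
    omega
  -- elements of positive sign are trivial
  have hpos : ∀ h ∈ K, ∀ π : Equiv.Perm (Fin (n + 1)), (∀ i, h (v i) = (1 : ℝ) • v (π i)) →
      (∀ i, ⟪e, v i⟫ = 1 * ⟪e, v (π i)⟫) → ∀ x ∈ I, h x = x := by
    intro h hh π h1 h2 x hx
    have h3 : ∀ i, π i = i := fun i => (hinj i (π i) (by rw [h2 i, one_mul])).symm
    exact eq_on hs (f := (h.toLinearEquiv : E d →ₗ[ℝ] E d)) (g := LinearMap.id)
      (fun i => by
        show h (v i) = v i
        rw [h1 i, h3 i, one_smul]) x hx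
  by_cases hneg : ∃ h0 ∈ K, ∃ π0 : Equiv.Perm (Fin (n + 1)), (∀ i, h0 (v i) = (-1 : ℝ) • v (π0 i)) ∧
      ∀ i, ⟪e, v i⟫ = -1 * ⟪e, v (π0 i)⟫
  · obtain ⟨h0, hh0, π0, h1, h2⟩ := hneg
    have hother : ∀ h ∈ K, (∀ x ∈ I, h x = x) ∨ (∀ x ∈ I, h x = h0 x) := by
      intro h hh
      obtain ⟨π, ε, hε, h3, h4⟩ := act hP hS hh
      rcases hε with rfl | rfl
      · exact Or.inl (hpos h hh π h3 h4)
      · right
        intro x hx
        have h5 : ∀ i, π i = π0 i := fun i => hinj _ _ (by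
          have := h4 i
          have := h2 i
          linarith)
        exact eq_on hs (f := (h.toLinearEquiv : E d →ₗ[ℝ] E d))
          (g := (h0.toLinearEquiv : E d →ₗ[ℝ] E d))
          (fun i => by
            show h (v i) = h0 (v i)
            rw [h1 i, h3 i, h5 i]) x hx
    have hsq : ∀ x ∈ I, h0 (h0 x) = x := by
      intro x hx
      exact eq_on hs (f := (h0.toLinearEquiv : E d →ₗ[ℝ] E d) ∘ₗ
          (h0.toLinearEquiv : E d →ₗ[ℝ] E d)) (g := LinearMap.id)
        (fun i => by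
          show h0 (h0 (v i)) = v i
          have h5 : π0 (π0 i) = i := (hinj _ _ (by
            have := h2 i
            have := h2 (π0 i)
            linarith)).symm
          rw [h1 i, map_smul, h1 (π0 i), h5, smul_smul]
          norm_num) x hx
    have hw0I : h0 w ∈ I := hS.pres h0 hh0 w hw.1
    have hw0e : h0 w ∈ (Submodule.span ℝ {e})ᗮ := by
      rw [Submodule.mem_orthogonal_singleton_iff_inner_right]
      have h3 := (Submodule.mem_orthogonal_singleton_iff_inner_right).1 hw.2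
      have h4 := h0.inner_map_map e w
      rw [hS.fix h0 hh0] at h4
      rw [h4, h3]
    by_cases hu : w + h0 w = 0
    · refine no_line hn3 hn hS he0 hw0 hw fun h hh => ?_
      rcases hother h hh with h3 | h3
      · exact Or.inl (h3 w hw.1)
      · right
        rw [h3 w hw.1]
        exact eq_neg_of_add_eq_zero_right hu
    · refine no_line hn3 hn hS he0 hu (Submodule.add_mem _ hw ⟨hw0I, hw0e⟩) fun h hh => ?_
      rcases hother h hh with h3 | h3
      · exact Or.inl (h3 _ (I.add_mem hw.1 hw0I))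
      · left
        rw [h3 _ (I.add_mem hw.1 hw0I), map_add, hsq w hw.1, add_comm]
  · refine no_line hn3 hn hS he0 hw0 hw fun h hh => Or.inl ?_
    obtain ⟨π, ε, hε, h3, h4⟩ := act hP hS hh
    rcases hε with rfl | rfl
    · exact hpos h hh π h3 h4 w hw.1
    · exact absurd ⟨h, hh, π, h3, h4⟩ hneg

end VECA

open VECA in
theorem t_VECA : S_VECA := by
  intro d n I K v e hn3 hn hm hv hP hS
  have hn0 : 0 < n := by omega
  have hnR : (0 : ℝ) < n := by exact_mod_cast hn0
  have hs := span_eq hn0 hn hm hv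
  have he0 : e ≠ 0 := by
    intro h
    have := hS.norm
    rw [h, norm_zero] at this
    exact zero_ne_one this
  have hsum : ∑ i, v i = 0 := by
    refine eq_zero hs (I.sum_mem fun i _ => hm i) fun j => ?_
    have h1 := inner_sum hv (fun _ => (1 : ℝ)) j
    simp only [one_smul, Finset.sum_const, Finset.card_univ, Fintype.card_fin, nsmul_eq_mul,
      mul_one] at h1
    rw [h1]
    push_cast
    field_simp
    ring
  have hasum : ∑ i, ⟪e, v i⟫ = 0 := by
    rw [← _root_.inner_sum, hsum, inner_zero_right]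
  have hee : e = ((n : ℝ) / (n + 1)) • ∑ i, ⟪e, v i⟫ • v i := by
    rw [← sub_eq_zero]
    refine eq_zero hs (I.sub_mem hS.mem (I.smul_mem _ (I.sum_mem fun i _ =>
      I.smul_mem _ (hm i)))) fun j => ?_
    rw [inner_sub_left, real_inner_smul_left, inner_sum hv, hasum]
    field_simp
    ring
  -- the invariant subspace
  set W : Submodule ℝ (E d) :=
    { carrier := {w | w ∈ I ∧ ⟪e, w⟫ = 0 ∧ ∀ i j, ⟪e, v i⟫ = ⟪e, v j⟫ → ⟪w, v i⟫ = ⟪w, v j⟫}
      zero_mem' := ⟨I.zero_mem, inner_zero_right _, fun i j _ => by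
        rw [inner_zero_left, inner_zero_left]⟩
      add_mem' := by
        rintro a b ⟨a1, a2, a3⟩ ⟨b1, b2, b3⟩
        refine ⟨I.add_mem a1 b1, by rw [inner_add_right, a2, b2, add_zero], fun i j h => ?_⟩
        rw [inner_add_left, inner_add_left, a3 i j h, b3 i j h]
      smul_mem' := by
        rintro c a ⟨a1, a2, a3⟩
        refine ⟨I.smul_mem _ a1, by rw [real_inner_smul_right, a2, mul_zero], fun i j h => ?_⟩
        rw [real_inner_smul_left, real_inner_smul_left, a3 i j h] } with hW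
  have hWm : ∀ w, w ∈ W ↔ (w ∈ I ∧ ⟪e, w⟫ = 0 ∧
      ∀ i j, ⟪e, v i⟫ = ⟪e, v j⟫ → ⟪w, v i⟫ = ⟪w, v j⟫) := fun w => Iff.rfl
  have hWle : W ≤ I ⊓ (Submodule.span ℝ {e})ᗮ := by
    intro w hw
    rw [hWm] at hw
    exact ⟨hw.1, by rw [SetLike.mem_coe, Submodule.mem_orthogonal_singleton_iff_inner_right]; exact hw.2.1⟩
  have hWinv : ∀ h ∈ K, ∀ w ∈ W, h w ∈ W := by
    intro h hh w hw
    rw [hWm] at hw ⊢
    obtain ⟨h1, h2, h3⟩ := hw
    obtain ⟨π, ε, hε, h4, h5⟩ := act hP hS hh
    have hεε : ε * ε = 1 := by rcases hε with rfl | rfl <;> norm_num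
    refine ⟨hS.pres h hh w h1, ?_, ?_⟩
    · have h6 := h.inner_map_map e w
      rw [hS.fix h hh] at h6
      rw [h6, h2]
    · have h7 : ∀ i, ⟪h w, v i⟫ = ε * ⟪w, v (π.symm i)⟫ := by
        intro i
        have h8 := h.inner_map_map w (v (π.symm i))
        rw [h4, Equiv.apply_symm_apply, real_inner_smul_right] at h8
        rw [← h8, ← mul_assoc, hεε, one_mul]
      intro i j hij
      rw [h7 i, h7 j]
      congr 1
      refine h3 _ _ ?_
      rw [h5 (π.symm i), h5 (π.symm j), Equiv.apply_symm_apply, Equiv.apply_symm_apply, hij]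
  rcases hS.irr W hWle hWinv with hbot | htop
  swap
  · exfalso
    refine not_inj hn3 hn hs hP hS he0 fun i j hij => ?_
    by_contra hne
    have h1 : v i - v j ∈ W := by
      rw [htop]
      refine ⟨I.sub_mem (hm i) (hm j), ?_⟩
      rw [SetLike.mem_coe, Submodule.mem_orthogonal_singleton_iff_inner_right, inner_sub_right,
        hij, sub_self]
    have h2 := ((hWm _).1 h1).2.2 i j hij
    rw [inner_sub_left, inner_sub_left, hv, hv, hv, hv, if_pos rfl, if_pos rfl, if_neg hne,
      if_neg (Ne.symm hne)] at h2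
    have h3 : (0 : ℝ) < 1 / n := by positivity
    have h4 : (-1 : ℝ) / n = -(1 / n) := by ring
    rw [h4] at h2
    linarith
  -- two values
  have htwo : ∀ j i k, ⟪e, v i⟫ ≠ ⟪e, v j⟫ → ⟪e, v k⟫ ≠ ⟪e, v j⟫ → ⟪e, v i⟫ = ⟪e, v k⟫ := by
    intro j i k hi hk
    set x : Fin (n + 1) → ℝ := fun l => if ⟪e, v l⟫ = ⟪e, v j⟫ then 1 else 0 with hx
    set w : E d := ∑ l, x l • v l with hw
    set t : ℝ := ⟪e, w⟫ with ht
    have hwI : w ∈ I := I.sum_mem fun l _ => I.smul_mem _ (hm l)
    have hmem : w - t • e ∈ W := by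
      rw [hWm]
      refine ⟨I.sub_mem hwI (I.smul_mem _ hS.mem), ?_, ?_⟩
      · rw [inner_sub_right, real_inner_smul_right, real_inner_self_eq_norm_sq, hS.norm, ← ht]
        ring
      · intro a b hab
        rw [inner_sub_left, inner_sub_left, real_inner_smul_left, real_inner_smul_left, hab, hw,
          inner_sum hv, inner_sum hv]
        have : x a = x b := by simp only [hx, hab]
        rw [this]
    rw [hbot, Submodule.mem_bot, sub_eq_zero] at hmem
    have hval : ∀ l, (1 + 1 / n) * x l - (1 / n) * ∑ i, x i = t * ⟪e, v l⟫ := by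
      intro l
      rw [← inner_sum hv, ← hw, hmem, real_inner_smul_left]
    have hpos : 0 < ∑ i, x i := by
      refine Finset.sum_pos' (fun l _ => ?_) ⟨j, Finset.mem_univ j, ?_⟩
      · simp only [hx]; split_ifs <;> norm_num
      · simp only [hx]; norm_num
    have hi' := hval i
    have hk' := hval k
    have hxi : x i = 0 := by simp only [hx]; rw [if_neg hi]
    have hxk : x k = 0 := by simp only [hx]; rw [if_neg hk]
    rw [hxi, mul_zero, zero_sub] at hi'
    rw [hxk, mul_zero, zero_sub] at hk'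
    have ht0 : t ≠ 0 := by
      intro h0
      rw [h0, zero_mul] at hi'
      have : 0 < (1 / (n : ℝ)) * ∑ i, x i := by positivity
      linarith
    exact mul_left_cancel₀ ht0 (hi'.symm.trans hk')
  -- the sets
  obtain ⟨j⟩ : Nonempty (Fin (n + 1)) := ⟨0⟩
  set B : Finset (Fin (n + 1)) := Finset.univ.filter fun i => ⟪e, v i⟫ = ⟪e, v j⟫ with hB
  have hBm : ∀ i, i ∈ B ↔ ⟪e, v i⟫ = ⟪e, v j⟫ := fun i => by simp [hB]
  have hjB : j ∈ B := (hBm j).2 rfl
  obtain ⟨k, hk⟩ : ∃ k, k ∉ B := by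
    by_contra hall
    push Not at hall
    have h1 : ∀ i, ⟪e, v i⟫ = ⟪e, v j⟫ := fun i => (hBm i).1 (hall i)
    have h2 : (n + 1 : ℝ) * ⟪e, v j⟫ = 0 := by
      have h3 := hasum
      simp only [h1, Finset.sum_const, Finset.card_univ, Fintype.card_fin, nsmul_eq_mul] at h3
      push_cast at h3
      exact h3
    have h3 : ⟪e, v j⟫ = 0 := by
      rcases mul_eq_zero.1 h2 with h4 | h4
      · exact absurd h4 (by positivity)
      · exact h4
    exact he0 (eq_zero hs hS.mem fun i => by rw [h1 i, h3])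
  have hkne : ⟪e, v k⟫ ≠ ⟪e, v j⟫ := fun h => hk ((hBm k).2 h)
  have hBc : ∀ i, i ∉ B → ⟪e, v i⟫ = ⟪e, v k⟫ := fun i hi =>
    htwo j i k (fun h => hi ((hBm i).2 h)) hkne
  have hsplit : ∑ i ∈ Bᶜ, v i = -∑ i ∈ B, v i := by
    have h1 := Finset.sum_add_sum_compl B v
    rw [hsum] at h1
    exact eq_neg_of_add_eq_zero_right h1
  have heB : ∃ c : ℝ, e = c • ∑ i ∈ B, v i := by
    refine ⟨((n : ℝ) / (n + 1)) * (⟪e, v j⟫ - ⟪e, v k⟫), ?_⟩
    nth_rewrite 1 [hee]
    rw [mul_smul]
    congr 1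
    rw [← Finset.sum_add_sum_compl B fun i => ⟪e, v i⟫ • v i]
    have h1 : ∑ i ∈ B, ⟪e, v i⟫ • v i = ⟪e, v j⟫ • ∑ i ∈ B, v i := by
      rw [Finset.smul_sum]
      exact Finset.sum_congr rfl fun i hi => by rw [(hBm i).1 hi]
    have h2 : ∑ i ∈ Bᶜ, ⟪e, v i⟫ • v i = ⟪e, v k⟫ • ∑ i ∈ Bᶜ, v i := by
      rw [Finset.smul_sum]
      exact Finset.sum_congr rfl fun i hi => by rw [hBc i (Finset.mem_compl.1 hi)]
    rw [h1, h2, hsplit, smul_neg, sub_smul, sub_eq_add_neg]
  obtain ⟨c, hc⟩ := heB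
  have hnv : ∀ i, ‖v i‖ = 1 := by
    intro i
    have h1 := hv i i
    rw [if_pos rfl, real_inner_self_eq_norm_sq] at h1
    have h2 : (‖v i‖ - 1) * (‖v i‖ + 1) = 0 := by ring_nf; linarith
    rcases mul_eq_zero.1 h2 with h3 | h3
    · linarith
    · linarith [norm_nonneg (v i)]
  have hone : ∀ (a : ℝ) (i : Fin (n + 1)), e = a • v i → ∃ i, e = v i ∨ e = -v i := by
    intro a i h
    have h1 := hS.norm
    rw [h, norm_smul, hnv, mul_one, Real.norm_eq_abs] at h1
    rcases (abs_eq (by norm_num : (0 : ℝ) ≤ 1)).1 h1 with h2 | h2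
    · exact ⟨i, Or.inl (by rw [h, h2, one_smul])⟩
    · exact ⟨i, Or.inr (by rw [h, h2, neg_smul, one_smul])⟩
  by_cases hB1 : ∃ a, B = {a}
  · left
    obtain ⟨a, ha⟩ := hB1
    rw [ha, Finset.sum_singleton] at hc
    exact hone c a hc
  by_cases hB2 : ∃ a, Bᶜ = {a}
  · left
    obtain ⟨a, ha⟩ := hB2
    rw [ha, Finset.sum_singleton] at hsplit
    refine hone (-c) a ?_
    rw [hc, hsplit, smul_neg, neg_smul, neg_neg]
  right
  by_cases hcard : 2 * B.card = n + 1
  · exact ⟨B, c, hcard, hc⟩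
  exfalso
  have hcB : B.card + Bᶜ.card = n + 1 := by
    rw [Finset.card_add_card_compl, Fintype.card_fin]
  obtain ⟨j', hj'B, hj'⟩ : ∃ j' ∈ B, j' ≠ j := by
    by_contra hno
    push Not at hno
    exact hB1 ⟨j, Finset.eq_singleton_iff_unique_mem.2 ⟨hjB, hno⟩⟩
  obtain ⟨k', hk'B, hk'⟩ : ∃ k' ∈ Bᶜ, k' ≠ k := by
    by_contra hno
    push Not at hno
    exact hB2 ⟨k, Finset.eq_singleton_iff_unique_mem.2 ⟨Finset.mem_compl.2 hk, hno⟩⟩
  -- all elements preserve B
  have hpres : ∀ h ∈ K, ∃ (π : Equiv.Perm (Fin (n + 1))) (ε : ℝ), (∀ i, h (v i) = ε • v (π i)) ∧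
      ∀ i ∈ B, π i ∈ B := by
    intro h hh
    obtain ⟨π, ε, hε, h1, h2⟩ := act hP hS hh
    refine ⟨π, ε, h1, ?_⟩
    rcases hε with rfl | rfl
    · intro i hi
      rw [hBm] at hi ⊢
      rw [← hi, h2 i, one_mul]
    · exfalso
      -- the permutation exchanges B and its complement
      have hab : ⟪e, v k⟫ = -⟪e, v j⟫ := by
        by_contra hne
        have h3 : ∀ i, ⟪e, v i⟫ = ⟪e, v j⟫ → ⟪e, v j⟫ = -⟪e, v j⟫ := by
          intro i hi
          have h4 := h2 i
          by_cases h5 : π i ∈ B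
          · rw [(hBm _).1 h5, hi] at h4
            linarith
          · rw [hBc _ h5, hi] at h4
            exact absurd (by linarith) hne
        have h4 : ⟪e, v j⟫ = 0 := by
          have := h3 j rfl
          linarith
        have h5 := h2 k
        by_cases h6 : π k ∈ B
        · rw [(hBm _).1 h6, h4] at h5
          exact hkne (by rw [h4]; linarith)
        · rw [hBc _ h6] at h5
          exact hkne (by rw [h4]; linarith)
      have hj0 : ⟪e, v j⟫ ≠ 0 := by
        intro h0
        rw [h0, neg_zero] at hab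
        exact hkne (by rw [hab, h0])
      have hmap : ∀ i, π i ∈ Bᶜ ↔ i ∈ B := by
        intro i
        rw [Finset.mem_compl]
        constructor
        · intro h3
          by_contra h4
          have h5 := h2 i
          rw [hBc _ h3, hBc _ h4, hab] at h5
          exact hj0 (by linarith)
        · intro h3 h4
          have h5 := h2 i
          rw [(hBm _).1 h3, (hBm _).1 h4] at h5
          exact hj0 (by linarith)
      have h3 : B.card = Bᶜ.card := by
        refine Finset.card_bij (fun i _ => π i) (fun i hi => (hmap i).2 hi)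
          (fun a _ b _ hab' => π.injective hab') fun b hb => ⟨π.symm b, ?_, ?_⟩
        · rw [← hmap, Equiv.apply_symm_apply]
          exact hb
        · exact Equiv.apply_symm_apply π b
      omega
  -- the second invariant subspace
  set U : Submodule ℝ (E d) :=
    Submodule.span ℝ {w | ∃ a ∈ B, ∃ b ∈ B, w = v a - v b} with hU
  have hUle : U ≤ I ⊓ (Submodule.span ℝ {e})ᗮ := by
    rw [hU, Submodule.span_le]
    rintro _ ⟨a, ha, b, hb, rfl⟩
    refine ⟨I.sub_mem (hm a) (hm b), ?_⟩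
    rw [SetLike.mem_coe, Submodule.mem_orthogonal_singleton_iff_inner_right, inner_sub_right,
      (hBm a).1 ha, (hBm b).1 hb, sub_self]
  have hUinv : ∀ h ∈ K, ∀ w ∈ U, h w ∈ U := by
    intro h hh w hw
    obtain ⟨π, ε, h1, h2⟩ := hpres h hh
    rw [hU] at hw
    induction hw using Submodule.span_induction with
    | mem x hx' =>
      obtain ⟨a, ha, b, hb, rfl⟩ := hx'
      rw [map_sub, h1 a, h1 b, ← smul_sub]
      exact U.smul_mem _ (Submodule.subset_span ⟨π a, h2 a ha, π b, h2 b hb, rfl⟩)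
    | zero => rw [map_zero]; exact U.zero_mem
    | add x y _ _ hx1 hy1 => rw [map_add]; exact U.add_mem hx1 hy1
    | smul a x _ hx1 => rw [map_smul]; exact U.smul_mem _ hx1
  have hUorth : ∀ w ∈ U, ⟪w, v k - v k'⟫ = 0 := by
    intro w hw
    rw [hU] at hw
    induction hw using Submodule.span_induction with
    | mem x hx' =>
      obtain ⟨a, ha, b, hb, rfl⟩ := hx'
      have hk'' : k' ∉ B := Finset.mem_compl.1 hk'B
      have e1 : a ≠ k := fun h => hk (h ▸ ha)
      have e2 : a ≠ k' := fun h => hk'' (h ▸ ha)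
      have e3 : b ≠ k := fun h => hk (h ▸ hb)
      have e4 : b ≠ k' := fun h => hk'' (h ▸ hb)
      rw [inner_sub_left, inner_sub_right, inner_sub_right, hv, hv, hv, hv, if_neg e1, if_neg e2,
        if_neg e3, if_neg e4]
      ring
    | zero => exact inner_zero_left _
    | add x y _ _ hx1 hy1 => rw [inner_add_left, hx1, hy1, add_zero]
    | smul a x _ hx1 => rw [real_inner_smul_left, hx1, mul_zero]
  have h1n : (0 : ℝ) < 1 / n := by positivity
  have hdiff : ∀ a b : Fin (n + 1), a ≠ b → ⟪v a - v b, v a - v b⟫ ≠ 0 := by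
    intro a b hab
    rw [inner_sub_left, inner_sub_right, inner_sub_right, hv, hv, hv, hv, if_pos rfl, if_pos rfl,
      if_neg hab, if_neg (Ne.symm hab)]
    have h4 : (-1 : ℝ) / n = -(1 / n) := by ring
    rw [h4]
    intro h5
    linarith
  rcases hS.irr U hUle hUinv with h | h
  · have h1 : v j' - v j ∈ U := Submodule.subset_span ⟨j', hj'B, j, hjB, rfl⟩
    rw [h, Submodule.mem_bot] at h1
    exact hdiff j' j hj' (by rw [h1, inner_zero_left])
  · have h1 : v k - v k' ∈ U := by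
      rw [h]
      refine ⟨I.sub_mem (hm k) (hm k'), ?_⟩
      rw [SetLike.mem_coe, Submodule.mem_orthogonal_singleton_iff_inner_right, inner_sub_right,
        hBc k' (Finset.mem_compl.1 hk'B), sub_self]
    exact hdiff k k' (Ne.symm hk') (hUorth _ h1)

end FOK
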