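import Pool.Agent.FOK.Stmts2

/-!
# FOK, module VECD: 7.3, type D and frames
-/

set_option autoImplicit false

namespace FOK

open Lib_helper64.FO FO2
open scoped RealInnerProductSpace

namespace VECD

variable {d n : ℕ}

lemma sg_sq1 (s : ℤˣ) : (sg s : ℝ) * sg s = 1 := by
  rcases Int.units_eq_one_or s with rfl | rfl <;> simp [sg]

lemma sg_abs (s : ℤˣ) : |(sg s : ℝ)| = 1 := by
  rcases Int.units_eq_one_or s with rfl | rfl <;> simp [sg]

lemma span_eq {I : Submodule ℝ (E d)} (hn : Module.finrank ℝ I = n) {u : Fin n → E d}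
    (hu : ∀ i, u i ∈ I) (ho : Orthonormal ℝ u) : Submodule.span ℝ (Set.range u) = I := by
  refine Submodule.eq_of_le_of_finrank_le ?_ ?_
  · rw [Submodule.span_le]
    rintro _ ⟨i, rfl⟩
    exact hu i
  · rw [hn, finrank_span_eq_card ho.linearIndependent, Fintype.card_fin]

lemma eq_zero {I : Submodule ℝ (E d)} (hn : Module.finrank ℝ I = n) {u : Fin n → E d}
    (hu : ∀ i, u i ∈ I) (ho : Orthonormal ℝ u) {w : E d} (hw : w ∈ I)
    (h : ∀ i, ⟪w, u i⟫ = 0) : w = 0 := by
  rw [← span_eq hn hu ho] at hw
  have key : ∀ v ∈ Submodule.span ℝ (Set.range u), ⟪w, v⟫ = 0 := by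
    intro v hv
    induction hv using Submodule.span_induction with
    | mem x hx => obtain ⟨i, rfl⟩ := hx; exact h i
    | zero => exact inner_zero_right _
    | add x y _ _ hx hy => rw [inner_add_right, hx, hy, add_zero]
    | smul a x _ hx => rw [inner_smul_right, hx, mul_zero]
  exact inner_self_eq_zero.1 (key w hw)

lemma inner_sum {u : Fin n → E d} (ho : Orthonormal ℝ u) (g : Fin n → ℝ) (j : Fin n) :
    ⟪∑ i, g i • u i, u j⟫ = g j := by
  rw [_root_.sum_inner]
  rw [Finset.sum_eq_single j]
  · rw [real_inner_smul_left, real_inner_self_eq_norm_sq, ho.norm_eq_one]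
    ring
  · intro i _ hij
    rw [real_inner_smul_left, ho.inner_eq_zero hij, mul_zero]
  · intro h
    exact absurd (Finset.mem_univ j) h

end VECD

open VECD in
theorem t_VECD : S_VECD := by
  intro d n I K u e hn3 hn hu ho hP hS
  have hx : ∀ h ∈ K, ∀ (π : Equiv.Perm (Fin n)) (s : Fin n → ℤˣ),
      (∀ i, h (u i) = (sg (s i) : ℝ) • u (π i)) → ∀ i, ⟪e, u i⟫ = sg (s i) * ⟪e, u (π i)⟫ := by
    intro h hh π s hs i
    have h1 : ⟪h e, h (u i)⟫ = ⟪e, u i⟫ := h.inner_map_map e (u i)
    rw [hS.fix h hh, hs i, real_inner_smul_right] at h1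
    exact h1.symm
  have hee : e = ∑ i, ⟪e, u i⟫ • u i := by
    rw [← sub_eq_zero]
    refine eq_zero hn hu ho (I.sub_mem hS.mem (I.sum_mem fun i _ => I.smul_mem _ (hu i))) ?_
    intro j
    rw [inner_sub_left, inner_sum ho, sub_self]
  have he0 : e ≠ 0 := by
    intro h
    have := hS.norm
    rw [h, norm_zero] at this
    exact zero_ne_one this
  have hex : ∃ j, ⟪e, u j⟫ ≠ 0 := by
    by_contra h
    push Not at h
    exact he0 (eq_zero hn hu ho hS.mem h)
  -- all nonzero coordinates have the same absolute value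
  have key : ∀ i j, ⟪e, u i⟫ ≠ 0 → ⟪e, u j⟫ ≠ 0 → |⟪e, u i⟫| = |⟪e, u j⟫| := by
    intro i j hi hj
    set c : ℝ := |⟪e, u j⟫| with hc
    set g : Fin n → ℝ := fun i => if |⟪e, u i⟫| = c then ⟪e, u i⟫ else 0 with hg
    set w : E d := ∑ i, g i • u i with hw
    have hwI : w ∈ I := I.sum_mem fun i _ => I.smul_mem _ (hu i)
    have hfix : ∀ h ∈ K, h w = w := by
      intro h hh
      obtain ⟨π, s, hs⟩ := hP h hh
      have hxx := hx h hh π s hs
      rw [hw, map_sum]
      rw [← Equiv.sum_comp π fun i => g i • u i]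
      refine Finset.sum_congr rfl fun i _ => ?_
      rw [map_smul, hs i, smul_smul]
      congr 1
      have habs : |⟪e, u i⟫| = |⟪e, u (π i)⟫| := by
        rw [hxx i, abs_mul, sg_abs, one_mul]
      have hval : ⟪e, u i⟫ * sg (s i) = ⟪e, u (π i)⟫ := by
        rw [hxx i]
        have := sg_sq1 (s i)
        linear_combination ⟪e, u (π i)⟫ * this
      simp only [hg]
      rw [habs]
      split_ifs
      · exact hval
      · ring
    set w' : E d := w - ⟪e, w⟫ • e with hw'
    have hw'I : w' ∈ I := I.sub_mem hwI (I.smul_mem _ hS.mem)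
    have hw'e : w' ∈ (Submodule.span ℝ {e})ᗮ := by
      rw [Submodule.mem_orthogonal_singleton_iff_inner_right, hw', inner_sub_right,
        real_inner_smul_right, real_inner_self_eq_norm_sq, hS.norm]
      ring
    have hw'fix : ∀ h ∈ K, h w' = w' := by
      intro h hh
      rw [hw', map_sub, map_smul, hfix h hh, hS.fix h hh]
    have hw'0 : w' = 0 := by
      rcases hS.irr (Submodule.span ℝ {w'}) (by
        rw [Submodule.span_singleton_le_iff_mem]
        exact ⟨hw'I, hw'e⟩) (by
        intro h hh v hv
        obtain ⟨a, rfl⟩ := Submodule.mem_span_singleton.1 hv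
        rw [map_smul, hw'fix h hh]
        exact hv) with h | h
      · exact Submodule.span_singleton_eq_bot.1 h
      · exfalso
        have h1 := Submodule.finrank_add_inf_finrank_orthogonal
          (K₁ := Submodule.span ℝ {e}) (K₂ := I) (by
            rw [Submodule.span_singleton_le_iff_mem]; exact hS.mem)
        rw [finrank_span_singleton he0, hn, inf_comm, ← h] at h1
        have h2 := finrank_span_le_card (R := ℝ) ({w'} : Set (E d))
        simp only [Set.toFinset_singleton, Finset.card_singleton] at h2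
        omega
    have hweq : w = ⟪e, w⟫ • e := sub_eq_zero.1 hw'0
    have hcomp : ∀ k, g k = ⟪e, w⟫ * ⟪e, u k⟫ := by
      intro k
      have := congrArg (fun z => ⟪z, u k⟫) hweq
      simp only [real_inner_smul_left] at this
      rw [hw, inner_sum ho] at this
      exact this
    have h1 := hcomp j
    have hgj : g j = ⟪e, u j⟫ := by simp only [hg]; rw [if_pos hc.symm]
    have ht : ⟪e, w⟫ = 1 := by
      rw [hgj] at h1
      have : (⟪e, w⟫ - 1) * ⟪e, u j⟫ = 0 := by linarith
      rcases mul_eq_zero.1 this with h | h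
      · linarith
      · exact absurd h hj
    have h2 := hcomp i
    rw [ht, one_mul] at h2
    by_contra hne
    simp only [hg] at h2
    rw [if_neg hne] at h2
    exact hi h2.symm
  by_cases hall : ∀ i, ⟪e, u i⟫ ≠ 0
  · right
    intro i
    have hnorm : ∑ k, ⟪e, u k⟫ * ⟪e, u k⟫ = 1 := by
      have h1 : ⟪e, e⟫ = (1 : ℝ) := by
        rw [real_inner_self_eq_norm_sq, hS.norm]; norm_num
      rw [← h1]
      nth_rewrite 4 [hee]
      rw [_root_.inner_sum]
      exact Finset.sum_congr rfl fun k _ => by rw [real_inner_smul_right]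
    have hconst : ∀ k, ⟪e, u k⟫ * ⟪e, u k⟫ = ⟪e, u i⟫ ^ 2 := by
      intro k
      rw [← abs_mul_abs_self, key k i (hall k) (hall i), abs_mul_abs_self]
      ring
    simp only [hconst, Finset.sum_const, Finset.card_univ, Fintype.card_fin, nsmul_eq_mul] at hnorm
    have hn0 : (n : ℝ) ≠ 0 := by
      have : (0 : ℝ) < n := by exact_mod_cast (by omega : 0 < n)
      exact this.ne'
    field_simp
    linarith
  · left
    push Not at hall
    obtain ⟨z, hz⟩ := hall
    -- the span of the u i with coordinate 0
    set B : Submodule ℝ (E d) := Submodule.span ℝ {v | ∃ i, ⟪e, u i⟫ = 0 ∧ v = u i} with hB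
    have hBle : B ≤ I ⊓ (Submodule.span ℝ {e})ᗮ := by
      rw [hB, Submodule.span_le]
      rintro _ ⟨i, hi, rfl⟩
      refine ⟨hu i, ?_⟩
      rw [SetLike.mem_coe, Submodule.mem_orthogonal_singleton_iff_inner_right]
      exact hi
    have hBinv : ∀ h ∈ K, ∀ w ∈ B, h w ∈ B := by
      intro h hh w hw
      obtain ⟨π, s, hs⟩ := hP h hh
      have hxx := hx h hh π s hs
      rw [hB] at hw
      induction hw using Submodule.span_induction with
      | mem x hx' =>
        obtain ⟨i, hi, rfl⟩ := hx'
        rw [hs i]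
        refine B.smul_mem _ (Submodule.subset_span ⟨π i, ?_, rfl⟩)
        have h1 := hxx i
        rw [hi] at h1
        rcases mul_eq_zero.1 h1.symm with h2 | h2
        · have := sg_sq1 (s i)
          rw [h2] at this
          simp at this
        · exact h2
      | zero => rw [map_zero]; exact B.zero_mem
      | add x y _ _ hx1 hy1 => rw [map_add]; exact B.add_mem hx1 hy1
      | smul a x _ hx1 => rw [map_smul]; exact B.smul_mem _ hx1
    have hBorth : ∀ i, ⟪e, u i⟫ ≠ 0 → ∀ w ∈ B, ⟪w, u i⟫ = 0 := by
      intro i hi w hw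
      rw [hB] at hw
      induction hw using Submodule.span_induction with
      | mem x hx' =>
        obtain ⟨k, hk, rfl⟩ := hx'
        refine ho.inner_eq_zero ?_
        rintro rfl
        exact hi hk
      | zero => exact inner_zero_left _
      | add x y _ _ hx1 hy1 => rw [inner_add_left, hx1, hy1, add_zero]
      | smul a x _ hx1 => rw [real_inner_smul_left, hx1, mul_zero]
    have hBI : B = I ⊓ (Submodule.span ℝ {e})ᗮ := by
      rcases hS.irr B hBle hBinv with h | h
      · exfalso
        have h1 : u z ∈ B := Submodule.subset_span ⟨z, hz, rfl⟩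
        rw [h, Submodule.mem_bot] at h1
        exact ho.ne_zero z h1
      · exact h
    obtain ⟨j, hj⟩ := hex
    have huniq : ∀ i, i ≠ j → ⟪e, u i⟫ = 0 := by
      intro i hij
      by_contra hi
      have hmem : ⟪e, u j⟫ • u i - ⟪e, u i⟫ • u j ∈ B := by
        rw [hBI]
        refine ⟨I.sub_mem (I.smul_mem _ (hu i)) (I.smul_mem _ (hu j)), ?_⟩
        rw [SetLike.mem_coe, Submodule.mem_orthogonal_singleton_iff_inner_right, inner_sub_right,
          real_inner_smul_right, real_inner_smul_right]
        ring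
      have h1 := hBorth i hi _ hmem
      rw [inner_sub_left, real_inner_smul_left, real_inner_smul_left, real_inner_self_eq_norm_sq,
        ho.norm_eq_one, ho.inner_eq_zero hij.symm] at h1
      apply hj
      linarith
    have hej : e = ⟪e, u j⟫ • u j := by
      nth_rewrite 1 [hee]
      rw [Finset.sum_eq_single j]
      · intro i _ hij
        rw [huniq i hij, zero_smul]
      · intro h
        exact absurd (Finset.mem_univ j) h
    have habs : |⟪e, u j⟫| = 1 := by
      have h1 := hS.norm
      rw [hej, norm_smul, ho.norm_eq_one, mul_one, Real.norm_eq_abs] at h1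
      exact h1
    refine ⟨j, ?_⟩
    rcases (abs_eq (zero_le_one' ℝ)).1 habs with h | h
    · left
      rw [hej, h, one_smul]
    · right
      rw [hej, h, neg_smul, one_smul]

end FOK
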