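import Pool.Agent.FOK.Stmts4

/-!
# The distinguished generators
-/

namespace FOK

open Lib_helper64.FO FO2

namespace QGE

theorem smul_mem {P : Type} [PartialOrder P] {γ : P ≃o P} {C : Flag P} {x : P} (hx : x ∈ C) :
    γ x ∈ γ • C := by
  rw [← SetLike.mem_coe, Flag.coe_smul, Set.mem_smul_set]
  exact ⟨x, hx, rfl⟩

end QGE

theorem t_QGE : StmtFlag → StmtPoly → StmtQGE := by
  intro hFl hPo d P _ _ rk hP C ρ hρ
  obtain ⟨-, -, -, -, hdia⟩ := hFl d P rk hP
  obtain ⟨ρ', h'⟩ := hPo d P rk hP C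
  have key : ∀ i (h : i < d), ρ ⟨i, h⟩ = ρ' i := by
    intro i h
    obtain ⟨D, -, -, huniq⟩ := hdia C i h
    have h1 : ρ ⟨i, h⟩ • C = D := by
      refine huniq _ (hρ ⟨i, h⟩).1 ?_
      intro x hx hr
      have e := (hρ ⟨i, h⟩).2 x hx hr
      have := QGE.smul_mem (γ := ρ ⟨i, h⟩) hx
      rwa [e] at this
    have h2 : ρ' i • C = D := by
      refine huniq _ (fun e => h'.ne_one i h (h'.free _ e)) ?_
      intro x hx hr
      have e := h'.moves i x hx hr
      have := QGE.smul_mem (γ := ρ' i) hx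
      rwa [e] at this
    have h3 : ((ρ' i)⁻¹ * ρ ⟨i, h⟩) • C = C := by
      rw [mul_smul, h1, ← h2, inv_smul_smul]
    have h4 := h'.free _ h3
    exact (inv_mul_eq_one.mp h4).symm
  have hE : exG ρ = ρ' := by
    funext i
    by_cases h : i < d
    · rw [exG, dif_pos h, key i h]
    · rw [exG, dif_neg h, h'.one_of_ge i (by omega)]
  rw [hE]
  exact h'

end FOK
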