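import Pool.Agent.FOK.Stmts2

/-!
# Statements of the modules, part 3: section 10 of the paper
-/

namespace FOK

open Lib_helper64.FO FO2
open scoped RealInnerProductSpace Nat

noncomputable section

/-! ## Section 10: the top -/

/-- what is known after section 9 -/
structure Top {d k : ℕ} {Γ : Type} [Group Γ] {X : Type} [MulAction Γ X] (G : KGeo d k Γ X)
    (l : ℕ) : Prop where
  l5 : 5 ≤ l
  ld : 2 * l + 20 ≤ d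
  lk : l ≤ 48 * k ^ 5 + 3
  up : G.up (l - 3) ≤ G.N
  nz : ∀ i, i < d → G.NZ i
  dimV : ∀ g i, i ≤ d → Module.finrank ℝ (G.V g i) = i
  W : ∀ g i, i < d → G.W g i = G.V g (i + 1)
  /-- `ρ l` is a reflection in every frame -/
  refl : ∀ g, ∃ a : E d, ‖a‖ = 1 ∧ ∀ v, G.R g (G.ρ l) v = sref a v
  irr : ∀ g, IrrRS (Ph G g l l)
  span : ∀ g, Submodule.span ℝ (Ph G g l l) = G.U g l

/-- 10, beginning; `l = j1 + 5`. `up (l - 3) ≤ N`: `up (j1 + 4) ≤ N` by S_FS for `m = j1 + 3`, and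
`ρ (j1 + 2), ρ (j1 + 3) ∈ N` by S_N4. No zeros: second part of S_NZ. `S = ⊤` by S_S2 with `m = d`;
then `Y g l = U g l`. -/
def S_TOP : Prop :=
  ∀ (d k : ℕ) (Γ : Type) [Group Γ] [Finite Γ] (X : Type) [MulAction Γ X] (G : KGeo d k Γ X)
    (u q j1 j2 : ℕ), 1 ≤ k → Sub G u q j1 j2 → q + 1 ≤ 48 * k ^ 5 → Top G (j1 + 5)

def M_TOP : Prop := S_NZ → S_STEP → S_S2 → S_RUN → S_N1 → S_N4 → S_NINE → S_FS → S_TOP

/-- 10.1, 10.2 -/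
structure TopI {d k : ℕ} {Γ : Type} [Group Γ] {X : Type} [MulAction Γ X] (G : KGeo d k Γ X)
    (l : ℕ) (g : Γ) (i : ℕ) : Prop where
  TN : TT G i l ⊆ G.Ni i
  rs : IsRS (Ph G g i l)
  irr : IrrRS (Ph G g i l)
  span : Submodule.span ℝ (Ph G g i l) = G.U g i
  root : ∀ x ∈ TT G i l, ∃ a ∈ Ph G g i l, ∀ v, G.R g x v = sref a v
  inv : ∀ n ∈ G.Ni i, ∀ a ∈ Ph G g i l, G.R g n a ∈ Ph G g i l
  trans : ∀ a ∈ Ph G g i l, ∀ b ∈ Ph G g i l, ∃ n ∈ G.Ni i, G.R g n a = b ∨ G.R g n a = -b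

def S_TI : Prop :=
  ∀ (d k : ℕ) (Γ : Type) [Group Γ] [Finite Γ] (X : Type) [MulAction Γ X] (G : KGeo d k Γ X)
    (l : ℕ), Top G l → ∀ g i, i ≤ l → TopI G l g i

/-- 10.3, first part: the type of the root system (FO2.rga, rgb, rgc, rgd, rg3a, rg3b, rg3c) -/
def S_TAD : Prop :=
  ∀ (d k : ℕ) (Γ : Type) [Group Γ] [Finite Γ] (X : Type) [MulAction Γ X] (G : KGeo d k Γ X)
    (l : ℕ), Top G l → SL (Ph G 1 0 l) ∧ ((∃ v, IsA (Ph G 1 0 l) v) ∨ ∃ u, IsD (Ph G 1 0 l) u)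

def M_TAD : Prop := S_TI → S_TAD

/-- `β` is an isometry `β_γ` as in 10.3 -/
def IsB {d k : ℕ} {Γ : Type} [Group Γ] {X : Type} [MulAction Γ X] (G : KGeo d k Γ X)
    (l : ℕ) (γ : Γ) (β : E d ≃ₗᵢ[ℝ] E d) : Prop :=
  ∀ x ∈ TT G 0 l, ∀ v, β (G.R 1 x v) = G.R 1 (γ * x * γ⁻¹) (β v)

/-- 10.3, existence (by FO2.rg2), uniqueness, products -/
def S_BE1 : Prop :=
  ∀ (d k : ℕ) (Γ : Type) [Group Γ] [Finite Γ] (X : Type) [MulAction Γ X] (G : KGeo d k Γ X)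
    (l : ℕ), Top G l →
    (∀ γ, ∃ β, IsB G l γ β) ∧
    (∀ γ β β', IsB G l γ β → IsB G l γ β' → (∀ v, β' v = β v) ∨ ∀ v, β' v = -β v) ∧
    (∀ γ γ' β β', IsB G l γ β → IsB G l γ' β' → IsB G l (γ * γ') (β * β')) ∧
    ∀ n ∈ G.N, IsB G l n (G.R 1 n)

def M_BE1 : Prop := S_TI → S_TAD → S_BE1

/-- 10.3, properties of `β_γ` -/
def S_BE2 : Prop :=
  ∀ (d k : ℕ) (Γ : Type) [Group Γ] [Finite Γ] (X : Type) [MulAction Γ X] (G : KGeo d k Γ X)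
    (l : ℕ), Top G l → ∀ γ β, IsB G l γ β →
      (∀ x ∈ Subgroup.closure (TT G 0 l), ∀ v, β (G.R 1 x v) = G.R 1 (γ * x * γ⁻¹) (β v)) ∧
      (∀ n ∈ G.N, (∀ v, β (G.R 1 n v) = G.R 1 (γ * n * γ⁻¹) (β v)) ∨
        ∀ v, β (G.R 1 n v) = -G.R 1 (γ * n * γ⁻¹) (β v)) ∧
      (∀ n ∈ G.Ni 1, ∀ v, β (G.R 1 n v) = G.R 1 (γ * n * γ⁻¹) (β v)) ∧
      (∀ i v, β v ∈ G.V γ i ↔ v ∈ G.V 1 i) ∧
      ∀ a, β a ∈ Ph G 1 0 l ↔ a ∈ Ph G 1 0 l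

def M_BE2 : Prop := S_TI → S_BE1 → S_BE2

/-- the isometries `g_j` of 10.4 -/
structure Gens {d k : ℕ} {Γ : Type} [Group Γ] {X : Type} [MulAction Γ X] (G : KGeo d k Γ X)
    (l : ℕ) (gg : ℕ → (E d ≃ₗᵢ[ℝ] E d)) : Prop where
  isB : ∀ j, j < d → IsB G l (G.ρ j) (gg j)
  pres : ∀ j i v, j < d → i ≠ j + 1 → v ∈ G.V 1 i → gg j v ∈ G.V 1 i
  moves : ∀ j, j + 1 < d → ∀ e ∈ G.D 1 j, e ≠ 0 → gg j e ∉ G.V 1 (j + 1)
  sq : ∀ j, j < d → ∀ v, gg j (gg j v) = v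
  comm : ∀ i j, i + 2 ≤ j → j < d → ∀ v, gg i (gg j v) = gg j (gg i v)
  fix : ∀ j, 1 ≤ j → j < d → ∀ v ∈ G.V 1 j, gg j v = v
  inN : ∀ j, 1 ≤ j → j < d → G.ρ j ∈ G.N → gg j = G.R 1 (G.ρ j)
  root : ∀ j, j < d → ∀ a, gg j a ∈ Ph G 1 0 l ↔ a ∈ Ph G 1 0 l
  scal0 : ∃ ε : ℝ, (ε = 1 ∨ ε = -1) ∧ ∀ v ∈ G.U 1 2, gg 0 v = ε • v
  /-- `f (ρ_w x0)` is a multiple of `g_w y0` -/
  word : ∀ y0 ∈ G.V 1 1, y0 ≠ 0 → ∀ w : List (Fin d), ∃ r : ℝ, r ≠ 0 ∧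
    G.f ((w.map (fun j => G.ρ j)).prod • G.x0) = r • ((w.map (fun j => gg j)).prod y0)

/-- 10.4 -/
def S_GN1 : Prop :=
  ∀ (d k : ℕ) (Γ : Type) [Group Γ] [Finite Γ] (X : Type) [MulAction Γ X] (G : KGeo d k Γ X)
    (l : ℕ), Top G l → ∃ gg, Gens G l gg

def M_GN1 : Prop := S_STEP → S_TI → S_BE1 → S_BE2 → S_GN1

/-- the sign of `g_0` can be chosen -/
def S_GN2 : Prop :=
  ∀ (d k : ℕ) (Γ : Type) [Group Γ] [Finite Γ] (X : Type) [MulAction Γ X] (G : KGeo d k Γ X)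
    (l : ℕ), Top G l → ∀ gg, Gens G l gg →
    Gens G l (fun j => if j = 0 then (gg 0).trans (LinearIsometryEquiv.neg ℝ) else gg j)

/-- 10.5 -/
def S_POS : Prop :=
  ∀ (d k : ℕ) (Γ : Type) [Group Γ] [Finite Γ] (X : Type) [MulAction Γ X] (G : KGeo d k Γ X)
    (l : ℕ), Top G l → ∀ y0 ∈ G.V 1 1, ‖y0‖ = 1 →
    (∀ v, IsA (Ph G 1 0 l) v → ∃ i, y0 = v i ∨ y0 = -v i) ∧
    ∀ u, IsD (Ph G 1 0 l) u → (∃ i, y0 = u i ∨ y0 = -u i) ∨ ∀ i, ⟪y0, u i⟫ ^ 2 = (1 / d : ℝ)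

def M_POS : Prop := S_TI → S_VECA → S_VECD → S_POS

/-- 10.6, 10.7: the combinatorial part: permutations of `n` points and a chain of subsets `B i`. -/
structure PrmH (n : ℕ) (τ : ℕ → Equiv.Perm (Fin n)) (B : ℕ → Finset (Fin n)) : Prop where
  card : ∀ i, i + 2 ≤ n → (B i).card = i
  mono : ∀ i, i + 3 ≤ n → B i ⊆ B (i + 1)
  pres : ∀ j i, j + 2 ≤ n → i + 2 ≤ n → i ≠ j + 1 → ∀ p ∈ B i, τ j p ∈ B i
  fix : ∀ j, j + 2 ≤ n → ∀ p ∈ B j, τ j p = p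
  moves : ∀ j, j + 3 ≤ n → ∃ p ∈ B (j + 1), τ j p ∉ B (j + 1)
  sq : ∀ j, j + 2 ≤ n → τ j * τ j = 1
  comm : ∀ i j, i + 2 ≤ j → j + 2 ≤ n → τ i * τ j = τ j * τ i
  ne : τ (n - 2) ≠ 1
  nc : (τ (n - 5) * τ (n - 4)) ^ 3 ≠ τ (n - 2)

/-- The points are numbered by `e`: `B i = {e 0, …, e (i - 1)}` for `i ≤ n - 2`. For `j + 4 ≤ n` the
permutation `τ j` is the transposition of `e j` and `e (j + 1)`, perhaps times the transposition of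
the last two points `e (n - 2)`, `e (n - 1)`; this is excluded for `j + 5 ≤ n` by the commutation
with `τ (n - 3)`, the transposition of `e (n - 3)` and `e (n - 2) := τ (n - 3) (e (n - 3))`, and for
`j = n - 4` by `nc`. -/
def S_PRM : Prop :=
  ∀ (n : ℕ) (τ : ℕ → Equiv.Perm (Fin n)) (B : ℕ → Finset (Fin n)), 6 ≤ n → PrmH n τ B →
    ∃ e : ℕ → Fin n, (∀ i j, i < n → j < n → e i = e j → i = j) ∧
      (∀ i, i + 2 ≤ n → ∀ p, p ∈ B i ↔ ∃ m, m < i ∧ e m = p) ∧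
      ∀ j, j + 2 ≤ n → τ j = Equiv.swap (e j) (e (j + 1))

/-- 10.6, first part. `B i = {p | v p ∈ V 1 i}`. -/
def S_MA1 : Prop :=
  ∀ (d k : ℕ) (Γ : Type) [Group Γ] [Finite Γ] (X : Type) [MulAction Γ X] (G : KGeo d k Γ X)
    (l : ℕ), Top G l → ∀ gg, Gens G l gg → ∀ v, IsA (Ph G 1 0 l) v → (∃ i, v i ∈ G.V 1 1) →
    ∃ (gm : ℕ → (E d ≃ₗᵢ[ℝ] E d)) (τ : ℕ → Equiv.Perm (Fin (d + 1))) (B : ℕ → Finset (Fin (d + 1))),
      Gens G l gm ∧ (∀ j, j < d → ∀ i, gm j (v i) = v (τ j i)) ∧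
      (∀ i, i + 1 ≤ d → ∀ p, p ∈ B i ↔ v p ∈ G.V 1 i) ∧ PrmH (d + 1) τ B

def M_MA1 : Prop := S_GN2 → S_MA1

/-- 10.6 -/
def S_MA : Prop :=
  ∀ (d k : ℕ) (Γ : Type) [Group Γ] [Finite Γ] (X : Type) [MulAction Γ X] (G : KGeo d k Γ X)
    (l : ℕ), Top G l → ∀ gg, Gens G l gg → ∀ v, IsA (Ph G 1 0 l) v → (∃ i, v i ∈ G.V 1 1) →
    ∃ v' gm, Gens G l gm ∧ IsA (Ph G 1 0 l) v' ∧ v' 0 ∈ G.V 1 1 ∧
      ∀ (j : Fin d) (i : Fin (d + 1)), gm j (v' i) = v' (Equiv.swap j.castSucc j.succ i)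

def M_MA : Prop := S_PRM → S_MA1 → S_MA

/-- 10.7 -/
def S_MD : Prop :=
  ∀ (d k : ℕ) (Γ : Type) [Group Γ] [Finite Γ] (X : Type) [MulAction Γ X] (G : KGeo d k Γ X)
    (l : ℕ), Top G l → ∀ gg, Gens G l gg → ∀ u, IsD (Ph G 1 0 l) u → ∀ y0 ∈ G.V 1 1,
    (∀ i, ⟪y0, u i⟫ ^ 2 = (1 / d : ℝ)) →
    ∃ (u' : OrthonormalBasis (Fin d) ℝ (E d)) (gm : ℕ → (E d ≃ₗᵢ[ℝ] E d)), Gens G l gm ∧
      IsD (Ph G 1 0 l) u' ∧ ∑ i, u' i ∈ G.V 1 1 ∧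
      ∀ j i : Fin d, gm j (u' i) =
        if j.val = 0 then (if i = j then - u' i else u' i) else u' (Equiv.swap (prd j) j i)

/-- 10.8 -/
def S_MC : Prop :=
  ∀ (d k : ℕ) (Γ : Type) [Group Γ] [Finite Γ] (X : Type) [MulAction Γ X] (G : KGeo d k Γ X)
    (l : ℕ), Top G l → ∀ gg, Gens G l gg → ∀ u, IsD (Ph G 1 0 l) u → (∃ i, u i ∈ G.V 1 1) →
    ∃ (u' : OrthonormalBasis (Fin d) ℝ (E d)) (gm : ℕ → (E d ≃ₗᵢ[ℝ] E d)), Gens G l gm ∧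
      IsD (Ph G 1 0 l) u' ∧ (∀ h : 0 < d, u' ⟨0, h⟩ ∈ G.V 1 1) ∧
      ∀ j i : Fin d, gm j (u' i) =
        if h : j.val + 1 < d then u' (Equiv.swap j ⟨j.val + 1, h⟩ i)
        else (if i = j then - u' i else u' i)

/-! ### 10.9: the mixing datum -/

/-- 10.9: two words with the same sign whose points `g_w y0` are conjugate under the group
generated by the reflections -/
def S_MIXG : Prop :=
  ∀ (d k : ℕ) (Γ : Type) [Group Γ] [Finite Γ] (X : Type) [MulAction Γ X] (G : KGeo d k Γ X)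
    (l : ℕ), Top G l → ∀ gm, Gens G l gm → ∀ y0 ∈ G.V 1 1, y0 ≠ 0 →
    ∀ s : Fin d → ℤˣ, (∀ j, 1 ≤ j.val → s j = 1) →
    (∀ w w' : List (Fin d), (w.map s).prod = (w'.map s).prod →
      ∃ x ∈ Subgroup.closure (TT G 0 l),
        G.R 1 x ((w.map (fun j => gm j)).prod y0) = (w'.map (fun j => gm j)).prod y0) →
    ∃ (A : Type) (M : Mix d A) (p : A → ℤˣ), Finite A ∧
      (∀ j : Fin d, 48 * k ^ 5 ≤ j.val → M.π j = 1) ∧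
      (∀ j a, p (M.π j a) = s j * p a) ∧ (∀ a b, p a = p b → M.r a = M.r b → a = b) ∧
      ∀ w : List (Fin d), G.f ((w.map (fun j => G.ρ j)).prod • G.x0) =
        M.r ((w.map M.π).prod M.a0) • ((w.map (fun j => gm j)).prod y0)

def M_MIXG : Prop := S_BE2 → S_MIXG

/-- the hypothesis of S_MIXG, simplex -/
def S_TRA : Prop :=
  ∀ (d k : ℕ) (Γ : Type) [Group Γ] [Finite Γ] (X : Type) [MulAction Γ X] (G : KGeo d k Γ X)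
    (l : ℕ), Top G l → ∀ (gm : ℕ → (E d ≃ₗᵢ[ℝ] E d)) (v : Fin (d + 1) → E d),
    IsA (Ph G 1 0 l) v →
    (∀ (j : Fin d) (i : Fin (d + 1)), gm j (v i) = v (Equiv.swap j.castSucc j.succ i)) →
    ∀ w w' : List (Fin d), ∃ x ∈ Subgroup.closure (TT G 0 l),
      G.R 1 x ((w.map (fun j => gm j)).prod (v 0)) = (w'.map (fun j => gm j)).prod (v 0)

/-- the hypothesis of S_MIXG, cross-polytope -/
def S_TRC : Prop :=
  ∀ (d k : ℕ) (Γ : Type) [Group Γ] [Finite Γ] (X : Type) [MulAction Γ X] (G : KGeo d k Γ X)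
    (l : ℕ), Top G l → ∀ (gm : ℕ → (E d ≃ₗᵢ[ℝ] E d)) (u : OrthonormalBasis (Fin d) ℝ (E d)),
    IsD (Ph G 1 0 l) u →
    (∀ j i : Fin d, gm j (u i) = if h : j.val + 1 < d then u (Equiv.swap j ⟨j.val + 1, h⟩ i)
        else (if i = j then - u i else u i)) →
    ∀ (h : 0 < d) (w w' : List (Fin d)), ∃ x ∈ Subgroup.closure (TT G 0 l),
      G.R 1 x ((w.map (fun j => gm j)).prod (u ⟨0, h⟩)) =
        (w'.map (fun j => gm j)).prod (u ⟨0, h⟩)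

/-- the hypothesis of S_MIXG, cube -/
def S_TRD : Prop :=
  ∀ (d k : ℕ) (Γ : Type) [Group Γ] [Finite Γ] (X : Type) [MulAction Γ X] (G : KGeo d k Γ X)
    (l : ℕ), Top G l → ∀ (gm : ℕ → (E d ≃ₗᵢ[ℝ] E d)) (u : OrthonormalBasis (Fin d) ℝ (E d)),
    IsD (Ph G 1 0 l) u →
    (∀ j i : Fin d, gm j (u i) =
        if j.val = 0 then (if i = j then - u i else u i) else u (Equiv.swap (prd j) j i)) →
    ∀ w w' : List (Fin d),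
      (w.map (fun j : Fin d => if j.val = 0 then (-1 : ℤˣ) else 1)).prod =
        (w'.map (fun j : Fin d => if j.val = 0 then (-1 : ℤˣ) else 1)).prod →
      ∃ x ∈ Subgroup.closure (TT G 0 l),
        G.R 1 x ((w.map (fun j => gm j)).prod (∑ i, u i)) =
          (w'.map (fun j => gm j)).prod (∑ i, u i)

/-- The conclusion of sections 1 - 10. -/
def Concl {d k : ℕ} {Γ : Type} [Group Γ] {X : Type} [MulAction Γ X] (G : KGeo d k Γ X) : Prop :=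
  ∃ (y0 : E d) (g : Fin d → (E d ≃ₗᵢ[ℝ] E d)) (A : Type) (M : Mix d A),
    Finite A ∧ (∀ j : Fin d, 48 * k ^ 5 ≤ j.val → M.π j = 1) ∧
    ((SimplexModel y0 g ∧ Function.Injective M.r) ∨ (CrossModel y0 g ∧ Function.Injective M.r) ∨
      (CubeModel y0 g ∧ ∃ p : A → ℤˣ, (∀ j a, p (M.π j a) = if j.val = 0 then - p a else p a) ∧
        ∀ a b, p a = p b → M.r a = M.r b → a = b)) ∧
    ∀ w : List (Fin d), G.f ((w.map (fun j => G.ρ j)).prod • G.x0) =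
      M.r ((w.map M.π).prod M.a0) • ((w.map g).prod y0)

def S_CONCL : Prop :=
  ∀ (d k : ℕ) (Γ : Type) [Group Γ] [Finite Γ] (X : Type) [MulAction Γ X] (G : KGeo d k Γ X),
    1 ≤ k → 100 * k ^ 5 ≤ d → Concl G

def M_CONCL : Prop := S_WIN → S_SUB → S_TOP → S_TAD → S_GN1 → S_POS → S_MA → S_MD → S_MC →
  S_MIXG → S_TRA → S_TRC → S_TRD → S_CONCL

end

end FOK
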