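import Pool.Agent.FOK.Geo
import Pool.Agent.FO2.Stmts

/-!
# Block Q: polytopes, counting (section 11), existence (section 12)

Architect helper36.  Paper proofs: the doc-strings, PAPER.md section 11 and PAPER12.md.
-/

namespace FOK

open Lib_helper64.FO FO2
open scoped RealInnerProductSpace

noncomputable section

/-! ## Realizations and their algebraic form -/

/-- QLI: centring and linearising; the isometries are the identity on the orthogonal complement of the
span. Proof: that of `FO2.lin` (`Pool/Agent/FO2/LIN.lean`): there `mk f L` is the isometry equal to `L` on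
the span `W f` of the vectors `f x - cen f` and to the identity on its orthogonal complement. -/
def StmtQLI : Prop :=
  ∀ (d : ℕ) (Γ : Type) [Group Γ] (X : Type) [Finite X] [Nonempty X] [MulAction Γ X] (f : X → E d)
    (H : Subgroup Γ), (∀ h ∈ H, ∃ T : E d ≃ᵢ E d, ∀ x, T (f x) = f (h • x)) →
    ∃ (c : E d) (T : Γ → (E d ≃ₗᵢ[ℝ] E d)), (∀ g ∈ H, ∀ h ∈ H, T (g * h) = T g * T h) ∧
      (∀ h ∈ H, ∀ x, T h (f x - c) = f (h • x) - c) ∧
      ∀ h ∈ H, ∀ v : E d, (∀ x, ⟪f x - c, v⟫ = 0) → T h v = v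

/-- the generators with indices in `ℕ`, equal to `1` from `d` on -/
def exG {d : ℕ} {Γ : Type} [Group Γ] (ρ : Fin d → Γ) (i : ℕ) : Γ :=
  if h : i < d then ρ ⟨i, h⟩ else 1

/-- QGE: the distinguished generators. Proof: `FO2.StmtPoly` gives `ρ'` with `PolyGroup d rk C ρ'`; by
`StmtFlag` (last part) the flag adjacent to `C` at rank `j` is unique, so `ρ j • C = ρ' j • C`
(`ρ' j • C ≠ C` by `free` and `ne_one`), `ρ j = ρ' j` by `free`. -/
def StmtQGE : Prop :=
  ∀ (d : ℕ) (P : Type) [PartialOrder P] [Finite P] (rk : P → ℤ), IsRegularPolytope d rk →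
    ∀ (C : Flag P) (ρ : Fin d → (P ≃o P)), IsGens rk C ρ → PolyGroup d rk C (exG ρ)

/-- `G` is the algebraic form of the realization `f` of the polytope `P` with base flag `C` and
generators `ρ`; `ι` maps the points of `X` to the vertices of `P`, and `c` is the centre. -/
structure KGeoOf {d k : ℕ} {P : Type} [PartialOrder P] (rk : P → ℤ) (f : P → E d) (C : Flag P)
    (ρ : ℕ → (P ≃o P)) {X : Type} [MulAction (P ≃o P) X] (G : KGeo d k (P ≃o P) X) (ι : X → P)
    (c : E d) : Prop where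
  inj : Function.Injective ι
  equiv : ∀ (γ : P ≃o P) (x : X), ι (γ • x) = γ (ι x)
  base : ι G.x0 ∈ C
  rank : ∀ x, rk (ι x) = 0
  surj : ∀ v, rk v = 0 → ∃ x, ι x = v
  gens : G.ρ = ρ
  fval : ∀ x, G.f x = f (ι x) - c
  sym : G.H = symGroup rk f

/-- QIX: the number of flag orbits is the index of the symmetry group. Proof: the automorphism group
acts simply transitively on the flags (`hP.regular`, `PolyGroup.free` of `StmtPoly`);
`Lib_helper64.FO.card_orbits_eq_index`. See the end of `Pool/Agent/FO2/GE1.lean`. -/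
def StmtQIX : Prop :=
  ∀ (d : ℕ) (P : Type) [PartialOrder P] [Finite P] (rk : P → ℤ), IsRegularPolytope d rk →
    ∀ (f : P → E d), flagOrbits rk f = (symGroup rk f).index

/-- QKG: from a `k`-orbit realization to its algebraic form. Proof: that of `FO2.geo1`
(`Pool/Agent/FO2/GE1.lean`) with `StmtQLI` instead of `StmtLin`; `idx` by `StmtQIX`. -/
def StmtQKG : Prop :=
  ∀ (d k : ℕ), 1 ≤ d → 1 ≤ k → ∀ (P : Type) [PartialOrder P] [Finite P] (rk : P → ℤ),
    IsRegularPolytope d rk → ∀ f : P → E d, IsOrbitRealization rk f k →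
    ∀ (C : Flag P) (ρ : ℕ → (P ≃o P)), PolyGroup d rk C ρ →
    ∃ (X : Type) (_ : MulAction (P ≃o P) X) (_ : Finite X) (G : KGeo d k (P ≃o P) X) (ι : X → P)
      (c : E d), KGeoOf rk f C ρ G ι c

/-! ## Counting -/

/-- the conditions on the model and the radii in `Mixed` -/
def ModelOK {d : ℕ} (y0 : E d) (g : Fin d → (E d ≃ₗᵢ[ℝ] E d)) {A : Type} (M : Mix d A) : Prop :=
  (SimplexModel y0 g ∧ Function.Injective M.r) ∨ (CrossModel y0 g ∧ Function.Injective M.r) ∨
    (CubeModel y0 g ∧ ∃ p : A → ℤˣ, (∀ j a, p (M.π j a) = if j.val = 0 then - p a else p a) ∧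
      ∀ a b, p a = p b → M.r a = M.r b → a = b)

/-- the pair `(y, a)` is in the orbit of the base pair -/
def InO {d : ℕ} (y0 : E d) (g : Fin d → (E d ≃ₗᵢ[ℝ] E d)) {A : Type} (M : Mix d A) (y : E d)
    (a : A) : Prop :=
  ∃ w : List (Fin d), (w.map M.π).prod M.a0 = a ∧ (w.map g).prod y0 = y

/-- for each `a` the differences `y - y'` with `(y, a)`, `(y', a)` in the orbit span the space -/
def Rich {d : ℕ} (y0 : E d) (g : Fin d → (E d ≃ₗᵢ[ℝ] E d)) {A : Type} (M : Mix d A) : Prop :=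
  ∀ a, Submodule.span ℝ {v | ∃ y y', InO y0 g M y a ∧ InO y0 g M y' a ∧ v = y - y'} = ⊤

/-- QRS. Proof (simplex): `g_w (v i) = v (σ_w i)` with `σ_w` the product of the transpositions
`(j j+1)`, `j` in `w`; every permutation is some `σ_w` (`Equiv.Perm.mclosure_swap_castSucc_succ`).
Let `π l = 1`. For `i ≠ i'` take `w` with `σ_w l = i`, `σ_w (l+1) = i'`: the word `w l w⁻¹` (`w⁻¹` the
reversed word) has `σ = (i i')` and `π = 1`. So with `(y, a)` also `((i i') y, a)` is in the orbit: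
all `(v i, a)` are in it, for every `a` (`M.trans`; elements of the group generated by the `π j` are
products of words), and the `v i - v i'` span (`IsSimplex`). -/
def StmtQRS : Prop :=
  ∀ (d : ℕ), 4 ≤ d → ∀ (y0 : E d) (g : Fin d → (E d ≃ₗᵢ[ℝ] E d)) (A : Type) (M : Mix d A),
    SimplexModel y0 g → (∃ l : Fin d, 1 ≤ l.val ∧ l.val + 2 ≤ d ∧ M.π l = 1) → Rich y0 g M

/-- QRX. Proof (cross-polytope): `g_w (u i) = ± u (σ_w i)`; every signed permutation matrix with
these entries is some `g_w`. Conjugates of `g_l` (`π = 1`) give all the maps which exchange `u i` and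
`u i'`, and all those which exchange `u i` and `- u i'`; with `(y, a)` also `(- y, a)` is in the orbit, `y =
± u i`, and all `(± u i, a)` are. -/
def StmtQRX : Prop :=
  ∀ (d : ℕ), 4 ≤ d → ∀ (y0 : E d) (g : Fin d → (E d ≃ₗᵢ[ℝ] E d)) (A : Type) (M : Mix d A),
    CrossModel y0 g → (∃ l : Fin d, 1 ≤ l.val ∧ l.val + 2 ≤ d ∧ M.π l = 1) → Rich y0 g M

/-- QRC. Proof (cube): as `StmtQRX` conjugates of `g_l` are all the maps `x` that exchange `u i` and
`u i'`, or `u i` and `- u i'`. Let `(y, a)` be in the orbit, `y = ∑ s i • u i`, `s i = ± 1`. If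
`s i = s i'` then `y - x y = 2 s_i (u i + u i')` for the second `x`, otherwise `y - x y = 2 s_i (u i - u i')` for the
first one: always `2 (s i • u i + s i' • u i')`. For three different indices these span the `u i`. -/
def StmtQRC : Prop :=
  ∀ (d : ℕ), 4 ≤ d → ∀ (y0 : E d) (g : Fin d → (E d ≃ₗᵢ[ℝ] E d)) (A : Type) (M : Mix d A),
    CubeModel y0 g → (∃ l : Fin d, 1 ≤ l.val ∧ l.val + 2 ≤ d ∧ M.π l = 1) → Rich y0 g M

/-- QCT: counting. Proof. Every `γ` is a word `ρ_w` (the `ρ j` are involutions and generate).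
KEY: `ρ_w ∈ H ↔ π_w ∈ HC`. `←`: if `r ∘ π_w = s r`, `s = ± 1`, then `T v = c + s g_w (v - c)` maps
`f (ρ_w' x0) = c + r(π_w' a0) g_w' y0` to `f (ρ_w ρ_w' x0)`. `→`: let `T` be an isometry with
`T (f x) = f (ρ_w x)`, `L` the linear isometry `g_w⁻¹ ∘ (linear part of T)`. For `(y, a)`, `(y', a)` in the
orbit `r a • L (y - y') = r (π_w a) • (y - y')`. By `Rich` `L = r (π_w a) / r a` for every `a`, a constant which is
`± 1` as `L` is an isometry (`0 < d`). So `ρ_w H ↦ π_w HC` is a well defined bijection from `Γ / H` to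
`C / HC` (`HC` is a subgroup of `C`; `Mix.C` is finite): `[Γ : H] |HC| = |C|`. -/
def StmtQCT : Prop :=
  ∀ (d : ℕ), 1 ≤ d → ∀ (Γ : Type) [Group Γ] (X : Type) [MulAction Γ X] (ρ : Fin d → Γ)
    (x0 : X) (f : X → E d) (c y0 : E d) (g : Fin d → (E d ≃ₗᵢ[ℝ] E d)) (A : Type) [Finite A]
    (M : Mix d A) (H : Subgroup Γ),
    Rich y0 g M → Subgroup.closure (Set.range ρ) = ⊤ → (∀ j, ρ j * ρ j = 1) →
    (∀ j, g j * g j = 1) → (∀ x : X, ∃ γ : Γ, γ • x0 = x) →
    (∀ w : List (Fin d), f ((w.map ρ).prod • x0) =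
      c + M.r ((w.map M.π).prod M.a0) • ((w.map g).prod y0)) →
    (∀ γ : Γ, γ ∈ H ↔ ∃ T : E d ≃ᵢ E d, ∀ x, T (f x) = f (γ • x)) →
    H.index * Nat.card M.HC = Nat.card M.C

/-- QH4: `|HC| ≤ 4`. Proof: `q ∈ HC` is determined by the sign `s` with `r ∘ q = s r` and (cube) the
sign `t` with `p ∘ q = t p` (all elements of `M.C` have such a sign). For `r ∘ q = s r = r ∘ q'` and (cube)
`p ∘ q = t p = p ∘ q'` one has `q = q'` by injectivity. -/
def StmtQH4 : Prop :=
  ∀ (d : ℕ) (y0 : E d) (g : Fin d → (E d ≃ₗᵢ[ℝ] E d)) (A : Type) [Finite A] (M : Mix d A),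
    ModelOK y0 g M → Nat.card M.HC ≤ 4

/-- QOD: no odd `k ≥ 3`. Proof: 11.3. `M.C` acts on the `k = |C| / |HC|` cosets of `HC`; `k` odd: an
involution `h = π j` (`j ≥ 1`, `π j ≠ 1`) fixes a coset `c HC`, so `h' = c⁻¹ h c ∈ HC`; it fixes the point
`c⁻¹ a0` (`M.fix`), so `r ∘ h' = r` (radii are nonzero), in the case of the cube `p ∘ h' = p` (`j ≥ 1`), so
`h' = 1`, contradiction. So all `π j`, `j ≥ 1`, are `1`, `|C| ≤ 2`, `k ∣ 2`, `k = 1`. -/
def StmtQOD : Prop :=
  ∀ (d k : ℕ) (y0 : E d) (g : Fin d → (E d ≃ₗᵢ[ℝ] E d)) (A : Type) [Finite A] (M : Mix d A),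
    ModelOK y0 g M → k * Nat.card M.HC = Nat.card M.C → k = 1 ∨ Even k

/-- The result of sections 1 to 10: the algebraic form is the mix of a model and a mixing datum. -/
def AMixed {d k : ℕ} {Γ : Type} [Group Γ] {X : Type} [MulAction Γ X] (G : KGeo d k Γ X) : Prop :=
  ∃ (y0 : E d) (g : Fin d → (E d ≃ₗᵢ[ℝ] E d)) (A : Type) (M : Mix d A), Finite A ∧
    (∀ j : Fin d, 48 * k ^ 5 ≤ j.val → M.π j = 1) ∧ ModelOK y0 g M ∧
    ∀ w : List (Fin d), G.f ((w.map (fun j : Fin d => G.ρ j.val)).prod • G.x0) =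
      M.r ((w.map M.π).prod M.a0) • ((w.map g).prod y0)

/-- sections 1 to 10 -/
def StmtAlg : Prop :=
  ∀ (d k : ℕ), 1 ≤ k → 100 * k ^ 5 ≤ d → ∀ (Γ : Type) [Group Γ] [Finite Γ] (X : Type) [Finite X]
    [MulAction Γ X] (G : KGeo d k Γ X), AMixed G

/-- QAS: the main theorem from its parts. Proof: `→`: `StmtQGE`, `StmtQKG`, `StmtAlg`; the count by
`StmtQCT` for `H = symGroup rk f`, `k * |HC| = |C|`, `|HC| ≤ 4`. `←`: `StmtQCT` for the action on the
vertices and `symGroup rk f`: its index times `|HC|` is `|C| = k |HC|`, so the index is `k`; `StmtQIX`.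
In both directions `π l = 1` for `l = 48 k ^ 5`, `l + 2 ≤ d`; `g j * g j = 1` from the model. -/
def StmtQAS : Prop :=
  StmtFlag → StmtPoly → StmtQGE → StmtQIX → StmtQKG → StmtQRS → StmtQRX → StmtQRC → StmtQCT →
    StmtQH4 → StmtQOD → StmtAlg → MainStatement

/-! ## Existence -/

/-- The generators of the group of the mix of the simplex with a `k`-gon: they permute the points
`(i, a)`, `0 ≤ i ≤ d`, `a ∈ ℤ/k`; the generator `j` exchanges `i = j` and `i = j + 1`; `0` also maps `a`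
to `1 - a`, and `1` also maps `a` to `- a`. -/
def m5 {d : ℕ} (k : ℕ) (j : Fin d) (x : Fin (d + 1) × ZMod k) : Fin (d + 1) × ZMod k :=
  (Equiv.swap j.castSucc j.succ x.1,
    if j.val = 0 then 1 - x.2 else if j.val = 1 then - x.2 else x.2)

theorem m5_m5 {d k : ℕ} (j : Fin d) (x : Fin (d + 1) × ZMod k) : m5 k j (m5 k j x) = x := by
  obtain ⟨i, a⟩ := x
  by_cases h : j.val = 0
  · simp [m5, h, Equiv.swap_apply_self]
  · by_cases h' : j.val = 1 <;> simp [m5, h, h', Equiv.swap_apply_self]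

theorem m5_comm {d k : ℕ} (i j : Fin d) (hij : i.val + 2 ≤ j.val) (x : Fin (d + 1) × ZMod k) :
    m5 k i (m5 k j x) = m5 k j (m5 k i x) := by
  obtain ⟨n, a⟩ := x
  have h0 : j.val ≠ 0 := by omega
  have h1 : j.val ≠ 1 := by omega
  have hs : ∀ x, Equiv.swap i.castSucc i.succ (Equiv.swap j.castSucc j.succ x) =
      Equiv.swap j.castSucc j.succ (Equiv.swap i.castSucc i.succ x) := by
    apply swap_comm' <;> (intro h; have := congrArg Fin.val h; simp at this; omega)
  simp [m5, h0, h1, hs]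

/-- The string of generators of the mix of the simplex with a `k`-gon. -/
def S5 (k d : ℕ) : SGen d (Fin (d + 1) × ZMod k) where
  σ j := Function.Involutive.toPerm (m5 k j) (m5_m5 j)
  sq j := Equiv.ext fun x => m5_m5 j x
  comm i j hij := Equiv.ext fun x => m5_comm i j hij x

/-- QEC: the intersection property (12.1 of PAPER12.md). -/
def StmtQEC : Prop := ∀ k d : ℕ, 1 ≤ k → 4 ≤ d → StrC (S5 k d)

/-- Conditions under which the coset poset with vertex map `F` is a faithful realization. -/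
structure FaiC {d : ℕ} {Y : Type} (S : SGen d Y) (y0 : Y) (F : Y → E d) : Prop where
  trans : ∀ y, ∃ g ∈ S.par Set.univ, g y0 = y
  stab : ∀ g ∈ S.par Set.univ, g y0 = y0 → g ∈ S.par {j | j.val ≠ 0}
  stab' : ∀ j : Fin d, j.val ≠ 0 → S.σ j y0 = y0
  inj : Function.Injective F
  edge : ∀ m : Fin d, 1 ≤ m.val → ∀ g ∈ S.par {j | m ≤ j},
    S.σ (prd m) * g * S.σ (prd m) ∈ S.par {j | m ≤ j} → g ∈ S.par {j | m < j}

/-- QEF: faithfulness. Proof: that of `FO2.realF` (`Pool/Agent/FO2/RLF.lean`), which uses only the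
fields `stab`, `stab'`, `inj`, `edge` of `RealC`. -/
def StmtQEF : Prop :=
  ∀ (d : ℕ) (Y : Type) (S : SGen d Y) (y0 : Y) (F : Y → E d), 1 ≤ d → Finite Y → StrC S →
    FaiC S y0 F → ∀ (P : Type) [PartialOrder P] [Finite P] (rk : P → ℤ),
    IsRegularPolytope d rk → ∀ f : P → E d, Match rk f S y0 F → Faithful rk f

/-- QER: the mix of the simplex with the `k`-gon satisfies the conditions, for injective radii
(12.2 of PAPER12.md). -/
def StmtQER : Prop :=
  ∀ k d : ℕ, 1 ≤ k → 4 ≤ d → ∀ (v : Fin (d + 1) → E d) (r : ZMod k → ℝ), IsSimplex v →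
    Function.Injective r → (∀ a, r a ≠ 0) → FaiC (S5 k d) (0, 0) (fun x => r x.2 • v x.1)

/-- QEG: the coset poset: its automorphisms `x ↦ g x`, and its base flag. There is a vertex map with
`Match`, and words act as they should. Proof: left multiplication by `g ∈ S.par univ` maps cosets to
cosets (`FO2.RLO.lmulC` in `Pool/Agent/FO2/RLO.lean`, `φ = refl`, `c = 0`); base flag: the cosets of `1`;
`f K := F (g y0)` for any `g ∈ K.coset` (independent of `g` by `stab'`). -/
def StmtQEG : Prop :=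
  ∀ (d : ℕ) (Y : Type) (S : SGen d Y) (y0 : Y) (F : Y → E d), 1 ≤ d → Finite Y → StrC S →
    FaiC S y0 F → ∃ (f : CPos S → E d) (C : Flag (CPos S)) (ρ : Fin d → (CPos S ≃o CPos S))
      (F0 : CPos S), Match rkC f S y0 F ∧ IsGens rkC C ρ ∧ F0 ∈ C ∧ rkC F0 = 0 ∧
      ∀ w : List (Fin d), f ((w.map ρ).prod F0) = F ((w.map S.σ).prod y0)

/-- QSI: the regular simplex and its generators (12.3 of PAPER12.md). -/
def StmtQSI : Prop :=
  ∀ d : ℕ, 2 ≤ d → ∃ v : Fin (d + 1) → E d, IsSimplex v ∧ ∃ g : Fin d → (E d ≃ₗᵢ[ℝ] E d),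
    ∀ (j : Fin d) (i : Fin (d + 1)), g j (v i) = v (Equiv.swap j.castSucc j.succ i)

/-- the mixing datum of the `k`-gon -/
structure Is5 {k d : ℕ} (M : Mix d (ZMod k)) : Prop where
  a0 : M.a0 = 0
  π : ∀ (j : Fin d) (a : ZMod k),
    M.π j a = if j.val = 0 then 1 - a else if j.val = 1 then - a else a

/-- QEN: the mixing data, and their groups (12.4 of PAPER12.md). For even `k ≥ 4`: `r a = a.val + 1` for
`a.val < k / 2`, `r a = - (a.val - k / 2 + 1)` otherwise; for `k ≤ 2`: `r a = a.val + 1`. -/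
def StmtQEN : Prop :=
  ∀ k d : ℕ, 1 ≤ k → (k = 1 ∨ Even k) → 2 ≤ d →
    ∃ M : Mix d (ZMod k), Is5 M ∧ Function.Injective M.r ∧ k * Nat.card M.HC = Nat.card M.C

/-- QEX: existence from the mixing datum (12.5 of PAPER12.md). Proof: the coset poset of `S5 k d` with
`F (i, a) = r a • v i`: it is a regular polytope (`StmtCosB`, `StmtQEC`), `StmtQEG` gives `f`, `C`, `ρ`,
`F0`; faithful by `StmtQEF` and `StmtQER`; the word formula gives with `StmtQRS` and `StmtQCT`
(`c = 0`, `H = symGroup`, `l = 2`) the index `k` of the symmetry group; `StmtQIX`. -/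
def StmtQEX : Prop :=
  StmtPoly → StmtCosB → StmtQGE → StmtQIX → StmtQRS → StmtQCT → StmtQEC → StmtQEF → StmtQER →
    StmtQEG → StmtQSI → ∀ k d : ℕ, 1 ≤ k → 4 ≤ d → ∀ M : Mix d (ZMod k), Is5 M →
    Function.Injective M.r → k * Nat.card M.HC = Nat.card M.C →
    ∃ (P : Type) (_ : PartialOrder P) (_ : Finite P) (rk : P → ℤ) (f : P → E d),
      IsRegularPolytope d rk ∧ IsOrbitRealization rk f k

/-- existence for `k = 1` and for even `k` -/
def ExistStatement : Prop :=
  ∀ k d : ℕ, 1 ≤ k → (k = 1 ∨ Even k) → 4 ≤ d →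
    ∃ (P : Type) (_ : PartialOrder P) (_ : Finite P) (rk : P → ℤ) (f : P → E d),
      IsRegularPolytope d rk ∧ IsOrbitRealization rk f k

/-- The spectrum. -/
def SpectrumStatement : Prop :=
  ∀ k d : ℕ, 1 ≤ k → 100 * k ^ 5 ≤ d →
    ((∃ (P : Type) (_ : PartialOrder P) (_ : Finite P) (rk : P → ℤ) (f : P → E d),
      IsRegularPolytope d rk ∧ IsOrbitRealization rk f k) ↔ k = 1 ∨ Even k)

/-- QSP: the spectrum from the main theorem (its last part; generators by `StmtPoly`) and existence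
(for `k = 1`, `d ≥ 100`). -/
def StmtQSP : Prop := StmtFlag → StmtPoly → MainStatement → ExistStatement → SpectrumStatement

end

end FOK
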