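import Pool.Agent.FOK.Stmts4

/-!
# The intersection property for the mix of the simplex with the `k`-gon (12.1 of PAPER12.md)
-/

namespace FOK

open Lib_helper64.FO Equiv FO2
open scoped RealInnerProductSpace

noncomputable section

namespace QEC

variable {d k : ℕ}

/-- the action of a permutation and a permutation of `ℤ/k` -/
def ph (π : Perm (Fin (d + 1))) (e : Perm (ZMod k)) : Perm (Fin (d + 1) × ZMod k) :=
  Equiv.prodCongr π e

theorem ph_apply (π : Perm (Fin (d + 1))) (e : Perm (ZMod k)) (t : Fin (d + 1)) (b : ZMod k) :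
    ph π e (t, b) = (π t, e b) := rfl

theorem ph_mul (π π' : Perm (Fin (d + 1))) (e e' : Perm (ZMod k)) :
    ph π e * ph π' e' = ph (π * π') (e * e') := by
  ext1 x; rfl

theorem ph_one : ph (1 : Perm (Fin (d + 1))) (1 : Perm (ZMod k)) = 1 := by
  ext1 x; rfl

theorem ph_inv (π : Perm (Fin (d + 1))) (e : Perm (ZMod k)) : (ph π e)⁻¹ = ph π⁻¹ e⁻¹ := by
  rw [inv_eq_iff_mul_eq_one, ph_mul, mul_inv_cancel, mul_inv_cancel, ph_one]

theorem ph_inj {π π' : Perm (Fin (d + 1))} {e e' : Perm (ZMod k)} (h : ph π e = ph π' e') :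
    π = π' ∧ e = e' := by
  constructor
  · ext1 t
    have := congrArg (fun g => (g (t, (0 : ZMod k))).1) h
    exact this
  · ext1 b
    have := congrArg (fun g => (g ((0 : Fin (d + 1)), b)).2) h
    exact this

/-- the map `a ↦ 1 - a` -/
def om : Perm (ZMod k) := Function.Involutive.toPerm (fun a => 1 - a) (fun a => by simp)

theorem om_apply (a : ZMod k) : om a = 1 - a := rfl

/-- the map `a ↦ - a` -/
def ng : Perm (ZMod k) := Function.Involutive.toPerm (fun a => - a) (fun a => by simp)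

theorem ng_apply (a : ZMod k) : ng a = - a := rfl

theorem ng_ng : (ng : Perm (ZMod k)) * ng = 1 := by
  ext1 a
  rw [Perm.mul_apply, ng_apply, ng_apply, neg_neg]; rfl

theorem ng_inv : (ng : Perm (ZMod k))⁻¹ = ng := by
  rw [inv_eq_iff_mul_eq_one, ng_ng]

/-- the second coordinate of the generators -/
def fl (j : Fin d) : Perm (ZMod k) := if j.val = 0 then om else if j.val = 1 then ng else 1

theorem σ_eq (j : Fin d) : (S5 k d).σ j = ph (Equiv.swap j.castSucc j.succ) (fl j) := by
  ext1 x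
  obtain ⟨i, a⟩ := x
  rw [ph_apply]
  change m5 k j (i, a) = _
  unfold m5 fl
  by_cases h : j.val = 0
  · simp only [h, if_true]; rfl
  · by_cases h' : j.val = 1
    · simp only [h, h', if_false, if_true]; rfl
    · simp only [h, h', if_false]; rfl

theorem fl_one {j : Fin d} (h : j.val = 1) : (fl j : Perm (ZMod k)) = ng := by
  unfold fl; rw [if_neg (by omega), if_pos h]

theorem fl_two {j : Fin d} (h : 2 ≤ j.val) : (fl j : Perm (ZMod k)) = 1 := by
  unfold fl; rw [if_neg (by omega), if_neg (by omega)]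

theorem fl_pos {j : Fin d} (h : 1 ≤ j.val) :
    (fl j : Perm (ZMod k)) = 1 ∨ (fl j : Perm (ZMod k)) = ng := by
  by_cases h1 : j.val = 1
  · exact Or.inr (fl_one h1)
  · exact Or.inl (fl_two (by omega))

theorem swap_fix {j : Fin d} {t : Fin (d + 1)} (h : t.val ≠ j.val) (h' : t.val ≠ j.val + 1) :
    Equiv.swap j.castSucc j.succ t = t := by
  apply Equiv.swap_apply_of_ne_of_ne
  · intro h2; exact h (congrArg Fin.val h2)
  · intro h2; exact h' (congrArg Fin.val h2)

/-- normal form of the elements of the subgroups generated by an interval of generators -/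
theorem fwd (n m : ℕ) (g : Perm (Fin (d + 1) × ZMod k))
    (hg : g ∈ (S5 k d).par {j | n ≤ j.val ∧ j.val < m}) :
    ∃ (π : Perm (Fin (d + 1))) (e : Perm (ZMod k)), g = ph π e ∧
      (∀ t : Fin (d + 1), (t.val < n ∨ m < t.val) → π t = t) ∧ (1 ≤ n → e = 1 ∨ e = ng) ∧
      (2 ≤ n → e = 1) := by
  refine Subgroup.closure_induction (p := fun g _ => ∃ (π : Perm (Fin (d + 1)))
      (e : Perm (ZMod k)), g = ph π e ∧ (∀ t : Fin (d + 1), (t.val < n ∨ m < t.val) → π t = t) ∧
      (1 ≤ n → e = 1 ∨ e = ng) ∧ (2 ≤ n → e = 1))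
      ?_ ?_ ?_ ?_ hg
  · rintro _ ⟨j, hj, rfl⟩
    have h1 : n ≤ j.val := hj.1
    have h2 : j.val < m := hj.2
    refine ⟨_, _, σ_eq j, ?_, fun hk => fl_pos (hk.trans h1), fun hk => fl_two (hk.trans h1)⟩
    intro t ht
    exact swap_fix (by omega) (by omega)
  · exact ⟨1, 1, ph_one.symm, fun _ _ => rfl, fun _ => Or.inl rfl, fun _ => rfl⟩
  · rintro x y - - ⟨π, e, rfl, h1, h2, h3⟩ ⟨π', e', rfl, h1', h2', h3'⟩
    refine ⟨π * π', e * e', ph_mul _ _ _ _, ?_, ?_, ?_⟩
    · intro t ht
      rw [Perm.mul_apply, h1' t ht, h1 t ht]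
    · intro hk
      rcases h2 hk with h | h <;> rcases h2' hk with h' | h'
      · left; rw [h, h', one_mul]
      · right; rw [h, h', one_mul]
      · right; rw [h, h', mul_one]
      · left; rw [h, h', ng_ng]
    · intro hk
      rw [h3 hk, h3' hk, one_mul]
  · rintro x - ⟨π, e, rfl, h1, h2, h3⟩
    refine ⟨π⁻¹, e⁻¹, ph_inv _ _, ?_, ?_, ?_⟩
    · intro t ht
      rw [Perm.inv_eq_iff_eq, h1 t ht]
    · intro hk
      rcases h2 hk with h | h
      · left; rw [h, inv_one]
      · right; rw [h, ng_inv]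
    · intro hk
      rw [h3 hk, inv_one]

/-- the sign as an element of `ℤ/k` -/
def sg (π : Perm (Fin (d + 1))) : ZMod k := ((Perm.sign π : ℤ) : ZMod k)

theorem sg_mul (π π' : Perm (Fin (d + 1))) : (sg (π * π') : ZMod k) = sg π * sg π' := by
  unfold sg
  rw [Perm.sign_mul, Units.val_mul, Int.cast_mul]

theorem sg_one : (sg (1 : Perm (Fin (d + 1))) : ZMod k) = 1 := by
  unfold sg
  rw [Perm.sign_one, Units.val_one, Int.cast_one]

theorem sg_inv (π : Perm (Fin (d + 1))) : (sg π⁻¹ : ZMod k) = sg π := by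
  unfold sg
  rw [Perm.sign_inv]

theorem sg_swap {x y : Fin (d + 1)} (h : x ≠ y) : (sg (Equiv.swap x y) : ZMod k) = -1 := by
  unfold sg
  rw [Perm.sign_swap h, Units.val_neg, Units.val_one, Int.cast_neg, Int.cast_one]

/-- in the group of the first two generators the second coordinate is determined by the sign of
the first up to a translation -/
theorem fwd2 (g : Perm (Fin (d + 1) × ZMod k)) (hg : g ∈ (S5 k d).par {j | j.val < 2}) :
    ∃ (π : Perm (Fin (d + 1))) (e : Perm (ZMod k)), g = ph π e ∧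
      ∃ c : ZMod k, ∀ a, e a = sg π * a + c := by
  refine Subgroup.closure_induction (p := fun g _ => ∃ (π : Perm (Fin (d + 1)))
      (e : Perm (ZMod k)), g = ph π e ∧ ∃ c : ZMod k, ∀ a, e a = sg π * a + c)
      ?_ ?_ ?_ ?_ hg
  · rintro _ ⟨j, hj, rfl⟩
    have h1 : j.val < 2 := hj
    refine ⟨_, _, σ_eq j, ?_⟩
    have hs : (sg (Equiv.swap j.castSucc j.succ) : ZMod k) = -1 := by
      apply sg_swap
      intro h
      have := congrArg Fin.val h
      simp at this
    rw [hs]
    by_cases h0 : j.val = 0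
    · refine ⟨1, fun a => ?_⟩
      unfold fl
      rw [if_pos h0, om_apply]
      ring
    · refine ⟨0, fun a => ?_⟩
      rw [fl_one (by omega), ng_apply]
      ring
  · exact ⟨1, 1, ph_one.symm, 0, fun a => by rw [sg_one, one_mul, add_zero]; rfl⟩
  · rintro x y - - ⟨π, e, rfl, c, hc⟩ ⟨π', e', rfl, c', hc'⟩
    refine ⟨π * π', e * e', ph_mul _ _ _ _, sg π * c' + c, fun a => ?_⟩
    rw [Perm.mul_apply, hc', hc, sg_mul]
    ring
  · rintro x - ⟨π, e, rfl, c, hc⟩
    refine ⟨π⁻¹, e⁻¹, ph_inv _ _, - (sg π * c), fun a => ?_⟩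
    rw [Perm.inv_eq_iff_eq, hc, sg_inv]
    have h2 : (sg π : ZMod k) * sg π = 1 := by
      have h3 := sg_mul (k := k) π π⁻¹
      rw [mul_inv_cancel, sg_one, sg_inv] at h3
      exact h3.symm
    calc a = (sg π * sg π) * a - (sg π * sg π) * c + c := by rw [h2]; ring
      _ = _ := by ring

/-- the homomorphism `π ↦ ph π 1` -/
def phi : Perm (Fin (d + 1)) →* Perm (Fin (d + 1) × ZMod k) where
  toFun π := ph π 1
  map_one' := ph_one
  map_mul' π π' := by rw [ph_mul, one_mul]

theorem phi_apply (π : Perm (Fin (d + 1))) : (phi π : Perm (Fin (d + 1) × ZMod k)) = ph π 1 := rfl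

theorem adj_eq (j : Fin d) : adj (d + 1) j.val = Equiv.swap j.castSucc j.succ := by
  unfold adj
  rw [dif_pos (by omega)]
  rfl

theorem bwd (hA : StmtAdj) (a b : ℕ) (hab : a ≤ b) (hb : b ≤ d)
    (K : Subgroup (Perm (Fin (d + 1) × ZMod k)))
    (hK : ∀ j : Fin d, a ≤ j.val → j.val < b → ph (Equiv.swap j.castSucc j.succ) 1 ∈ K)
    (π : Perm (Fin (d + 1))) (hπ : ∀ t : Fin (d + 1), (t.val < a ∨ b < t.val) → π t = t) :
    ph π 1 ∈ K := by
  have h := hA (d + 1) a b hab (by omega) π hπ
  have h2 : Subgroup.closure (adj (d + 1) '' {j | a ≤ j ∧ j < b}) ≤ K.comap phi := by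
    rw [Subgroup.closure_le]
    rintro _ ⟨j, ⟨hj1, hj2⟩, rfl⟩
    rw [SetLike.mem_coe, Subgroup.mem_comap, phi_apply]
    have hjd : j < d := by omega
    have e := adj_eq (⟨j, hjd⟩ : Fin d)
    change adj (d + 1) j = _ at e
    rw [e]
    exact hK ⟨j, hjd⟩ hj1 hj2
  exact h2 h

theorem bwd2 (hA : StmtAdj) (a b : ℕ) (h1 : 2 ≤ a) (hab : a ≤ b) (hb : b ≤ d)
    (π : Perm (Fin (d + 1))) (hπ : ∀ t : Fin (d + 1), (t.val < a ∨ b < t.val) → π t = t) :
    ph π 1 ∈ (S5 k d).par {j | a ≤ j.val ∧ j.val < b} := by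
  refine bwd hA a b hab hb _ ?_ π hπ
  intro j hj1 hj2
  have e2 : ph (Equiv.swap j.castSucc j.succ) (1 : Perm (ZMod k)) = (S5 k d).σ j := by
    rw [σ_eq, fl_two (h1.trans hj1)]
  rw [e2]
  exact Subgroup.subset_closure ⟨j, ⟨hj1, hj2⟩, rfl⟩

/-- the map `(1, neg)` is in the group -/
theorem neg_mem (n : ℕ) (hn : 3 ≤ n) (hd : 3 ≤ d) : ph (1 : Perm (Fin (d + 1))) ng ∈
    (S5 k d).par {j | 1 ≤ j.val ∧ j.val < n} := by
  set j0 : Fin d := ⟨1, by omega⟩ with hj0
  set j1 : Fin d := ⟨2, by omega⟩ with hj1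
  have m0 : (S5 k d).σ j0 ∈ (S5 k d).par {j | 1 ≤ j.val ∧ j.val < n} :=
    Subgroup.subset_closure ⟨j0, ⟨le_rfl, by change 1 < n; omega⟩, rfl⟩
  have m1 : (S5 k d).σ j1 ∈ (S5 k d).par {j | 1 ≤ j.val ∧ j.val < n} :=
    Subgroup.subset_closure ⟨j1, ⟨by change 1 ≤ 2; omega, by change 2 < n; omega⟩, rfl⟩
  have key : ph (1 : Perm (Fin (d + 1))) ng =
      (S5 k d).σ j0 * (S5 k d).σ j1 * ((S5 k d).σ j0 * (S5 k d).σ j1 *
        ((S5 k d).σ j0 * (S5 k d).σ j1)) := by
    have hs1 : j1.castSucc = j0.succ := by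
      apply Fin.ext; simp [hj0, hj1]
    have hab : j0.castSucc ≠ j0.succ := by
      intro h; have := congrArg Fin.val h; simp at this
    have hac : j0.castSucc ≠ j1.succ := by
      intro h; have := congrArg Fin.val h; simp [hj0, hj1] at this
    have hbc : j0.succ ≠ j1.succ := by
      intro h; have := congrArg Fin.val h; simp [hj0, hj1] at this
    rw [σ_eq, σ_eq, hs1, fl_two (show 2 ≤ j1.val from le_rfl), fl_one (show j0.val = 1 from rfl),
      ph_mul, ph_mul, ph_mul]
    congr 1
    · generalize j0.castSucc = a at hab hac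
      generalize j0.succ = b at hab hbc
      generalize j1.succ = c at hac hbc
      ext1 x
      simp only [Perm.mul_apply, Perm.one_apply]
      by_cases ha : x = a
      · subst ha
        simp [Equiv.swap_apply_def, hab, hac, hbc, hab.symm, hac.symm, hbc.symm]
      · by_cases hb : x = b
        · subst hb
          simp [Equiv.swap_apply_def, hab, hac, hbc, hab.symm, hac.symm, hbc.symm]
        · by_cases hc : x = c
          · subst hc
            simp [Equiv.swap_apply_def, hab, hac, hbc, hab.symm, hac.symm, hbc.symm]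
          · simp [Equiv.swap_apply_def, ha, hb, hc]
    · rw [mul_one, ng_ng, mul_one]
  rw [key]
  exact mul_mem (mul_mem m0 m1) (mul_mem (mul_mem m0 m1) (mul_mem m0 m1))

theorem bwd1 (hA : StmtAdj) (n : ℕ) (hn : 3 ≤ n) (hnd : n ≤ d) (π : Perm (Fin (d + 1)))
    (hπ : ∀ t : Fin (d + 1), (t.val < 1 ∨ n < t.val) → π t = t) (e : Perm (ZMod k))
    (he : e = 1 ∨ e = ng) :
    ph π e ∈ (S5 k d).par {j | 1 ≤ j.val ∧ j.val < n} := by
  have hng := neg_mem (k := k) n hn (hn.trans hnd)
  have h1 : ph π (1 : Perm (ZMod k)) ∈ (S5 k d).par {j | 1 ≤ j.val ∧ j.val < n} := by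
    refine bwd hA 1 n (by omega) hnd _ ?_ π hπ
    intro j hj1 hj2
    have hm : (S5 k d).σ j ∈ (S5 k d).par {j | 1 ≤ j.val ∧ j.val < n} :=
      Subgroup.subset_closure ⟨j, ⟨hj1, hj2⟩, rfl⟩
    by_cases h : j.val = 1
    · have e2 : ph (Equiv.swap j.castSucc j.succ) (1 : Perm (ZMod k)) =
          (S5 k d).σ j * ph 1 ng := by
        rw [σ_eq, fl_one h, ph_mul, mul_one, ng_ng]
      rw [e2]
      exact mul_mem hm hng
    · have e2 : ph (Equiv.swap j.castSucc j.succ) (1 : Perm (ZMod k)) = (S5 k d).σ j := by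
        rw [σ_eq, fl_two (by omega)]
      rw [e2]
      exact hm
  rcases he with rfl | rfl
  · exact h1
  · have : ph π (ng : Perm (ZMod k)) = ph π 1 * ph 1 ng := by
      rw [ph_mul, mul_one, one_mul]
    rw [this]
    exact mul_mem h1 hng

theorem par_congr {d : ℕ} {X : Type} (S : SGen d X) {I J : Set (Fin d)} (h : I = J) :
    S.par I = S.par J := by rw [h]

theorem par_empty {d : ℕ} {X : Type} (S : SGen d X) : S.par ∅ = ⊥ := by
  unfold SGen.par
  rw [Set.image_empty, Subgroup.closure_empty]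

theorem stab0 (hA : StmtAdj) (m : ℕ) (hm : m ≤ d) (hm1 : 1 ≤ m)
    (g : Perm (Fin (d + 1) × ZMod k))
    (h1 : g ∈ (S5 k d).par {j | 0 ≤ j.val ∧ j.val < m})
    (h2 : g ∈ (S5 k d).par {j | 0 + 1 ≤ j.val}) :
    g ∈ (S5 k d).par {j | 0 + 1 ≤ j.val ∧ j.val < m} := by
  have h2' : g ∈ (S5 k d).par {j | 1 ≤ j.val ∧ j.val < d} := by
    rw [par_congr (S5 k d) (J := {j | 0 + 1 ≤ j.val})]
    · exact h2
    · ext j; simp
  obtain ⟨π, e, rfl, hπ, -⟩ := fwd 0 m g h1
  obtain ⟨π', e', hh, hπ', he', -⟩ := fwd 1 d _ h2'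
  obtain ⟨rfl, rfl⟩ := ph_inj hh
  have he := he' le_rfl
  have hπ0 : ∀ t : Fin (d + 1), (t.val < 1 ∨ m < t.val) → π t = t := by
    intro t ht
    rcases ht with ht | ht
    · exact hπ' t (Or.inl ht)
    · exact hπ t (Or.inr ht)
  rcases Nat.lt_or_ge m 3 with h3 | h3
  · -- `m = 1` or `m = 2`
    have h4 : ph π e ∈ (S5 k d).par {j | j.val < 2} := by
      refine Subgroup.closure_mono (Set.image_mono ?_) h1
      intro j hj
      have : j.val < m := hj.2
      change j.val < 2
      omega
    obtain ⟨π'', e'', hh'', c, hc⟩ := fwd2 _ h4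
    obtain ⟨rfl, rfl⟩ := ph_inj hh''
    have hc0 : c = 0 := by
      have h5 := hc 0
      rw [mul_zero, zero_add] at h5
      rw [← h5]
      rcases he with he | he
      · rw [he]; rfl
      · rw [he, ng_apply, neg_zero]
    subst hc0
    by_cases hp : π = 1
    · subst hp
      have : e = 1 := by
        ext1 a
        rw [hc a, sg_one, one_mul, add_zero]; rfl
      rw [this, ph_one]
      exact one_mem _
    · -- then `m = 2` and `π` is the transposition
      have hmv : ∃ t, π t ≠ t := by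
        by_contra hcon
        push Not at hcon
        exact hp (Equiv.ext hcon)
      obtain ⟨t, ht⟩ := hmv
      have ht1 : ¬ (t.val < 1 ∨ m < t.val) := fun h => ht (hπ0 t h)
      have ht2 : ¬ ((π t).val < 1 ∨ m < (π t).val) := fun h => ht (π.injective (hπ0 (π t) h))
      have htv : (π t).val ≠ t.val := fun h => ht (Fin.ext h)
      have hm2 : m = 2 := by omega
      subst hm2
      set j1 : Fin d := ⟨1, by omega⟩ with hj1
      have c1 : j1.castSucc.val = 1 := rfl
      have c2 : j1.succ.val = 2 := rfl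
      have hsw : π = Equiv.swap j1.castSucc j1.succ := by
        have h01 : π j1.castSucc = j1.succ ∧ π j1.succ = j1.castSucc := by
          have hA1 : ¬ ((π j1.castSucc).val < 1 ∨ 2 < (π j1.castSucc).val) := by
            intro h
            have h6 := π.injective (hπ0 _ h)
            rw [h6, c1] at h
            omega
          have hA2 : ¬ ((π j1.succ).val < 1 ∨ 2 < (π j1.succ).val) := by
            intro h
            have h6 := π.injective (hπ0 _ h)
            rw [h6, c2] at h
            omega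
          have hA3 : (π j1.castSucc).val ≠ (π j1.succ).val := by
            intro h
            have h6 := congrArg Fin.val (π.injective (Fin.ext h))
            rw [c1, c2] at h6
            omega
          by_cases h7 : (π j1.castSucc).val = 1
          · exfalso
            have h8 : (π j1.succ).val = 2 := by omega
            apply ht
            rcases (show t.val = 1 ∨ t.val = 2 by omega) with h | h
            · have : t = j1.castSucc := Fin.ext (by rw [h, c1])
              rw [this]; exact Fin.ext (by rw [h7, c1])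
            · have : t = j1.succ := Fin.ext (by rw [h, c2])
              rw [this]; exact Fin.ext (by rw [h8, c2])
          · exact ⟨Fin.ext (by rw [c2]; omega), Fin.ext (by rw [c1]; omega)⟩
        ext1 s
        by_cases hs1 : s = j1.castSucc
        · rw [hs1, Equiv.swap_apply_left, h01.1]
        · by_cases hs2 : s = j1.succ
          · rw [hs2, Equiv.swap_apply_right, h01.2]
          · rw [Equiv.swap_apply_of_ne_of_ne hs1 hs2]
            apply hπ0
            have h9 : s.val ≠ 1 := fun h => hs1 (Fin.ext (by rw [h, c1]))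
            have h10 : s.val ≠ 2 := fun h => hs2 (Fin.ext (by rw [h, c2]))
            omega
      have hs : (sg π : ZMod k) = -1 := by
        rw [hsw]
        apply sg_swap
        intro h
        have := congrArg Fin.val h
        rw [c1, c2] at this
        omega
      have hen : e = ng := by
        ext1 a
        rw [hc a, hs, ng_apply]
        ring
      have hσ : ph π e = (S5 k d).σ j1 := by
        rw [σ_eq, fl_one (show j1.val = 1 from rfl), hen, hsw]
      rw [hσ]
      exact Subgroup.subset_closure ⟨j1, ⟨by change 0 + 1 ≤ 1; omega, by change 1 < 2; omega⟩, rfl⟩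
  · exact bwd1 hA m h3 hm π hπ0 e he

theorem stabCond (hA : StmtAdj) (n m : ℕ) (hm : m ≤ d) (g : Perm (Fin (d + 1) × ZMod k))
    (h1 : g ∈ (S5 k d).par {j | n ≤ j.val ∧ j.val < m})
    (h2 : g ∈ (S5 k d).par {j | n + 1 ≤ j.val}) :
    g ∈ (S5 k d).par {j | n + 1 ≤ j.val ∧ j.val < m} := by
  rcases Nat.lt_or_ge n m with hk | hk
  · rcases Nat.eq_zero_or_pos n with h0 | h0
    · subst h0
      exact stab0 hA m hm hk g h1 h2
    · obtain ⟨π, e, rfl, hπ, -⟩ := fwd n m g h1
      have h2' : ph π e ∈ (S5 k d).par {j | n + 1 ≤ j.val ∧ j.val < d} := by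
        rw [par_congr (S5 k d) (J := {j | n + 1 ≤ j.val})]
        · exact h2
        · ext j; simp
      obtain ⟨π', e', hh, hπ', -, he'⟩ := fwd (n + 1) d _ h2'
      obtain ⟨rfl, rfl⟩ := ph_inj hh
      rw [he' (by omega)]
      apply bwd2 hA (n + 1) m (by omega) (by omega) hm
      intro t ht
      rcases ht with ht | ht
      · exact hπ' t (Or.inl ht)
      · exact hπ t (Or.inr ht)
  · have : ({j | n ≤ j.val ∧ j.val < m} : Set (Fin d)) = ∅ := by
      ext j; simp; omega
    rw [par_congr _ this, par_empty, Subgroup.mem_bot] at h1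
    rw [h1]
    exact one_mem _

theorem interAll (hI : StmtInt) (hA : StmtAdj) (n : ℕ) : ∀ t, t + n = d →
    ∀ I J : Set (Fin d), I ⊆ {j | t ≤ j.val} → J ⊆ {j | t ≤ j.val} →
      (S5 k d).par I ⊓ (S5 k d).par J = (S5 k d).par (I ∩ J) := by
  induction n with
  | zero =>
    intro t hk I J hI' hJ'
    have h1 : I = ∅ := by
      rw [Set.eq_empty_iff_forall_notMem]
      intro j hj
      have : t ≤ j.val := hI' hj
      omega
    rw [h1, Set.empty_inter, par_empty, bot_inf_eq]
  | succ n ih =>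
    intro t hk
    exact hI d _ (S5 k d) t (fun I J => ih (t + 1) (by omega) I J)
      (fun m hm g h1 h2 => stabCond hA t m hm g h1 h2)

end QEC

theorem t_QEC : StmtInt → StmtAdj → StmtQEC := by
  intro h1 h2 k d _ hd
  constructor
  · intro i h
    rw [QEC.σ_eq, ← QEC.ph_one] at h
    have h3 := (QEC.ph_inj h).1
    have h4 : Equiv.swap i.castSucc i.succ i.castSucc = i.castSucc := by rw [h3]; rfl
    rw [Equiv.swap_apply_left] at h4
    have := congrArg Fin.val h4
    simp at this
  · intro I J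
    exact QEC.interAll h1 h2 d 0 (by omega) I J (fun j _ => Nat.zero_le _)
      (fun j _ => Nat.zero_le _)

end

end FOK
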