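import Pool.Agent.FOK.Stmts4

/-!
# 12.4. The mixing data of the polygons, and their groups
-/

namespace FOK

open Lib_helper64.FO FO2
open scoped RealInnerProductSpace

noncomputable section

namespace QEN

variable {k d : ℕ}

/-- the involutions of the residue classes -/
def q (k : ℕ) {d : ℕ} (j : Fin d) (a : ZMod k) : ZMod k :=
  if j.val = 0 then 1 - a else if j.val = 1 then - a else a

theorem q_q (j : Fin d) (a : ZMod k) : q k j (q k j a) = a := by
  by_cases h : j.val = 0
  · simp [q, h]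
  · by_cases h' : j.val = 1 <;> simp [q, h, h']

/-- the involutions as permutations -/
def p (k : ℕ) {d : ℕ} (j : Fin d) : Equiv.Perm (ZMod k) :=
  Function.Involutive.toPerm (q k j) (q_q j)

theorem p_apply (j : Fin d) (a : ZMod k) : p k j a = q k j a := rfl

/-- the translation -/
def T (c : ZMod k) : Equiv.Perm (ZMod k) := Equiv.addRight c

/-- the reflection -/
def S (c : ZMod k) : Equiv.Perm (ZMod k) := Equiv.subLeft c

theorem T_apply (c a : ZMod k) : T c a = a + c := rfl

theorem S_apply (c a : ZMod k) : S c a = c - a := rfl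

/-- the translations and the reflections -/
def G (u : Equiv.Perm (ZMod k)) : Prop := (∃ c, u = T c) ∨ ∃ c, u = S c

theorem T_mul_T (c e : ZMod k) : T c * T e = T (c + e) := by
  ext a
  rw [Equiv.Perm.mul_apply, T_apply, T_apply, T_apply]
  ring

theorem T_mul_S (c e : ZMod k) : T c * S e = S (c + e) := by
  ext a
  rw [Equiv.Perm.mul_apply, T_apply, S_apply, S_apply]
  ring

theorem S_mul_T (c e : ZMod k) : S c * T e = S (c - e) := by
  ext a
  rw [Equiv.Perm.mul_apply, T_apply, S_apply, S_apply]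
  ring

theorem S_mul_S (c e : ZMod k) : S c * S e = T (c - e) := by
  ext a
  rw [Equiv.Perm.mul_apply, S_apply, S_apply, T_apply]
  ring

theorem T_zero : (T 0 : Equiv.Perm (ZMod k)) = 1 := by
  ext a
  rw [T_apply, add_zero]
  rfl

theorem T_inv (c : ZMod k) : (T c)⁻¹ = T (-c) := by
  rw [inv_eq_iff_mul_eq_one, T_mul_T, add_neg_cancel, T_zero]

theorem S_inv (c : ZMod k) : (S c)⁻¹ = S c := by
  rw [inv_eq_iff_mul_eq_one, S_mul_S, sub_self, T_zero]

theorem T_pow (n : ℕ) : (T 1 : Equiv.Perm (ZMod k)) ^ n = T (n : ZMod k) := by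
  induction n with
  | zero => rw [pow_zero, Nat.cast_zero, T_zero]
  | succ n ih => rw [pow_succ, ih, T_mul_T, Nat.cast_succ]

theorem G_of_mem {u : Equiv.Perm (ZMod k)} (hu : u ∈ Subgroup.closure (Set.range (p k (d := d)))) :
    G u := by
  induction hu using Subgroup.closure_induction with
  | mem x hx =>
    obtain ⟨j, rfl⟩ := hx
    by_cases h : j.val = 0
    · right
      refine ⟨1, ?_⟩
      ext a
      rw [p_apply, S_apply, q, if_pos h]
    · by_cases h' : j.val = 1
      · right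
        refine ⟨0, ?_⟩
        ext a
        rw [p_apply, S_apply, q, if_neg h, if_pos h', zero_sub]
      · left
        refine ⟨0, ?_⟩
        ext a
        rw [p_apply, T_apply, q, if_neg h, if_neg h', add_zero]
  | one => exact Or.inl ⟨0, T_zero.symm⟩
  | mul x y _ _ hx hy =>
    rcases hx with ⟨c, rfl⟩ | ⟨c, rfl⟩ <;> rcases hy with ⟨e, rfl⟩ | ⟨e, rfl⟩
    · exact Or.inl ⟨_, T_mul_T c e⟩
    · exact Or.inr ⟨_, T_mul_S c e⟩
    · exact Or.inr ⟨_, S_mul_T c e⟩
    · exact Or.inl ⟨_, S_mul_S c e⟩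
  | inv x _ hx =>
    rcases hx with ⟨c, rfl⟩ | ⟨c, rfl⟩
    · exact Or.inl ⟨_, T_inv c⟩
    · exact Or.inr ⟨_, S_inv c⟩

theorem S_one_mem (hd : 2 ≤ d) :
    (S 1 : Equiv.Perm (ZMod k)) ∈ Subgroup.closure (Set.range (p k (d := d))) := by
  apply Subgroup.subset_closure
  refine ⟨⟨0, by omega⟩, ?_⟩
  ext a
  rw [p_apply, S_apply, q, if_pos rfl]

theorem S_zero_mem (hd : 2 ≤ d) :
    (S 0 : Equiv.Perm (ZMod k)) ∈ Subgroup.closure (Set.range (p k (d := d))) := by
  apply Subgroup.subset_closure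
  refine ⟨⟨1, by omega⟩, ?_⟩
  ext a
  rw [p_apply, S_apply, q, if_neg (by simp), if_pos rfl, zero_sub]

theorem T_mem [NeZero k] (hd : 2 ≤ d) (c : ZMod k) :
    T c ∈ Subgroup.closure (Set.range (p k (d := d))) := by
  have h1 : (T 1 : Equiv.Perm (ZMod k)) ∈ Subgroup.closure (Set.range (p k (d := d))) := by
    have := mul_mem (S_one_mem (k := k) hd) (S_zero_mem (k := k) hd)
    rwa [S_mul_S, sub_zero] at this
  have h2 := pow_mem h1 c.val
  rwa [T_pow, ZMod.natCast_zmod_val] at h2

theorem S_mem [NeZero k] (hd : 2 ≤ d) (c : ZMod k) :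
    S c ∈ Subgroup.closure (Set.range (p k (d := d))) := by
  have := mul_mem (T_mem hd c) (S_zero_mem (k := k) hd)
  rwa [T_mul_S, add_zero] at this

/-- the mixing datum -/
def mk [NeZero k] (hd : 2 ≤ d) (r : ZMod k → ℝ) (hr : ∀ a, r a ≠ 0) : Mix d (ZMod k) where
  π := p k
  a0 := 0
  r := r
  sq j := Equiv.ext fun a => q_q j a
  comm i j hij := by
    ext a
    rw [Equiv.Perm.mul_apply, Equiv.Perm.mul_apply, p_apply j, p_apply j]
    have h0 : j.val ≠ 0 := by omega
    have h1 : j.val ≠ 1 := by omega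
    simp only [q, if_neg h0, if_neg h1]
  fix j hj := by
    have h0 : j.val ≠ 0 := by omega
    rw [p_apply, q, if_neg h0]
    split_ifs
    · exact neg_zero
    · rfl
  trans a := ⟨T a, T_mem hd a, by rw [T_apply, zero_add]⟩
  ne := hr

theorem mk_C [NeZero k] (hd : 2 ≤ d) (r : ZMod k → ℝ) (hr : ∀ a, r a ≠ 0)
    (u : Equiv.Perm (ZMod k)) : u ∈ (mk hd r hr).C ↔ G u := by
  constructor
  · intro h
    exact G_of_mem (d := d) h
  · rintro (⟨c, rfl⟩ | ⟨c, rfl⟩)
    · exact T_mem hd c
    · exact S_mem hd c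

theorem is5 [NeZero k] (hd : 2 ≤ d) (r : ZMod k → ℝ) (hr : ∀ a, r a ≠ 0) :
    Is5 (mk hd r hr) := ⟨rfl, fun _ _ => rfl⟩

theorem T_inj {c e : ZMod k} (h : T c = T e) : c = e := by
  have := congrArg (fun u : Equiv.Perm (ZMod k) => u 0) h
  simpa [T_apply] using this

theorem S_inj {c e : ZMod k} (h : S c = S e) : c = e := by
  have := congrArg (fun u : Equiv.Perm (ZMod k) => u 0) h
  simpa [S_apply] using this

theorem T_ne_S (hk : 3 ≤ k) (c e : ZMod k) : T c ≠ S e := by
  intro h
  have h0 := congrArg (fun u : Equiv.Perm (ZMod k) => u 0) h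
  have h1 := congrArg (fun u : Equiv.Perm (ZMod k) => u 1) h
  simp only [T_apply, S_apply, zero_add, sub_zero] at h0 h1
  rw [h0] at h1
  have h2 : (2 : ZMod k) = 0 := by
    have : (1 : ZMod k) + e - (e - 1) = 0 := by rw [h1, sub_self]
    calc (2 : ZMod k) = 1 + e - (e - 1) := by ring
      _ = 0 := this
  have h3 : ((2 : ℕ) : ZMod k) = 0 := by exact_mod_cast h2
  rw [ZMod.natCast_eq_zero_iff] at h3
  have := Nat.le_of_dvd (by norm_num) h3
  omega

theorem card_C_big [NeZero k] (hk : 3 ≤ k) (hd : 2 ≤ d) (r : ZMod k → ℝ) (hr : ∀ a, r a ≠ 0) :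
    Nat.card (mk hd r hr).C = k * 2 := by
  have hc : Nat.card (ZMod k × Bool) = k * 2 := by
    rw [Nat.card_prod, Nat.card_zmod, Nat.card_eq_fintype_card, Fintype.card_bool]
  rw [← hc]
  symm
  refine Nat.card_congr (Equiv.ofBijective (fun x : ZMod k × Bool =>
    (⟨if x.2 then T x.1 else S x.1, ?_⟩ : (mk hd r hr).C)) ⟨?_, ?_⟩)
  · rw [mk_C]
    cases x.2
    · exact Or.inr ⟨x.1, rfl⟩
    · exact Or.inl ⟨x.1, rfl⟩
  · rintro ⟨c, b⟩ ⟨c', b'⟩ h
    have h' := congrArg Subtype.val h
    cases b <;> cases b'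
    · exact Prod.ext (S_inj h') rfl
    · exact absurd h'.symm (T_ne_S hk _ _)
    · exact absurd h' (T_ne_S hk _ _)
    · exact Prod.ext (T_inj h') rfl
  · rintro ⟨u, hu⟩
    have hu' := hu
    rw [mk_C] at hu'
    rcases hu' with ⟨c, rfl⟩ | ⟨c, rfl⟩
    · exact ⟨(c, true), rfl⟩
    · exact ⟨(c, false), rfl⟩

theorem S_eq_T (hk : k = 1 ∨ k = 2) (c : ZMod k) : S c = T c := by
  have h2 : (2 : ZMod k) = 0 := by
    have h3 : ((2 : ℕ) : ZMod k) = 0 := by
      rw [ZMod.natCast_eq_zero_iff]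
      rcases hk with rfl | rfl <;> norm_num
    exact_mod_cast h3
  ext a
  have : c - a = a + c := by
    have h4 : a + c - (c - a) = 0 := by
      calc a + c - (c - a) = 2 * a := by ring
        _ = 0 := by rw [h2, zero_mul]
    exact (sub_eq_zero.1 h4).symm
  rw [S_apply, T_apply, this]

theorem card_C_small [NeZero k] (hk : k = 1 ∨ k = 2) (hd : 2 ≤ d) (r : ZMod k → ℝ)
    (hr : ∀ a, r a ≠ 0) : Nat.card (mk hd r hr).C = k := by
  have hc : Nat.card (ZMod k) = k := Nat.card_zmod k
  conv_rhs => rw [← hc]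
  symm
  refine Nat.card_congr (Equiv.ofBijective (fun x : ZMod k =>
    (⟨T x, ?_⟩ : (mk hd r hr).C)) ⟨?_, ?_⟩)
  · rw [mk_C]
    exact Or.inl ⟨x, rfl⟩
  · intro c c' h
    exact T_inj (congrArg Subtype.val h)
  · rintro ⟨u, hu⟩
    have hu' := hu
    rw [mk_C] at hu'
    rcases hu' with ⟨c, rfl⟩ | ⟨c, rfl⟩
    · exact ⟨c, rfl⟩
    · exact ⟨c, Subtype.ext (S_eq_T hk c).symm⟩

/-- the case of one or two residue classes -/
theorem small (hk : k = 1 ∨ k = 2) (hd : 2 ≤ d) :
    ∃ M : Mix d (ZMod k), Is5 M ∧ Function.Injective M.r ∧ k * Nat.card M.HC = Nat.card M.C := by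
  haveI : NeZero k := ⟨by rcases hk with rfl | rfl <;> norm_num⟩
  have hpos : ∀ a : ZMod k, (0 : ℝ) < (a.val : ℝ) + 1 := fun a => by positivity
  refine ⟨mk hd (fun a => (a.val : ℝ) + 1) (fun a => (hpos a).ne'), is5 hd _ _, ?_, ?_⟩
  · intro a b h
    have h1 : (a.val : ℝ) + 1 = (b.val : ℝ) + 1 := h
    have h2 : (a.val : ℝ) = (b.val : ℝ) := by linarith
    exact ZMod.val_injective k (by exact_mod_cast h2)
  · rw [card_C_small hk hd]
    have hHC : (mk hd (fun a : ZMod k => (a.val : ℝ) + 1) (fun a => (hpos a).ne')).HC = {1} := by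
      ext u
      rw [Set.mem_singleton_iff]
      constructor
      · rintro ⟨_, h | h⟩
        · ext a
          have h1 : ((u a).val : ℝ) + 1 = (a.val : ℝ) + 1 := h a
          have h2 : ((u a).val : ℝ) = (a.val : ℝ) := by linarith
          have h3 : u a = a := ZMod.val_injective k (by exact_mod_cast h2)
          rw [h3]
          rfl
        · exfalso
          have h1 : ((u 0).val : ℝ) + 1 = -(((0 : ZMod k).val : ℝ) + 1) := h 0
          have h2 := hpos (u 0)
          have h3 := hpos (0 : ZMod k)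
          linarith
      · rintro rfl
        exact ⟨one_mem _, Or.inl fun a => rfl⟩
    rw [hHC, Nat.card_coe_set_eq, Set.ncard_singleton, mul_one]

/-- the radii for the even number `2 h` of residue classes -/
def rr (h : ℕ) (a : ZMod (h + h)) : ℝ :=
  if a.val < h then (a.val : ℝ) + 1 else -((a.val : ℝ) - h + 1)

theorem rr_pos {h : ℕ} {a : ZMod (h + h)} (ha : a.val < h) : 0 < rr h a := by
  rw [rr, if_pos ha]
  positivity

theorem rr_neg {h : ℕ} {a : ZMod (h + h)} (ha : ¬ a.val < h) : rr h a < 0 := by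
  rw [rr, if_neg ha]
  have : (h : ℝ) ≤ a.val := by exact_mod_cast not_lt.1 ha
  linarith

theorem rr_ne {h : ℕ} (a : ZMod (h + h)) : rr h a ≠ 0 := by
  by_cases ha : a.val < h
  · exact (rr_pos ha).ne'
  · exact (rr_neg ha).ne

theorem rr_inj {h : ℕ} (hh : 0 < h) : Function.Injective (rr h) := by
  haveI : NeZero (h + h) := ⟨by omega⟩
  intro a b e
  by_cases ha : a.val < h <;> by_cases hb : b.val < h
  · rw [rr, rr, if_pos ha, if_pos hb] at e
    have h2 : (a.val : ℝ) = (b.val : ℝ) := by linarith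
    exact ZMod.val_injective _ (by exact_mod_cast h2)
  · have h1 := rr_pos ha
    have h2 := rr_neg hb
    rw [e] at h1
    linarith
  · have h1 := rr_neg ha
    have h2 := rr_pos hb
    rw [e] at h1
    linarith
  · rw [rr, rr, if_neg ha, if_neg hb] at e
    have h2 : (a.val : ℝ) = (b.val : ℝ) := by linarith
    exact ZMod.val_injective _ (by exact_mod_cast h2)

theorem rr_add {h : ℕ} (hh : 0 < h) (a : ZMod (h + h)) :
    rr h (a + (h : ZMod (h + h))) = - rr h a := by
  haveI : NeZero (h + h) := ⟨by omega⟩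
  have hv : (h : ZMod (h + h)).val = h := ZMod.val_natCast_of_lt (by omega)
  have hlt : a.val < h + h := ZMod.val_lt a
  by_cases ha : a.val < h
  · have h1 : (a + (h : ZMod (h + h))).val = a.val + h := by
      rw [ZMod.val_add, hv, Nat.mod_eq_of_lt (by omega)]
    have h2 : ¬ (a + (h : ZMod (h + h))).val < h := by omega
    rw [rr, rr, if_neg h2, if_pos ha, h1]
    push_cast
    ring
  · have h1 : (a + (h : ZMod (h + h))).val = a.val - h := by
      rw [ZMod.val_add, hv, Nat.mod_eq_sub_mod (by omega), Nat.mod_eq_of_lt (by omega)]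
      omega
    have h2 : (a + (h : ZMod (h + h))).val < h := by omega
    rw [rr, rr, if_neg ha, if_pos h2, h1, Nat.cast_sub (by omega)]
    ring

/-- the case of an even number of at least four residue classes -/
theorem big {h : ℕ} (hh : 2 ≤ h) (hd : 2 ≤ d) :
    ∃ M : Mix d (ZMod (h + h)), Is5 M ∧ Function.Injective M.r ∧
      (h + h) * Nat.card M.HC = Nat.card M.C := by
  haveI : NeZero (h + h) := ⟨by omega⟩
  refine ⟨mk hd (rr h) rr_ne, is5 hd _ _, rr_inj (by omega), ?_⟩
  rw [card_C_big (by omega) hd]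
  have hHC : (mk hd (rr h) rr_ne).HC = {T 0, T (h : ZMod (h + h))} := by
    ext u
    rw [Set.mem_insert_iff, Set.mem_singleton_iff]
    constructor
    · rintro ⟨_, e | e⟩
      · left
        ext a
        have h1 : rr h (u a) = rr h a := e a
        rw [rr_inj (by omega) h1, T_apply, add_zero]
      · right
        ext a
        have h1 : rr h (u a) = - rr h a := e a
        rw [← rr_add (by omega)] at h1
        rw [rr_inj (by omega) h1, T_apply]
    · rintro (rfl | rfl)
      · refine ⟨T_mem hd 0, Or.inl fun a => ?_⟩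
        rw [T_zero]
        rfl
      · exact ⟨T_mem hd _, Or.inr fun a => rr_add (by omega) a⟩
  have hne : (T 0 : Equiv.Perm (ZMod (h + h))) ≠ T (h : ZMod (h + h)) := by
    intro e
    have h1 := (T_inj e).symm
    rw [ZMod.natCast_eq_zero_iff] at h1
    have := Nat.le_of_dvd (by omega) h1
    omega
  rw [hHC, Nat.card_coe_set_eq, Set.ncard_pair hne]

end QEN

/-- 12.4 -/
theorem t_QEN : StmtQEN := by
  intro k d hk he hd
  by_cases h2 : k ≤ 2
  · exact QEN.small (by omega) hd
  · rcases he with rfl | ⟨h, rfl⟩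
    · omega
    · exact QEN.big (by omega) hd

end

end FOK
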