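import Pool.Agent.FOK.Stmts3

/-!
# 10.6: permutations of `n` points which preserve a chain of subsets
-/

namespace FOK

open Lib_helper64.FO FO2 Finset

namespace PRM

lemma eq_swap {α : Type} [DecidableEq α] (σ : Equiv.Perm α) (a b : α) (h1 : σ a = b)
    (h2 : σ b = a) (h3 : ∀ p, p ≠ a → p ≠ b → σ p = p) : σ = Equiv.swap a b := by
  ext p
  rw [Equiv.swap_apply_def]
  split_ifs with hp hq
  · rw [hp, h1]
  · rw [hq, h2]
  · rw [h3 p hp hq]

end PRM

theorem t_PRM : S_PRM := by
  intro n τ B hn h
  obtain ⟨N, rfl⟩ : ∃ N, n = N + 6 := ⟨n - 6, by omega⟩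
  have hne : τ (N + 4) ≠ 1 := h.ne
  have hnc : (τ (N + 1) * τ (N + 2)) ^ 3 ≠ τ (N + 4) := h.nc
  have sq : ∀ j, j + 2 ≤ N + 6 → ∀ p, τ j (τ j p) = p := by
    intro j hj p
    have := congrArg (fun f => f p) (h.sq j hj)
    simpa using this
  have ex : ∀ i, i + 3 ≤ N + 6 → ∃ x, x ∉ B i ∧ insert x (B i) = B (i + 1) := by
    intro i hi
    have h1 := (Finset.exists_eq_insert_iff (s := B i) (t := B (i + 1))).2
      ⟨h.mono i hi, by rw [h.card i (by omega), h.card (i + 1) (by omega)]⟩
    exact h1
  have : Nonempty (Fin (N + 6)) := ⟨0⟩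
  choose! e0 he0 using ex
  have memB : ∀ i, i + 2 ≤ N + 6 → ∀ p, p ∈ B i ↔ ∃ m, m < i ∧ e0 m = p := by
    intro i
    induction i with
    | zero =>
      intro hi p
      have : B 0 = ∅ := card_eq_zero.1 (h.card 0 hi)
      rw [this]
      simp
    | succ i ih =>
      intro hi p
      rw [← (he0 i (by omega)).2, mem_insert, ih (by omega) p]
      constructor
      · rintro (rfl | ⟨m, hm, rfl⟩)
        · exact ⟨i, by omega, rfl⟩
        · exact ⟨m, by omega, rfl⟩
      · rintro ⟨m, hm, rfl⟩
        rcases Nat.lt_or_ge m i with h1 | h1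
        · exact Or.inr ⟨m, h1, rfl⟩
        · left
          rw [show m = i by omega]
  have inj0 : ∀ i j, i + 3 ≤ N + 6 → j + 3 ≤ N + 6 → e0 i = e0 j → i = j := by
    have key : ∀ i j, i + 3 ≤ N + 6 → j + 3 ≤ N + 6 → i < j → e0 i ≠ e0 j := by
      intro i j hi hj hij he
      exact (he0 j hj).1 ((memB j (by omega) (e0 j)).2 ⟨i, hij, he⟩)
    intro i j hi hj he
    rcases lt_trichotomy i j with h1 | h1 | h1
    · exact absurd he (key i j hi hj h1)
    · exact h1
    · exact absurd he.symm (key j i hj hi h1)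
  have inB : ∀ m i, m < i → i + 2 ≤ N + 6 → e0 m ∈ B i := fun m i hm hi =>
    (memB i hi _).2 ⟨m, hm, rfl⟩
  have mv : ∀ j, j + 3 ≤ N + 6 → τ j (e0 j) ∉ B (j + 1) := by
    intro j hj
    obtain ⟨p, hp, hp2⟩ := h.moves j hj
    rw [← (he0 j hj).2, mem_insert] at hp
    rcases hp with rfl | hp
    · exact hp2
    · exfalso
      apply hp2
      rw [h.fix j (by omega) p hp]
      exact h.mono j hj hp
  have s1 : ∀ j, j + 4 ≤ N + 6 → τ j (e0 j) = e0 (j + 1) := by
    intro j hj
    have h1 := h.pres j (j + 2) (by omega) (by omega) (by omega) (e0 j)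
      (inB j (j + 2) (by omega) (by omega))
    rw [← (he0 (j + 1) (by omega)).2, mem_insert] at h1
    rcases h1 with h1 | h1
    · exact h1
    · exact absurd h1 (mv j (by omega))
  have s2 : ∀ j, j + 4 ≤ N + 6 → τ j (e0 (j + 1)) = e0 j := by
    intro j hj
    rw [← s1 j hj, sq j (by omega)]
  have s3 : ∀ j i, j + 4 ≤ N + 6 → j + 2 ≤ i → i + 3 ≤ N + 6 → τ j (e0 i) = e0 i := by
    intro j i hj hji hi
    have h1 := h.pres j (i + 1) (by omega) (by omega) (by omega) (e0 i)
      (inB i (i + 1) (by omega) (by omega))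
    rw [← (he0 i hi).2, mem_insert] at h1
    rcases h1 with h1 | h1
    · exact h1
    · exfalso
      have h2 := h.pres j i (by omega) (by omega) (by omega) _ h1
      rw [sq j (by omega)] at h2
      exact (he0 i hi).1 h2
  have s4 : ∀ j i, j + 2 ≤ N + 6 → i < j → τ j (e0 i) = e0 i := by
    intro j i hj hij
    exact h.fix j hj _ (inB i j hij hj)
  -- the last two points
  obtain ⟨u, hu⟩ : ∃ u, u = τ (N + 3) (e0 (N + 3)) := ⟨_, rfl⟩
  have huB : u ∉ B (N + 4) := by
    rw [hu]
    exact mv (N + 3) (by omega)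
  obtain ⟨w, hw⟩ : ∃ w, (univ \ B (N + 4)).erase u = {w} := by
    apply card_eq_one.1
    rw [card_erase_of_mem (mem_sdiff.2 ⟨mem_univ _, huB⟩), card_sdiff_of_subset (subset_univ _),
      h.card (N + 4) (by omega), card_univ, Fintype.card_fin]
    omega
  have hw' : w ≠ u ∧ w ∉ B (N + 4) := by
    have : w ∈ (univ \ B (N + 4)).erase u := by rw [hw]; exact mem_singleton_self _
    rw [mem_erase, mem_sdiff] at this
    exact ⟨this.1, this.2.2⟩
  have all : ∀ p, p ∉ B (N + 4) → p = u ∨ p = w := by
    intro p hp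
    by_cases hpu : p = u
    · exact Or.inl hpu
    · right
      have : p ∈ (univ \ B (N + 4)).erase u :=
        mem_erase.2 ⟨hpu, mem_sdiff.2 ⟨mem_univ _, hp⟩⟩
      rw [hw] at this
      exact mem_singleton.1 this
  have notu : ∀ m, m + 3 ≤ N + 6 → e0 m ≠ u := by
    intro m hm he
    exact huB (he ▸ inB m (N + 4) (by omega) (by omega))
  have notw : ∀ m, m + 3 ≤ N + 6 → e0 m ≠ w := by
    intro m hm he
    exact hw'.2 (he ▸ inB m (N + 4) (by omega) (by omega))
  -- `τ (N + 3)`
  have t3u : τ (N + 3) u = e0 (N + 3) := by rw [hu, sq _ (by omega)]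
  have t3e : τ (N + 3) (e0 (N + 3)) = u := hu.symm
  have t3w : τ (N + 3) w = w := by
    by_cases hB : τ (N + 3) w ∈ B (N + 4)
    · exfalso
      rw [← (he0 (N + 3) (by omega)).2, mem_insert] at hB
      rcases hB with hB | hB
      · have := congrArg (τ (N + 3)) hB
        rw [sq _ (by omega), t3e] at this
        exact hw'.1 this
      · have h1 := h.fix (N + 3) (by omega) _ hB
        rw [sq _ (by omega)] at h1
        rw [← h1] at hB
        exact hw'.2 (h.mono (N + 3) (by omega) hB)
    · rcases all _ hB with h1 | h1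
      · exfalso
        have := congrArg (τ (N + 3)) h1
        rw [sq _ (by omega), t3u] at this
        exact notw (N + 3) (by omega) this.symm
      · exact h1
  -- `τ (N + 4)`
  have t4B : ∀ p ∈ B (N + 4), τ (N + 4) p = p := h.fix (N + 4) (by omega)
  have t4n : ∀ p, p ∉ B (N + 4) → τ (N + 4) p ∉ B (N + 4) := by
    intro p hp hB
    have h1 := t4B _ hB
    rw [sq _ (by omega)] at h1
    rw [← h1] at hB
    exact hp hB
  have t4u : τ (N + 4) u = w := by
    rcases all _ (t4n u huB) with h1 | h1
    · exfalso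
      apply hne
      have h2 : τ (N + 4) w = w := by
        rcases all _ (t4n w hw'.2) with h2 | h2
        · exfalso
          have := congrArg (τ (N + 4)) h2
          rw [sq _ (by omega), h1] at this
          exact hw'.1 this
        · exact h2
      ext p
      rw [Equiv.Perm.one_apply]
      by_cases hp : p ∈ B (N + 4)
      · rw [t4B p hp]
      · rcases all p hp with rfl | rfl
        · rw [h1]
        · rw [h2]
    · exact h1
  have t4w : τ (N + 4) w = u := by
    rw [← t4u, sq _ (by omega)]
  -- the others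
  have tn : ∀ j, j + 4 ≤ N + 6 → ∀ p, p ∉ B (N + 4) → τ j p ∉ B (N + 4) := by
    intro j hj p hp hB
    have h1 := h.pres j (N + 4) (by omega) (by omega) (by omega) _ hB
    rw [sq _ (by omega)] at h1
    exact hp h1
  have tw : ∀ j, j + 4 ≤ N + 6 → τ j u = u → τ j w = w := by
    intro j hj h1
    rcases all _ (tn j hj w hw'.2) with h2 | h2
    · exfalso
      have := congrArg (τ j) h2
      rw [sq _ (by omega), h1] at this
      exact hw'.1 this
    · exact h2
  have tu1 : ∀ j, j + 5 ≤ N + 6 → τ j u = u := by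
    intro j hj
    have h1 := congrArg (fun f => f (e0 (N + 3))) (h.comm j (N + 3) (by omega) (by omega))
    simp only [Equiv.Perm.mul_apply] at h1
    rw [t3e, s3 j (N + 3) (by omega) (by omega) (by omega), t3e] at h1
    exact h1
  have tu2 : τ (N + 2) u = u := by
    rcases all _ (tn (N + 2) (by omega) u huB) with h1 | h1
    · exact h1
    exfalso
    apply hnc
    have h2 : τ (N + 2) w = u := by rw [← h1, sq _ (by omega)]
    have hσu := tu1 (N + 1) (by omega)
    have hσw := tw (N + 1) (by omega) hσu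
    have a1 := s1 (N + 1) (by omega)
    have a2 := s2 (N + 1) (by omega)
    have a3 := s3 (N + 1) (N + 3) (by omega) (by omega) (by omega)
    have b1 := s1 (N + 2) (by omega)
    have b2 := s2 (N + 2) (by omega)
    have b3 := s4 (N + 2) (N + 1) (by omega) (by omega)
    simp only [show N + 1 + 1 = N + 2 from rfl] at a1 a2
    simp only [show N + 2 + 1 = N + 3 from rfl] at b1 b2
    have cube : ∀ p, ((τ (N + 1) * τ (N + 2)) ^ 3) p =
        τ (N + 1) (τ (N + 2) (τ (N + 1) (τ (N + 2) (τ (N + 1) (τ (N + 2) p))))) := by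
      intro p
      simp only [pow_succ, pow_zero, one_mul, Equiv.Perm.mul_apply]
    ext p
    rw [cube p]
    by_cases hp : p ∈ B (N + 4)
    · rw [t4B p hp]
      obtain ⟨m, hm, rfl⟩ := (memB (N + 4) (by omega) p).1 hp
      rcases Nat.lt_or_ge m (N + 1) with h3 | h3
      · have c1 := s4 (N + 1) m (by omega) h3
        have c2 := s4 (N + 2) m (by omega) (by omega)
        rw [c2, c1, c2, c1, c2, c1]
      · obtain rfl | rfl | rfl : m = N + 1 ∨ m = N + 2 ∨ m = N + 3 := by omega
        · rw [b3, a1, b1, a3, b2, a2]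
        · rw [b1, a3, b2, a2, b3, a1]
        · rw [b2, a2, b3, a1, b1, a3]
    · rcases all p hp with rfl | rfl
      · rw [h1, hσw, h2, hσu, h1, hσw, t4u]
      · rw [h2, hσu, h1, hσw, h2, hσu, t4w]
  have tu : ∀ j, j + 4 ≤ N + 6 → τ j u = u := by
    intro j hj
    rcases Nat.lt_or_ge j (N + 2) with h1 | h1
    · exact tu1 j (by omega)
    · rw [show j = N + 2 by omega]
      exact tu2
  -- the numbering
  refine ⟨fun i => if i + 3 ≤ N + 6 then e0 i else if i = N + 4 then u else w, ?_, ?_, ?_⟩
  · intro i j hi hj he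
    dsimp only at he
    split_ifs at he with c1 c2 c3 c4 c5 c6 c7 c8
    · exact inj0 i j c1 c2 he
    · exact absurd he (notu i c1)
    · exact absurd he (notw i c1)
    · exact absurd he.symm (notu j (by omega))
    · omega
    · exact absurd he.symm hw'.1
    · exact absurd he.symm (notw j (by omega))
    · exact absurd he hw'.1
    · omega
  · intro i hi p
    rw [memB i hi p]
    constructor
    · rintro ⟨m, hm, rfl⟩
      exact ⟨m, hm, if_pos (by omega)⟩
    · rintro ⟨m, hm, he⟩
      dsimp only at he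
      rw [if_pos (by omega)] at he
      exact ⟨m, hm, he⟩
  · intro j hj
    dsimp only
    rcases Nat.lt_or_ge j (N + 3) with h1 | h1
    · rw [if_pos (by omega), if_pos (by omega)]
      refine PRM.eq_swap _ _ _ (s1 j (by omega)) (s2 j (by omega)) ?_
      intro p hp1 hp2
      by_cases hp : p ∈ B (N + 4)
      · obtain ⟨m, hm, rfl⟩ := (memB (N + 4) (by omega) p).1 hp
        rcases Nat.lt_or_ge m j with h3 | h3
        · exact s4 j m (by omega) h3
        · have h4 : m ≠ j := fun h5 => hp1 (by rw [h5])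
          have h5 : m ≠ j + 1 := fun h6 => hp2 (by rw [h6])
          exact s3 j m (by omega) (by omega) (by omega)
      · rcases all p hp with rfl | rfl
        · exact tu j (by omega)
        · exact tw j (by omega) (tu j (by omega))
    · obtain rfl | rfl : j = N + 3 ∨ j = N + 4 := by omega
      · rw [if_pos (by omega), if_neg (by omega), if_pos (by omega)]
        refine PRM.eq_swap _ _ _ t3e t3u ?_
        intro p hp1 hp2
        by_cases hp : p ∈ B (N + 4)
        · obtain ⟨m, hm, rfl⟩ := (memB (N + 4) (by omega) p).1 hp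
          have h4 : m ≠ N + 3 := fun h5 => hp1 (by rw [h5])
          exact s4 (N + 3) m (by omega) (by omega)
        · rcases all p hp with rfl | rfl
          · exact absurd rfl hp2
          · exact t3w
      · rw [if_neg (by omega), if_pos rfl, if_neg (by omega), if_neg (by omega)]
        refine PRM.eq_swap _ _ _ t4u t4w ?_
        intro p hp1 hp2
        by_cases hp : p ∈ B (N + 4)
        · exact t4B p hp
        · rcases all p hp with rfl | rfl
          · exact absurd rfl hp1
          · exact absurd rfl hp2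

end FOK
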