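import Pool.Agent.FOK.Stmts3b
import Pool.Agent.FO2.AUD

/-!
# FOK, module MC1: 10.8, the axes of the cross-polytope
-/

set_option autoImplicit false

namespace FOK

open Lib_helper64.FO FO2
open scoped RealInnerProductSpace

namespace MC1

variable {d k : ℕ}

lemma sg_mul_self (s : ℤˣ) : (sg s : ℝ) * sg s = 1 := by
  rcases Int.units_eq_one_or s with rfl | rfl <;> simp [sg]

lemma sg_mul (s t : ℤˣ) : (sg (s * t) : ℝ) = sg s * sg t := by
  simp [sg]

lemma inner_u (u : OrthonormalBasis (Fin d) ℝ (E d)) (i j : Fin d) :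
    ⟪u i, u j⟫ = if i = j then (1 : ℝ) else 0 :=
  orthonormal_iff_ite.1 u.orthonormal i j

/-- the images of the first axis -/
noncomputable def av (gg : ℕ → (E d ≃ₗᵢ[ℝ] E d)) (a0 : E d) : ℕ → E d
  | 0 => a0
  | n + 1 => gg n (av gg a0 n)

/-- `IsD` for signed permutations of the basis -/
lemma isD_perm {Φ : Set (E d)} {u u' : OrthonormalBasis (Fin d) ℝ (E d)} (hu : IsD Φ u)
    (p : Fin d → Fin d) (s : Fin d → ℤˣ) (h : ∀ i, u' i = sg (s i) • u (p i)) : IsD Φ u' := by
  have hinj : Function.Injective p := by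
    intro i j hij
    by_contra hne
    have h1 := inner_u u' i j
    rw [if_neg hne, h, h, hij, inner_smul_left, inner_smul_right, inner_u, if_pos rfl] at h1
    simp only [conj_trivial, mul_one] at h1
    rcases mul_eq_zero.1 h1 with h2 | h2
    · have := sg_mul_self (s i)
      rw [h2] at this
      norm_num at this
    · have := sg_mul_self (s j)
      rw [h2] at this
      norm_num at this
  have hsurj : Function.Surjective p := Finite.injective_iff_surjective.1 hinj
  intro a
  rw [hu a]
  constructor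
  · rintro ⟨i, j, hij, t, t', e⟩
    obtain ⟨i', rfl⟩ := hsurj i
    obtain ⟨j', rfl⟩ := hsurj j
    refine ⟨i', j', fun h => hij (by rw [h]), t * s i', t' * s j', ?_⟩
    rw [e, h, h, sg_mul, sg_mul, smul_smul, smul_smul, mul_assoc, mul_assoc, sg_mul_self,
      sg_mul_self, mul_one, mul_one]
  · rintro ⟨i, j, hij, t, t', e⟩
    refine ⟨p i, p j, fun h => hij (hinj h), t * s i, t' * s j, ?_⟩
    rw [e, h, h, sg_mul, sg_mul, smul_smul, smul_smul]

/-- a vector orthogonal to all elements of the basis except one -/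
lemma eq_smul (u : OrthonormalBasis (Fin d) ℝ (E d)) (m : Fin d) (w : E d)
    (h : ∀ i, i ≠ m → ⟪u i, w⟫ = 0) : w = ⟪u m, w⟫ • u m := by
  have h1 := u.sum_repr' w
  rw [← h1]
  rw [Finset.sum_eq_single m]
  · congr 1
    rw [inner_smul_right, inner_u, if_pos rfl, mul_one]
  · intro i _ hi
    rw [h i hi, zero_smul]
  · intro hm
    exact absurd (Finset.mem_univ m) hm

/-- an isometry with an eigenvector: the eigenvalue is a sign -/
lemma sign_of {g : E d ≃ₗᵢ[ℝ] E d} {a : E d} (ha : ‖a‖ = 1) {c : ℝ} (h : g a = c • a) :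
    c = 1 ∨ c = -1 := by
  have h1 : ‖g a‖ = 1 := by rw [LinearIsometryEquiv.norm_map, ha]
  rw [h, norm_smul, ha, mul_one, Real.norm_eq_abs] at h1
  rcases abs_cases c with ⟨h2, _⟩ | ⟨h2, _⟩
  · left; rw [← h2, h1]
  · right; linarith

/-- an involutive isometry is self-adjoint -/
lemma adj {g : E d ≃ₗᵢ[ℝ] E d} (h : ∀ v, g (g v) = v) (a b : E d) : ⟪a, g b⟫ = ⟪g a, b⟫ := by
  rw [← LinearIsometryEquiv.inner_map_map g a (g b), h b]

section

variable {Γ : Type} [Group Γ] {X : Type} [MulAction Γ X] {G : KGeo d k Γ X} {l : ℕ}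
  {gg : ℕ → (E d ≃ₗᵢ[ℝ] E d)}

/-- a family of unit vectors in `V n` that are pairwise orthogonal spans `V n` -/
lemma span_eq (hT : Top G l) {n : ℕ} (hn : n ≤ d) {b : ℕ → E d} (hm : ∀ i, i < n → b i ∈ G.V 1 n)
    (h1 : ∀ i, i < n → ‖b i‖ = 1) (h2 : ∀ i j, i < j → j < n → ⟪b i, b j⟫ = (0 : ℝ)) :
    G.V 1 n = Submodule.span ℝ (b '' {m | m < n}) := by
  have ho : Orthonormal ℝ (fun i : Fin n => b i) := by
    refine ⟨fun i => h1 i i.2, ?_⟩
    intro i j hij
    rcases lt_or_gt_of_ne hij with h | h
    · exact h2 i j h j.2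
    · show ⟪b i, b j⟫ = (0 : ℝ)
      rw [real_inner_comm]
      exact h2 j i h i.2
  have hr : Set.range (fun i : Fin n => b i) = b '' {m | m < n} := by
    ext w
    constructor
    · rintro ⟨i, rfl⟩
      exact ⟨i, i.2, rfl⟩
    · rintro ⟨m, hm, rfl⟩
      exact ⟨⟨m, hm⟩, rfl⟩
  rw [← hr]
  symm
  refine Submodule.eq_of_le_of_finrank_le ?_ ?_
  · rw [Submodule.span_le]
    rintro _ ⟨i, rfl⟩
    exact hm i i.2
  · rw [hT.dimV 1 n hn, finrank_span_eq_card ho.linearIndependent, Fintype.card_fin]

lemma l_d (hT : Top G l) : 5 ≤ d := by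
  have := hT.ld
  omega

/-- the vectors `av` are signed elements of the basis -/
lemma av_ax (hT : Top G l) (hG : Gens G l gg) {u : OrthonormalBasis (Fin d) ℝ (E d)}
    (hu : IsD (Ph G 1 0 l) u) (i0 : Fin d) :
    ∀ j, j < d → ∃ (m : Fin d) (s : ℤˣ), av gg (u i0) j = sg s • u m := by
  intro j
  induction j with
  | zero =>
    intro _
    refine ⟨i0, 1, ?_⟩
    rw [av]
    simp [sg]
  | succ j ih =>
    intro hj
    obtain ⟨m, s, h⟩ := ih (by omega)
    obtain ⟨π, t, ht⟩ := autD d (Ph G 1 0 l) u (l_d hT) hu (gg j)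
      (fun a ha => (hG.root j (by omega) a).2 ha)
    refine ⟨π m, s * t m, ?_⟩
    rw [av, h, map_smul, ht, smul_smul, sg_mul]

lemma av_norm (gg : ℕ → (E d ≃ₗᵢ[ℝ] E d)) (u : OrthonormalBasis (Fin d) ℝ (E d)) (i0 : Fin d)
    (j : ℕ) : ‖av gg (u i0) j‖ = 1 := by
  induction j with
  | zero => rw [av]; exact u.orthonormal.1 i0
  | succ j ih => rw [av, LinearIsometryEquiv.norm_map, ih]

/-- the induction: `V n` is spanned by the first `n` vectors -/
lemma chain (hT : Top G l) (hG : Gens G l gg) {u : OrthonormalBasis (Fin d) ℝ (E d)}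
    (hu : IsD (Ph G 1 0 l) u) {i0 : Fin d} (h0 : u i0 ∈ G.V 1 1) :
    ∀ n, n ≤ d → (∀ m, m ≤ n → G.V 1 m = Submodule.span ℝ (av gg (u i0) '' {i | i < m})) ∧
      ∀ i j, i < j → j < n → ⟪av gg (u i0) i, av gg (u i0) j⟫ = (0 : ℝ) := by
  have hax := av_ax hT hG hu i0
  have hnm := av_norm gg u i0
  intro n
  induction n with
  | zero =>
    intro _
    refine ⟨?_, fun i j _ h => absurd h (by omega)⟩
    intro m hm
    obtain rfl : m = 0 := by omega
    exact span_eq hT (by omega) (fun i h => absurd h (by omega)) (fun i h => absurd h (by omega))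
      (fun i j _ h => absurd h (by omega))
  | succ n ih =>
    intro hn
    obtain ⟨ih1, ih2⟩ := ih (by omega)
    -- the new vector is in `V (n + 1)` and orthogonal to the previous ones
    have hnew : av gg (u i0) n ∈ G.V 1 (n + 1) ∧
        ∀ i, i < n → ⟪av gg (u i0) i, av gg (u i0) n⟫ = (0 : ℝ) := by
      rcases n with _ | m
      · refine ⟨?_, fun i h => absurd h (by omega)⟩
        rw [av]
        exact h0
      · have hmV : av gg (u i0) m ∈ G.V 1 (m + 1) := by
          rw [ih1 (m + 1) le_rfl]
          exact Submodule.subset_span ⟨m, Nat.lt_succ_self m, rfl⟩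
        have hmD : av gg (u i0) m ∈ G.D 1 m := by
          refine ⟨hmV, ?_⟩
          show av gg (u i0) m ∈ (G.V 1 m)ᗮ
          rw [ih1 m (by omega), Submodule.mem_orthogonal]
          intro v hv
          induction hv using Submodule.span_induction with
          | mem x hx =>
            obtain ⟨i, hi, rfl⟩ := hx
            exact ih2 i m hi (by omega)
          | zero => exact inner_zero_left _
          | add x y _ _ hx hy => rw [inner_add_left, hx, hy, add_zero]
          | smul a x _ hx => rw [inner_smul_left, hx, mul_zero]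
        have hne : av gg (u i0) m ≠ 0 := by
          intro h
          have := hnm m
          rw [h, norm_zero] at this
          exact zero_ne_one this
        have hmv := hG.moves m (by omega) _ hmD hne
        refine ⟨?_, ?_⟩
        · rw [av]
          exact hG.pres m (m + 1 + 1) _ (by omega) (by omega) (G.V_mono 1 (by omega) hmV)
        · intro i hi
          obtain ⟨p, s, hp⟩ := hax i (by omega)
          obtain ⟨q, t, hq⟩ := hax (m + 1) (by omega)
          rw [hp, hq, inner_smul_left, inner_smul_right, inner_u]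
          by_cases hpq : p = q
          · exfalso
            apply hmv
            have h1 : gg m (av gg (u i0) m) = sg t • u q := hq
            have h2 : u q = sg s • av gg (u i0) i := by
              rw [hp, smul_smul, sg_mul_self, one_smul, hpq]
            rw [h1, h2]
            refine Submodule.smul_mem _ _ (Submodule.smul_mem _ _ ?_)
            rw [ih1 (m + 1) le_rfl]
            exact Submodule.subset_span ⟨i, hi, rfl⟩
          · rw [if_neg hpq, mul_zero, mul_zero]
    have horth : ∀ i j, i < j → j < n + 1 →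
        ⟪av gg (u i0) i, av gg (u i0) j⟫ = (0 : ℝ) := by
      intro i j hij hj
      rcases Nat.lt_succ_iff_lt_or_eq.1 hj with h | rfl
      · exact ih2 i j hij h
      · exact hnew.2 i hij
    refine ⟨?_, horth⟩
    intro m hm
    rcases Nat.lt_or_ge m (n + 1) with h | h
    · exact ih1 m (by omega)
    · obtain rfl : m = n + 1 := by omega
      apply span_eq hT hn
      · intro i hi
        rcases Nat.lt_succ_iff_lt_or_eq.1 hi with h | rfl
        · apply G.V_mono 1 (Nat.le_succ n)
          rw [ih1 n le_rfl]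
          exact Submodule.subset_span ⟨i, h, rfl⟩
        · exact hnew.1
      · exact fun i _ => hnm i
      · exact horth

end

end MC1

open MC1 in
theorem t_MC1 : S_MC1 := by
  intro d k Γ _ _ X _ G l hT gg hG u hu hi0
  obtain ⟨i0, h0⟩ := hi0
  have hd5 : 5 ≤ d := l_d hT
  have hax := av_ax hT hG hu i0
  have hnm := av_norm gg u i0
  obtain ⟨hV, ho⟩ := chain hT hG hu h0 d le_rfl
  -- the new basis
  have hon : Orthonormal ℝ (fun i : Fin d => av gg (u i0) i) := by
    refine ⟨fun i => hnm i, ?_⟩
    intro i j hij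
    rcases lt_or_gt_of_ne hij with h | h
    · exact ho i j h j.2
    · show ⟪av gg (u i0) i, av gg (u i0) j⟫ = (0 : ℝ)
      rw [real_inner_comm]
      exact ho j i h i.2
  have hsp : (⊤ : Submodule ℝ (E d)) ≤ Submodule.span ℝ (Set.range fun i : Fin d =>
      av gg (u i0) i) := by
    have h1 : Submodule.span ℝ (Set.range fun i : Fin d => av gg (u i0) i) = ⊤ := by
      apply Submodule.eq_top_of_finrank_eq
      rw [finrank_span_eq_card hon.linearIndependent, Fintype.card_fin]
      simp
    rw [h1]
  set u' : OrthonormalBasis (Fin d) ℝ (E d) := OrthonormalBasis.mk hon hsp with hu'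
  have hval : ∀ i : Fin d, u' i = av gg (u i0) i := by
    intro i
    rw [hu', OrthonormalBasis.coe_mk]
  have hD : IsD (Ph G 1 0 l) u' := by
    have : ∀ i : Fin d, ∃ (m : Fin d) (s : ℤˣ), u' i = sg s • u m := by
      intro i
      rw [hval]
      exact hax i i.2
    choose p s hps using this
    exact isD_perm hu p s hps
  have hVu : ∀ i, i ≤ d → G.V 1 i = Submodule.span ℝ (u' '' {m | m.val < i}) := by
    intro i hi
    rw [hV i hi]
    congr 1
    ext w
    constructor
    · rintro ⟨m, hm, rfl⟩
      have hm' : m < i := hm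
      exact ⟨⟨m, by omega⟩, hm', hval _⟩
    · rintro ⟨m, hm, rfl⟩
      exact ⟨m, hm, (hval m).symm⟩
  have hmem : ∀ (m : Fin d) (i : ℕ), i ≤ d → m.val < i → u' m ∈ G.V 1 i := by
    intro m i hi hm
    rw [hVu i hi]
    exact Submodule.subset_span ⟨m, hm, rfl⟩
  have hperp : ∀ (m : Fin d) (i : ℕ), i ≤ m.val → ∀ v ∈ G.V 1 i, ⟪v, u' m⟫ = (0 : ℝ) := by
    intro m i hi v hv
    rw [hVu i (by omega)] at hv
    induction hv using Submodule.span_induction with
    | mem x hx =>
      obtain ⟨n, hn, rfl⟩ := hx
      have hn' : n.val < i := hn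
      rw [inner_u, if_neg]
      intro h
      rw [h] at hn'
      omega
    | zero => exact inner_zero_left _
    | add x y _ _ hx hy => rw [inner_add_left, hx, hy, add_zero]
    | smul a x _ hx => rw [inner_smul_left, hx, mul_zero]
  have hsw1 : ∀ i j : Fin d, j.val = i.val + 1 → gg i (u' i) = u' j := by
    intro i j hij
    rw [hval i, hval j, hij, av]
  have hsw2 : ∀ i j : Fin d, j.val = i.val + 1 → gg i (u' j) = u' i := by
    intro i j hij
    rw [← hsw1 i j hij, hG.sq i i.2]
  have hlow : ∀ j i : Fin d, 1 ≤ j.val → i.val < j.val → gg j (u' i) = u' i := by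
    intro j i hj hij
    exact hG.fix j hj j.2 _ (hmem i j (by omega) hij)
  -- the scalar
  have hhi : ∀ j : ℕ, ∃ e : ℝ, (e = 1 ∨ e = -1) ∧
      ∀ i : Fin d, j + 2 ≤ i.val → gg j (u' i) = e • u' i := by
    intro j
    by_cases hj : j + 2 < d
    · set m : Fin d := ⟨j + 2, hj⟩ with hm
      have hmv : m.val = j + 2 := rfl
      have h1 : ∀ i, i ≠ m → ⟪u' i, gg j (u' m)⟫ = (0 : ℝ) := by
        intro i hi
        rcases lt_or_gt_of_ne hi with h | h
        · have hlt : i.val < m.val := h
          rw [adj (hG.sq j (by omega))]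
          apply hperp m (j + 2) (by omega)
          apply hG.pres j (j + 2) _ (by omega) (by omega)
          exact hmem i (j + 2) (by omega) (by omega)
        · have hlt : m.val < i.val := h
          rw [real_inner_comm]
          apply hperp i (j + 3) (by omega)
          apply hG.pres j (j + 3) _ (by omega) (by omega)
          exact hmem m (j + 3) (by omega) (by omega)
      have h2 := eq_smul u' m _ h1
      refine ⟨⟪u' m, gg j (u' m)⟫, sign_of (u'.orthonormal.1 m) h2, ?_⟩
      set e : ℝ := ⟪u' m, gg j (u' m)⟫ with he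
      have key : ∀ n, ∀ i : Fin d, i.val = j + 2 + n → gg j (u' i) = e • u' i := by
        intro n
        induction n with
        | zero =>
          intro i hi
          obtain rfl : i = m := Fin.ext (by omega)
          exact h2
        | succ n ih =>
          intro i hi
          have hi' : j + 2 + n < d := by omega
          have h3 := hsw1 ⟨j + 2 + n, hi'⟩ i (by simp only; omega)
          have h4 := ih ⟨j + 2 + n, hi'⟩ rfl
          rw [← h3, hG.comm j (j + 2 + n) (by omega) hi', h4, map_smul]
      intro i hi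
      exact key (i.val - (j + 2)) i (by omega)
    · refine ⟨1, Or.inl rfl, ?_⟩
      intro i hi
      exact absurd i.2 (by omega)
  choose ε hε1 hε2 using hhi
  refine ⟨u', ε, hD, ⟨hVu, hlow, hsw1, hsw2, fun j i h => hε2 j i h, hε1, ?_⟩⟩
  -- the last one
  intro j hj
  have h1 : ∀ i, i ≠ j → ⟪u' i, gg j (u' j)⟫ = (0 : ℝ) := by
    intro i hi
    have hne : i.val ≠ j.val := fun h => hi (Fin.ext h)
    have hlt : i.val < j.val := by omega
    rw [adj (hG.sq j j.2), hlow j i (by omega) hlt, inner_u, if_neg hi]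
  have h2 := eq_smul u' j _ h1
  rcases sign_of (u'.orthonormal.1 j) h2 with h3 | h3
  · exfalso
    rw [h3, one_smul] at h2
    have h4 : ∀ v, gg j v = v := by
      intro v
      have h5 := u'.sum_repr' v
      rw [← h5, map_sum]
      refine Finset.sum_congr rfl fun i _ => ?_
      rw [map_smul]
      congr 1
      by_cases hij : i = j
      · rw [hij, h2]
      · have hne : i.val ≠ j.val := fun h => hij (Fin.ext h)
        exact hlow j i (by omega) (by omega)
    have hl := hT.ld
    have hN : G.ρ j ∈ G.N := hT.up (G.ρ_mem_up (by omega))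
    have h5 := hG.inN j (by omega) j.2 hN
    apply G.ne_one j j.2
    apply G.eq_one_of_R (g := 1) hN
    intro y
    rw [← h5]
    exact h4 _
  · rw [h3, neg_one_smul] at h2
    exact h2

end FOK
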