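import Pool.Agent.FOK.Stmts4

/-!
# QRS: the orbit of the base pair is rich in the case of the simplex
-/

namespace FOK

open Lib_helper64.FO FO2
open scoped RealInnerProductSpace

noncomputable section

namespace QRS

/-! ### words in involutions -/

section words

variable {G : Type*} [Group G] {d : ℕ} {p : Fin d → G}

theorem rev_prod (hp : ∀ j, p j * p j = 1) (w : List (Fin d)) :
    (w.reverse.map p).prod = ((w.map p).prod)⁻¹ := by
  induction w with
  | nil => simp
  | cons j w ih =>
    have h1 : (p j)⁻¹ = p j := inv_eq_of_mul_eq_one_right (hp j)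
    rw [List.reverse_cons, List.map_append, List.prod_append, ih]
    simp only [List.map_cons, List.map_nil, List.prod_cons, List.prod_nil, mul_one, mul_inv_rev, h1]

theorem exists_word (hp : ∀ j, p j * p j = 1) {x : G} (hx : x ∈ Subgroup.closure (Set.range p)) :
    ∃ w : List (Fin d), (w.map p).prod = x := by
  induction hx using Subgroup.closure_induction with
  | mem x hx =>
    obtain ⟨j, rfl⟩ := hx
    exact ⟨[j], by simp⟩
  | one => exact ⟨[], by simp⟩
  | mul x y _ _ hx hy =>
    obtain ⟨w, rfl⟩ := hx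
    obtain ⟨w', rfl⟩ := hy
    exact ⟨w ++ w', by rw [List.map_append, List.prod_append]⟩
  | inv x _ hx =>
    obtain ⟨w, rfl⟩ := hx
    exact ⟨w.reverse, rev_prod hp w⟩

end words

/-! ### permutations -/

/-- the transposition of `j` and `j + 1` -/
def tr {d : ℕ} (j : Fin d) : Equiv.Perm (Fin (d + 1)) := Equiv.swap j.castSucc j.succ

theorem tr_sq {d : ℕ} (j : Fin d) : tr j * tr j = 1 := Equiv.swap_mul_self _ _

theorem closure_tr (d : ℕ) : Subgroup.closure (Set.range (tr (d := d))) = ⊤ := by
  rw [eq_top_iff]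
  intro x _
  have h := Equiv.Perm.mclosure_swap_castSucc_succ d
  have h1 : x ∈ Submonoid.closure (Set.range fun i : Fin d => Equiv.swap i.castSucc i.succ) := by
    rw [h]
    trivial
  exact (Subgroup.le_closure_toSubmonoid (Set.range (tr (d := d)))) h1

theorem exists_tr_word {d : ℕ} (τ : Equiv.Perm (Fin (d + 1))) :
    ∃ w : List (Fin d), (w.map tr).prod = τ := by
  apply exists_word tr_sq
  rw [closure_tr]
  trivial

theorem exists_perm {α : Type*} [DecidableEq α] {x y i i' : α} (h : x ≠ y) (h' : i ≠ i') :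
    ∃ τ : Equiv.Perm α, τ x = i ∧ τ y = i' := by
  refine ⟨Equiv.swap (Equiv.swap x i y) i' * Equiv.swap x i, ?_, ?_⟩
  · rw [Equiv.Perm.mul_apply, Equiv.swap_apply_left]
    apply Equiv.swap_apply_of_ne_of_ne _ h'
    intro h0
    apply h
    apply (Equiv.swap x i).injective
    rw [Equiv.swap_apply_left]
    exact h0
  · rw [Equiv.Perm.mul_apply, Equiv.swap_apply_left]

/-- a word with `π = 1` giving the transposition of `i` and `i'` -/
theorem exists_swap_word {d : ℕ} {G : Type*} [Group G] {π : Fin d → G}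
    (hπ : ∀ j, π j * π j = 1) {l : Fin d} (hl : π l = 1) {i i' : Fin (d + 1)} (h : i ≠ i') :
    ∃ w : List (Fin d), (w.map π).prod = 1 ∧ (w.map tr).prod = Equiv.swap i i' := by
  have hne : l.castSucc ≠ l.succ := by
    intro h0
    have := congrArg Fin.val h0
    simp at this
  obtain ⟨τ, h1, h2⟩ := exists_perm hne h
  obtain ⟨w, hw⟩ := exists_tr_word τ
  refine ⟨w ++ [l] ++ w.reverse, ?_, ?_⟩
  · rw [List.map_append, List.map_append, List.prod_append, List.prod_append, rev_prod hπ]
    simp [hl]
  · rw [List.map_append, List.map_append, List.prod_append, List.prod_append, rev_prod tr_sq, hw,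
      ← h1, ← h2, Equiv.swap_apply_apply]
    simp [tr]

/-! ### the simplex -/

section simplex

variable {d : ℕ} {v : Fin (d + 1) → E d}

theorem prod_apply {g : Fin d → (E d ≃ₗᵢ[ℝ] E d)}
    (hg : ∀ (j : Fin d) (i : Fin (d + 1)), g j (v i) = v (Equiv.swap j.castSucc j.succ i))
    (w : List (Fin d)) (i : Fin (d + 1)) :
    (w.map g).prod (v i) = v ((w.map tr).prod i) := by
  induction w with
  | nil => rfl
  | cons j w ih =>
    rw [List.map_cons, List.prod_cons, List.map_cons, List.prod_cons, Equiv.Perm.mul_apply]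
    change g j ((w.map g).prod (v i)) = _
    rw [ih, hg]
    rfl

theorem inner_diff (hv : IsSimplex v) (i j : Fin d) :
    ⟪v j.succ, v i.succ - v 0⟫ = if j = i then (1 + 1 / d : ℝ) else 0 := by
  rw [inner_sub_right, hv, hv, if_neg (Fin.succ_ne_zero j)]
  by_cases h : j = i
  · subst h
    rw [if_pos rfl, if_pos rfl]
    ring
  · rw [if_neg h, if_neg (fun h0 => h (Fin.succ_injective _ h0))]
    ring

theorem linInd (hv : IsSimplex v) : LinearIndependent ℝ (fun i : Fin d => v i.succ - v 0) := by
  rw [Fintype.linearIndependent_iff]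
  intro c hc j
  have h1 : ⟪v j.succ, ∑ i, c i • (v i.succ - v 0)⟫ = c j * (1 + 1 / d) := by
    rw [inner_sum]
    have h2 : ∀ i, ⟪v j.succ, c i • (v i.succ - v 0)⟫ =
        if j = i then c i * (1 + 1 / d : ℝ) else 0 := by
      intro i
      rw [inner_smul_right, inner_diff hv]
      split_ifs
      · rfl
      · ring
    rw [Finset.sum_congr rfl fun i _ => h2 i, Finset.sum_ite_eq, if_pos (Finset.mem_univ _)]
  rw [hc, inner_zero_right] at h1
  have h3 : (1 + 1 / d : ℝ) ≠ 0 := by positivity
  exact (mul_eq_zero.1 h1.symm).resolve_right h3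

theorem span_diff (hv : IsSimplex v) :
    Submodule.span ℝ (Set.range (fun i : Fin d => v i.succ - v 0)) = ⊤ := by
  apply (linInd hv).span_eq_top_of_card_eq_finrank'
  simp [E]

end simplex

end QRS

theorem t_QRS : StmtQRS := by
  intro d _ y0 g A M hS hl a
  obtain ⟨v, hv, h0, hg⟩ := hS
  obtain ⟨l, -, -, hl⟩ := hl
  have hall : ∀ i, InO y0 g M (v i) a := by
    obtain ⟨q, hq, hqa⟩ := M.trans a
    obtain ⟨u, hu⟩ := QRS.exists_word M.sq hq
    intro i
    by_cases hi : (u.map QRS.tr).prod 0 = i
    · refine ⟨u, ?_, ?_⟩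
      · rw [hu, hqa]
      · rw [h0, QRS.prod_apply hg, hi]
    · obtain ⟨w, hw1, hw2⟩ := QRS.exists_swap_word M.sq hl hi
      refine ⟨w ++ u, ?_, ?_⟩
      · rw [List.map_append, List.prod_append, hw1, one_mul, hu, hqa]
      · rw [h0, QRS.prod_apply hg, List.map_append, List.prod_append, hw2,
          Equiv.Perm.mul_apply, Equiv.swap_apply_left]
  rw [eq_top_iff, ← QRS.span_diff hv]
  apply Submodule.span_mono
  rintro x ⟨i, rfl⟩
  exact ⟨v i.succ, v 0, hall _, hall _, rfl⟩

end

end FOK
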