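import Pool.Agent.FOK.Stmts4
import Pool.Agent.FO2.PA

/-!
# QAS: the main theorem from its parts
-/

namespace FOK

open Lib_helper64.FO FO2
open scoped RealInnerProductSpace

namespace QAS

theorem simplex_li {d : ℕ} (hd : d ≠ 0) {v : Fin (d + 1) → E d} (hv : IsSimplex v) :
    LinearIndependent ℝ (fun i : Fin d => v i.castSucc) := by
  have hd' : (d : ℝ) ≠ 0 := Nat.cast_ne_zero.2 hd
  rw [Fintype.linearIndependent_iff]
  intro c hc
  obtain ⟨c', hc1, hc2⟩ : ∃ c' : Fin (d + 1) → ℝ, (∀ i : Fin d, c' i.castSucc = c i) ∧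
      c' (Fin.last d) = 0 :=
    ⟨Fin.snoc (α := fun _ => ℝ) c 0, fun i => by simp, by simp⟩
  have h1 : ∑ i, c' i • v i = 0 := by
    rw [Fin.sum_univ_castSucc, hc2, zero_smul, add_zero, ← hc]
    exact Finset.sum_congr rfl fun i _ => by rw [hc1]
  have h2 : ∀ j, c' j * (1 + 1 / d) - (∑ i, c' i) / d = 0 := fun j => by
    rw [← FO2.PA.inner_comb hv c' j, h1, inner_zero_right]
  have h3 : ∑ i, c' i = 0 := by
    have := h2 (Fin.last d)
    rw [hc2, zero_mul, zero_sub, neg_eq_zero, div_eq_zero_iff] at this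
    exact this.resolve_right hd'
  intro j
  have h4 := h2 j.castSucc
  rw [h3, zero_div, sub_zero, hc1] at h4
  refine (mul_eq_zero.1 h4).resolve_right ?_
  have : (0 : ℝ) ≤ 1 / d := by positivity
  linarith

theorem eq_one_of_span {d : ℕ} {ι : Type} [Fintype ι] (v : ι → E d)
    (hli : LinearIndependent ℝ v) (hc : Fintype.card ι = d) (g : E d ≃ₗᵢ[ℝ] E d)
    (h : ∀ i, g (v i) = v i) : g = 1 := by
  have hs : Submodule.span ℝ (Set.range v) = ⊤ :=
    hli.span_eq_top_of_card_eq_finrank' (by rw [hc, finrank_euclideanSpace, Fintype.card_fin])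
  ext1 x
  have hx : x ∈ Submodule.span ℝ (Set.range v) := by rw [hs]; trivial
  show g x = x
  induction hx using Submodule.span_induction with
  | mem y hy =>
    obtain ⟨i, rfl⟩ := hy
    exact h i
  | zero => exact map_zero g
  | add y z _ _ hy hz => rw [map_add, hy, hz]
  | smul c y _ hy => rw [map_smul, hy]

theorem sq_simplex {d : ℕ} {y0 : E d} {g : Fin d → (E d ≃ₗᵢ[ℝ] E d)} (h : SimplexModel y0 g)
    (j : Fin d) : g j * g j = 1 := by
  obtain ⟨v, hv, -, hg⟩ := h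
  have hd : d ≠ 0 := fun e => by subst e; exact j.elim0
  refine eq_one_of_span _ (simplex_li hd hv) (Fintype.card_fin d) _ fun i => ?_
  show g j (g j (v i.castSucc)) = _
  rw [hg, hg, Equiv.swap_apply_self]

theorem eq_one_of_basis {d : ℕ} (u : OrthonormalBasis (Fin d) ℝ (E d)) (g : E d ≃ₗᵢ[ℝ] E d)
    (h : ∀ i, g (u i) = u i) : g = 1 :=
  eq_one_of_span u u.orthonormal.linearIndependent (Fintype.card_fin d) g h

theorem sq_cross {d : ℕ} {y0 : E d} {g : Fin d → (E d ≃ₗᵢ[ℝ] E d)} (h : CrossModel y0 g)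
    (j : Fin d) : g j * g j = 1 := by
  obtain ⟨u, -, hg⟩ := h
  refine eq_one_of_basis u _ fun i => ?_
  show g j (g j (u i)) = _
  by_cases hj : j.val + 1 < d
  · rw [hg, dif_pos hj, hg, dif_pos hj, Equiv.swap_apply_self]
  · rw [hg, dif_neg hj]
    by_cases hi : i = j
    · rw [if_pos hi, map_neg, hg, dif_neg hj, if_pos hi, neg_neg]
    · rw [if_neg hi, hg, dif_neg hj, if_neg hi]

theorem sq_cube {d : ℕ} {y0 : E d} {g : Fin d → (E d ≃ₗᵢ[ℝ] E d)} (h : CubeModel y0 g)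
    (j : Fin d) : g j * g j = 1 := by
  obtain ⟨u, -, hg⟩ := h
  refine eq_one_of_basis u _ fun i => ?_
  show g j (g j (u i)) = _
  by_cases hj : j.val = 0
  · rw [hg, if_pos hj]
    by_cases hi : i = j
    · rw [if_pos hi, map_neg, hg, if_pos hj, if_pos hi, neg_neg]
    · rw [if_neg hi, hg, if_pos hj, if_neg hi]
  · rw [hg, if_neg hj, hg, if_neg hj, Equiv.swap_apply_self]

theorem sq_model {d : ℕ} {y0 : E d} {g : Fin d → (E d ≃ₗᵢ[ℝ] E d)} {A : Type} {M : Mix d A}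
    (h : ModelOK y0 g M) (j : Fin d) : g j * g j = 1 := by
  rcases h with h | h | h
  · exact sq_simplex h.1 j
  · exact sq_cross h.1 j
  · exact sq_cube h.1 j

theorem rich {d : ℕ} (hRS : StmtQRS) (hRX : StmtQRX) (hRC : StmtQRC) (hd : 4 ≤ d) {y0 : E d}
    {g : Fin d → (E d ≃ₗᵢ[ℝ] E d)} {A : Type} {M : Mix d A} (h : ModelOK y0 g M)
    (hl : ∃ l : Fin d, 1 ≤ l.val ∧ l.val + 2 ≤ d ∧ M.π l = 1) : Rich y0 g M := by
  rcases h with h | h | h
  · exact hRS d hd y0 g A M h.1 hl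
  · exact hRX d hd y0 g A M h.1 hl
  · exact hRC d hd y0 g A M h.1 hl

/-- the action of the automorphisms on the vertices -/
@[reducible] def act {P : Type} [PartialOrder P] (rk : P → ℤ)
    (h : ∀ (γ : P ≃o P) (x : P), rk (γ x) = rk x) : MulAction (P ≃o P) {v : P // rk v = 0} where
  smul γ v := ⟨γ v.1, by rw [h, v.2]⟩
  one_smul _ := rfl
  mul_smul _ _ _ := rfl

theorem count (hFl : StmtFlag) (hCT : StmtQCT) {d : ℕ} (hd : 1 ≤ d) {P : Type} [PartialOrder P]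
    [Finite P] {rk : P → ℤ} (hP : IsRegularPolytope d rk) (f : P → E d) (C : Flag P)
    (ρ : Fin d → (P ≃o P)) (hPG : PolyGroup d rk C (exG ρ)) {F0 : P} (hF0 : F0 ∈ C)
    (hr : rk F0 = 0) (c y0 : E d) (g : Fin d → (E d ≃ₗᵢ[ℝ] E d)) (A : Type) [Finite A]
    (M : Mix d A) (hR : Rich y0 g M) (hg : ∀ j, g j * g j = 1)
    (hw : ∀ w : List (Fin d), f ((w.map ρ).prod F0) =
      c + M.r ((w.map M.π).prod M.a0) • ((w.map g).prod y0)) :
    (symGroup rk f).index * Nat.card M.HC = Nat.card M.C := by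
  obtain ⟨hF1, -, hF3, hF4, -⟩ := hFl d P rk hP
  let _ := act rk hF3
  have hex : ∀ j : Fin d, exG ρ j.val = ρ j := fun j => by
    rw [exG, dif_pos j.isLt]
  refine hCT d hd (P ≃o P) {v : P // rk v = 0} ρ ⟨F0, hr⟩ (fun x => f x.1) c y0 g A M
    (symGroup rk f) hR ?_ ?_ hg ?_ hw ?_
  · have h1 : gpar (exG ρ) Set.univ ≤ Subgroup.closure (Set.range ρ) := by
      rw [gpar, Subgroup.closure_le]
      rintro _ ⟨i, -, rfl⟩
      by_cases h : i < d
      · rw [exG, dif_pos h]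
        exact Subgroup.subset_closure ⟨_, rfl⟩
      · rw [exG, dif_neg h]
        exact one_mem _
    rw [hPG.gen] at h1
    exact top_le_iff.1 h1
  · intro j
    have := hPG.sq j.val
    rwa [hex] at this
  · intro x
    obtain ⟨D, hD⟩ := hF4 {x.1} (by simp)
    obtain ⟨γ, hγ⟩ := hP.regular C D
    refine ⟨γ, Subtype.ext ?_⟩
    show γ F0 = x.1
    apply hF1 D
    · rw [← hγ, ← SetLike.mem_coe, Flag.coe_smul, Set.mem_smul_set]
      exact ⟨F0, hF0, rfl⟩
    · exact hD rfl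
    · rw [hF3, hr, x.2]
  · intro γ
    constructor
    · rintro ⟨-, T, hT⟩
      exact ⟨T, fun x => hT x.1 x.2⟩
    · rintro ⟨T, hT⟩
      exact ⟨hF3 γ, T, fun v hv => hT ⟨v, hv⟩⟩

theorem card_HC_pos {d : ℕ} {A : Type} [Finite A] (M : Mix d A) : 0 < Nat.card M.HC := by
  have : Nonempty M.HC := ⟨⟨1, one_mem _, Or.inl fun _ => rfl⟩⟩
  exact Nat.card_pos

end QAS

theorem t_QAS : StmtQAS := by
  intro hFl hPo hGE hIX hKG hRS hRX hRC hCT hH4 hOD hAlg k d hk hd P _ _ rk hP f C ρ hρ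
  have hK : 1 ≤ k ^ 5 := Nat.one_le_pow _ _ hk
  have hd4 : 4 ≤ d := by omega
  have hPG := hGE d P rk hP C ρ hρ
  have hex : ∀ j : Fin d, exG ρ j.val = ρ j := fun j => by
    rw [exG, dif_pos j.isLt]
  have hl : ∀ (A : Type) (M : Mix d A), (∀ j : Fin d, 48 * k ^ 5 ≤ j.val → M.π j = 1) →
      ∃ l : Fin d, 1 ≤ l.val ∧ l.val + 2 ≤ d ∧ M.π l = 1 := fun A M h =>
    ⟨⟨48 * k ^ 5, by omega⟩, by show 1 ≤ 48 * k ^ 5; omega, by show 48 * k ^ 5 + 2 ≤ d; omega,
      h _ le_rfl⟩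
  have hfwd : IsOrbitRealization rk f k → Mixed k rk f C ρ := by
    intro hO
    obtain ⟨X, _, hX, G, ι, c, hG⟩ := hKG d k (by omega) hk P rk hP f hO C (exG ρ) hPG
    have hfin : Finite (P ≃o P) := Finite.of_injective (fun g : P ≃o P => (g : P → P))
      DFunLike.coe_injective
    obtain ⟨y0, g, A, M, hA, hπ, hM, hw⟩ := hAlg d k hk hd (P ≃o P) X G
    have hww : ∀ w : List (Fin d), f ((w.map ρ).prod (ι G.x0)) =
        c + M.r ((w.map M.π).prod M.a0) • ((w.map g).prod y0) := by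
      intro w
      have h1 := hw w
      have h2 : (w.map (fun j : Fin d => G.ρ j.val)) = w.map ρ := by
        refine List.map_congr_left fun j _ => ?_
        rw [hG.gens, hex]
      rw [h2, hG.fval, hG.equiv] at h1
      rw [← h1]
      abel
    have hc := QAS.count hFl hCT (by omega) hP f C ρ hPG hG.base (hG.rank _) c y0 g A M
      (QAS.rich hRS hRX hRC hd4 hM (hl A M hπ)) (QAS.sq_model hM) hww
    rw [← hIX d P rk hP f, hO.2] at hc
    refine ⟨ι G.x0, hG.base, hG.rank _, c, y0, g, A, M, hA, hπ, hc, ?_, hM, hww⟩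
    rw [← hc, mul_comm]
    exact Nat.mul_le_mul_right k (hH4 d y0 g A M hM)
  refine ⟨⟨fun hO => ⟨hO.1, hfwd hO⟩, ?_⟩, ?_⟩
  · rintro ⟨hF, F0, hF0, hr, c, y0, g, A, M, hA, hπ, hcard, -, hM, hw⟩
    refine ⟨hF, ?_⟩
    have hc := QAS.count hFl hCT (by omega) hP f C ρ hPG hF0 hr c y0 g A M
      (QAS.rich hRS hRX hRC hd4 hM (hl A M hπ)) (QAS.sq_model hM) hw
    rw [hIX d P rk hP f]
    rw [← hcard] at hc
    exact Nat.eq_of_mul_eq_mul_right (QAS.card_HC_pos M) hc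
  · intro hO
    obtain ⟨F0, hF0, hr, c, y0, g, A, M, hA, hπ, hcard, -, hM, hw⟩ := hfwd hO
    exact hOD d k y0 g A M hM hcard

end FOK
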