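import Pool.Agent.FOK.Stmts4
import Pool.Agent.FO2.COA

/-!
# FOK, QEG: the coset poset, its base flag, its generators and its vertex map (helper58)
-/

namespace FOK

open Lib_helper64.FO FO2
open scoped RealInnerProductSpace

noncomputable section

namespace QEG

open FO2.COA

variable {d : ℕ} {Y : Type} {S : SGen d Y}

/-- the base flag: the faces containing `1` -/
def base (S : SGen d Y) : Flag (CPos S) where
  carrier := {x | x = ⊥ ∨ x = tp S ∨ ∃ K : CFace S, (1 : Equiv.Perm Y) ∈ K.coset ∧ x = fc K}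
  Chain' := by
    rintro x hx y hy _
    rcases hx with rfl | rfl | ⟨K, hK, rfl⟩
    · exact Or.inl bot_le
    · exact Or.inr (le_top' _)
    · rcases hy with rfl | rfl | ⟨L, hL, rfl⟩
      · exact Or.inr bot_le
      · exact Or.inl (le_top' _)
      · rcases le_total K.rank L.rank with h | h
        · exact Or.inl (coe_le.2 (CFace.le_def.2 ⟨h, 1, hK, hL⟩))
        · exact Or.inr (coe_le.2 (CFace.le_def.2 ⟨h, 1, hL, hK⟩))
  max_chain' := by
    intro s hs hsub
    refine Set.Subset.antisymm hsub fun x hx => ?_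
    rcases cases3 x with rfl | rfl | ⟨K, rfl⟩
    · exact Or.inl rfl
    · exact Or.inr (Or.inl rfl)
    · right; right
      refine ⟨K, ?_, rfl⟩
      have h1 : fc (cos S K.rank 1 (one_mem _)) ∈ s :=
        hsub (Or.inr (Or.inr ⟨_, mem_cos S _ 1 (one_mem _), rfl⟩))
      have h2 : (K.coset ∩ (cos S K.rank 1 (one_mem _)).coset).Nonempty := by
        by_cases he : fc K = fc (cos S K.rank 1 (one_mem _))
        · have h3 : K = cos S K.rank 1 (one_mem _) :=
            le_antisymm (coe_le.1 he.le) (coe_le.1 he.ge)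
          refine ⟨1, ?_, mem_cos S _ 1 (one_mem _)⟩
          rw [h3]
          exact mem_cos S _ 1 (one_mem _)
        · rcases hs hx h1 he with h | h
          · exact (CFace.le_def.1 (coe_le.1 h)).2
          · rw [Set.inter_comm]
            exact (CFace.le_def.1 (coe_le.1 h)).2
      have h4 : K ≤ cos S K.rank 1 (one_mem _) := CFace.le_def.2 ⟨le_rfl, h2⟩
      have h5 : cos S K.rank 1 (one_mem _) ≤ K := by
        rw [Set.inter_comm] at h2
        exact CFace.le_def.2 ⟨le_rfl, h2⟩
      rw [le_antisymm h4 h5]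
      exact mem_cos S _ 1 (one_mem _)

theorem mem_base {x : CPos S} : x ∈ base S ↔
    x = ⊥ ∨ x = tp S ∨ ∃ K : CFace S, (1 : Equiv.Perm Y) ∈ K.coset ∧ x = fc K := Iff.rfl

theorem fc_inj {K L : CFace S} (h : fc K = fc L) : K = L :=
  le_antisymm (coe_le.1 h.le) (coe_le.1 h.ge)

theorem fc_mem_base {K : CFace S} : fc K ∈ base S ↔ (1 : Equiv.Perm Y) ∈ K.coset := by
  rw [mem_base]
  constructor
  · rintro (h | h | ⟨L, hL, h⟩)
    · exact absurd h (by intro h'; exact WithBot.coe_ne_bot h')
    · exact absurd (WithBot.coe_injective h) (WithTop.coe_ne_top)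
    · rw [fc_inj h]
      exact hL
  · intro h
    exact Or.inr (Or.inr ⟨K, h, rfl⟩)

theorem σ_mem (S : SGen d Y) (j : Fin d) : S.σ j ∈ S.par Set.univ :=
  Subgroup.subset_closure ⟨j, Set.mem_univ _, rfl⟩

/-- the generators -/
def gen (S : SGen d Y) (j : Fin d) : CPos S ≃o CPos S := lmulC (S.σ j) (σ_mem S j)

theorem gen_cos (j i : Fin d) {g : Equiv.Perm Y} (hg : g ∈ S.par Set.univ) :
    gen S j (fc (cos S i g hg)) = fc (cos S i (S.σ j * g) (mul_mem (σ_mem S j) hg)) := by
  rw [gen, lmulC_coe]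
  congr 1
  refine CFace.ext' rfl ?_
  ext p
  rw [mem_lmul]
  constructor
  · rintro ⟨h, hh, e⟩
    refine ⟨h, hh, ?_⟩
    rw [mul_assoc, ← e]
    group
  · rintro ⟨h, hh, rfl⟩
    exact ⟨h, hh, by group⟩

/-- the vertex map -/
def vm (S : SGen d Y) (y0 : Y) (F : Y → E d) : CPos S → E d
  | some (some K) => F ((Classical.choose (coset_nonempty K)) y0)
  | _ => 0

theorem vm_eq {y0 : Y} {F : Y → E d} (hF : FaiC S y0 F) {K : CFace S} (hK : K.rank.val = 0)
    {g : Equiv.Perm Y} (hg : g ∈ K.coset) : vm S y0 F (fc K) = F (g y0) := by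
  have h1 : Classical.choose (coset_nonempty K) ∈ K.coset :=
    Classical.choose_spec (coset_nonempty K)
  have h2 : vm S y0 F (fc K) = F ((Classical.choose (coset_nonempty K)) y0) := rfl
  rw [h2]
  generalize Classical.choose (coset_nonempty K) = q at h1
  rw [K.coset_eq hg] at h1
  obtain ⟨h, hh, e⟩ := h1
  rw [e]
  have h3 : h y0 = y0 := by
    refine Subgroup.closure_induction (p := fun h _ => h y0 = y0) ?_ rfl ?_ ?_ hh
    · rintro _ ⟨j, hj, rfl⟩
      refine hF.stab' j fun h0 => hj (Fin.ext ?_)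
      rw [h0, hK]
    · intro a b _ _ ha hb
      rw [Equiv.Perm.mul_apply, hb, ha]
    · intro a _ ha
      rw [Equiv.Perm.inv_eq_iff_eq, ha]
  rw [Equiv.Perm.mul_apply, h3]

theorem word {y0 : Y} {F : Y → E d} (hF : FaiC S y0 F) (hd : 0 < d) (w : List (Fin d)) :
    vm S y0 F ((w.map (gen S)).prod (fc (cos S ⟨0, hd⟩ 1 (one_mem _)))) =
      F ((w.map S.σ).prod y0) := by
  have key : ∃ hw : (w.map S.σ).prod ∈ S.par Set.univ,
      (w.map (gen S)).prod (fc (cos S ⟨0, hd⟩ 1 (one_mem _))) =
        fc (cos S ⟨0, hd⟩ (w.map S.σ).prod hw) := by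
    induction w with
    | nil => exact ⟨one_mem _, rfl⟩
    | cons j w ih =>
      obtain ⟨hw, e⟩ := ih
      refine ⟨mul_mem (σ_mem S j) hw, ?_⟩
      rw [List.map_cons, List.prod_cons]
      change gen S j ((w.map (gen S)).prod (fc (cos S ⟨0, hd⟩ 1 (one_mem _)))) = _
      rw [e, gen_cos]
      rfl
  obtain ⟨hw, e⟩ := key
  rw [e]
  exact vm_eq hF rfl (mem_cos S _ _ hw)

end QEG

open QEG FO2.COA in
theorem t_QEG : StmtQEG := by
  intro d Y S y0 F hd _ hS hF
  refine ⟨vm S y0 F, base S, gen S, fc (cos S ⟨0, hd⟩ 1 (one_mem _)), ?_, ?_,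
    fc_mem_base.2 (mem_cos S _ 1 (one_mem _)), rfl, word hF hd⟩
  · refine ⟨0, OrderIso.refl _, fun _ => rfl, ?_⟩
    intro v K hv hvK g hg
    have hv' : v = fc K := hvK
    subst hv'
    have hK : K.rank.val = 0 := by
      have : ((K.rank.val : ℕ) : ℤ) = 0 := hv
      exact_mod_cast this
    rw [zero_add]
    exact vm_eq hF hK hg
  · intro j
    constructor
    · intro h
      have h1 : fc (cos S j 1 (one_mem _)) ∈ base S := fc_mem_base.2 (mem_cos S _ 1 (one_mem _))
      have h2 : gen S j (fc (cos S j 1 (one_mem _))) ∈ (gen S j • base S : Flag (CPos S)) := by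
        change gen S j (fc (cos S j 1 (one_mem _))) ∈
          ((gen S j • base S : Flag (CPos S)) : Set (CPos S))
        rw [Flag.coe_smul]
        exact ⟨_, h1, rfl⟩
      rw [h, gen_cos, fc_mem_base] at h2
      obtain ⟨b, hb, e⟩ := h2
      rw [mul_one] at e
      have h3 : S.σ j = b⁻¹ := eq_inv_of_mul_eq_one_left e.symm
      have h4 : S.σ j ∈ S.par {i | i ≠ j} := by
        rw [h3]
        exact inv_mem hb
      have h5 : S.σ j ∈ S.par {i | i = j} := Subgroup.subset_closure ⟨j, rfl, rfl⟩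
      have h6 : S.σ j ∈ S.par ({i | i ≠ j} ∩ {i | i = j}) := by
        rw [← hS.inter]
        exact ⟨h4, h5⟩
      have e7 : ({i | i ≠ j} ∩ {i | i = j} : Set (Fin d)) = ∅ := by
        ext i
        simp
      rw [e7, SGen.par, Set.image_empty, Subgroup.closure_empty, Subgroup.mem_bot] at h6
      exact hS.ne_one j h6
    · intro x hx hr
      rcases mem_base.1 hx with rfl | rfl | ⟨K, hK, rfl⟩
      · exact lmulC_bot _ _
      · exact lmulC_top _ _
      · rw [gen, lmulC_coe]
        congr 1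
        refine CFace.ext' rfl ?_
        have hne : j ≠ K.rank := by
          intro h
          apply hr
          change ((K.rank.val : ℕ) : ℤ) = _
          rw [h]
        have hσ : S.σ j ∈ S.par {i | i ≠ K.rank} := Subgroup.subset_closure ⟨j, hne, rfl⟩
        ext p
        rw [mem_lmul, K.coset_eq hK]
        simp only [one_mul]
        constructor
        · rintro ⟨b, hb, e⟩
          refine ⟨S.σ j * b, mul_mem hσ hb, ?_⟩
          rw [← e]
          group
        · rintro ⟨b, hb, rfl⟩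
          exact ⟨(S.σ j)⁻¹ * p, mul_mem (inv_mem hσ) hb, rfl⟩

end

end FOK
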