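import Pool.Agent.FOK.Stmts1

/-!
# Module A1: the element `n_l` (5.1 of the paper)
-/

namespace FOK

open Lib_helper64.FO FO2
open scoped RealInnerProductSpace Nat

noncomputable section

/-- 5.1: `n = γ⁻¹ ρ_l` where `ρ_l = γ n` with `γ` in `up (q + 1)`. -/
theorem t_A1 : S_A1 := by
  intro d k Γ _ _ X _ G u q hW l hul hlq
  obtain ⟨γ, hγ, n, hn, e⟩ := hW.plat (G.ρ l) (G.ρ_mem_up hul)
  have hγ' : γ⁻¹ ∈ G.up (q + 1) := inv_mem hγ
  have en : n = γ⁻¹ * G.ρ l := by rw [e]; group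
  have hc : G.ρ l * γ⁻¹ = γ⁻¹ * G.ρ l := G.comm_up (by omega) hγ'
  have en' : n = G.ρ l * γ⁻¹ := by rw [hc]; exact en
  refine ⟨n, ⟨hn, ?_⟩, ?_, ?_, ?_⟩
  · rw [en]
    exact mul_mem (G.up_anti (by omega) hγ') (G.ρ_mem_up le_rfl)
  · intro a ha
    rw [en, mul_smul, ← mul_smul (G.ρ l) a G.x0]
    exact G.up_fix hγ' (mul_mem (G.ρ_mem_dn hlq) ha)
  · intro i h1 h2
    have h3 : G.ρ i * γ⁻¹ = γ⁻¹ * G.ρ i := G.comm_up (by omega) hγ'
    have h4 : G.ρ l * G.ρ i = G.ρ i * G.ρ l := G.comm l i h1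
    calc G.ρ i * n * G.ρ i = (G.ρ i * γ⁻¹) * (G.ρ l * G.ρ i) := by rw [en]; group
      _ = γ⁻¹ * (G.ρ i * G.ρ i) * G.ρ l := by rw [h3, h4]; group
      _ = n := by rw [G.sq, mul_one, ← en]
  · intro g i v hi
    have h1 : G.V (g * G.ρ l) i = G.V (g * n) i := by
      have h2 : g * n = g * G.ρ l * γ⁻¹ := by rw [en']; group
      rw [h2, G.V_frame_up (g := g * G.ρ l) (G.up_anti hi hγ')]
    rw [h1]
    exact G.V_frame_N hn i

end

end FOK
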