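import Pool.Agent.FOK.Stmts1

/-!
# Section 5.3: the signs are constant
-/

namespace FOK

open Lib_helper64.FO FO2
open scoped RealInnerProductSpace

noncomputable section

namespace A3

variable {d k : ℕ} {Γ : Type} [Group Γ] {X : Type} [MulAction Γ X] (G : KGeo d k Γ X)

theorem U_left {h : Γ} (hh : h ∈ G.H) (g : Γ) (i : ℕ) {v : E d} :
    G.T h v ∈ G.U (h * g) i ↔ v ∈ G.U g i := by
  rw [KGeo.U, KGeo.U, Submodule.mem_orthogonal, Submodule.mem_orthogonal]
  constructor
  · intro h1 w hw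
    have h2 := h1 (G.T h w) ((G.V_left hh g i).2 hw)
    rwa [LinearIsometryEquiv.inner_map_map] at h2
  · intro h1 w hw
    have h3 : G.T h ((G.T h).symm w) = w := LinearIsometryEquiv.apply_symm_apply _ _
    rw [← h3] at hw ⊢
    rw [LinearIsometryEquiv.inner_map_map]
    exact h1 _ ((G.V_left hh g i).1 hw)

theorem D_left {h : Γ} (hh : h ∈ G.H) (g : Γ) (i : ℕ) {v : E d} :
    G.T h v ∈ G.D (h * g) i ↔ v ∈ G.D g i := by
  rw [KGeo.D, KGeo.D, Submodule.mem_inf, Submodule.mem_inf, G.V_left hh, U_left G hh]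

/-- the sign of a letter -/
def sg (b : Bool) : ℝ := if b then 1 else -1

theorem sg_true : sg true = 1 := rfl

theorem sg_false : sg false = -1 := rfl

theorem sg_or (b : Bool) : sg b = 1 ∨ sg b = -1 := by
  cases b
  · exact Or.inr rfl
  · exact Or.inl rfl

theorem exists_ne {g : Γ} {i : ℕ} (h : Module.finrank ℝ (G.D g i) = 1) :
    ∃ e ∈ G.D g i, e ≠ 0 := by
  have hb : G.D g i ≠ ⊥ := by
    intro h0
    rw [h0, finrank_bot] at h
    exact absurd h (by norm_num)
  obtain ⟨e, he, he0⟩ := Submodule.exists_mem_ne_zero_of_ne_bot hb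
  exact ⟨e, he, he0⟩

open Classical in
/-- the letter of the index `i` in the frame `g` -/
def lt (n g : Γ) (i : ℕ) : Bool := decide (∀ e ∈ G.D g i, G.R g n e = e)

open Classical in
theorem lt_iff {n g : Γ} {i : ℕ} (h : Module.finrank ℝ (G.D g i) = 1)
    (hs : ∃ δ : ℝ, (δ = 1 ∨ δ = -1) ∧ ∀ e ∈ G.D g i, G.R g n e = δ • e) (b : Bool) :
    lt G n g i = b ↔ ∀ e ∈ G.D g i, G.R g n e = sg b • e := by
  obtain ⟨e0, he0, hne⟩ := exists_ne G h
  have hcon : e0 = (-1 : ℝ) • e0 → False := by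
    intro h1
    apply hne
    rw [neg_smul, one_smul] at h1
    have h2 : (2 : ℝ) • e0 = 0 := by
      rw [two_smul]
      nth_rewrite 1 [h1]
      exact neg_add_cancel e0
    exact (smul_eq_zero.1 h2).resolve_left two_ne_zero
  obtain ⟨δ, hδ, hR⟩ := hs
  rcases hδ with rfl | rfl
  · have hP : ∀ e ∈ G.D g i, G.R g n e = e := fun e he => by rw [hR e he, one_smul]
    cases b
    · rw [lt, decide_eq_false_iff_not]
      constructor
      · intro h1
        exact absurd hP h1
      · intro h1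
        exfalso
        apply hcon
        have h2 := h1 e0 he0
        rw [hP e0 he0, sg_false] at h2
        exact h2
    · rw [lt, decide_eq_true_iff]
      constructor
      · intro _ e he
        rw [sg_true, hR e he]
      · intro _
        exact hP
  · cases b
    · rw [lt, decide_eq_false_iff_not]
      constructor
      · intro _ e he
        rw [sg_false, hR e he]
      · intro _ h1
        apply hcon
        rw [← hR e0 he0, h1 e0 he0]
    · rw [lt, decide_eq_true_iff]
      constructor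
      · intro h1 e he
        rw [sg_true, one_smul, h1 e he]
      · intro h1 e he
        have h2 := h1 e he
        rw [sg_true, one_smul] at h2
        exact h2

theorem lt_left {n g h : Γ} {i : ℕ} (hn : n ∈ G.N) (hh : h ∈ G.H)
    (hD : ∀ g, Module.finrank ℝ (G.D g i) = 1)
    (hs : ∀ g, ∃ δ : ℝ, (δ = 1 ∨ δ = -1) ∧ ∀ e ∈ G.D g i, G.R g n e = δ • e) :
    lt G n (h * g) i = lt G n g i := by
  rw [lt_iff G (hD _) (hs _)]
  intro e he
  have h3 : G.T h ((G.T h).symm e) = e := LinearIsometryEquiv.apply_symm_apply _ _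
  rw [← h3] at he ⊢
  rw [G.R_left hh g hn, (lt_iff G (hD g) (hs g) _).1 rfl _ ((D_left G hh g i).1 he), map_smul]

theorem eq_of_mem {g g' : Γ} {i j : ℕ} (h : Module.finrank ℝ (G.D g i) = 1)
    (h' : Module.finrank ℝ (G.D g' j) = 1) {e : E d} (he : e ∈ G.D g i) (he' : e ∈ G.D g' j)
    (h0 : e ≠ 0) : G.D g i = G.D g' j := by
  have h1 : ∀ (D : Submodule ℝ (E d)), Module.finrank ℝ D = 1 → e ∈ D → D = Submodule.span ℝ {e} := by
    intro D hD heD
    symm
    apply Submodule.eq_of_le_of_finrank_eq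
    · rw [Submodule.span_singleton_le_iff_mem]
      exact heD
    · rw [finrank_span_singleton h0, hD]
  rw [h1 _ h he, h1 _ h' he']

/-- the letters of the frame `g ρ i` -/
theorem lt_swap {u q l i : ℕ} {n : Γ} (hPL : S_PL) (hW : Win G u q) (hul : u ≤ l)
    [Finite Γ]
    (hn : IsN G q l n) (h1 : l + 2 ≤ i) (h2 : i < q)
    (hs : ∀ g i, l + 2 ≤ i → i ≤ q →
      ∃ δ : ℝ, (δ = 1 ∨ δ = -1) ∧ ∀ e ∈ G.D g i, G.R g n e = δ • e) (g : Γ) :
    (∀ m, m ≠ i → m ≠ i + 1 → lt G n (g * G.ρ i) m = lt G n g m) ∧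
    lt G n (g * G.ρ i) i = lt G n g (i + 1) ∧ lt G n (g * G.ρ i) (i + 1) = lt G n g i := by
  have hR : G.R (g * G.ρ i) n = G.R g n := by
    rw [G.R_mul_right, G.inv_ρ, hn.comm i h1 h2]
  obtain ⟨hp1, -, -⟩ := hPL d k Γ X G u q hW g
  obtain ⟨ha, hb, hc⟩ := hp1 i (by omega) h2
  have hDi : ∀ g, Module.finrank ℝ (G.D g i) = 1 := fun g => hW.line g i (by omega) (by omega)
  have hDi' : ∀ g, Module.finrank ℝ (G.D g (i + 1)) = 1 :=
    fun g => hW.line g (i + 1) (by omega) (by omega)
  have hsi : ∀ g, ∃ δ : ℝ, (δ = 1 ∨ δ = -1) ∧ ∀ e ∈ G.D g i, G.R g n e = δ • e :=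
    fun g => hs g i h1 (by omega)
  have hsi' : ∀ g, ∃ δ : ℝ, (δ = 1 ∨ δ = -1) ∧ ∀ e ∈ G.D g (i + 1), G.R g n e = δ • e :=
    fun g => hs g (i + 1) (by omega) (by omega)
  refine ⟨?_, ?_⟩
  · intro m hm hm'
    rw [lt, lt, hR, G.D_frame_ρ hm' hm]
  have hAi := (lt_iff G (hDi g) (hsi g) _).1 rfl
  have hAi' := (lt_iff G (hDi' g) (hsi' g) _).1 rfl
  by_cases heq : lt G n g i = lt G n g (i + 1)
  · -- all vectors of the plane are multiplied by the sign
    have hpl : ∀ v ∈ G.D g i ⊔ G.D g (i + 1), G.R g n v = sg (lt G n g i) • v := by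
      intro v hv
      obtain ⟨x, hx, y, hy, rfl⟩ := Submodule.mem_sup.1 hv
      rw [map_add, hAi x hx, hAi' y hy, ← heq, smul_add]
    rw [← ha] at hpl
    constructor
    · rw [← heq, lt_iff G (hDi _) (hsi _), hR]
      intro e he
      exact hpl e (Submodule.mem_sup_left he)
    · rw [lt_iff G (hDi' _) (hsi' _), hR]
      intro e he
      exact hpl e (Submodule.mem_sup_right he)
  · obtain ⟨e, he, he0⟩ := exists_ne G (hDi (g * G.ρ i))
    have hB := (lt_iff G (hDi (g * G.ρ i)) (hsi (g * G.ρ i)) _).1 rfl e he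
    rw [hR] at hB
    have hmem : e ∈ G.D g i ⊔ G.D g (i + 1) := by
      rw [← ha]
      exact Submodule.mem_sup_left he
    obtain ⟨x, hx, y, hy, hxy⟩ := Submodule.mem_sup.1 hmem
    have hsum : sg (lt G n g i) • x + sg (lt G n g (i + 1)) • y =
        sg (lt G n (g * G.ρ i) i) • x + sg (lt G n (g * G.ρ i) i) • y := by
      rw [← smul_add, hxy, ← hB, ← hxy, map_add, hAi x hx, hAi' y hy]
    have hsg : ∀ a b : Bool, a ≠ b → sg a - sg b ≠ 0 := by
      intro a b hab
      cases a <;> cases b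
      · exact absurd rfl hab
      · rw [sg_true, sg_false]; norm_num
      · rw [sg_true, sg_false]; norm_num
      · exact absurd rfl hab
    by_cases h3 : lt G n (g * G.ρ i) i = lt G n g i
    · exfalso
      apply hb
      have h4 : (sg (lt G n g (i + 1)) - sg (lt G n g i)) • y = 0 := by
        rw [h3] at hsum
        have h5 := add_left_cancel hsum
        rw [sub_smul, h5, sub_self]
      have hy0 : y = 0 := (smul_eq_zero.1 h4).resolve_left (hsg _ _ (Ne.symm heq))
      rw [hy0, add_zero] at hxy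
      rw [hxy] at hx
      exact eq_of_mem G (hDi _) (hDi _) he hx he0
    · have h3' : lt G n (g * G.ρ i) i = lt G n g (i + 1) := by
        revert h3 heq
        generalize lt G n (g * G.ρ i) i = a
        generalize lt G n g i = b
        generalize lt G n g (i + 1) = c
        revert a b c
        decide
      refine ⟨h3', ?_⟩
      have h4 : (sg (lt G n g i) - sg (lt G n g (i + 1))) • x = 0 := by
        rw [h3'] at hsum
        have h5 := add_right_cancel hsum
        rw [sub_smul, h5, sub_self]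
      have hx0 : x = 0 := (smul_eq_zero.1 h4).resolve_left (hsg _ _ heq)
      rw [hx0, zero_add] at hxy
      rw [hxy] at hy
      have h6 : G.D (g * G.ρ i) i = G.D g (i + 1) := eq_of_mem G (hDi _) (hDi' _) he hy he0
      have h7 := hc h6
      rw [lt, lt, hR, h7]

end A3

open A3 in
theorem t_A3 : M_A3 := by
  intro hPL hCNT hSW hA2 d k Γ _ _ X _ G u q hW l hul hlk n hn
  have hs : ∀ g i, l + 2 ≤ i → i ≤ q →
      ∃ δ : ℝ, (δ = 1 ∨ δ = -1) ∧ ∀ e ∈ G.D g i, G.R g n e = δ • e :=
    fun g => (hA2 d k Γ X G u q hW l hul (by omega) n hn g).2.2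
  have hD : ∀ g i, l + 2 ≤ i → i ≤ q → Module.finrank ℝ (G.D g i) = 1 :=
    fun g i h1 h2 => hW.line g i (by omega) h2
  obtain ⟨L, hL⟩ : ∃ L, q + 1 = l + 2 + L := ⟨q - l - 1, by omega⟩
  set s : Γ → (Fin L → Bool) := fun g a => A3.lt G n g (l + 2 + a) with hsdef
  have hinv : ∀ h ∈ G.H, ∀ g, s (h * g) = s g := by
    intro h hh g
    funext a
    exact lt_left G hn.mem.1 hh (fun g => hD g _ (by omega) (by omega))
      (fun g => hs g _ (by omega) (by omega))
  have hcard : (Set.range s).ncard ≤ k := by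
    have := hCNT Γ G.H (Fin L → Bool) s hinv
    rwa [G.idx] at this
  have hconst : ∀ g, ∀ a b, s g a = s g b := by
    by_contra hcon
    push Not at hcon
    obtain ⟨g, a, b, hab⟩ := hcon
    have hLc := hSW L (Set.range s) ?_ ⟨s g, ⟨g, rfl⟩, a, b, hab⟩
    · omega
    · rintro _ ⟨g, rfl⟩ i hi
      refine ⟨g * G.ρ (l + 2 + i), ?_⟩
      obtain ⟨h1, h2, h3⟩ := lt_swap G hPL hW hul hn (i := l + 2 + i) (by omega) (by omega) hs g
      funext x
      by_cases hx : x = ⟨i, by omega⟩
      · subst hx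
        rw [Equiv.swap_apply_left]
        exact h2
      · by_cases hx' : x = ⟨i + 1, hi⟩
        · subst hx'
          rw [Equiv.swap_apply_right]
          exact h3
        · rw [Equiv.swap_apply_of_ne_of_ne hx hx']
          have e1 : x.val ≠ i := fun h => hx (Fin.ext h)
          have e2 : x.val ≠ i + 1 := fun h => hx' (Fin.ext h)
          exact h1 _ (by omega) (by omega)
  intro g
  have hL0 : 0 < L := by omega
  refine ⟨sg (s g ⟨0, hL0⟩), sg_or _, ?_⟩
  intro i h1 h2
  have e1 : s g ⟨i - (l + 2), by omega⟩ = s g ⟨0, hL0⟩ := hconst g _ _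
  have e2 : A3.lt G n g i = s g ⟨0, hL0⟩ := by
    rw [← e1]
    have e3 : l + 2 + (i - (l + 2)) = i := by omega
    simp only [hsdef, e3]
  exact (lt_iff G (hD g i h1 h2) (hs g i h1 h2) _).1 e2

end

end FOK
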