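import Pool.Agent.FOK.Stmts3

/-!
# 10.3: properties of the isometries `β_γ`
-/

namespace FOK

open Lib_helper64.FO FO2
open scoped RealInnerProductSpace

noncomputable section

namespace BE2

variable {d k : ℕ} {Γ : Type} [Group Γ] {X : Type} [MulAction Γ X] (G : KGeo d k Γ X)

theorem R_frame (γ n : Γ) : G.R 1 (γ * n * γ⁻¹) = G.R γ n := by
  rw [KGeo.R, KGeo.R]
  congr 1
  group

theorem TT_conj {i l : ℕ} {x : Γ} (hx : x ∈ TT G i l) {γ : Γ} (hγ : γ ∈ G.up i) :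
    γ * x * γ⁻¹ ∈ TT G i l := by
  obtain ⟨δ, hδ, rfl⟩ := hx
  refine ⟨γ * δ, mul_mem hγ hδ, ?_⟩
  group

theorem TT_anti {i j l : ℕ} (h : i ≤ j) : TT G j l ⊆ TT G i l := by
  rintro _ ⟨δ, hδ, rfl⟩
  exact ⟨δ, G.up_anti h hδ, rfl⟩

/-- a vector fixed by a reflection is orthogonal to the root -/
theorem inner_eq_zero {a v : E d} (ha : ‖a‖ = 1) (h : sref a v = v) : ⟪a, v⟫ = 0 := by
  rw [sref, sub_eq_self, smul_eq_zero] at h
  rcases h with h | h
  · linarith
  · rw [h, norm_zero] at ha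
    exact absurd ha zero_ne_one

theorem clos {l : ℕ} (hTN : TT G 0 l ⊆ G.Ni 0) {γ : Γ} {β : E d ≃ₗᵢ[ℝ] E d}
    (hB : IsB G l γ β) :
    ∀ x ∈ Subgroup.closure (TT G 0 l), x ∈ G.N ∧
      ∀ v, β (G.R 1 x v) = G.R 1 (γ * x * γ⁻¹) (β v) := by
  intro x hx
  refine Subgroup.closure_induction (p := fun x _ => x ∈ G.N ∧
      ∀ v, β (G.R 1 x v) = G.R 1 (γ * x * γ⁻¹) (β v)) ?_ ?_ ?_ ?_ hx
  · intro y hy
    exact ⟨G.Ni_le_N 0 (hTN hy), hB y hy⟩
  · refine ⟨one_mem _, fun v => ?_⟩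
    rw [mul_one, mul_inv_cancel, G.R_one]
    rfl
  · intro a b _ _ iha ihb
    refine ⟨mul_mem iha.1 ihb.1, fun v => ?_⟩
    have e : γ * (a * b) * γ⁻¹ = (γ * a * γ⁻¹) * (γ * b * γ⁻¹) := by group
    rw [G.R_mul_apply 1 iha.1 ihb.1, iha.2, ihb.2, e,
      G.R_mul_apply 1 (G.conj_mem_N γ iha.1) (G.conj_mem_N γ ihb.1)]
  · intro a _ iha
    refine ⟨inv_mem iha.1, fun v => ?_⟩
    have h1 := iha.2 (G.R 1 a⁻¹ v)
    rw [G.R_inv_apply 1 iha.1] at h1
    have e : γ * a⁻¹ * γ⁻¹ = (γ * a * γ⁻¹)⁻¹ := by group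
    rw [e, h1, G.R_inv_apply' 1 (G.conj_mem_N γ iha.1)]

end BE2

open BE2 in
theorem t_BE2 : M_BE2 := by
  intro hTI hBE1 d k Γ _ _ X _ G l hT γ β hB
  obtain ⟨-, huniq, hprod, hN⟩ := hBE1 d k Γ X G l hT
  have hld := hT.ld
  have hl5 := hT.l5
  have hTN : TT G 0 l ⊆ G.Ni 0 := (hTI d k Γ X G l hT 1 0 (Nat.zero_le _)).TN
  have hTN1 : TT G 1 l ⊆ G.Ni 1 := (hTI d k Γ X G l hT 1 1 (by omega)).TN
  -- elements of the core
  have h2 : ∀ n ∈ G.N, (∀ v, β (G.R 1 n v) = G.R 1 (γ * n * γ⁻¹) (β v)) ∨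
      ∀ v, β (G.R 1 n v) = -G.R 1 (γ * n * γ⁻¹) (β v) := by
    intro n hn
    have a1 : IsB G l (γ * n) (β * G.R 1 n) := hprod γ n β (G.R 1 n) hB (hN n hn)
    have a2 : IsB G l (γ * n * γ⁻¹ * γ) (G.R 1 (γ * n * γ⁻¹) * β) :=
      hprod _ _ _ _ (hN _ (G.conj_mem_N γ hn)) hB
    rw [inv_mul_cancel_right] at a2
    exact huniq _ _ _ a2 a1
  -- `V_1`
  have hV1 : ∀ v ∈ G.V 1 1, β v ∈ G.V γ 1 := by
    intro v hv
    have hTg := hTI d k Γ X G l hT γ 1 (by omega)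
    have key : ∀ a ∈ Ph G γ 1 l, ⟪a, β v⟫ = 0 := by
      rintro a ⟨ha, x, hx, hxa⟩
      apply inner_eq_zero ha
      rw [← hxa, ← R_frame, ← hB x (TT_anti G (Nat.zero_le _) hx), hv x (hTN1 hx)]
    have h3 : β v ∈ (G.U γ 1)ᗮ := by
      rw [← hTg.span, Submodule.mem_orthogonal]
      intro u hu
      induction hu using Submodule.span_induction with
      | mem x hx => exact key x hx
      | zero => exact inner_zero_left _
      | add x y _ _ hx hy => rw [inner_add_left, hx, hy, add_zero]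
      | smul c x _ hx => rw [inner_smul_left, hx, mul_zero]
    rw [KGeo.U, Submodule.orthogonal_orthogonal] at h3
    exact h3
  -- the sign is `+` for `N_1`
  have h3 : ∀ n ∈ G.Ni 1, ∀ v, β (G.R 1 n v) = G.R 1 (γ * n * γ⁻¹) (β v) := by
    intro n hn
    rcases h2 n hn.1 with h | h
    · exact h
    · exfalso
      have hfr : Module.finrank ℝ (G.V 1 1) = 1 := hT.dimV 1 1 (by omega)
      have hne : G.V 1 1 ≠ ⊥ := by
        intro e
        rw [e, finrank_bot] at hfr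
        exact zero_ne_one hfr
      obtain ⟨v, hv, hv0⟩ := Submodule.exists_mem_ne_zero_of_ne_bot hne
      have b1 := h v
      rw [hv n hn, R_frame, hV1 v hv n hn] at b1
      have b3 : (2 : ℝ) • β v = 0 := by
        rw [two_smul]
        nth_rewrite 1 [b1]
        exact neg_add_cancel _
      have b2 : β v = 0 := (smul_eq_zero.1 b3).resolve_left two_ne_zero
      exact hv0 (by simpa using b2)
  -- `V_i`
  have h4 : ∀ i v, β v ∈ G.V γ i ↔ v ∈ G.V 1 i := by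
    intro i v
    rcases Nat.eq_zero_or_pos i with rfl | hi
    · have e : ∀ g, G.V g 0 = ⊥ := fun g => by
        have := hT.dimV g 0 (Nat.zero_le _)
        exact Submodule.finrank_eq_zero.1 this
      rw [e, e, Submodule.mem_bot, Submodule.mem_bot]
      constructor
      · intro h
        simpa using h
      · intro h
        rw [h, map_zero]
    · rw [KGeo.mem_V, KGeo.mem_V]
      constructor
      · intro h n hn
        have c1 := h n hn
        rw [← R_frame, ← h3 n (G.Ni_anti hi hn)] at c1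
        exact β.injective c1
      · intro h n hn
        rw [← R_frame, ← h3 n (G.Ni_anti hi hn), h n hn]
  refine ⟨fun x hx => (clos G hTN hB x hx).2, h2, h3, h4, ?_⟩
  intro a
  constructor
  · rintro ⟨ha, x, hx, hxa⟩
    rw [LinearIsometryEquiv.norm_map] at ha
    have hx' : γ⁻¹ * x * γ ∈ TT G 0 l := by
      have := TT_conj G hx (γ := γ⁻¹) (G.mem_up_zero _)
      rwa [inv_inv] at this
    refine ⟨ha, γ⁻¹ * x * γ, hx', fun v => ?_⟩
    apply β.injective
    rw [hB _ hx', map_sref, ← hxa]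
    congr 2
    group
  · rintro ⟨ha, x, hx, hxa⟩
    refine ⟨by rw [LinearIsometryEquiv.norm_map]; exact ha, γ * x * γ⁻¹,
      TT_conj G hx (G.mem_up_zero _), fun v => ?_⟩
    obtain ⟨w, rfl⟩ := β.surjective v
    rw [← hB x hx, hxa, map_sref]

end

end FOK
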