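import Pool.Agent.FOK.Stmts2
import Pool.Agent.FO2.RG2

/-!
# Section 9.1: the isometries `β`
-/

namespace FOK

open Lib_helper64.FO FO2
open scoped RealInnerProductSpace

noncomputable section

namespace BET

/-! ### transport of `FO2.rg2` to a subspace -/

section transport

variable {d n : ℕ} (τ : E n →ₗᵢ[ℝ] E d)

theorem map_sref' (a b : E n) : τ (sref a b) = sref (τ a) (τ b) := by
  simp only [sref, map_sub, map_smul, LinearIsometry.inner_map_map]

variable {Φ : Set (E d)} (hr : ∀ b ∈ Φ, ∃ x, τ x = b)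

include hr in
theorem rs_pull (hR : IsRS Φ) : IsRS (τ ⁻¹' Φ) := by
  refine ⟨hR.fin.preimage τ.injective.injOn, ?_, ?_, ?_⟩
  · obtain ⟨b, hb⟩ := hR.ne
    obtain ⟨x, rfl⟩ := hr b hb
    exact ⟨x, hb⟩
  · intro a ha
    rw [← τ.norm_map]
    exact hR.norm _ ha
  · intro a ha b hb
    change τ (sref a b) ∈ Φ
    rw [map_sref']
    exact hR.refl _ ha _ hb

include hr in
theorem irr_pull (hI : IrrRS Φ) : IrrRS (τ ⁻¹' Φ) := by
  intro L hL
  have h1 : ∀ a ∈ Φ, a ∈ L.map τ.toLinearMap ∨ a ∈ (L.map τ.toLinearMap)ᗮ := by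
    intro a ha
    obtain ⟨x, rfl⟩ := hr a ha
    rcases hL x ha with h | h
    · exact Or.inl (Submodule.mem_map_of_mem (f := τ.toLinearMap) h)
    · right
      rw [Submodule.mem_orthogonal]
      rintro _ ⟨w, hw, rfl⟩
      change ⟪τ w, τ x⟫ = 0
      rw [LinearIsometry.inner_map_map]
      exact (Submodule.mem_orthogonal _ _).1 h w hw
  rcases hI _ h1 with h | h
  · left
    intro a ha
    obtain ⟨w, hw, hwa⟩ := h _ ha
    have : w = a := τ.injective hwa
    rw [← this]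
    exact hw
  · right
    intro a ha
    rw [Submodule.mem_orthogonal]
    intro w hw
    have h2 := (Submodule.mem_orthogonal _ _).1 (h _ ha) (τ w)
      (Submodule.mem_map_of_mem (f := τ.toLinearMap) hw)
    rwa [LinearIsometry.inner_map_map] at h2

theorem sl_pull (hS : SL Φ) : SL (τ ⁻¹' Φ) := by
  intro a ha b hb
  rcases hS _ ha _ hb with h | h | h | h | h
  · left
    rwa [LinearIsometry.inner_map_map] at h
  · right; left
    rwa [LinearIsometry.inner_map_map] at h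
  · right; right; left
    rwa [LinearIsometry.inner_map_map] at h
  · right; right; right; left
    exact τ.injective h
  · right; right; right; right
    apply τ.injective
    rw [h, map_neg]

include hr in
theorem span_pull (hs : ∀ x, τ x ∈ Submodule.span ℝ Φ) : Submodule.span ℝ (τ ⁻¹' Φ) = ⊤ := by
  rw [eq_top_iff]
  intro x _
  have h1 : Submodule.span ℝ Φ ≤ (Submodule.span ℝ (τ ⁻¹' Φ)).map τ.toLinearMap := by
    rw [Submodule.span_le]
    intro b hb
    obtain ⟨y, rfl⟩ := hr b hb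
    exact Submodule.mem_map_of_mem (f := τ.toLinearMap) (Submodule.subset_span hb)
  obtain ⟨w, hw, hwx⟩ := h1 (hs x)
  have : w = x := τ.injective hwx
  rw [← this]
  exact hw

end transport

/-- an isometry of a subspace, extended by the identity -/
theorem exists_ext {d n : ℕ} (τ : E n →ₗᵢ[ℝ] E d) (I : Submodule ℝ (E d)) (hI : ∀ x, τ x ∈ I)
    (g : E n ≃ₗᵢ[ℝ] E n) :
    ∃ β : E d ≃ₗᵢ[ℝ] E d, (∀ v ∈ Iᗮ, β v = v) ∧ ∀ x, β (τ x) = τ (g x) := by
  classical
  set c := stdOrthonormalBasis ℝ Iᗮ with hc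
  set e := EuclideanSpace.basisFun (Fin n) ℝ with he
  have h0 : ∀ (x : E n) (v : Iᗮ), ⟪τ x, (v : E d)⟫ = 0 := fun x v =>
    (Submodule.mem_orthogonal _ _).1 v.2 _ (hI x)
  obtain ⟨β, hβ⟩ := exists_linearIsometry (d := d)
    (ι := Fin n ⊕ Fin (Module.finrank ℝ Iᗮ))
    (fun s => Sum.elim (fun i => τ (e i)) (fun j => (c j : E d)) s)
    (fun s => Sum.elim (fun i => τ (g (e i))) (fun j => (c j : E d)) s) (by
      rintro (i | i) (j | j)
      · simp only [Sum.elim_inl]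
        rw [LinearIsometry.inner_map_map, LinearIsometry.inner_map_map,
          LinearIsometryEquiv.inner_map_map]
      · simp only [Sum.elim_inl, Sum.elim_inr]
        rw [h0, h0]
      · simp only [Sum.elim_inl, Sum.elim_inr]
        rw [real_inner_comm, h0, real_inner_comm, h0]
      · rfl)
  refine ⟨β, ?_, ?_⟩
  · intro v hv
    have h1 : (β.toLinearEquiv.toLinearMap ∘ₗ Iᗮ.subtype) = Iᗮ.subtype := by
      apply c.toBasis.ext
      intro j
      rw [OrthonormalBasis.coe_toBasis]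
      exact hβ (Sum.inr j)
    exact LinearMap.congr_fun h1 ⟨v, hv⟩
  · intro x
    have h1 : (β.toLinearEquiv.toLinearMap ∘ₗ τ.toLinearMap) =
        τ.toLinearMap ∘ₗ g.toLinearEquiv.toLinearMap := by
      apply e.toBasis.ext
      intro j
      rw [OrthonormalBasis.coe_toBasis]
      exact hβ (Sum.inl j)
    exact LinearMap.congr_fun h1 x

/-- `FO2.rg2` in a subspace -/
theorem rg2' {d : ℕ} {Φ : Set (E d)} {I : Submodule ℝ (E d)} (hR : IsRS Φ) (hI : IrrRS Φ)
    (hsp : Submodule.span ℝ Φ = I) (hSL : SL Φ) (ψ : E d → E d) (h1 : ∀ b ∈ Φ, ψ b ∈ Φ)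
    (h2 : ∀ b ∈ Φ, ∀ c ∈ Φ, |⟪ψ b, ψ c⟫| = |⟪b, c⟫|)
    (h3 : ∀ b ∈ Φ, ∀ c ∈ Φ, ψ (sref b c) = sref (ψ b) (ψ c) ∨ ψ (sref b c) = -sref (ψ b) (ψ c)) :
    ∃ β : E d ≃ₗᵢ[ℝ] E d, (∀ v ∈ Iᗮ, β v = v) ∧ ∀ b ∈ Φ, β b = ψ b ∨ β b = -ψ b := by
  set τ : E (Module.finrank ℝ I) →ₗᵢ[ℝ] E d :=
    I.subtypeₗᵢ.comp (stdOrthonormalBasis ℝ I).repr.symm.toLinearIsometry with hτ
  have hmem : ∀ x, τ x ∈ I := fun x => ((stdOrthonormalBasis ℝ I).repr.symm x).2
  have hsurj : ∀ v ∈ I, ∃ x, τ x = v := by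
    intro v hv
    refine ⟨(stdOrthonormalBasis ℝ I).repr ⟨v, hv⟩, ?_⟩
    change (((stdOrthonormalBasis ℝ I).repr.symm ((stdOrthonormalBasis ℝ I).repr ⟨v, hv⟩) : I) :
      E d) = v
    rw [LinearIsometryEquiv.symm_apply_apply]
  have hsub : ∀ b ∈ Φ, b ∈ I := fun b hb => by
    rw [← hsp]
    exact Submodule.subset_span hb
  have hr : ∀ b ∈ Φ, ∃ x, τ x = b := fun b hb => hsurj b (hsub b hb)
  have hψ : ∀ x, ∃ y, τ x ∈ Φ → τ y = ψ (τ x) := by
    intro x
    by_cases hx : τ x ∈ Φ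
    · obtain ⟨y, hy⟩ := hr _ (h1 _ hx)
      exact ⟨y, fun _ => hy⟩
    · exact ⟨0, fun h => absurd h hx⟩
  choose ψ' hψ' using hψ
  have h1' : ∀ b ∈ τ ⁻¹' Φ, ψ' b ∈ τ ⁻¹' Φ := by
    intro b hb
    change τ (ψ' b) ∈ Φ
    rw [hψ' b hb]
    exact h1 _ hb
  obtain ⟨g, hg⟩ := rg2 (Module.finrank ℝ I) (τ ⁻¹' Φ) (rs_pull τ hr hR) (irr_pull τ hr hI)
    (span_pull τ hr (fun x => by rw [hsp]; exact hmem x)) (sl_pull τ hSL) ψ' h1'
    (by
      intro b hb c hc
      rw [← τ.inner_map_map (ψ' b), hψ' b hb, hψ' c hc, h2 _ hb _ hc, τ.inner_map_map])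
    (by
      intro b hb c hc
      have hbc : τ (sref b c) ∈ Φ := by
        rw [map_sref']
        exact hR.refl _ hb _ hc
      have h4 := h3 _ hb _ hc
      rw [← map_sref', ← hψ' _ hbc, ← hψ' b hb, ← hψ' c hc, ← map_sref', ← map_neg] at h4
      rcases h4 with h | h
      · exact Or.inl (τ.injective h)
      · exact Or.inr (τ.injective h))
  obtain ⟨β, hβ1, hβ2⟩ := exists_ext τ I hmem g
  refine ⟨β, hβ1, ?_⟩
  intro b hb
  obtain ⟨x, rfl⟩ := hr b hb
  rw [hβ2 x, ← hψ' x hb]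
  rcases hg x hb with h | h
  · left
    rw [h]
  · right
    rw [h, map_neg]

/-! ### reflections -/

section refl

variable {d : ℕ}

theorem sref_unit_eq {a b : E d} (ha : ‖a‖ = 1) (hb : ‖b‖ = 1) (h : sref a b = -b) :
    b = a ∨ b = -a := by
  have h1 : b = ⟪a, b⟫ • a := by
    have h2 : (2 : ℝ) • b = (2 : ℝ) • (⟪a, b⟫ • a) := by
      rw [sref] at h
      rw [smul_smul, two_smul]
      have h3 : b - (2 * ⟪a, b⟫) • a + b = 0 := by rw [h, neg_add_cancel]
      rw [sub_add_eq_add_sub] at h3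
      exact sub_eq_zero.1 h3
    exact smul_right_injective _ (two_ne_zero (α := ℝ)) h2
  have h4 : |⟪a, b⟫| = 1 := by
    have h5 : ‖b‖ = |⟪a, b⟫| * ‖a‖ := by
      conv_lhs => rw [h1, norm_smul, Real.norm_eq_abs]
    rw [hb, ha, mul_one] at h5
    exact h5.symm
  rcases (abs_eq zero_le_one).1 h4 with h5 | h5
  · left
    rw [h5, one_smul] at h1
    exact h1
  · right
    rw [h5, neg_smul, one_smul] at h1
    exact h1

theorem pm_of_sref {a b : E d} (ha : ‖a‖ = 1) (hb : ‖b‖ = 1) (h : ∀ v, sref a v = sref b v) :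
    b = a ∨ b = -a :=
  sref_unit_eq ha hb (by rw [h b, sref_self hb])

theorem sref_of_pm {a b : E d} (h : b = a ∨ b = -a) (v : E d) : sref a v = sref b v := by
  rcases h with rfl | rfl
  · rfl
  · rw [sref_neg]

theorem sref_norm {a : E d} (ha : ‖a‖ = 1) (v : E d) : ‖sref a v‖ = ‖v‖ := by
  have h := inner_sref ha v v
  rw [real_inner_self_eq_norm_sq, real_inner_self_eq_norm_sq] at h
  exact (pow_left_inj₀ (norm_nonneg _) (norm_nonneg _) two_ne_zero).1 h

theorem sref_orth {a v : E d} (h : ⟪a, v⟫ = 0) : sref a v = v := by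
  rw [sref, h, mul_zero, zero_smul, sub_zero]

end refl

/-! ### the roots of the elements of `TT` -/

section group

variable {d k : ℕ} {Γ : Type} [Group Γ] {X : Type} [MulAction Γ X] (G : KGeo d k Γ X)

theorem R_inj {g x y : Γ} (hx : x ∈ G.N) (hy : y ∈ G.N) (h : ∀ v, G.R g x v = G.R g y v) :
    x = y := by
  have h1 : x⁻¹ * y = 1 := by
    apply G.eq_one_of_R (g := g) (mul_mem (inv_mem hx) hy)
    intro z
    rw [G.R_mul_apply g (inv_mem hx) hy, ← h, G.R_inv_apply' g hx]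
  exact inv_mul_eq_one.1 h1

theorem R_conj {g x y : Γ} (hx : x ∈ G.N) (hy : y ∈ G.N) {c : E d}
    (h : ∀ v, G.R g y v = sref c v) (v : E d) : G.R g (x * y * x⁻¹) v = sref (G.R g x c) v := by
  rw [G.R_mul_apply g (mul_mem hx hy) (inv_mem hx), G.R_mul_apply g hx hy, h, map_sref,
    G.R_inv_apply g hx]

theorem TT_conj {m : ℕ} {γ x : Γ} (hγ : γ ∈ G.up m) (hx : x ∈ TT G m m) :
    γ * x * γ⁻¹ ∈ TT G m m := by
  obtain ⟨δ, hδ, rfl⟩ := hx
  exact ⟨γ * δ, mul_mem hγ hδ, by group⟩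

variable {m : ℕ} (hN : Nine G m) (g : Γ)

include hN in
theorem TT_N {x : Γ} (hx : x ∈ TT G m m) : x ∈ G.N := (hN.TN hx).1

include hN in
theorem TT_up {x : Γ} (hx : x ∈ TT G m m) : x ∈ G.up m := (hN.TN hx).2

include hN in
theorem eq_iff {x y : Γ} (hx : x ∈ TT G m m) (hy : y ∈ TT G m m) {a b : E d}
    (ha : a ∈ Ph G g m m) (hb : b ∈ Ph G g m m) (hxa : ∀ v, G.R g x v = sref a v)
    (hyb : ∀ v, G.R g y v = sref b v) : x = y ↔ b = a ∨ b = -a := by
  constructor
  · rintro rfl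
    exact pm_of_sref ha.1 hb.1 fun v => by rw [← hxa, ← hyb]
  · intro h
    apply R_inj G (g := g) (TT_N G hN hx) (TT_N G hN hy)
    intro v
    rw [hxa, hyb, sref_of_pm h]

include hN in
theorem comm_iff {x y : Γ} (hx : x ∈ TT G m m) (hy : y ∈ TT G m m) {a b : E d}
    (ha : a ∈ Ph G g m m) (hb : b ∈ Ph G g m m) (hxa : ∀ v, G.R g x v = sref a v)
    (hyb : ∀ v, G.R g y v = sref b v) : x * y = y * x ↔ (b = a ∨ b = -a) ∨ ⟪a, b⟫ = 0 := by
  have hxN := TT_N G hN hx
  have hyN := TT_N G hN hy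
  have h1 := R_conj G hxN hyN hyb
  constructor
  · intro h
    have h2 : x * y * x⁻¹ = y := by rw [h, mul_inv_cancel_right]
    rw [h2] at h1
    have h3 : sref a b = b ∨ sref a b = -b := by
      rw [← hxa b]
      refine pm_of_sref hb.1 ?_ fun v => by rw [← h1, hyb]
      rw [LinearIsometryEquiv.norm_map, hb.1]
    rcases h3 with h3 | h3
    · right
      rw [sref, sub_eq_self] at h3
      rcases smul_eq_zero.1 h3 with h4 | h4
      · linarith
      · exfalso
        have := ha.1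
        rw [h4, norm_zero] at this
        exact zero_ne_one this
    · left
      exact sref_unit_eq ha.1 hb.1 h3
  · intro h
    have h3 : sref a b = b ∨ sref a b = -b := by
      rcases h with (h | h) | h
      · right
        rw [h, sref_self ha.1]
      · right
        rw [h, sref_neg_right, sref_self ha.1]
      · left
        exact sref_orth h
    have h2 : x * y * x⁻¹ = y := by
      apply R_inj G (g := g) (mul_mem (mul_mem hxN hyN) (inv_mem hxN)) hyN
      intro v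
      rw [h1, hyb, hxa]
      exact (sref_of_pm h3 v).symm
    rw [mul_inv_eq_iff_eq_mul] at h2
    exact h2

include hN in
theorem abs_eq' {x y x' y' : Γ} (hx : x ∈ TT G m m) (hy : y ∈ TT G m m) (hx' : x' ∈ TT G m m)
    (hy' : y' ∈ TT G m m) {a b a' b' : E d}
    (ha : a ∈ Ph G g m m) (hb : b ∈ Ph G g m m) (hxa : ∀ v, G.R g x v = sref a v)
    (hyb : ∀ v, G.R g y v = sref b v)
    (ha' : a' ∈ Ph G g m m) (hb' : b' ∈ Ph G g m m) (hxa' : ∀ v, G.R g x' v = sref a' v)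
    (hyb' : ∀ v, G.R g y' v = sref b' v) (h1 : x = y ↔ x' = y')
    (h2 : x * y = y * x ↔ x' * y' = y' * x') : |⟪a', b'⟫| = |⟪a, b⟫| := by
  have hone : ∀ {u v : E d}, u ∈ Ph G g m m → (v = u ∨ v = -u) → |⟪u, v⟫| = 1 := by
    intro u v hu huv
    have h3 : ⟪u, u⟫ = (1 : ℝ) := by rw [real_inner_self_eq_norm_sq, hu.1, one_pow]
    rcases huv with rfl | rfl
    · rw [h3, abs_one]
    · rw [inner_neg_right, h3, abs_neg, abs_one]
  have hhalf : ∀ {u v : E d}, u ∈ Ph G g m m → v ∈ Ph G g m m → ¬ (v = u ∨ v = -u) →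
      ⟪u, v⟫ ≠ 0 → |⟪u, v⟫| = 1 / 2 := by
    intro u v hu hv h3 h4
    rcases hN.sl g u hu v hv with h | h | h | h | h
    · exact absurd h h4
    · rw [h]; norm_num
    · rw [h]
      rw [abs_of_neg (by norm_num)]
      norm_num
    · exact absurd (Or.inl h.symm) h3
    · exfalso
      apply h3
      right
      rw [h, neg_neg]
  have e1 := eq_iff G hN g hx hy ha hb hxa hyb
  have e2 := eq_iff G hN g hx' hy' ha' hb' hxa' hyb'
  have c1 := comm_iff G hN g hx hy ha hb hxa hyb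
  have c2 := comm_iff G hN g hx' hy' ha' hb' hxa' hyb'
  by_cases hxy : x = y
  · rw [hone ha (e1.1 hxy), hone ha' (e2.1 (h1.1 hxy))]
  · have hxy' : ¬ x' = y' := fun h => hxy (h1.2 h)
    have n1 := fun h => hxy (e1.2 h)
    have n2 := fun h => hxy' (e2.2 h)
    by_cases hc : x * y = y * x
    · have h3 := (c1.1 hc).resolve_left n1
      have h4 := (c2.1 (h2.1 hc)).resolve_left n2
      rw [h3, h4]
    · have hc' : ¬ x' * y' = y' * x' := fun h => hc (h2.2 h)
      have h3 : ⟪a, b⟫ ≠ 0 := fun h => hc (c1.2 (Or.inr h))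
      have h4 : ⟪a', b'⟫ ≠ 0 := fun h => hc' (c2.2 (Or.inr h))
      rw [hhalf ha hb n1 h3, hhalf ha' hb' n2 h4]

include hN in
/-- the isometry `β`, up to the sign -/
theorem exists_beta0 {γ : Γ} (hγ : γ ∈ G.up m) :
    ∃ β : E d ≃ₗᵢ[ℝ] E d, (∀ v ∈ (G.Y g m)ᗮ, β v = v) ∧
      ∀ x ∈ TT G m m, ∀ v, β (G.R g x v) = G.R g (γ * x * γ⁻¹) (β v) := by
  have hex : ∀ b, ∃ a, b ∈ Ph G g m m → a ∈ Ph G g m m ∧
      ∀ x ∈ TT G m m, (∀ v, G.R g x v = sref b v) → ∀ v, G.R g (γ * x * γ⁻¹) v = sref a v := by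
    intro b
    by_cases hb : b ∈ Ph G g m m
    · obtain ⟨x, hx, hxb⟩ := hb.2
      obtain ⟨a, ha, hxa⟩ := hN.root g _ (TT_conj G hγ hx)
      refine ⟨a, fun _ => ⟨ha, ?_⟩⟩
      intro y hy hyb
      have h1 : y = x := by
        apply R_inj G (g := g) (TT_N G hN hy) (TT_N G hN hx)
        intro v
        rw [hxb, hyb]
      rw [h1]
      exact hxa
    · exact ⟨0, fun h => absurd h hb⟩
  choose ψ hψ using hex
  have hconj : ∀ {x : Γ}, x ∈ TT G m m → γ * x * γ⁻¹ ∈ TT G m m := fun hx => TT_conj G hγ hx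
  obtain ⟨β, hβ1, hβ2⟩ := rg2' (hN.rs g) (hN.irr g) (hN.span g) (hN.sl g) ψ
    (fun b hb => (hψ b hb).1)
    (by
      intro b hb c hc
      obtain ⟨x, hx, hxb⟩ := hb.2
      obtain ⟨y, hy, hyc⟩ := hc.2
      refine abs_eq' G hN g hx hy (hconj hx) (hconj hy) hb hc hxb hyc (hψ b hb).1 (hψ c hc).1
        ((hψ b hb).2 x hx hxb) ((hψ c hc).2 y hy hyc) ?_ ?_
      · constructor
        · rintro rfl
          rfl
        · intro h
          exact mul_left_cancel (mul_right_cancel h)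
      · have e1 : γ * x * γ⁻¹ * (γ * y * γ⁻¹) = γ * (x * y) * γ⁻¹ := by group
        have e2 : γ * y * γ⁻¹ * (γ * x * γ⁻¹) = γ * (y * x) * γ⁻¹ := by group
        rw [e1, e2]
        constructor
        · intro h
          rw [h]
        · intro h
          exact mul_left_cancel (mul_right_cancel h))
    (by
      intro b hb c hc
      obtain ⟨x, hx, hxb⟩ := hb.2
      obtain ⟨y, hy, hyc⟩ := hc.2
      have hbc : sref b c ∈ Ph G g m m := (hN.rs g).refl b hb c hc
      have hz : x * y * x⁻¹ ∈ TT G m m := TT_conj G (TT_up G hN hx) hy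
      have h1 : ∀ v, G.R g (x * y * x⁻¹) v = sref (sref b c) v := by
        intro v
        rw [R_conj G (TT_N G hN hx) (TT_N G hN hy) hyc, hxb]
      have h2 := (hψ _ hbc).2 _ hz h1
      have h3 : ∀ v, G.R g (γ * (x * y * x⁻¹) * γ⁻¹) v = sref (sref (ψ b) (ψ c)) v := by
        intro v
        have e1 : γ * (x * y * x⁻¹) * γ⁻¹ =
          (γ * x * γ⁻¹) * (γ * y * γ⁻¹) * (γ * x * γ⁻¹)⁻¹ := by group
        rw [e1, R_conj G (TT_N G hN (hconj hx)) (TT_N G hN (hconj hy)) ((hψ c hc).2 y hy hyc),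
          (hψ b hb).2 x hx hxb]
      refine pm_of_sref ?_ (hψ _ hbc).1.1 ?_
      · rw [sref_norm (hψ b hb).1.1]
        exact (hψ c hc).1.1
      · intro v
        rw [← h3, h2])
  refine ⟨β, hβ1, ?_⟩
  intro x hx v
  obtain ⟨b, hb, hxb⟩ := hN.root g x hx
  rw [hxb, map_sref, (hψ b hb).2 x hx hxb]
  rcases hβ2 b hb with h | h
  · rw [h]
  · rw [h, sref_neg]

include hN in
theorem exists_beta {γ : Γ} (hγ : γ ∈ G.up (m + 1)) : ∃ β, IsBeta G g m γ β := by
  obtain ⟨β, hβ1, hβ2⟩ := exists_beta0 G hN g (G.up_anti (Nat.le_succ m) hγ)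
  have hY : ∀ w ∈ G.Y g m, β w ∈ G.Y g m := by
    intro w hw
    rw [← Submodule.orthogonal_orthogonal (G.Y g m), Submodule.mem_orthogonal]
    intro u hu
    rw [← hβ1 u hu, LinearIsometryEquiv.inner_map_map]
    exact (Submodule.mem_orthogonal' _ _).1 hu w hw
  have hD : ∀ w ∈ G.D g m, β w ∈ G.D g m := by
    intro w hw
    apply hN.fixD g _ (hY w (hN.DY g hw))
    intro x hx
    obtain ⟨δ, hδ, rfl⟩ := hx
    set x' := (γ⁻¹ * δ) * G.ρ (m + 1) * (γ⁻¹ * δ)⁻¹ with hx'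
    have hx'T : x' ∈ TT G (m + 1) (m + 1) := ⟨γ⁻¹ * δ, mul_mem (inv_mem hγ) hδ, rfl⟩
    have e1 : δ * G.ρ (m + 1) * δ⁻¹ = γ * x' * γ⁻¹ := by
      rw [hx']
      group
    rw [e1, ← hβ2 x' (hN.next hx'T) w, hN.Dfix g w hw x' hx'T]
  have hne : G.D g m ≠ ⊥ := by
    intro h0
    have := hN.line g
    rw [h0, finrank_bot] at this
    exact absurd this (by norm_num)
  obtain ⟨w0, hw0, hw0'⟩ := Submodule.exists_mem_ne_zero_of_ne_bot hne
  have hsp : ∀ w ∈ G.D g m, ∃ t : ℝ, t • w0 = w := by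
    have h1 : Submodule.span ℝ {w0} = G.D g m := by
      apply Submodule.eq_of_le_of_finrank_eq
      · rw [Submodule.span_singleton_le_iff_mem]
        exact hw0
      · rw [finrank_span_singleton hw0', hN.line g]
    intro w hw
    rw [← h1] at hw
    exact Submodule.mem_span_singleton.1 hw
  obtain ⟨c, hc⟩ := hsp _ (hD w0 hw0)
  have hc1 : |c| = 1 := by
    have h1 : ‖β w0‖ = ‖w0‖ := LinearIsometryEquiv.norm_map β w0
    rw [← hc, norm_smul, Real.norm_eq_abs] at h1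
    have h2 : ‖w0‖ ≠ 0 := norm_ne_zero_iff.2 hw0'
    exact (mul_eq_right₀ h2).1 h1
  rcases (abs_eq zero_le_one).1 hc1 with rfl | rfl
  · refine ⟨β, hβ1, ?_, hβ2⟩
    intro v hv
    obtain ⟨t, rfl⟩ := hsp v hv
    rw [map_smul, ← hc, one_smul]
  · set σ := (G.Y g m)ᗮ.reflection with hσ
    have hσY : ∀ w ∈ G.Y g m, σ w = -w := fun w hw =>
      Submodule.reflection_mem_subspace_orthogonal_precomplement_eq_neg hw
    refine ⟨β * σ, ?_, ?_, ?_⟩
    · intro v hv
      change β (σ v) = v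
      rw [hσ, Submodule.reflection_mem_subspace_eq_self hv, hβ1 v hv]
    · intro v hv
      change β (σ v) = v
      rw [hσY v (hN.DY g hv), map_neg]
      obtain ⟨t, rfl⟩ := hsp v hv
      rw [map_smul, ← hc, neg_smul, one_smul, smul_neg, neg_neg]
    · intro x hx v
      change β (σ (G.R g x v)) = G.R g (γ * x * γ⁻¹) (β (σ v))
      obtain ⟨b, hb, hxb⟩ := hN.root g x hx
      rw [hxb, map_sref, hσY b (hN.sub g hb), sref_neg, ← hxb, hβ2 x hx]

include hN in
theorem beta_unique {γ : Γ} {β β' : E d ≃ₗᵢ[ℝ] E d} (h : IsBeta G g m γ β)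
    (h' : IsBeta G g m γ β') : β = β' := by
  -- the vectors on which `β` and `β'` agree
  let L : Submodule ℝ (E d) := LinearMap.ker (β.toLinearEquiv.toLinearMap -
    β'.toLinearEquiv.toLinearMap)
  have hL : ∀ v, v ∈ L ↔ β v = β' v := by
    intro v
    rw [LinearMap.mem_ker]
    exact sub_eq_zero
  have hpm : ∀ b ∈ Ph G g m m, β' b = β b ∨ β' b = -β b := by
    intro b hb
    obtain ⟨x, hx, hxb⟩ := hb.2
    refine pm_of_sref (by rw [LinearIsometryEquiv.norm_map, hb.1])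
      (by rw [LinearIsometryEquiv.norm_map, hb.1]) ?_
    intro v
    have h1 : ∀ v, sref (β b) v = G.R g (γ * x * γ⁻¹) v := by
      intro v
      have h2 := h.conj x hx (β.symm v)
      rw [hxb, map_sref, LinearIsometryEquiv.apply_symm_apply] at h2
      exact h2
    have h1' : ∀ v, sref (β' b) v = G.R g (γ * x * γ⁻¹) v := by
      intro v
      have h2 := h'.conj x hx (β'.symm v)
      rw [hxb, map_sref, LinearIsometryEquiv.apply_symm_apply] at h2
      exact h2
    rw [h1, h1']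
  have hor : ∀ b ∈ Ph G g m m, b ∈ L ∨ b ∈ Lᗮ := by
    intro b hb
    rcases hpm b hb with h1 | h1
    · left
      rw [hL, h1]
    · right
      rw [Submodule.mem_orthogonal]
      intro w hw
      rw [hL] at hw
      have h2 : ⟪w, b⟫ = -⟪w, b⟫ := by
        calc ⟪w, b⟫ = ⟪β' w, β' b⟫ := (LinearIsometryEquiv.inner_map_map β' w b).symm
          _ = ⟪β w, -β b⟫ := by rw [h1, hw]
          _ = -⟪w, b⟫ := by rw [inner_neg_right, LinearIsometryEquiv.inner_map_map]
      linarith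
  have hYL : G.Y g m ≤ L := by
    rcases hN.irr g L hor with h1 | h1
    · rw [← hN.span g, Submodule.span_le]
      exact h1
    · exfalso
      have h2 : G.Y g m ≤ Lᗮ := by
        rw [← hN.span g, Submodule.span_le]
        exact h1
      have hne : G.D g m ≠ ⊥ := by
        intro h0
        have := hN.line g
        rw [h0, finrank_bot] at this
        exact absurd this (by norm_num)
      obtain ⟨w0, hw0, hw0'⟩ := Submodule.exists_mem_ne_zero_of_ne_bot hne
      have h3 : w0 ∈ L := by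
        rw [hL, h.D w0 hw0, h'.D w0 hw0]
      have h4 := (Submodule.mem_orthogonal _ _).1 (h2 (hN.DY g hw0)) w0 h3
      exact hw0' (inner_self_eq_zero.1 h4)
  apply LinearIsometryEquiv.ext
  intro v
  obtain ⟨y, hy, z, hz, rfl⟩ := (G.Y g m).exists_add_mem_mem_orthogonal v
  rw [map_add, map_add, h.out z hz, h'.out z hz, (hL y).1 (hYL hy)]

theorem beta_mul {γ γ' : Γ} {β β' : E d ≃ₗᵢ[ℝ] E d} (hγ' : γ' ∈ G.up m)
    (h : IsBeta G g m γ β) (h' : IsBeta G g m γ' β') : IsBeta G g m (γ * γ') (β * β') := by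
  refine ⟨?_, ?_, ?_⟩
  · intro v hv
    change β (β' v) = v
    rw [h'.out v hv, h.out v hv]
  · intro v hv
    change β (β' v) = v
    rw [h'.D v hv, h.D v hv]
  · intro x hx v
    change β (β' (G.R g x v)) = G.R g (γ * γ' * x * (γ * γ')⁻¹) (β (β' v))
    rw [h'.conj x hx, h.conj _ (TT_conj G hγ' hx)]
    congr 2
    group

theorem R_frame {i : ℕ} (hi : i + 2 ≤ m) {x : Γ} (hx : x ∈ G.up m) :
    G.R (g * G.ρ i) x = G.R g x := by
  rw [G.R_mul_right, G.comm_up hi hx, mul_inv_cancel_right]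

theorem Y_frame {i : ℕ} (hi : i + 2 ≤ m) : G.Y (g * G.ρ i) m = G.Y g m := by
  rw [KGeo.Y, KGeo.Y, G.D_frame_ρ (by omega) (by omega)]
  congr 1
  ext w
  constructor
  · rintro ⟨n, hn, e, he, rfl⟩
    exact ⟨n, hn, e, he, by rw [R_frame G g hi hn.2]⟩
  · rintro ⟨n, hn, e, he, rfl⟩
    exact ⟨n, hn, e, he, by rw [R_frame G g hi hn.2]⟩

include hN in
theorem beta_frame {γ : Γ} {i : ℕ} {β : E d ≃ₗᵢ[ℝ] E d} (hγ : γ ∈ G.up m) (hi : i + 2 ≤ m)
    (h : IsBeta G g m γ β) : IsBeta G (g * G.ρ i) m γ β := by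
  refine ⟨?_, ?_, ?_⟩
  · rw [Y_frame G g hi]
    exact h.out
  · rw [G.D_frame_ρ (by omega) (by omega)]
    exact h.D
  · intro x hx v
    have hxu := TT_up G hN hx
    rw [R_frame G g hi hxu, R_frame G g hi (mul_mem (mul_mem hγ hxu) (inv_mem hγ)), h.conj x hx]

end group

end BET

open BET in
theorem t_BET : S_BET := by
  intro d k Γ _ _ X _ G m hN
  exact ⟨fun g γ hγ => exists_beta G hN g hγ, fun g γ β β' h h' => beta_unique G hN g h h',
    fun g γ γ' β β' hγ' h h' => beta_mul G g hγ' h h',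
    fun g γ i β hγ hi h => beta_frame G hN g hγ hi h⟩

end

end FOK
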