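import Pool.Agent.FOK.Stmts3

/-!
# FOK, assembly of the sections 1 - 10
-/

namespace FOK

open Lib_helper64.FO FO2
open scoped RealInnerProductSpace Nat

noncomputable section

namespace CONCL

/-- A function that is constant under the `π j` is constant on `A`. -/
theorem p_const {d : ℕ} {A : Type} (M : Mix d A) (p : A → ℤˣ)
    (h : ∀ j a, p (M.π j a) = p a) (a : A) : p a = p M.a0 := by
  obtain ⟨q, hq, rfl⟩ := M.trans a
  have key : ∀ q ∈ Subgroup.closure (Set.range M.π), ∀ b, p (q b) = p b := by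
    intro q hq
    induction hq using Subgroup.closure_induction with
    | mem x hx =>
      obtain ⟨j, rfl⟩ := hx
      exact h j
    | one => intro b; rfl
    | mul x y _ _ hx hy => intro b; rw [Equiv.Perm.mul_apply, hx, hy]
    | inv x _ hx =>
      intro b
      have := hx (x⁻¹ b)
      have e : x (x⁻¹ b) = b := Equiv.apply_symm_apply x b
      rw [e] at this
      exact this.symm
  exact key q hq _

/-- The coercion of lists in the statements. -/
theorem map_coe {d : ℕ} {α : Type} (g : ℕ → α) (w : List (Fin d)) :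
    List.map (fun j : ℕ => g j) (do let a ← w; pure (a : ℕ)) = w.map (fun j : Fin d => g j) := by
  induction w with
  | nil => rfl
  | cons a w ih =>
    rw [List.map_cons, ← ih]
    rfl

/-- The case `s = 1` of the mixing datum. -/
theorem mix_one (hMIXG : S_MIXG) {d k : ℕ} {Γ : Type} [Group Γ] [Finite Γ] {X : Type}
    [MulAction Γ X] (G : KGeo d k Γ X) (l : ℕ) (T : Top G l) (gm : ℕ → (E d ≃ₗᵢ[ℝ] E d))
    (hg : Gens G l gm) (y0 : E d) (hy : y0 ∈ G.V 1 1) (hy0 : y0 ≠ 0)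
    (h : ∀ w w' : List (Fin d), ∃ x ∈ Subgroup.closure (TT G 0 l),
        G.R 1 x ((w.map (fun j => gm j)).prod y0) = (w'.map (fun j => gm j)).prod y0) :
    ∃ (A : Type) (M : Mix d A), Finite A ∧ (∀ j : Fin d, 48 * k ^ 5 ≤ j.val → M.π j = 1) ∧
      Function.Injective M.r ∧ ∀ w : List (Fin d), G.f ((w.map (fun j => G.ρ j)).prod • G.x0) =
        M.r ((w.map M.π).prod M.a0) • ((w.map (fun j => gm j)).prod y0) := by
  obtain ⟨A, M, p, hA, h1, h2, h3, h4⟩ := hMIXG d k Γ X G l T gm hg y0 hy hy0 (fun _ => 1)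
    (fun _ _ => rfl) (fun w w' _ => h w w')
  refine ⟨A, M, hA, h1, ?_, h4⟩
  have hp := p_const M p (fun j a => by rw [h2 j a, one_mul])
  intro a b hab
  exact h3 a b (by rw [hp a, hp b]) hab

end CONCL

theorem t_CONCL : M_CONCL := by
  intro hWIN hSUB hTOP hTAD hGN1 hPOS hMA hMD hMC hMIXG hTRA hTRC hTRD
  intro d k Γ _ _ X _ G hk hd
  obtain ⟨u, q, hw, hq, hq1⟩ := hWIN d k Γ X G hk hd
  obtain ⟨j1, j2, hs⟩ := hSUB d k Γ X G u q hk hd hw hq hq1
  have T := hTOP d k Γ X G u q j1 j2 hk hs hq1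
  have hd0 : 0 < d := by
    have : 1 ≤ k ^ 5 := Nat.one_le_pow _ _ hk
    omega
  generalize j1 + 5 = l at T
  obtain ⟨hSL, hAD⟩ := hTAD d k Γ X G l T
  obtain ⟨gg, hgg⟩ := hGN1 d k Γ X G l T
  -- a unit vector in `V 1 1`
  have hdim : Module.finrank ℝ (G.V 1 1) = 1 := T.dimV 1 1 hd0
  obtain ⟨y0, hy0, hy1⟩ : ∃ y0 ∈ G.V 1 1, ‖y0‖ = 1 := by
    have hne : G.V 1 1 ≠ ⊥ := by
      intro h
      rw [h] at hdim
      simp at hdim
    obtain ⟨z, hz, hz0⟩ := Submodule.exists_mem_ne_zero_of_ne_bot hne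
    refine ⟨(‖z‖)⁻¹ • z, Submodule.smul_mem _ _ hz, ?_⟩
    rw [norm_smul, norm_inv, norm_norm, inv_mul_cancel₀ (norm_ne_zero_iff.2 hz0)]
  have hpos := hPOS d k Γ X G l T y0 hy0 hy1
  rcases hAD with ⟨v, hv⟩ | ⟨u, hu⟩
  · have hvi : ∃ i, v i ∈ G.V 1 1 := by
      obtain ⟨i, hi | hi⟩ := hpos.1 v hv
      · exact ⟨i, hi ▸ hy0⟩
      · refine ⟨i, ?_⟩
        have : v i = -y0 := by rw [hi, neg_neg]
        rw [this]
        exact Submodule.neg_mem _ hy0
    obtain ⟨v', gm, hgm, hv', hv0, hact⟩ := hMA d k Γ X G l T gg hgg v hv hvi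
    have hne : v' 0 ≠ 0 := by
      intro h
      have := hv'.1 0 0
      rw [h] at this
      simp at this
    obtain ⟨A, M, hA, h1, h2, h3⟩ := CONCL.mix_one hMIXG G l T gm hgm (v' 0) hv0 hne
      (hTRA d k Γ X G l T gm v' hv' hact)
    exact ⟨v' 0, fun j => gm j, A, M, hA, h1, Or.inl ⟨⟨v', hv'.1, rfl, hact⟩, h2⟩,
      fun w => by rw [h3 w]; exact congrArg _ (by rw [← CONCL.map_coe])⟩
  · rcases hpos.2 u hu with ⟨i, hi⟩ | hdiag
    · have hvi : ∃ i, u i ∈ G.V 1 1 := by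
        rcases hi with hi | hi
        · exact ⟨i, hi ▸ hy0⟩
        · refine ⟨i, ?_⟩
          have : u i = -y0 := by rw [hi, neg_neg]
          rw [this]
          exact Submodule.neg_mem _ hy0
      obtain ⟨u', gm, hgm, hu', hu0, hact⟩ := hMC d k Γ X G l T gg hgg u hu hvi
      have hne : u' ⟨0, hd0⟩ ≠ 0 := by
        intro h
        have := u'.norm_eq_one ⟨0, hd0⟩
        rw [h] at this
        simp at this
      obtain ⟨A, M, hA, h1, h2, h3⟩ := CONCL.mix_one hMIXG G l T gm hgm (u' ⟨0, hd0⟩) (hu0 hd0) hne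
        (hTRC d k Γ X G l T gm u' hu' hact hd0)
      exact ⟨u' ⟨0, hd0⟩, fun j => gm j, A, M, hA, h1,
        Or.inr (Or.inl ⟨⟨u', fun _ => rfl, hact⟩, h2⟩),
        fun w => by rw [h3 w]; exact congrArg _ (by rw [← CONCL.map_coe])⟩
    · obtain ⟨u', gm, hgm, hu', hu0, hact⟩ := hMD d k Γ X G l T gg hgg u hu y0 hy0 hdiag
      have hne : ∑ i, u' i ≠ 0 := by
        intro h
        have h1 : ⟪u' ⟨0, hd0⟩, ∑ i, u' i⟫ = (1 : ℝ) := by
          rw [inner_sum]
          rw [Finset.sum_eq_single ⟨0, hd0⟩]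
          · rw [real_inner_self_eq_norm_sq, u'.norm_eq_one]; norm_num
          · intro b _ hb
            exact u'.orthonormal.2 (Ne.symm hb)
          · intro hh; exact absurd (Finset.mem_univ _) hh
        rw [h, inner_zero_right] at h1
        exact zero_ne_one h1
      obtain ⟨A, M, p, hA, h1, h2, h3, h4⟩ := hMIXG d k Γ X G l T gm hgm (∑ i, u' i) hu0 hne
        (fun j : Fin d => if j.val = 0 then (-1 : ℤˣ) else 1)
        (fun j hj => if_neg (by omega)) (hTRD d k Γ X G l T gm u' hu' hact)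
      refine ⟨∑ i, u' i, fun j => gm j, A, M, hA, h1,
        Or.inr (Or.inr ⟨⟨u', rfl, hact⟩, p, ?_, h3⟩),
        fun w => by rw [h4 w]; exact congrArg _ (by rw [← CONCL.map_coe])⟩
      intro j a
      rw [h2 j a]
      split_ifs <;> simp

end

end FOK
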