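import Pool.Agent.FOK.Stmts1

/-!
# Module DICH (section 3.3): the dichotomy
-/

namespace FOK

open Lib_helper64.FO FO2
open scoped RealInnerProductSpace Nat

noncomputable section

namespace DICH

variable {d k : ℕ} {Γ : Type} [Group Γ] {X : Type} [MulAction Γ X] (G : KGeo d k Γ X)

theorem U_left {h : Γ} (hh : h ∈ G.H) (g : Γ) (i : ℕ) {v : E d} (hv : v ∈ G.U g i) :
    G.T h v ∈ G.U (h * g) i := by
  rw [KGeo.U, Submodule.mem_orthogonal] at hv ⊢
  intro w hw
  have h3 : G.T h ((G.T h).symm w) = w := LinearIsometryEquiv.apply_symm_apply _ _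
  rw [← h3] at hw ⊢
  rw [LinearIsometryEquiv.inner_map_map]
  exact hv _ ((G.V_left hh g i).1 hw)

theorem D_left {h : Γ} (hh : h ∈ G.H) (g : Γ) (i : ℕ) {v : E d} (hv : v ∈ G.D g i) :
    G.T h v ∈ G.D (h * g) i :=
  ⟨(G.V_left hh g (i + 1)).2 hv.1, U_left G hh g i hv.2⟩

theorem Y_left {h : Γ} (hh : h ∈ G.H) (g : Γ) (p : ℕ) {v : E d} (hv : v ∈ G.Y g p) :
    G.T h v ∈ G.Y (h * g) p := by
  rw [KGeo.Y] at hv
  induction hv using Submodule.span_induction with
  | mem x hx =>
    obtain ⟨n, hn, e, he, rfl⟩ := hx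
    rw [← G.R_left hh g hn.1]
    exact Submodule.subset_span ⟨n, hn, _, D_left G hh g p he, rfl⟩
  | zero => rw [map_zero]; exact zero_mem _
  | add x y _ _ hx hy => rw [map_add]; exact add_mem hx hy
  | smul c x _ hx => rw [map_smul]; exact Submodule.smul_mem _ c hx

theorem T_inv_T {h : Γ} (hh : h ∈ G.H) (v : E d) : G.T h⁻¹ (G.T h v) = v := by
  have h1 : G.T h⁻¹ * G.T h = 1 := by
    rw [← G.T_mul _ (inv_mem hh) _ hh, inv_mul_cancel, G.T_one]
  exact congrArg (fun e : E d ≃ₗᵢ[ℝ] E d => e v) h1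

theorem DY_left {h : Γ} (hh : h ∈ G.H) (g : Γ) (i p : ℕ) (H : G.D g i ≤ G.Y g p) :
    G.D (h * g) i ≤ G.Y (h * g) p := by
  intro w hw
  have h1 := D_left G (inv_mem hh) (h * g) i hw
  rw [inv_mul_cancel_left] at h1
  have h2 := Y_left G hh g p (H h1)
  have h3 := T_inv_T G (inv_mem hh) w
  rw [inv_inv] at h3
  rwa [h3] at h2

open Classical in
/-- the letter of the index `i` in the frame `g` -/
def lt (p : ℕ) (g : Γ) (i : ℕ) : Bool := decide (G.D g i ≤ G.Y g p)

theorem lt_eq {p p' : ℕ} {g g' : Γ} {i i' : ℕ}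
    (h : G.D g i ≤ G.Y g p ↔ G.D g' i' ≤ G.Y g' p') : lt G p g i = lt G p' g' i' := by
  rw [lt, lt]
  exact decide_eq_decide.2 h

theorem lt_iff {p : ℕ} {g : Γ} {i : ℕ} : lt G p g i = true ↔ G.D g i ≤ G.Y g p := by
  classical
  rw [lt, decide_eq_true_iff]

end DICH

theorem t_DICH : M_DICH := by
  intro hCNT hSW hY hPL hSWAP d k Γ _ _ X _ G u q hW p hup hpk g
  obtain ⟨L, hL⟩ : ∃ L, q = p + L := ⟨q - p, by omega⟩
  set s : Γ → (Fin L → Bool) := fun g a => DICH.lt G p g (p + 1 + a) with hsdef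
  have hinv : ∀ h ∈ G.H, ∀ g, s (h * g) = s g := by
    intro h hh g
    funext a
    apply DICH.lt_eq
    constructor
    · intro H
      have := DICH.DY_left G (inv_mem hh) _ _ _ H
      rwa [inv_mul_cancel_left] at this
    · intro H
      exact DICH.DY_left G hh _ _ _ H
  have hcard : (Set.range s).ncard ≤ k := by
    have := hCNT Γ G.H (Fin L → Bool) s hinv
    rwa [G.idx] at this
  have hconst : ∀ g, ∀ a b, s g a = s g b := by
    by_contra hcon
    push Not at hcon
    obtain ⟨g0, a, b, hab⟩ := hcon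
    have h1 : L ≤ (Set.range s).ncard := by
      apply hSW L (Set.range s)
      · rintro _ ⟨g, rfl⟩ i hi
        refine ⟨g * G.ρ (p + 1 + i), ?_⟩
        obtain ⟨hYe, hS1, hS2⟩ := hSWAP d k Γ X G u q hW g p (p + 1 + i) hup (by omega) (by omega)
        funext x
        change DICH.lt G p (g * G.ρ (p + 1 + i)) (p + 1 + x) = _
        by_cases hx : x = ⟨i, by omega⟩
        · subst hx
          rw [Equiv.swap_apply_left]
          apply DICH.lt_eq
          rw [hYe]
          exact hS1
        · by_cases hx' : x = ⟨i + 1, hi⟩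
          · subst hx'
            rw [Equiv.swap_apply_right]
            apply DICH.lt_eq
            rw [hYe]
            exact hS2
          · rw [Equiv.swap_apply_of_ne_of_ne hx hx']
            apply DICH.lt_eq
            have h3 : x.val ≠ i := fun h => hx (Fin.ext h)
            have h4 : x.val ≠ i + 1 := fun h => hx' (Fin.ext h)
            rw [hYe, G.D_frame_ρ (by omega) (by omega)]
      · exact ⟨s g0, ⟨g0, rfl⟩, a, b, hab⟩
    omega
  have hYd := (hY d k Γ X G u q hW g p hup (by omega)).2.1 (G.Y g p)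
    (fun n hn w hw => G.R_mem_Y hn hw)
  by_cases h0 : G.D g (p + 1) ≤ G.Y g p
  · left
    intro i h1 h2
    have h3 := hconst g ⟨0, by omega⟩ ⟨i - (p + 1), by omega⟩
    have h4 : s g ⟨0, by omega⟩ = true := by
      change DICH.lt G p g (p + 1 + 0) = true
      rw [DICH.lt_iff]
      exact h0
    rw [h3] at h4
    change DICH.lt G p g (p + 1 + (i - (p + 1))) = true at h4
    rw [DICH.lt_iff] at h4
    rwa [Nat.add_sub_cancel' (by omega)] at h4
  · right
    intro i h1 h2
    rcases hYd i (by omega) h2 with h5 | h5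
    · exfalso
      apply h0
      have h3 := hconst g ⟨0, by omega⟩ ⟨i - (p + 1), by omega⟩
      have h4 : s g ⟨i - (p + 1), by omega⟩ = true := by
        change DICH.lt G p g (p + 1 + (i - (p + 1))) = true
        rw [DICH.lt_iff, Nat.add_sub_cancel' (by omega)]
        exact h5
      rw [← h3] at h4
      change DICH.lt G p g (p + 1 + 0) = true at h4
      rw [DICH.lt_iff] at h4
      exact h4
    · exact h5

end

end FOK
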