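import Pool.Agent.FOK.Stmts2

/-!
# 7.4, type A: the vector e is not of the form (1^m, -1^m)
-/

namespace FOK

open Lib_helper64.FO FO2
open scoped RealInnerProductSpace

namespace EA0

/-- in a line every vector is a multiple of a given nonzero vector -/
theorem mul_of_line {d : ℕ} {L : Submodule ℝ (E d)} (h : Module.finrank ℝ L = 1) {e w : E d}
    (he : e ∈ L) (h0 : e ≠ 0) (hw : w ∈ L) : ∃ α : ℝ, w = α • e := by
  have h1 : (⟨e, he⟩ : L) ≠ 0 := fun hh => h0 (congrArg Subtype.val hh)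
  obtain ⟨α, hα⟩ := (finrank_eq_one_iff_of_nonzero' (⟨e, he⟩ : L) h1).1 h ⟨w, hw⟩
  exact ⟨α, (congrArg Subtype.val hα).symm⟩

/-- a line contains a unit vector -/
theorem unit_of_line {d : ℕ} {L : Submodule ℝ (E d)} (h : Module.finrank ℝ L = 1) :
    ∃ e ∈ L, ‖e‖ = 1 := by
  have hne : L ≠ ⊥ := by
    rintro rfl
    rw [finrank_bot] at h
    exact zero_ne_one h
  obtain ⟨x, hx, h0⟩ := Submodule.exists_mem_ne_zero_of_ne_bot hne
  refine ⟨‖x‖⁻¹ • x, L.smul_mem _ hx, ?_⟩
  rw [norm_smul, norm_inv, norm_norm, inv_mul_cancel₀ (norm_ne_zero_iff.2 h0)]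

section gram

variable {d n : ℕ} {v : Fin (n + 1) → E d}

theorem gram' (_hn : n ≠ 0) (hg : ∀ i j, ⟪v i, v j⟫ = if i = j then (1 : ℝ) else -1 / n)
    (i j : Fin (n + 1)) :
    ⟪v i, v j⟫ = (1 + 1 / (n : ℝ)) * (if i = j then 1 else 0) - 1 / n := by
  rw [hg]
  split_ifs
  · ring
  · ring

theorem inner_sum (hn : n ≠ 0) (hg : ∀ i j, ⟪v i, v j⟫ = if i = j then (1 : ℝ) else -1 / n)
    (p : Fin (n + 1)) (B : Finset (Fin (n + 1))) :
    ⟪v p, ∑ i ∈ B, v i⟫ = (1 + 1 / (n : ℝ)) * (if p ∈ B then 1 else 0) - B.card / n := by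
  rw [_root_.inner_sum]
  simp only [gram' hn hg]
  rw [Finset.sum_sub_distrib, ← Finset.mul_sum, Finset.sum_ite_eq, Finset.sum_const, nsmul_eq_mul]
  ring

end gram

end EA0

open EA0

theorem t_EA0 : M_EA0 := by
  intro hPL hKK d k Γ _ _ X _ G u q j1 j2 hk hS g a e Φ n v hn haΦ ha ha1 ha2 hA hP he hne B c hB hec
  have hj : j2 = j1 + (6 * k + 3) := hS.hj
  have hjq := hS.hjq
  -- dimensions
  have hn20 : 12 * k + 20 ≤ n := by
    have := hS.dimY g j1 le_rfl (by omega)
    rwa [hn] at this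
  have hn0 : n ≠ 0 := by omega
  have hnR : (0 : ℝ) < n := by exact_mod_cast Nat.pos_of_ne_zero hn0
  have he0 : e ≠ 0 := by
    rintro rfl
    rw [norm_zero] at hne
    exact zero_ne_one hne
  have hl0 := hS.win.line g j1 hS.huj (by omega)
  have hl1 := hS.win.line g (j1 + 1) (by have := hS.huj; omega) (by omega)
  obtain ⟨e1, he1, hne1⟩ := unit_of_line hl1
  have he10 : e1 ≠ 0 := by
    rintro rfl
    rw [norm_zero] at hne1
    exact zero_ne_one hne1
  -- `a = α e + β e1`
  obtain ⟨y, hy, z, hz, hyz⟩ := Submodule.mem_sup.1 ha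
  obtain ⟨α, hα⟩ := mul_of_line hl0 he he0 hy
  obtain ⟨β, hβ⟩ := mul_of_line hl1 he1 he10 hz
  have hα0 : α ≠ 0 := by
    rintro rfl
    rw [zero_smul] at hα
    rw [hα, zero_add] at hyz
    exact ha2 (hyz ▸ hz)
  have hβ0 : β ≠ 0 := by
    rintro rfl
    rw [zero_smul] at hβ
    rw [hβ, add_zero] at hyz
    exact ha1 (hyz ▸ hy)
  have horth : ⟪e1, e⟫ = (0 : ℝ) := by
    have h1 := ((hPL d k Γ X G u q hS.win g).2.1 j1 (j1 + 1) hS.huj (Nat.lt_succ_self _)
      (by omega)).1 he
    exact (Submodule.mem_orthogonal _ _).1 h1 e1 he1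
  have hae : ⟪a, e⟫ ≠ (0 : ℝ) := by
    rw [← hyz, hα, hβ, inner_add_left, real_inner_smul_left, real_inner_smul_left, horth,
      real_inner_self_eq_norm_sq, hne]
    simpa using hα0
  -- `a = t (v p - v p')`
  obtain ⟨p, p', hpp, t, ht, -, hat⟩ := (hA.iff a).1 haΦ
  have hg := hA.gram
  have hBn : (2 : ℝ) * B.card = n + 1 := by exact_mod_cast hB
  have hin : ⟪v p - v p', e⟫ =
      c * ((1 + 1 / (n : ℝ)) * ((if p ∈ B then 1 else 0) - (if p' ∈ B then 1 else 0))) := by
    rw [hec, real_inner_smul_right, inner_sub_left, EA0.inner_sum hn0 hg, EA0.inner_sum hn0 hg]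
    ring
  have hdiff : ((if p ∈ B then 1 else 0) - (if p' ∈ B then 1 else 0) : ℝ) ≠ 0 := by
    intro hh
    apply hae
    rw [hat, real_inner_smul_left, hin, hh]
    ring
  -- the vector `v p + v p'`
  set w : E d := v p + v p' with hw
  have hwe : ⟪e, w⟫ = (0 : ℝ) := by
    rw [real_inner_comm, hw, hec, real_inner_smul_right, inner_add_left, EA0.inner_sum hn0 hg,
      EA0.inner_sum hn0 hg]
    have hs : ((if p ∈ B then 1 else 0) + (if p' ∈ B then 1 else 0) : ℝ) = 1 := by
      split_ifs at hdiff ⊢ with h1 h2 h2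
      · exact absurd (by norm_num) hdiff
      · norm_num
      · norm_num
      · exact absurd (by norm_num) hdiff
    have : (1 + 1 / (n : ℝ)) * (if p ∈ B then 1 else 0) - B.card / n +
        ((1 + 1 / (n : ℝ)) * (if p' ∈ B then 1 else 0) - B.card / n) = 0 := by
      have e2 : (1 + 1 / (n : ℝ)) * (if p ∈ B then 1 else 0) - B.card / n +
        ((1 + 1 / (n : ℝ)) * (if p' ∈ B then 1 else 0) - B.card / n) =
        (1 + 1 / (n : ℝ)) * ((if p ∈ B then 1 else 0) + (if p' ∈ B then 1 else 0)) -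
          (2 * B.card) / n := by ring
      rw [e2, hs, hBn]
      field_simp
      ring
    rw [this, mul_zero]
  have hwa : ⟪a, w⟫ = (0 : ℝ) := by
    rw [hat, real_inner_smul_left, hw, inner_sub_left, inner_add_right, inner_add_right,
      gram' hn0 hg, gram' hn0 hg, gram' hn0 hg, gram' hn0 hg]
    rw [if_pos rfl, if_pos rfl, if_neg hpp, if_neg hpp.symm]
    ring
  have hwe1 : ⟪e1, w⟫ = (0 : ℝ) := by
    rw [← hyz, hα, hβ, inner_add_left, real_inner_smul_left, real_inner_smul_left, hwe, mul_zero,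
      zero_add] at hwa
    exact (mul_eq_zero.1 hwa).resolve_left hβ0
  have hw0 : w ≠ 0 := by
    intro hh
    have h1 : ⟪w, w⟫ = (0 : ℝ) := by rw [hh, inner_zero_left]
    rw [hw, inner_add_left, inner_add_right, inner_add_right, gram' hn0 hg, gram' hn0 hg,
      gram' hn0 hg, gram' hn0 hg, if_pos rfl, if_pos rfl, if_neg hpp, if_neg hpp.symm] at h1
    have h2 : (2 : ℝ) - 2 / n = 0 := by
      rw [← h1]
      ring
    have h3 : (2 : ℝ) * n - 2 = 0 := by
      field_simp at h2
      linarith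
    have h4 : (n : ℝ) = 1 := by linarith
    have h5 : n = 1 := by exact_mod_cast h4
    omega
  -- `w ∈ Y (j1 + 2)`
  have hK0 := hKK d k Γ X G u q j1 j2 hk hS g j1 le_rfl (by omega)
  have hK1 := hKK d k Γ X G u q j1 j2 hk hS g (j1 + 1) (by omega) (by omega)
  have hK2 := hKK d k Γ X G u q j1 j2 hk hS g (j1 + 2) (by omega) (by omega)
  have hwY : w ∈ G.Y g j1 := add_mem (hA.mem p) (hA.mem p')
  have hwY1 : w ∈ G.Y g (j1 + 1) := by
    rw [← (hK0.2.2.2 (by omega) e he hne).2]
    exact ⟨hwY, Submodule.mem_orthogonal_singleton_iff_inner_right.2 hwe⟩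
  have hwY2 : w ∈ G.Y g (j1 + 2) := by
    rw [← (hK1.2.2.2 (by omega) e1 he1 hne1).2]
    exact ⟨hwY1, Submodule.mem_orthogonal_singleton_iff_inner_right.2 hwe1⟩
  -- the line of `w` is invariant
  have hfix : ∀ h ∈ KK G g (j1 + 2), h a = a := by
    intro h hh
    obtain ⟨m, hm, rfl⟩ := (hK2.1 h).1 hh
    have h1 : a ∈ G.V g (j1 + 2) := by
      rw [← hyz]
      exact add_mem (G.V_mono g (by omega) (G.D_le_V g j1 hy)) (G.D_le_V g (j1 + 1) hz)
    exact h1 m hm
  have hinv : ∀ h ∈ KK G g (j1 + 2), h w = w ∨ h w = -w := by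
    intro h hh
    have hGG : h ∈ GG G q j1 j2 g := by
      obtain ⟨m, hm, rfl⟩ := (hK2.1 h).1 hh
      exact Subgroup.subset_closure (Or.inl (Or.inl ⟨m, G.Ni_anti (by omega) hm, rfl⟩))
    have hha := hfix h hh
    obtain ⟨π, hπ⟩ := hP h hGG
    have ht0 : t ≠ 0 := ht.ne'
    have hvv : h (v p - v p') = v p - v p' := by
      rw [hat, LinearIsometryEquiv.map_smul] at hha
      exact smul_right_injective _ ht0 hha
    rcases hπ with hπ | hπ
    · left
      have h1 : v (π p) - v (π p') = v p - v p' := by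
        rw [← hπ, ← hπ, ← map_sub]
        exact hvv
      have h2 := congrArg (fun x => ⟪x, v p - v p'⟫) h1
      simp only [inner_sub_left, inner_sub_right, gram' hn0 hg, if_neg hpp, if_neg hpp.symm,
        if_true] at h2
      have h3 : (1 + 1 / (n : ℝ)) ≠ 0 := by positivity
      have h4 : ((if π p = p then 1 else 0) - (if π p = p' then 1 else 0) -
          ((if π p' = p then 1 else 0) - (if π p' = p' then 1 else 0)) : ℝ) = 2 := by
        apply mul_left_cancel₀ h3
        linear_combination h2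
      have h5 : π p = p ∧ π p' = p' := by
        split_ifs at h4 <;> first | exact ⟨by assumption, by assumption⟩ | (exfalso; norm_num at h4)
      rw [hw, map_add, hπ, hπ, h5.1, h5.2]
    · right
      have h1 : -v (π p) - -v (π p') = v p - v p' := by
        rw [← hπ, ← hπ, ← map_sub]
        exact hvv
      have h2 := congrArg (fun x => ⟪x, v p - v p'⟫) h1
      simp only [inner_sub_left, inner_sub_right, inner_neg_left, gram' hn0 hg, if_neg hpp,
        if_neg hpp.symm, if_true] at h2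
      have h3 : (1 + 1 / (n : ℝ)) ≠ 0 := by positivity
      have h4 : ((if π p = p' then 1 else 0) - (if π p = p then 1 else 0) -
          ((if π p' = p' then 1 else 0) - (if π p' = p then 1 else 0)) : ℝ) = 2 := by
        apply mul_left_cancel₀ h3
        linear_combination h2
      have h5 : π p = p' ∧ π p' = p := by
        split_ifs at h4 <;> first | exact ⟨by assumption, by assumption⟩ | (exfalso; norm_num at h4)
      rw [hw, map_add, hπ, hπ, h5.1, h5.2]
      abel
  -- contradiction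
  have hdim := hS.dimY g (j1 + 2) (by omega) (by omega)
  rcases hK2.2.2.1 (ℝ ∙ w) (by rwa [Submodule.span_singleton_le_iff_mem]) (by
    intro h hh x hx
    obtain ⟨s, rfl⟩ := Submodule.mem_span_singleton.1 hx
    rw [LinearIsometryEquiv.map_smul]
    refine Submodule.smul_mem _ _ ?_
    rcases hinv h hh with h1 | h1
    · rw [h1]
      exact Submodule.mem_span_singleton_self w
    · rw [h1]
      exact neg_mem (Submodule.mem_span_singleton_self w)) with h | h
  · rw [Submodule.span_singleton_eq_bot] at h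
    exact hw0 h
  · rw [← h, finrank_span_singleton hw0] at hdim
    omega

end FOK
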