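import Pool.Agent.FOK.Stmts2
import Pool.Agent.FOK.PL
import Pool.Agent.FO2.ST

/-!
# Module ED (section 7.4, case (I)): type `D` or frame, the vector `e` is diagonal
-/

namespace FOK

open Lib_helper64.FO FO2
open scoped RealInnerProductSpace Nat

namespace ED

variable {d k : ℕ} {Γ : Type} [Group Γ] {X : Type} [MulAction Γ X] (G : KGeo d k Γ X)

/-! ### dimensions -/

theorem finrank_VU {u q : ℕ} (hW : Win G u q) (g : Γ) {i : ℕ} (hu : u ≤ i) :
    ∀ m, i + m ≤ q + 1 → Module.finrank ℝ ↥(G.V g (i + m) ⊓ G.U g i) ≤ m := by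
  intro m
  induction m with
  | zero =>
    intro _
    have e : G.V g (i + 0) ⊓ G.U g i = ⊥ := by
      rw [add_zero, KGeo.U, Submodule.inf_orthogonal_eq_bot]
    rw [e]
    simp
  | succ m ih =>
    intro h
    have h1 : G.V g (i + (m + 1)) ⊓ G.U g i ≤ (G.V g (i + m) ⊓ G.U g i) ⊔ G.D g (i + m) := by
      rintro x ⟨hx1, hx2⟩
      have hx3 : x ∈ G.V g (i + m) ⊔ G.D g (i + m) := by
        rw [PL.V_succ]
        exact hx1
      obtain ⟨a, ha, b, hb, rfl⟩ := Submodule.mem_sup.1 hx3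
      refine Submodule.add_mem_sup ⟨ha, ?_⟩ hb
      have hb' : b ∈ G.U g i := G.U_anti g (by omega) (G.D_le_U g _ hb)
      have := (G.U g i).sub_mem hx2 hb'
      rwa [add_sub_cancel_right] at this
    have h2 := Submodule.finrank_mono h1
    have h3 := Submodule.finrank_add_le_finrank_add_finrank (G.V g (i + m) ⊓ G.U g i)
      (G.D g (i + m))
    have h4 := hW.line g (i + m) (by omega) (by omega)
    have h5 := ih (by omega)
    omega

/-! ### lines -/

theorem line_span {D : Submodule ℝ (E d)} (hD : Module.finrank ℝ D = 1) {e : E d} (he : e ∈ D)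
    (h0 : e ≠ 0) {x : E d} (hx : x ∈ D) : ∃ c : ℝ, x = c • e := by
  have h1 : (⟨e, he⟩ : D) ≠ 0 := by
    intro h
    exact h0 (congrArg Subtype.val h)
  obtain ⟨c, hc⟩ := (finrank_eq_one_iff_of_nonzero' (⟨e, he⟩ : D) h1).1 hD ⟨x, hx⟩
  exact ⟨c, (congrArg Subtype.val hc).symm⟩

theorem exists_ne {D : Submodule ℝ (E d)} (hD : Module.finrank ℝ D = 1) : ∃ e ∈ D, e ≠ 0 := by
  by_contra h
  push Not at h
  have : D = ⊥ := by
    rw [eq_bot_iff]
    intro x hx
    exact h x hx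
  rw [this] at hD
  simp at hD

/-- the reflection as a linear map -/
noncomputable def srefL (a : E d) : E d →ₗ[ℝ] E d where
  toFun := sref a
  map_add' := sref_add a
  map_smul' c v := sref_smul a v c

/-- the reflection in the difference of two vectors of the same norm exchanges them -/
theorem sref_sub {a e e' : E d} {c : ℝ} (hn : ‖e‖ = ‖e'‖) (hc : c ≠ 0) (ha : ‖a‖ = 1)
    (h : e - e' = c • a) : sref a e = e' := by
  have h1 : ⟪e, e⟫ = ⟪e', e'⟫ := by
    rw [real_inner_self_eq_norm_sq, real_inner_self_eq_norm_sq, hn]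
  have h2 : ⟪a, a⟫ = (1 : ℝ) := by rw [real_inner_self_eq_norm_sq, ha]; norm_num
  have h3 : e' = e - c • a := by rw [← h]; abel
  have h4 : 2 * ⟪a, e⟫ = c := by
    rw [h3] at h1
    simp only [inner_sub_left, inner_sub_right, inner_smul_left, inner_smul_right, h2,
      real_inner_comm a e, RCLike.conj_to_real] at h1
    have h5 : c * (2 * ⟪a, e⟫ - c) = 0 := by linarith
    rcases mul_eq_zero.1 h5 with h6 | h6
    · exact absurd h6 hc
    · linarith
  rw [sref, h4, h3]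

/-- for `ε = 1` the isometry is a reflection -/
theorem root_of_IsK {u q l : ℕ} (hW : Win G u q) {g : Γ} (hu : u ≤ l) (hq : l + 1 ≤ q)
    {κ : E d ≃ₗᵢ[ℝ] E d} (h : IsK G g l κ 1) :
    ∃ a : E d, ‖a‖ = 1 ∧ a ∈ G.D g l ⊔ G.D g (l + 1) ∧ a ∉ G.D g l ∧ a ∉ G.D g (l + 1) ∧
      ∀ v, κ v = sref a v := by
  have l0 := hW.line g l hu (by omega)
  have l1 := hW.line g (l + 1) (by omega) hq
  obtain ⟨e, he, h0⟩ := exists_ne l0
  have hm := h.moves e he h0
  set c := ‖e - κ e‖ with hc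
  have hne : e - κ e ≠ 0 := by
    intro h1
    rw [sub_eq_zero] at h1
    exact hm (h1 ▸ he)
  have hc0 : c ≠ 0 := by rw [hc]; simpa using hne
  set a := c⁻¹ • (e - κ e) with ha
  have hea : e - κ e = c • a := by rw [ha, smul_smul, mul_inv_cancel₀ hc0, one_smul]
  have hna : ‖a‖ = 1 := by
    rw [ha, norm_smul, norm_inv, Real.norm_eq_abs, ← hc, abs_of_nonneg (by rw [hc]; exact norm_nonneg _),
      inv_mul_cancel₀ hc0]
  have heV : e ∈ G.V g (l + 2) := G.V_mono g (by omega) (G.D_le_V g l he)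
  have heU : e ∈ G.U g l := G.D_le_U g l he
  have hκU : κ e ∈ G.U g l := by
    rw [KGeo.U, Submodule.mem_orthogonal]
    intro v hv
    rw [← h.fix v hv, LinearIsometryEquiv.inner_map_map]
    exact (Submodule.mem_orthogonal _ _).1 heU v hv
  have hκP : κ e ∈ G.D g l ⊔ G.D g (l + 1) := by
    rw [PL.plane]
    exact ⟨h.pres e heV, hκU⟩
  have haP : a ∈ G.D g l ⊔ G.D g (l + 1) := by
    rw [ha]
    exact Submodule.smul_mem _ _ (Submodule.sub_mem _ (Submodule.mem_sup_left he) hκP)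
  -- the two maps agree
  have hse : sref a e = κ e := sref_sub (by rw [LinearIsometryEquiv.norm_map]) hc0 hna hea
  have hsκ : sref a (κ e) = e := by rw [← hse, sref_sref hna]
  let M : Submodule ℝ (E d) := LinearMap.eqLocus (κ.toLinearEquiv : E d →ₗ[ℝ] E d) (srefL a)
  have hM : ∀ v, v ∈ M ↔ κ v = sref a v := fun v => Iff.rfl
  have m1 : e ∈ M := (hM e).2 hse.symm
  have m2 : κ e ∈ M := (hM _).2 (by rw [h.inv, hsκ])
  have mD0 : G.D g l ≤ M := by
    intro x hx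
    obtain ⟨t, rfl⟩ := line_span l0 he h0 hx
    exact M.smul_mem t m1
  have haV : a ∈ G.V g (l + 2) ∧ a ∈ G.U g l := by
    rw [PL.plane] at haP
    exact haP
  have mD1 : G.D g (l + 1) ≤ M := by
    obtain ⟨q1, hq1, q2, hq2, hq12⟩ := Submodule.mem_sup.1 hκP
    have hq0 : q2 ≠ 0 := by
      rintro rfl
      rw [add_zero] at hq12
      exact hm (hq12 ▸ hq1)
    have m3 : q2 ∈ M := by
      have := M.sub_mem m2 (mD0 hq1)
      rwa [← hq12, add_sub_cancel_left] at this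
    intro x hx
    obtain ⟨t, rfl⟩ := line_span l1 hq2 hq0 hx
    exact M.smul_mem t m3
  have mV : G.V g l ≤ M := by
    intro v hv
    rw [hM, h.fix v hv, sref]
    have h5 : ⟪a, v⟫ = (0 : ℝ) := by
      rw [real_inner_comm]
      exact (Submodule.mem_orthogonal _ _).1 haV.2 v hv
    rw [h5]
    simp
  have mU : G.U g (l + 2) ≤ M := by
    intro v hv
    rw [hM, h.scal v hv, sref, one_smul]
    have h5 : ⟪a, v⟫ = (0 : ℝ) := (Submodule.mem_orthogonal _ _).1 hv a haV.1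
    rw [h5]
    simp
  have mV2 : G.V g (l + 2) ≤ M := by
    rw [← PL.V_succ G g (l + 1), ← PL.V_succ G g l]
    exact sup_le (sup_le mV mD0) mD1
  have mT : ∀ v, v ∈ M := by
    intro v
    have h6 : v ∈ G.V g (l + 2) ⊔ (G.V g (l + 2))ᗮ := by
      rw [Submodule.sup_orthogonal_of_hasOrthogonalProjection]
      trivial
    exact (sup_le mV2 mU) h6
  have hκa : κ a = -a := by rw [(hM a).1 (mT a), sref_self hna]
  refine ⟨a, hna, haP, ?_, ?_, fun v => (hM v).1 (mT v)⟩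
  · intro hD
    have h7 : a ≠ 0 := by
      rintro h7
      rw [h7] at hna
      simp at hna
    apply h.moves a hD h7
    rw [hκa]
    exact (G.D g l).neg_mem hD
  · intro hD
    have h5 : ⟪a, e⟫ = (0 : ℝ) := by
      rw [real_inner_comm]
      exact (Submodule.mem_orthogonal _ _).1 (G.D_le_U g (l + 1) hD) e (G.D_le_V g l he)
    apply hm
    rw [← hse, sref, h5]
    simpa using he

/-! ### counting -/

theorem count {n : ℕ} {w : Fin n → E d} (hw : Orthonormal ℝ w) (π : Equiv.Perm (Fin n))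
    (W : Submodule ℝ (E d)) (h : ∀ i, w i + w (π i) ∈ W) :
    (n : ℝ) ≤ 2 * (Module.finrank ℝ W : ℝ) := by
  set f := stdOrthonormalBasis ℝ W with hf
  have h1 : ∀ x ∈ W, ‖x‖ ^ 2 = ∑ m, ⟪(f m : E d), x⟫ ^ 2 := by
    intro x hx
    have h2 := f.sum_sq_norm_inner_right (⟨x, hx⟩ : W)
    have h3 : ‖(⟨x, hx⟩ : W)‖ = ‖x‖ := rfl
    rw [← h3, ← h2]
    refine Finset.sum_congr rfl fun m _ => ?_
    rw [Real.norm_eq_abs, sq_abs]
    rfl
  have hite : ∀ i j, ⟪w i, w j⟫ = if i = j then (1 : ℝ) else 0 := orthonormal_iff_ite.1 hw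
  have h2 : ∀ i, (2 : ℝ) ≤ ‖w i + w (π i)‖ ^ 2 := by
    intro i
    rw [norm_add_sq_real, hw.1, hw.1, hite]
    split_ifs <;> norm_num
  have h3 : ∀ m, ∑ i, ⟪(f m : E d), w i⟫ ^ 2 ≤ 1 := by
    intro m
    have h4 := hw.sum_inner_products_le (f m : E d) (s := Finset.univ)
    have h5 : ‖(f m : E d)‖ = 1 := f.orthonormal.1 m
    rw [h5, one_pow] at h4
    refine le_trans (le_of_eq (Finset.sum_congr rfl fun i _ => ?_)) h4
    rw [Real.norm_eq_abs, sq_abs, real_inner_comm]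
  have h4 : ∀ m, ∑ i, ⟪(f m : E d), w (π i)⟫ ^ 2 ≤ 1 := by
    intro m
    rw [Equiv.sum_comp π (fun i => ⟪(f m : E d), w i⟫ ^ 2)]
    exact h3 m
  have h5 : (2 * n : ℝ) ≤ ∑ i, ‖w i + w (π i)‖ ^ 2 := by
    calc (2 * n : ℝ) = ∑ _i : Fin n, (2 : ℝ) := by simp [mul_comm]
      _ ≤ _ := Finset.sum_le_sum fun i _ => h2 i
  have h6 : ∑ i, ‖w i + w (π i)‖ ^ 2 ≤ 4 * (Module.finrank ℝ W : ℝ) := by
    calc ∑ i, ‖w i + w (π i)‖ ^ 2
        = ∑ m, ∑ i, ⟪(f m : E d), w i + w (π i)⟫ ^ 2 := by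
          rw [Finset.sum_comm]
          exact Finset.sum_congr rfl fun i _ => h1 _ (h i)
      _ ≤ ∑ m, (2 * ∑ i, ⟪(f m : E d), w i⟫ ^ 2 + 2 * ∑ i, ⟪(f m : E d), w (π i)⟫ ^ 2) := by
          refine Finset.sum_le_sum fun m _ => ?_
          rw [Finset.mul_sum, Finset.mul_sum, ← Finset.sum_add_distrib]
          refine Finset.sum_le_sum fun i _ => ?_
          rw [inner_add_right]
          nlinarith [sq_nonneg (⟪(f m : E d), w i⟫ - ⟪(f m : E d), w (π i)⟫)]
      _ ≤ ∑ _m : Fin (Module.finrank ℝ W), (4 : ℝ) := by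
          refine Finset.sum_le_sum fun m _ => ?_
          linarith [h3 m, h4 m]
      _ = _ := by simp [mul_comm]
  linarith

/-- vectors fixed by `κ` for `ε = -1` -/
theorem mem_V_of_fix {l : ℕ} {g : Γ} {κ : E d ≃ₗᵢ[ℝ] E d} (h : IsK G g l κ (-1)) {x : E d}
    (hx : κ x = x) : x ∈ G.V g (l + 2) := by
  have h1 : x ∈ (G.V g (l + 2))ᗮᗮ := by
    rw [Submodule.mem_orthogonal]
    intro z hz
    have h2 : ⟪κ z, κ x⟫ = ⟪z, x⟫ := LinearIsometryEquiv.inner_map_map κ z x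
    rw [h.scal z hz, hx, neg_one_smul, inner_neg_left] at h2
    linarith
  rwa [Submodule.orthogonal_orthogonal] at h1

/-! ### signs -/

theorem signs {n : ℕ} {I : Submodule ℝ (E d)} {𝒢 : Subgroup (E d ≃ₗᵢ[ℝ] E d)} {e : E d}
    {w : Fin n → E d} (hw : Orthonormal ℝ w) (hI : ∀ i, w i ∈ I) (hP : PermD 𝒢 w)
    (he : ∀ i, ⟪e, w i⟫ ^ 2 = (1 / n : ℝ)) : ∃ w' : Fin n → E d, Orthonormal ℝ w' ∧
      (∀ i, w' i ∈ I) ∧ ∀ h ∈ 𝒢, h e = e → ∃ π : Equiv.Perm (Fin n), ∀ i, h (w' i) = w' (π i) := by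
  have h0 : ∀ i, ⟪e, w i⟫ ≠ (0 : ℝ) := by
    intro i h1
    have h2 := he i
    rw [h1] at h2
    have h3 : (0 : ℝ) < n := by
      have : 0 < n := i.pos
      exact_mod_cast this
    have h4 : (0 : ℝ) < 1 / n := by positivity
    rw [← h2] at h4
    norm_num at h4
  set σ : Fin n → ℝ := fun i => if 0 < ⟪e, w i⟫ then 1 else -1 with hσ
  have hσ1 : ∀ i, σ i = 1 ∨ σ i = -1 := by
    intro i
    simp only [hσ]
    split_ifs
    · exact Or.inl rfl
    · exact Or.inr rfl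
  have hσ2 : ∀ i, σ i * σ i = 1 := by
    intro i
    rcases hσ1 i with h | h <;> rw [h] <;> norm_num
  have hpos : ∀ i, 0 < ⟪e, σ i • w i⟫ := by
    intro i
    rw [inner_smul_right]
    simp only [hσ]
    split_ifs with h
    · linarith
    · have h1 : ⟪e, w i⟫ < 0 := lt_of_le_of_ne (not_lt.1 h) (h0 i)
      linarith
  have hite : ∀ i j, ⟪w i, w j⟫ = if i = j then (1 : ℝ) else 0 := orthonormal_iff_ite.1 hw
  refine ⟨fun i => σ i • w i, ?_, fun i => I.smul_mem _ (hI i), ?_⟩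
  · rw [orthonormal_iff_ite]
    intro i j
    rw [inner_smul_left, inner_smul_right, hite, RCLike.conj_to_real]
    split_ifs with h
    · subst h
      rw [mul_one, hσ2]
    · ring
  · intro h hh hhe
    obtain ⟨π, s, hs⟩ := hP h hh
    refine ⟨π, fun i => ?_⟩
    have h1 : h (σ i • w i) = (σ i * sg (s i) * σ (π i)) • (σ (π i) • w (π i)) := by
      rw [map_smul, hs, smul_smul, smul_smul, mul_assoc (σ i * sg (s i)), hσ2, mul_one]
    have h2 : ⟪h e, h (σ i • w i)⟫ = ⟪e, σ i • w i⟫ := LinearIsometryEquiv.inner_map_map h _ _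
    rw [hhe, h1, inner_smul_right] at h2
    have h3 : 0 < (σ i * sg (s i) * σ (π i)) * ⟪e, σ (π i) • w (π i)⟫ := by
      rw [h2]
      exact hpos i
    have h4 : 0 < σ i * sg (s i) * σ (π i) := by
      by_contra h7
      have h8 := mul_nonpos_of_nonpos_of_nonneg (not_lt.1 h7) (hpos (π i)).le
      linarith
    have h5 : (σ i * sg (s i) * σ (π i)) * (σ i * sg (s i) * σ (π i)) = 1 := by
      have h6 : sg (s i) * sg (s i) = 1 := by
        rcases Int.units_eq_one_or (s i) with h | h <;> rw [h] <;> simp [sg]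
      calc _ = (σ i * σ i) * (sg (s i) * sg (s i)) * (σ (π i) * σ (π i)) := by ring
        _ = 1 := by rw [hσ2, h6, hσ2]; norm_num
    have h6 : σ i * sg (s i) * σ (π i) = 1 := by nlinarith
    rw [h1, h6, one_smul]

/-- a unit vector whose reflection permutes an orthonormal system -/
theorem root_form {n : ℕ} {I : Submodule ℝ (E d)} {w : Fin n → E d} (hw : Orthonormal ℝ w)
    (hI : ∀ i, w i ∈ I) (hn : Module.finrank ℝ I = n) {a : E d} (ha : ‖a‖ = 1) (haI : a ∈ I)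
    (h : ∀ i, ∃ j, sref a (w i) = w j) :
    ∃ i j, i ≠ j ∧ ∃ t : ℝ, t ^ 2 = 1 / 2 ∧ a = t • (w i - w j) := by
  have h0 : a ≠ 0 := by
    rintro rfl
    simp at ha
  have hspan : Submodule.span ℝ (Set.range w) = I := by
    apply Submodule.eq_of_le_of_finrank_eq
    · rw [Submodule.span_le]
      rintro _ ⟨i, rfl⟩
      exact hI i
    · rw [hn, finrank_span_eq_card hw.linearIndependent, Fintype.card_fin]
  have h1 : ∃ i, ⟪a, w i⟫ ≠ (0 : ℝ) := by
    by_contra hcon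
    push Not at hcon
    have h2 : I ≤ (ℝ ∙ a)ᗮ := by
      rw [← hspan, Submodule.span_le]
      rintro _ ⟨i, rfl⟩
      exact Submodule.mem_orthogonal_singleton_iff_inner_right.2 (hcon i)
    have h3 := Submodule.mem_orthogonal_singleton_iff_inner_right.1 (h2 haI)
    exact h0 (inner_self_eq_zero.1 h3)
  obtain ⟨i, hi⟩ := h1
  obtain ⟨j, hj⟩ := h i
  have h2 : w i - w j = (2 * ⟪a, w i⟫) • a := by
    rw [← hj, sref]
    abel
  have h3 : i ≠ j := by
    rintro rfl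
    rw [sub_self] at h2
    rcases smul_eq_zero.1 h2.symm with h4 | h4
    · apply hi
      linarith
    · exact h0 h4
  set s : ℝ := 2 * ⟪a, w i⟫ with hs
  have hs0 : s ≠ 0 := by
    rw [hs]
    exact mul_ne_zero two_ne_zero hi
  have hite : ∀ i j, ⟪w i, w j⟫ = if i = j then (1 : ℝ) else 0 := orthonormal_iff_ite.1 hw
  have h4 : s ^ 2 = 2 := by
    have h5 : ‖w i - w j‖ ^ 2 = 2 := by
      rw [norm_sub_sq_real, hw.1, hw.1, hite, if_neg h3]
      norm_num
    rw [h2, norm_smul, ha, mul_one, Real.norm_eq_abs, sq_abs] at h5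
    exact h5
  refine ⟨i, j, h3, s⁻¹, ?_, ?_⟩
  · rw [inv_pow, h4]
    norm_num
  · rw [h2, smul_smul, inv_mul_cancel₀ hs0, one_smul]

/-- two roots of consecutive indices -/
theorem consec {u q l : ℕ} (hW : Win G u q) {g : Γ} (hu : u ≤ l) (hq : l + 2 ≤ q) {n : ℕ}
    {w : Fin n → E d} (hw : Orthonormal ℝ w) {a a' : E d} (ha1 : ‖a‖ = 1) (ha1' : ‖a'‖ = 1)
    (ha : ∃ i j, i ≠ j ∧ ∃ t : ℝ, t ^ 2 = 1 / 2 ∧ a = t • (w i - w j))
    (ha' : ∃ i j, i ≠ j ∧ ∃ t : ℝ, t ^ 2 = 1 / 2 ∧ a' = t • (w i - w j))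
    (m : a ∈ G.D g l ⊔ G.D g (l + 1)) (n1 : a ∉ G.D g l)
    (m' : a' ∈ G.D g (l + 1) ⊔ G.D g (l + 2)) (n1' : a' ∉ G.D g (l + 1))
    (n2' : a' ∉ G.D g (l + 2)) : ⟪a, a'⟫ ^ 2 = (1 / 4 : ℝ) := by
  have l1 := hW.line g (l + 1) (by omega) (by omega)
  have p01 := PL.D_perp G g (i := l) (j := l + 1) (by omega)
  have p02 := PL.D_perp G g (i := l) (j := l + 2) (by omega)
  have p12 := PL.D_perp G g (i := l + 1) (j := l + 2) (by omega)
  obtain ⟨x, hx, y, hy, hxy⟩ := Submodule.mem_sup.1 m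
  obtain ⟨x', hx', y', hy', hxy'⟩ := Submodule.mem_sup.1 m'
  have hy0 : y ≠ 0 := by
    rintro rfl
    rw [add_zero] at hxy
    exact n1 (hxy ▸ hx)
  have hx0 : x' ≠ 0 := by
    rintro rfl
    rw [zero_add] at hxy'
    exact n2' (hxy' ▸ hy')
  have z1 : ⟪x, x'⟫ = (0 : ℝ) := by
    rw [real_inner_comm]
    exact (Submodule.mem_orthogonal _ _).1 (p01 hx) x' hx'
  have z2 : ⟪x, y'⟫ = (0 : ℝ) := by
    rw [real_inner_comm]
    exact (Submodule.mem_orthogonal _ _).1 (p02 hx) y' hy'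
  have z3 : ⟪y, y'⟫ = (0 : ℝ) := by
    rw [real_inner_comm]
    exact (Submodule.mem_orthogonal _ _).1 (p12 hy) y' hy'
  -- not orthogonal
  have hne : ⟪a, a'⟫ ≠ (0 : ℝ) := by
    obtain ⟨c, hc⟩ := line_span l1 hy hy0 hx'
    have hc0 : c ≠ 0 := by
      rintro rfl
      rw [zero_smul] at hc
      exact hx0 hc
    rw [← hxy, ← hxy', inner_add_left, inner_add_right, inner_add_right, z1, z2, z3, hc,
      inner_smul_right, real_inner_self_eq_norm_sq]
    have : ‖y‖ ^ 2 ≠ 0 := pow_ne_zero 2 (norm_ne_zero_iff.2 hy0)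
    simp only [zero_add, add_zero]
    exact mul_ne_zero hc0 this
  -- not parallel
  have hnp : ⟪a, a'⟫ ^ 2 ≠ (1 : ℝ) := by
    intro h1
    have h2 : a' = ⟪a, a'⟫ • a := by
      have h3 : ‖a' - ⟪a, a'⟫ • a‖ ^ 2 = 0 := by
        rw [norm_sub_sq_real, norm_smul, ha1, ha1', inner_smul_right, real_inner_comm a a',
          Real.norm_eq_abs, mul_one, sq_abs]
        linarith [sq ⟪a, a'⟫]
      have h4 : a' - ⟪a, a'⟫ • a = 0 := by simpa using h3
      exact sub_eq_zero.1 h4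
    have h3 : a' ∈ G.D g l ⊔ G.D g (l + 1) := by
      rw [h2]
      exact Submodule.smul_mem _ _ m
    have h4 : y' ∈ G.D g l ⊔ G.D g (l + 1) := by
      have h5 : y' = a' - x' := by rw [← hxy']; abel
      rw [h5]
      exact Submodule.sub_mem _ h3 (Submodule.mem_sup_right hx')
    have h5 : y' = 0 := by
      have h6 := (sup_le p02 p12) h4
      exact inner_self_eq_zero.1 ((Submodule.mem_orthogonal _ _).1 h6 y' hy')
    apply n1'
    rw [← hxy', h5, add_zero]
    exact hx'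
  -- the values
  obtain ⟨i, j, hij, t, ht, rfl⟩ := ha
  obtain ⟨i', j', hij', t', ht', rfl⟩ := ha'
  have hite : ∀ i j, ⟪w i, w j⟫ = if i = j then (1 : ℝ) else 0 := orthonormal_iff_ite.1 hw
  have e1 : ⟪t • (w i - w j), t' • (w i' - w j')⟫ = t * t' * ((if i = i' then (1 : ℝ) else 0) -
      (if i = j' then (1 : ℝ) else 0) - ((if j = i' then (1 : ℝ) else 0) -
      (if j = j' then (1 : ℝ) else 0))) := by
    rw [inner_smul_left, inner_smul_right, inner_sub_left, inner_sub_right, inner_sub_right, hite,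
      hite, hite, hite, RCLike.conj_to_real]
    ring
  rw [e1] at hne hnp ⊢
  have e2 : (t * t') ^ 2 = 1 / 4 := by
    rw [mul_pow, ht, ht']
    norm_num
  have e3 : ∀ x : ℝ, (t * t' * x) ^ 2 = 1 / 4 * x ^ 2 := by
    intro x
    rw [mul_pow, e2]
  rw [e3] at hnp ⊢
  split_ifs at hne hnp ⊢ with q1 q2 q3 q4 <;> first
    | (exfalso; subst_vars; simp_all; done)
    | (norm_num; done)
    | (exfalso; apply hne; norm_num; done)
    | (exfalso; apply hnp; norm_num; done)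

end ED

theorem t_ED : M_ED := by
  intro _ d k Γ _ _ X _ G u q j1 j2 _ hS g e n w hn hwY hwo hP heD hen hew
  have hW := hS.win
  have huj := hS.huj
  have hj := hS.hj
  have hjq := hS.hjq
  have hdim : 12 * k + 20 ≤ n := by
    rw [← hn]
    exact hS.dimY g j1 le_rfl (by omega)
  obtain ⟨w', hwo', hwY', hsg⟩ := ED.signs hwo hwY hP hew
  -- the isometries `κ_l`
  have key : ∀ l κ ε, j1 + 1 ≤ l → l + 2 ≤ j2 → IsKap G q j1 g l κ ε →
      ε = 1 ∧ ∃ π : Equiv.Perm (Fin n), ∀ i, κ (w' i) = w' (π i) := by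
    intro l κ ε hl1 hl2 hκ
    have hκG : κ ∈ GG G q j1 j2 g := by
      refine Subgroup.subset_closure (Or.inl (Or.inr ⟨l, by omega, hl2, ε, hκ⟩))
    have hκe : κ e = e := hκ.1.fix e (G.V_mono g hl1 (G.D_le_V g j1 heD))
    obtain ⟨π, hπ⟩ := hsg κ hκG hκe
    refine ⟨?_, π, hπ⟩
    rcases hκ.1.sgn with h1 | h1
    · exact h1
    · exfalso
      have hK : IsK G g l κ (-1) := h1 ▸ hκ.1
      have hmem : ∀ i, w' i + w' (π i) ∈ G.V g (j1 + (l + 2 - j1)) ⊓ G.U g j1 := by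
        intro i
        have e1 : j1 + (l + 2 - j1) = l + 2 := by omega
        rw [e1]
        refine ⟨ED.mem_V_of_fix G hK ?_, ?_⟩
        · rw [← hπ, map_add, hK.inv, add_comm]
        · exact G.Y_le_U g j1 (Submodule.add_mem _ (hwY' i) (hwY' (π i)))
      have h2 := ED.count hwo' π _ hmem
      have h3 := ED.finrank_VU G hW g huj (l + 2 - j1) (by omega)
      have h4 : (n : ℝ) ≤ 2 * ((l + 2 - j1 : ℕ) : ℝ) := by
        refine h2.trans ?_
        have : (Module.finrank ℝ ↥(G.V g (j1 + (l + 2 - j1)) ⊓ G.U g j1) : ℝ) ≤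
          ((l + 2 - j1 : ℕ) : ℝ) := by exact_mod_cast h3
        linarith
      have h5 : n ≤ 2 * (l + 2 - j1) := by exact_mod_cast h4
      omega
  refine ⟨?_, ?_⟩
  · intro l hl1 hl2
    obtain ⟨κ, ε, hκ⟩ := hS.kap g l (by omega) hl2
    obtain ⟨rfl, -⟩ := key l κ ε hl1 hl2 hκ
    obtain ⟨a, h1, h2, h3, h4, h5⟩ := ED.root_of_IsK G hW (by omega) (by omega) hκ.1
    exact ⟨a, h1, h2, h3, h4, fun y hy => by rw [hκ.2.1 y hy, h5]⟩
  · intro l a a' hl1 hl2 ha ha'
    have form : ∀ l a, j1 + 1 ≤ l → l + 2 ≤ j2 → RootAt G q j1 g l a →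
        ∃ i j, i ≠ j ∧ ∃ t : ℝ, t ^ 2 = 1 / 2 ∧ a = t • (w' i - w' j) := by
      intro l a hl1 hl2 ha
      obtain ⟨κ, ε, hκ⟩ := hS.kap g l (by omega) hl2
      obtain ⟨-, π, hπ⟩ := key l κ ε hl1 hl2 hκ
      have haY : a ∈ G.Y g j1 := by
        have h1 := hS.D g j1 le_rfl (by omega) l (by omega) (by omega)
        have h2 := hS.D g j1 le_rfl (by omega) (l + 1) (by omega) (by omega)
        exact (sup_le h1 h2) ha.mem
      apply ED.root_form hwo' hwY' hn ha.norm haY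
      intro i
      refine ⟨π i, ?_⟩
      have h3 : w' i ∈ G.S q g j1 := by
        have := hwY' i
        rw [← hS.Y g j1 le_rfl (by omega)] at this
        exact this.1
      have h4 : G.S q g j1 ≤
          LinearMap.eqLocus (κ.toLinearEquiv : E d →ₗ[ℝ] E d) (ED.srefL a) := by
        rw [KGeo.S, Submodule.span_le]
        rintro _ ⟨y, hy, rfl⟩
        change κ (G.F g y) = sref a (G.F g y)
        rw [← hκ.2.1 y hy, ha.act y hy]
      have h5 : κ (w' i) = sref a (w' i) := h4 h3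
      rw [← h5, hπ]
    exact ED.consec G hW (by omega) (by omega) hwo' ha.norm ha'.norm (form l a hl1 (by omega) ha)
      (form (l + 1) a' (by omega) (by omega) ha') ha.mem ha.n1 ha'.mem ha'.n1 ha'.n2

end FOK
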