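import Pool.Agent.FOK.Stmts2

/-!
# 9.2: `up (m + 1)` is in `N`
-/

namespace FOK

open Lib_helper64.FO FO2
open scoped RealInnerProductSpace Nat

namespace FS

variable {d k : ℕ} {Γ : Type} [Group Γ] {X : Type} [MulAction Γ X] {G : KGeo d k Γ X} {m : ℕ}

theorem rho_mem_TT (m : ℕ) : G.ρ m ∈ TT G m m :=
  ⟨1, one_mem _, by rw [one_mul, inv_one, mul_one]⟩

theorem conj_mem_TT {γ : Γ} (hγ : γ ∈ G.up m) : γ * G.ρ m * γ⁻¹ ∈ TT G m m := ⟨γ, hγ, rfl⟩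

/-- `β` is the identity on `V_m` -/
theorem beta_V (h9 : Nine G m) {g γ : Γ} {β : E d ≃ₗᵢ[ℝ] E d} (hβ : IsBeta G g m γ β) {v : E d}
    (hv : v ∈ G.V g m) : β v = v := hβ.out v (h9.VY g hv)

/-- `β` is the identity on `D_{m-1} + D_m` -/
theorem beta_DD (h9 : Nine G m) {g γ : Γ} {β : E d ≃ₗᵢ[ℝ] E d} (hβ : IsBeta G g m γ β) {v : E d}
    (hv : v ∈ G.D g (m - 1) ⊔ G.D g m) : β v = v := by
  obtain ⟨y, hy, z, hz, rfl⟩ := Submodule.mem_sup.1 hv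
  have h2 := h9.hm
  have h3 : y ∈ G.V g m := by
    have h4 := G.D_le_V g (m - 1) hy
    have e : m - 1 + 1 = m := by omega
    rwa [e] at h4
  rw [map_add, beta_V h9 hβ h3, hβ.D z hz]

theorem main (hB : S_BET) (hfin : Finite Γ) (h9 : Nine G m) (w : Γ) :
    ∀ g, ∀ γ ∈ G.up (m + 1), ∀ β, IsBeta G g m γ β →
      G.F g (γ • w • G.x0) = β (G.F g (w • G.x0)) := by
  obtain ⟨hex, _, hmul, hfr⟩ := hB d k Γ X G m h9
  have h2 := h9.hm
  have hmem : w ∈ Subgroup.closure (G.ρ '' Set.univ) := by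
    have h0 : gpar G.ρ Set.univ = ⊤ := G.gen
    have h1 : w ∈ gpar G.ρ Set.univ := by rw [h0]; trivial
    exact h1
  have step : ∀ i : ℕ, ∀ w : Γ, (∀ g, ∀ γ ∈ G.up (m + 1), ∀ β, IsBeta G g m γ β →
      G.F g (γ • w • G.x0) = β (G.F g (w • G.x0))) →
      ∀ g, ∀ γ ∈ G.up (m + 1), ∀ β, IsBeta G g m γ β →
      G.F g (γ • (G.ρ i * w) • G.x0) = β (G.F g ((G.ρ i * w) • G.x0)) := by
    intro i w IH g γ hγ β hβ
    have hγm : γ ∈ G.up m := G.up_anti (Nat.le_succ m) hγ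
    have hcase : i + 2 ≤ m ∨ m + 1 ≤ i ∨ i = m ∨ i + 1 = m := by omega
    rcases hcase with h | h | h | h
    · have e : γ • (G.ρ i * w) • G.x0 = G.ρ i • γ • w • G.x0 := by
        rw [← mul_smul, ← mul_assoc, ← G.comm_up (by omega) hγ, mul_assoc, mul_smul, mul_smul]
      rw [e, ← G.F_mul, IH (g * G.ρ i) γ hγ β (hfr g γ i β hγm h hβ), G.F_mul, ← mul_smul]
    · have hi : G.ρ i ∈ G.up (m + 1) := G.ρ_mem_up h
      obtain ⟨β', hβ'⟩ := hex g (G.ρ i) hi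
      have e : γ • (G.ρ i * w) • G.x0 = (γ * G.ρ i) • w • G.x0 := by
        rw [← mul_smul, ← mul_smul, mul_assoc]
      have h5 := hmul g γ (G.ρ i) β β' (G.up_anti (Nat.le_succ m) hi) hβ hβ'
      rw [e, IH g _ (mul_mem hγ hi) _ h5, mul_smul (G.ρ i) w, IH g _ hi _ hβ']
      rfl
    · subst h
      have hx : γ * G.ρ i * γ⁻¹ ∈ G.N := G.Ni_le_N _ (h9.TN (conj_mem_TT hγm))
      have hr : G.ρ i ∈ G.N := G.Ni_le_N _ (h9.TN (rho_mem_TT i))
      have e : γ • (G.ρ i * w) • G.x0 = (γ * G.ρ i * γ⁻¹) • γ • w • G.x0 := by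
        simp only [← mul_smul]
        congr 1
        group
      rw [e, ← G.R_F g hx, IH g γ hγ β hβ, ← hβ.conj _ (rho_mem_TT i), G.R_F g hr, mul_smul]
    · have hi : i = m - 1 := by omega
      subst hi
      have hr := h9.N0
      have e : γ • (G.ρ (m - 1) * w) • G.x0 = G.ρ (m - 1) • γ • w • G.x0 := by
        rw [← mul_smul, ← mul_assoc, ← G.comm_up (by omega) hγ, mul_assoc, mul_smul, mul_smul]
      obtain ⟨a, ha, hsa⟩ := h9.root0 g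
      rw [e, ← G.R_F g hr, IH g γ hγ β hβ, mul_smul, ← G.R_F g hr, hsa, hsa, map_sref,
        beta_DD h9 hβ ha]
  refine Subgroup.closure_induction_left (p := fun w _ => ∀ g, ∀ γ ∈ G.up (m + 1), ∀ β,
    IsBeta G g m γ β → G.F g (γ • w • G.x0) = β (G.F g (w • G.x0))) ?_ ?_ ?_ hmem
  · intro g γ hγ β hβ
    have h6 : G.F g ((1 : Γ) • G.x0) ∈ G.V g m :=
      G.V_mono g (by omega) (G.F_mem_V g (i := 0) (one_mem _))
    rw [one_smul] at h6 ⊢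
    rw [G.up_fix_x0 (G.up_anti (by omega) hγ), beta_V h9 hβ h6]
  · rintro _ ⟨i, _, rfl⟩ w _ IH
    exact step i w IH
  · rintro _ ⟨i, _, rfl⟩ w _ IH
    rw [G.inv_ρ]
    exact step i w IH

end FS

theorem t_FS : M_FS := by
  intro hB d k Γ _ hfin X _ G m h9 γ hγ
  refine G.mem_N_of_iso fun g => ?_
  obtain ⟨β, hβ⟩ := (hB d k Γ X G m h9).1 g γ hγ
  refine ⟨β, fun y => ?_⟩
  obtain ⟨w, rfl⟩ := G.trans y
  exact FS.main hB hfin h9 w g γ hγ β hβ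

end FOK
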