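import Pool.Agent.FOK.Stmts3

/-!
# 10.4: the sign of `g_0` can be chosen
-/

namespace FOK

open Lib_helper64.FO FO2
open scoped RealInnerProductSpace Nat

namespace GN2

variable {d k : ℕ} {Γ : Type} [Group Γ] {X : Type} [MulAction Γ X] (G : KGeo d k Γ X)

/-- the modified isometries -/
noncomputable def hh (gg : ℕ → (E d ≃ₗᵢ[ℝ] E d)) : ℕ → (E d ≃ₗᵢ[ℝ] E d) :=
  fun j => if j = 0 then (gg 0).trans (LinearIsometryEquiv.neg ℝ) else gg j

theorem hh_zero (gg : ℕ → (E d ≃ₗᵢ[ℝ] E d)) (v : E d) : hh gg 0 v = - gg 0 v := by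
  simp [hh]

theorem hh_ne (gg : ℕ → (E d ≃ₗᵢ[ℝ] E d)) {j : ℕ} (hj : j ≠ 0) : hh gg j = gg j := by
  simp [hh, hj]

theorem hh_pm (gg : ℕ → (E d ≃ₗᵢ[ℝ] E d)) (j : ℕ) :
    ∃ ε : ℝ, (ε = 1 ∨ ε = -1) ∧ ∀ v, hh gg j v = ε • gg j v := by
  by_cases hj : j = 0
  · subst hj
    exact ⟨-1, Or.inr rfl, fun v => by rw [hh_zero, neg_one_smul]⟩
  · exact ⟨1, Or.inl rfl, fun v => by rw [hh_ne gg hj, one_smul]⟩

theorem sref_neg' (a v : E d) : sref (-a) v = sref a v := by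
  simp [sref]

theorem neg_Ph {g : Γ} {i l : ℕ} {a : E d} (h : a ∈ Ph G g i l) : -a ∈ Ph G g i l := by
  obtain ⟨h1, x, hx, h2⟩ := h
  exact ⟨by rw [norm_neg]; exact h1, x, hx, fun v => by rw [h2, sref_neg']⟩

theorem neg_Ph_iff {g : Γ} {i l : ℕ} {a : E d} : -a ∈ Ph G g i l ↔ a ∈ Ph G g i l :=
  ⟨fun h => by simpa using neg_Ph G h, neg_Ph G⟩

theorem prod_pm (gg : ℕ → (E d ≃ₗᵢ[ℝ] E d)) (w : List ℕ) :
    ∃ ε : ℝ, (ε = 1 ∨ ε = -1) ∧ ∀ v, (w.map (fun j => hh gg j)).prod v =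
      ε • (w.map (fun j => gg j)).prod v := by
  induction w with
  | nil => exact ⟨1, Or.inl rfl, fun v => by simp⟩
  | cons a w ih =>
    obtain ⟨ε, hε, h⟩ := ih
    obtain ⟨δ, hδ, h'⟩ := hh_pm gg a
    refine ⟨δ * ε, ?_, fun v => ?_⟩
    · rcases hε with rfl | rfl <;> rcases hδ with rfl | rfl <;> norm_num
    · rw [List.map_cons, List.map_cons, List.prod_cons, List.prod_cons]
      change hh gg a ((w.map (fun j => hh gg j)).prod v) =
        (δ * ε) • gg a ((w.map (fun j => gg j)).prod v)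
      rw [h, h', map_smul, smul_smul]

end GN2

theorem t_GN2 : S_GN2 := by
  intro d k Γ _ _ X _ G l hT gg hG
  change Gens G l (GN2.hh gg)
  have hle : ∀ {i j : ℕ}, i + 2 ≤ j → j ≠ 0 := by
    intro i j h
    omega
  refine ⟨?_, ?_, ?_, ?_, ?_, ?_, ?_, ?_, ?_, ?_⟩
  · intro j hj x hx v
    obtain ⟨ε, _, h⟩ := GN2.hh_pm gg j
    rw [h, h, hG.isB j hj x hx v, map_smul]
  · intro j i v hj hij hv
    obtain ⟨ε, _, h⟩ := GN2.hh_pm gg j
    rw [h]
    exact Submodule.smul_mem _ _ (hG.pres j i v hj hij hv)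
  · intro j hj e he hne hc
    apply hG.moves j hj e he hne
    obtain ⟨ε, hε, h⟩ := GN2.hh_pm gg j
    rw [h] at hc
    rcases hε with rfl | rfl
    · simpa using hc
    · rw [neg_one_smul] at hc
      exact (Submodule.neg_mem_iff _).1 hc
  · intro j hj v
    obtain ⟨ε, hε, h⟩ := GN2.hh_pm gg j
    rw [h, h, map_smul, hG.sq j hj v, smul_smul]
    rcases hε with rfl | rfl <;> simp
  · intro i j hij hj v
    rw [GN2.hh_ne gg (hle hij)]
    obtain ⟨ε, _, h⟩ := GN2.hh_pm gg i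
    rw [h, h, map_smul, hG.comm i j hij hj v]
  · intro j h1 hj v hv
    rw [GN2.hh_ne gg (by omega)]
    exact hG.fix j h1 hj v hv
  · intro j h1 hj hN
    rw [GN2.hh_ne gg (by omega)]
    exact hG.inN j h1 hj hN
  · intro j hj a
    obtain ⟨ε, hε, h⟩ := GN2.hh_pm gg j
    rw [h]
    rcases hε with rfl | rfl
    · rw [one_smul]
      exact hG.root j hj a
    · rw [neg_one_smul, GN2.neg_Ph_iff]
      exact hG.root j hj a
  · obtain ⟨ε, hε, h⟩ := hG.scal0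
    refine ⟨-ε, ?_, fun v hv => ?_⟩
    · rcases hε with rfl | rfl
      · exact Or.inr rfl
      · left
        norm_num
    · rw [GN2.hh_zero, h v hv, neg_smul]
  · intro y0 hy hne w
    obtain ⟨r, hr, h⟩ := hG.word y0 hy hne w
    obtain ⟨ε, hε, h'⟩ := GN2.prod_pm gg (do
      let a ← w
      pure (a : ℕ))
    refine ⟨r * ε, ?_, ?_⟩
    · rcases hε with rfl | rfl
      · simpa using hr
      · simpa using hr
    · rw [h, h', smul_smul]
      rcases hε with rfl | rfl <;> simp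

end FOK
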