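import Pool.Agent.FOK.Stmts1

/-!
# FOK: the index of the core
-/

namespace FOK

open Lib_helper64.FO FO2
open scoped Nat

theorem t_IDX : S_IDX := by
  intro d k Γ _ _ X _ G
  have h0 : G.N.index ≠ 0 := Subgroup.index_ne_zero_of_finite
  refine ⟨Nat.pos_of_ne_zero h0, ?_⟩
  have h1 : G.N = (MulAction.toPermHom Γ (Γ ⧸ G.H)).ker := G.H.normalCore_eq_ker
  rw [h1, Subgroup.index_ker]
  have h2 : Nat.card (MulAction.toPermHom Γ (Γ ⧸ G.H)).range
      ≤ Nat.card (Equiv.Perm (Γ ⧸ G.H)) :=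
    Nat.card_le_card_of_injective Subtype.val Subtype.val_injective
  have h3 : Nat.card (Γ ⧸ G.H) = k := G.idx
  rw [Nat.card_perm, h3] at h2
  exact h2

end FOK
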