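import Pool.Agent.FOK.Stmts1

/-!
# The interval `[j1, j2]`
-/

namespace FOK

open Lib_helper64.FO FO2
open scoped RealInnerProductSpace Nat

namespace INT

section

variable {d k : ℕ} {Γ : Type} [Group Γ] {X : Type} [MulAction Γ X] (G : KGeo d k Γ X)

/-- representatives of the right cosets of `H` -/
noncomputable def rep (c : Γ ⧸ G.H) : Γ := (Quotient.out c)⁻¹

theorem exists_rep (g : Γ) : ∃ c : Γ ⧸ G.H, ∃ h ∈ G.H, g = h * rep G c := by
  refine ⟨QuotientGroup.mk g⁻¹, g * (Quotient.out (QuotientGroup.mk g⁻¹ : Γ ⧸ G.H)), ?_, ?_⟩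
  · have h1 : (QuotientGroup.mk (Quotient.out (QuotientGroup.mk g⁻¹ : Γ ⧸ G.H)) : Γ ⧸ G.H)
        = QuotientGroup.mk g⁻¹ := Quotient.out_eq' _
    rw [QuotientGroup.eq] at h1
    have h2 := inv_mem h1
    rwa [mul_inv_rev, inv_inv, inv_inv] at h2
  · rw [rep, mul_inv_cancel_right]

/-- `S` in the frame `h * g` -/
theorem S_left {h : Γ} (hh : h ∈ G.H) (q : ℕ) (g : Γ) (j : ℕ) :
    G.S q (h * g) j = (G.S q g j).map (G.T h).toLinearEquiv.toLinearMap := by
  rw [KGeo.S, KGeo.S, Submodule.map_span]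
  congr 1
  ext w
  constructor
  · rintro ⟨y, hy, rfl⟩
    exact ⟨G.F g y, ⟨y, hy, rfl⟩, (G.F_left hh g y).symm⟩
  · rintro ⟨_, ⟨y, hy, rfl⟩, rfl⟩
    exact ⟨y, hy, G.F_left hh g y⟩

theorem eqI_left {h h' : Γ} (hh : h ∈ G.H) (hh' : h' ∈ G.H) (q j : ℕ) (g g' : Γ) :
    EqI G q j (h * g) (h' * g') ↔ EqI G q j g g' := by
  have key : ∀ y z, (⟪G.F (h * g) y, G.F (h * g) z⟫ = ⟪G.F (h' * g') y, G.F (h' * g') z⟫ ↔
      ⟪G.F g y, G.F g z⟫ = ⟪G.F g' y, G.F g' z⟫) := by
    intro y z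
    rw [G.F_left hh, G.F_left hh, G.F_left hh', G.F_left hh', LinearIsometryEquiv.inner_map_map,
      LinearIsometryEquiv.inner_map_map]
  constructor
  · intro H y hy z hz
    exact (key y z).1 (H y hy z hz)
  · intro H y hy z hz
    exact (key y z).2 (H y hy z hz)

theorem eqI_mono {q i j : ℕ} (hij : i ≤ j) {g g' : Γ} (h : EqI G q i g g') : EqI G q j g g' :=
  fun y hy z hz => h y (G.XX_anti q hij hy) z (G.XX_anti q hij hz)

/-- the pairs of cosets with `E_j` -/
def A (q j : ℕ) : Set ((Γ ⧸ G.H) × (Γ ⧸ G.H)) := {p | EqI G q j (rep G p.1) (rep G p.2)}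

theorem A_mono {q i j : ℕ} (hij : i ≤ j) : A G q i ⊆ A G q j := fun _ hp => eqI_mono G hij hp

end

end INT

open INT in
theorem t_INT : M_INT := by
  intro hPG hS2 d k Γ _ _ X _ G u q hk hW hq
  classical
  have hfin : Finite (Γ ⧸ G.H) := inferInstance
  let _ : Fintype (Γ ⧸ G.H) := Fintype.ofFinite _
  have hcard : Nat.card (Γ ⧸ G.H) = k := by
    have := G.idx
    rwa [Subgroup.index] at this
  have hcard' : Fintype.card (Γ ⧸ G.H) = k := by rw [← Nat.card_eq_fintype_card, hcard]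
  -- dimensions
  have hle : ∀ g j, Module.finrank ℝ (G.S q g j) ≤ d := fun g j => by
    have h1 := Submodule.finrank_le (G.S q g j)
    have h2 : Module.finrank ℝ (E d) = d := finrank_euclideanSpace_fin
    rwa [h2] at h1
  have hge : ∀ g j, j ≤ q → d + 1 ≤ Module.finrank ℝ (G.S q g j) + k := fun g j hj => by
    have hqk := hW.hq
    have h1 := hS2 d k Γ X G q j (d - k + 1) hj (by omega) (by omega)
      (fun i hi => hW.nz i (by omega)) g
    omega
  have hdmono : ∀ g i j, i ≤ j → Module.finrank ℝ (G.S q g j) ≤ Module.finrank ℝ (G.S q g i) :=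
    fun g i j hij => Submodule.finrank_mono (G.S_anti q g hij)
  -- the function
  obtain ⟨s, hs⟩ : ∃ s : ℕ → ℕ, s = fun j => (A G q j).ncard
      + ∑ c : Γ ⧸ G.H, (d - Module.finrank ℝ (G.S q (rep G c) j)) := ⟨_, rfl⟩
  have hAm : ∀ i j, i ≤ j → (A G q i).ncard ≤ (A G q j).ncard := fun i j hij =>
    Set.ncard_le_ncard (A_mono G hij) (Set.toFinite _)
  have hBm : ∀ i j, i ≤ j → ∀ c : Γ ⧸ G.H, d - Module.finrank ℝ (G.S q (rep G c) i)
      ≤ d - Module.finrank ℝ (G.S q (rep G c) j) := fun i j hij c =>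
    Nat.sub_le_sub_left (hdmono _ i j hij) d
  have hmono : ∀ i j, i ≤ j → s i ≤ s j := by
    intro i j hij
    rw [hs]
    exact Nat.add_le_add (hAm i j hij) (Finset.sum_le_sum fun c _ => hBm i j hij c)
  have hlow : k ≤ s u := by
    have h1 : (Set.range fun c : Γ ⧸ G.H => (c, c)) ⊆ A G q u := by
      rintro _ ⟨c, rfl⟩
      exact fun y _ z _ => rfl
    have h2 : (Set.range fun c : Γ ⧸ G.H => (c, c)).ncard = k := by
      rw [← Set.image_univ, Set.ncard_image_of_injective _ fun a b hab => (Prod.ext_iff.1 hab).1,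
        Set.ncard_univ, hcard]
    have h3 := Set.ncard_le_ncard h1 (Set.toFinite _)
    rw [h2] at h3
    rw [hs]
    exact h3.trans (Nat.le_add_right _ _)
  have hup : ∀ j, j ≤ q → s j ≤ k * k + k * (k - 1) := by
    intro j hj
    rw [hs]
    refine Nat.add_le_add ?_ ?_
    · have h1 := Set.ncard_le_card (A G q j)
      rwa [Nat.card_prod, hcard] at h1
    · have h1 : ∑ c : Γ ⧸ G.H, (d - Module.finrank ℝ (G.S q (rep G c) j))
          ≤ ∑ _c : Γ ⧸ G.H, (k - 1) := Finset.sum_le_sum fun c _ => by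
        have := hge (rep G c) j hj
        omega
      refine h1.trans ?_
      rw [Finset.sum_const, Finset.card_univ, hcard', smul_eq_mul]
  obtain ⟨a, ha1, ha2, ha3⟩ := hPG (2 * k ^ 2) (6 * k + 3) u s
    (by have h0 : 0 < k ^ 2 := Nat.pow_pos hk
        omega)
    (fun i _ => hmono _ _ (Nat.le_succ _)) (by
      have h1 := hup (u + 2 * k ^ 2 * (6 * k + 3)) (by omega)
      have h2 : k * k + k * (k - 1) < k + 2 * k ^ 2 := by
        have h3 : k * (k - 1) ≤ k * k := Nat.mul_le_mul_left k (Nat.sub_le k 1)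
        have h4 : k ^ 2 = k * k := sq k
        rw [h4]
        omega
      omega)
  refine ⟨a, ha1, by omega, fun j hj1 hj2 => ?_⟩
  have hsj : s j = s a := by
    have h1 := ha3 (j - a) (by omega)
    have h2 : a + (j - a) = j := by omega
    rwa [h2] at h1
  rw [hs] at hsj
  have hsj' : (A G q j).ncard + ∑ c : Γ ⧸ G.H, (d - Module.finrank ℝ (G.S q (rep G c) j))
    = (A G q a).ncard + ∑ c : Γ ⧸ G.H, (d - Module.finrank ℝ (G.S q (rep G c) a)) := hsj
  have h1 := hAm a j hj1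
  have h2 : ∑ c : Γ ⧸ G.H, (d - Module.finrank ℝ (G.S q (rep G c) a))
      ≤ ∑ c : Γ ⧸ G.H, (d - Module.finrank ℝ (G.S q (rep G c) j)) :=
    Finset.sum_le_sum fun c _ => hBm a j hj1 c
  have hA : A G q a = A G q j :=
    Set.eq_of_subset_of_ncard_le (A_mono G hj1) (by omega) (Set.toFinite _)
  have hB : ∀ c : Γ ⧸ G.H, G.S q (rep G c) j = G.S q (rep G c) a := by
    intro c
    have h3 : ∑ c : Γ ⧸ G.H, (d - Module.finrank ℝ (G.S q (rep G c) a))
      = ∑ c : Γ ⧸ G.H, (d - Module.finrank ℝ (G.S q (rep G c) j)) := by omega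
    have h4 := (Finset.sum_eq_sum_iff_of_le fun c _ => hBm a j hj1 c).1 h3 c (Finset.mem_univ c)
    have h5 := hle (rep G c) a
    have h6 := hle (rep G c) j
    exact Submodule.eq_of_le_of_finrank_eq (G.S_anti q _ hj1) (by omega)
  refine ⟨fun g => ?_, fun g g' hgg => ?_⟩
  · obtain ⟨c, h, hh, rfl⟩ := exists_rep G g
    rw [S_left G hh, S_left G hh, hB c]
  · obtain ⟨c, h, hh, rfl⟩ := exists_rep G g
    obtain ⟨c', h', hh', rfl⟩ := exists_rep G g'
    rw [eqI_left G hh hh'] at hgg ⊢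
    have h7 : (c, c') ∈ A G q j := hgg
    rw [← hA] at h7
    exact h7

end FOK
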