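import Pool.Agent.FOK.Stmts1

/-!
# FOK, 3.3 (iv): the order of the middle group in the isolated case (helper58)
-/

namespace FOK

open Lib_helper64.FO FO2
open scoped RealInnerProductSpace Nat

noncomputable section

namespace ISO3

variable {d k : ℕ} {Γ : Type} [Group Γ] {X : Type} [MulAction Γ X] (G : KGeo d k Γ X)

/-- the transposition rule of 3.3 (iii) for all frames in `g * mid p q` -/
def Tr (p q : ℕ) (g : Γ) : Prop :=
  ∀ γ ∈ G.mid p q, ∀ i, p ≤ i → i < q →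
    G.D (g * γ * G.ρ i) i = G.D (g * γ) (i + 1) ∧ G.D (g * γ * G.ρ i) (i + 1) = G.D (g * γ) i

theorem perm {p q : ℕ} {g : Γ} (h : Tr G p q g) {γ : Γ} (hγ : γ ∈ G.mid p q) :
    ∀ δ ∈ G.mid p q,
      (∀ i, p ≤ i → i ≤ q → ∃ j, p ≤ j ∧ j ≤ q ∧ G.D (g * δ * γ) i = G.D (g * δ) j) ∧
      (∀ i, p ≤ i → i ≤ q → ∃ j, p ≤ j ∧ j ≤ q ∧ G.D (g * δ * γ⁻¹) i = G.D (g * δ) j) := by
  refine Subgroup.closure_induction (p := fun γ _ => ∀ δ ∈ G.mid p q,
      (∀ i, p ≤ i → i ≤ q → ∃ j, p ≤ j ∧ j ≤ q ∧ G.D (g * δ * γ) i = G.D (g * δ) j) ∧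
      (∀ i, p ≤ i → i ≤ q → ∃ j, p ≤ j ∧ j ≤ q ∧ G.D (g * δ * γ⁻¹) i = G.D (g * δ) j))
    ?_ ?_ ?_ ?_ hγ
  · rintro _ ⟨l, hl, rfl⟩ δ hδ
    obtain ⟨hl1, hl2⟩ : p ≤ l ∧ l < q := hl
    have key : ∀ i, p ≤ i → i ≤ q → ∃ j, p ≤ j ∧ j ≤ q ∧ G.D (g * δ * G.ρ l) i = G.D (g * δ) j := by
      intro i hi1 hi2
      by_cases e1 : i = l
      · subst e1
        exact ⟨i + 1, by omega, by omega, (h δ hδ i hl1 hl2).1⟩
      · by_cases e2 : i = l + 1
        · subst e2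
          exact ⟨l, hl1, by omega, (h δ hδ l hl1 hl2).2⟩
        · exact ⟨i, hi1, hi2, G.D_frame_ρ e2 e1⟩
    refine ⟨key, ?_⟩
    rw [G.inv_ρ]
    exact key
  · intro δ _
    refine ⟨fun i h1 h2 => ⟨i, h1, h2, by rw [mul_one]⟩, fun i h1 h2 => ⟨i, h1, h2, ?_⟩⟩
    rw [inv_one, mul_one]
  · intro a b ha hb iha ihb δ hδ
    refine ⟨fun i h1 h2 => ?_, fun i h1 h2 => ?_⟩
    · obtain ⟨j, hj1, hj2, e1⟩ := (ihb (δ * a) (mul_mem hδ ha)).1 i h1 h2
      obtain ⟨m, hm1, hm2, e2⟩ := (iha δ hδ).1 j hj1 hj2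
      refine ⟨m, hm1, hm2, ?_⟩
      rw [← e2, ← mul_assoc g δ a] at *
      rw [← e1, mul_assoc (g * δ) a b]
    · obtain ⟨j, hj1, hj2, e1⟩ := (iha (δ * b⁻¹) (mul_mem hδ (inv_mem hb))).2 i h1 h2
      obtain ⟨m, hm1, hm2, e2⟩ := (ihb δ hδ).2 j hj1 hj2
      refine ⟨m, hm1, hm2, ?_⟩
      rw [← mul_assoc g δ b⁻¹] at e1
      rw [← e2, ← e1, mul_inv_rev, mul_assoc (g * δ) b⁻¹ a⁻¹]
  · intro a _ iha δ hδ
    refine ⟨(iha δ hδ).2, ?_⟩
    rw [inv_inv]
    exact (iha δ hδ).1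

theorem reach {p q : ℕ} {g : Γ} (h : Tr G p q g) : ∀ i, p ≤ i → i ≤ q → ∀ γ ∈ G.mid p q,
    ∃ γ' ∈ G.mid p q, G.D (g * γ * γ') p = G.D (g * γ) i := by
  intro i hi
  induction i, hi using Nat.le_induction with
  | base => intro _ γ _; exact ⟨1, one_mem _, by rw [mul_one]⟩
  | succ i hi ih =>
    intro hiq γ hγ
    obtain ⟨γ', h1, h2⟩ := ih (by omega) (γ * G.ρ i) (mul_mem hγ (G.ρ_mem_mid hi (by omega)))
    refine ⟨G.ρ i * γ', mul_mem (G.ρ_mem_mid hi (by omega)) h1, ?_⟩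
    rw [← (h γ hγ i hi (by omega)).1, ← mul_assoc g γ (G.ρ i)] at *
    rw [← h2, mul_assoc (g * γ) (G.ρ i) γ']

/-- `R g n` maps `D g i` to `D (g * n) i` -/
theorem R_mem_D {g n : Γ} (hn : n ∈ G.N) (i : ℕ) {e : E d} (he : e ∈ G.D g i) :
    G.R g n e ∈ G.D (g * n) i := by
  refine ⟨(G.V_frame_N hn (i + 1)).2 he.1, ?_⟩
  have h2 : e ∈ G.U g i := he.2
  rw [SetLike.mem_coe]
  rw [KGeo.U, Submodule.mem_orthogonal] at h2 ⊢
  intro v hv
  have e1 : v = G.R g n (G.R g n⁻¹ v) := (G.R_inv_apply g hn v).symm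
  have h3 : G.R g n⁻¹ v ∈ G.V g i := by
    rw [← G.V_frame_N hn i, ← e1]
    exact hv
  rw [e1, LinearIsometryEquiv.inner_map_map]
  exact h2 _ h3

theorem R_pres {p q : ℕ} {g : Γ}
    (hT : Tr G p q g) (hI : ∀ γ ∈ G.mid p q, Isol G q p (g * γ)) {n : Γ} (hn : n ∈ G.N)
    (hn' : n ∈ G.mid p q) {i : ℕ} (hi : p ≤ i) (hiq : i ≤ q) {e : E d} (he : e ∈ G.D g i) :
    G.R g n e ∈ G.D g i := by
  have h1 := R_mem_D G hn i he
  obtain ⟨j, hj1, hj2, ej⟩ := (perm G hT hn' 1 (one_mem _)).1 i hi hiq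
  rw [mul_one] at ej
  rw [ej] at h1
  obtain ⟨γ, hγ, eγ⟩ := reach G hT i hi hiq 1 (one_mem _)
  rw [mul_one] at eγ
  obtain ⟨l, hl1, hl2, el⟩ := (perm G hT hγ γ hγ).2 j hj1 hj2
  rw [mul_inv_cancel_right] at el
  rcases Nat.eq_or_lt_of_le hl1 with hl | hl
  · subst hl
    rw [el, eγ] at h1
    exact h1
  · have h2 : G.R g n e ∈ G.Y (g * γ) p := by
      have hm : γ⁻¹ * n * γ ∈ G.Ni p := by
        have := G.conj_up ((G.up p).inv_mem (G.mid_le_up p q hγ)) (n := n)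
          ⟨hn, G.mid_le_up p q hn'⟩
        rwa [inv_inv] at this
      refine Submodule.subset_span ⟨γ⁻¹ * n * γ, hm, e, by rw [eγ]; exact he, ?_⟩
      rw [G.R_mul_right]
      congr 2
      group
    have h3 := hI γ hγ l hl hl2
    rw [← el] at h3
    have h4 := h3 h1
    have h5 : G.R g n e = 0 := by
      have := (Submodule.mem_orthogonal _ _).1 h4 _ h2
      exact inner_self_eq_zero.1 this
    rw [h5]
    exact zero_mem _

/-- an isometry preserving a line is `±1` on it -/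
theorem sign_of_line {D : Submodule ℝ (E d)} (hD : Module.finrank ℝ D = 1) {e : E d} (he : e ∈ D)
    (he0 : e ≠ 0) (A : E d ≃ₗᵢ[ℝ] E d) (hA : A e ∈ D) : A e = e ∨ A e = -e := by
  have h1 : ∀ w ∈ D, ∃ c : ℝ, c • e = w := by
    intro w hw
    have h2 := (finrank_eq_one_iff_of_nonzero' (⟨e, he⟩ : D)
      (by intro h; exact he0 (congrArg Subtype.val h))).1 hD ⟨w, hw⟩
    obtain ⟨c, hc⟩ := h2
    exact ⟨c, congrArg Subtype.val hc⟩
  obtain ⟨c, hc⟩ := h1 _ hA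
  have h3 : ‖A e‖ = ‖e‖ := A.norm_map e
  rw [← hc, norm_smul] at h3
  have h4 : ‖e‖ ≠ 0 := norm_ne_zero_iff.2 he0
  have h5 : ‖c‖ = 1 := by
    have : ‖c‖ * ‖e‖ = 1 * ‖e‖ := by rw [h3, one_mul]
    exact mul_right_cancel₀ h4 this
  rw [Real.norm_eq_abs] at h5
  rcases (abs_eq (zero_le_one)).1 h5 with h6 | h6
  · left; rw [← hc, h6, one_smul]
  · right; rw [← hc, h6, neg_one_smul]

end ISO3

open ISO3 in
theorem t_ISO3 : M_ISO3 := by
  classical
  intro _ hPL hIDX hISO2 d k Γ _ _ X _ G u q hW p hup hpk g hg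
  have h2 := hISO2 d k Γ X G u q hW p hup hpk g hg
  have hT : Tr G p q g := fun γ hγ => (h2 γ hγ).2
  have hI : ∀ γ ∈ G.mid p q, Isol G q p (g * γ) := fun γ hγ => (h2 γ hγ).1
  have hPL' := hPL d k Γ X G u q hW g
  -- vectors on the lines
  have hex : ∀ i, p ≤ i → i ≤ q → ∃ e ∈ G.D g i, e ≠ 0 := by
    intro i h1 h3
    have hl := hW.line g i (hup.trans h1) h3
    have hne : G.D g i ≠ ⊥ := by
      intro h0
      rw [h0, finrank_bot] at hl
      exact absurd hl (by norm_num)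
    exact Submodule.exists_mem_ne_zero_of_ne_bot hne
  choose! e he he0 using hex
  have hsign : ∀ n ∈ G.N, n ∈ G.mid p q → ∀ i, p ≤ i → i ≤ q →
      G.R g n (e i) = e i ∨ G.R g n (e i) = - e i := by
    intro n hn hn' i h1 h3
    exact sign_of_line (hW.line g i (hup.trans h1) h3) (he i h1 h3) (he0 i h1 h3) _
      (R_pres G hT hI hn hn' h1 h3 (he i h1 h3))
  set K : Subgroup (G.mid p q) := G.N.subgroupOf (G.mid p q) with hK
  let sg : K → (Fin (q + 1 - p) → Bool) := fun n i => decide (G.R g n.1.1 (e (p + i)) = e (p + i))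
  have hsg : Function.Injective sg := by
    intro a b hab
    have ha : a.1.1 ∈ G.N := a.2
    have hb : b.1.1 ∈ G.N := b.2
    have ha' : a.1.1 ∈ G.mid p q := a.1.2
    have hb' : b.1.1 ∈ G.mid p q := b.1.2
    set n : Γ := b.1.1⁻¹ * a.1.1 with hn
    have hnN : n ∈ G.N := mul_mem (inv_mem hb) ha
    have hnm : n ∈ G.mid p q := mul_mem (inv_mem hb') ha'
    have hline : ∀ i, p ≤ i → i ≤ q → G.R g n (e i) = e i := by
      intro i h1 h3
      have hc := congrFun hab ⟨i - p, by omega⟩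
      have e1 : p + (i - p) = i := by omega
      simp only [sg, e1, decide_eq_decide] at hc
      have hab' : G.R g a.1.1 (e i) = G.R g b.1.1 (e i) := by
        rcases hsign _ ha ha' i h1 h3 with h4 | h4 <;> rcases hsign _ hb hb' i h1 h3 with h5 | h5
        · rw [h4, h5]
        · have := hc.1 h4
          rw [h4, this]
        · have := hc.2 h5
          rw [this, h5]
        · rw [h4, h5]
      rw [hn, G.R_mul_apply g (inv_mem hb) ha, hab', G.R_inv_apply' g hb]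
    have hD : ∀ i, p ≤ i → i ≤ q → ∀ w ∈ G.D g i, G.R g n w = w := by
      intro i h1 h3 w hw
      have h4 := (finrank_eq_one_iff_of_nonzero' (⟨e i, he i h1 h3⟩ : G.D g i)
        (by intro h; exact he0 i h1 h3 (congrArg Subtype.val h))).1
        (hW.line g i (hup.trans h1) h3) ⟨w, hw⟩
      obtain ⟨c, hc⟩ := h4
      have hc' : c • e i = w := congrArg Subtype.val hc
      rw [← hc', map_smul, hline i h1 h3]
    have hV : G.V g (q + 1) ≤ LinearMap.eqLocus (G.R g n).toLinearEquiv.toLinearMap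
        (LinearMap.id : E d →ₗ[ℝ] E d) := by
      rw [hPL'.2.2 p (q + 1) hup (by omega) le_rfl]
      refine sup_le ?_ (iSup₂_le fun m hm => ?_)
      · intro v hv
        exact hv n ⟨hnN, G.mid_le_up p q hnm⟩
      · intro v hv
        rw [Finset.mem_Ico] at hm
        exact hD m hm.1 (by omega) v hv
    have hup' : n ∈ G.up (q + 1) := G.mem_up_of_R' (g := g) hnN fun v hv => hV hv
    have h6 := G.mid_inf_up hnm hup' (by omega)
    have h7 := G.mid_eq_bot (by omega) h6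
    have h8 : a.1.1 = b.1.1 := by
      rw [hn] at h7
      exact (inv_mul_eq_one.1 h7).symm
    exact Subtype.ext (Subtype.ext h8)
  have hcard : Nat.card K ≤ 2 ^ (q + 1 - p) := by
    have := Nat.card_le_card_of_injective sg hsg
    simpa using this
  have hidx := hIDX d k Γ X G
  have hrel : K.index ≤ k ! := by
    have h9 : G.N.relIndex (G.mid p q) ∣ G.N.index := by
      haveI := G.N_normal
      exact Subgroup.relIndex_dvd_index_of_normal _ _
    exact (Nat.le_of_dvd hidx.1 h9).trans hidx.2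
  have hmul := K.card_mul_index
  calc Nat.card (G.mid p q) = K.index * Nat.card K := by rw [← hmul, mul_comm]
    _ ≤ k ! * 2 ^ (q + 1 - p) := Nat.mul_le_mul hrel hcard

end

end FOK
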