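import Pool.Agent.FOK.Stmts1

/-!
# FOK, section 5.4: the isometry `κ_l`
-/

namespace FOK

open Lib_helper64.FO FO2
open scoped RealInnerProductSpace Nat

noncomputable section

namespace K

/-- an isometry of a subspace extended by a scalar `±1` on the orthogonal complement -/
theorem glue {d : ℕ} (V : Submodule ℝ (E d)) (A : E d ≃ₗᵢ[ℝ] E d) (ε : ℝ) (hε : ε = 1 ∨ ε = -1)
    (hV : ∀ v ∈ V, A v ∈ V ∧ A (A v) = v) :
    ∃ κ : E d ≃ₗᵢ[ℝ] E d, (∀ v ∈ V, κ v = A v) ∧ (∀ w ∈ Vᗮ, κ w = ε • w) ∧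
      ∀ v, κ (κ v) = v := by
  obtain ⟨L, hL⟩ : ∃ L : E d →ₗ[ℝ] E d, ∀ v, L v =
      A (V.starProjection v) + ε • (v - V.starProjection v) := by
    refine ⟨A.toLinearEquiv.toLinearMap ∘ₗ V.starProjection.toLinearMap +
      ε • (LinearMap.id - V.starProjection.toLinearMap), fun v => ?_⟩
    rfl
  have h1 : ∀ v ∈ V, L v = A v := by
    intro v hv
    rw [hL, Submodule.starProjection_eq_self_iff.2 hv, sub_self, smul_zero, add_zero]
  have h2 : ∀ w ∈ Vᗮ, L w = ε • w := by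
    intro w hw
    have h3 : V.starProjection w = 0 := (Submodule.starProjection_apply_eq_zero_iff V).2 hw
    rw [hL, h3, map_zero, sub_zero, zero_add]
  have hεε : ε * ε = 1 := by rcases hε with rfl | rfl <;> norm_num
  have hdec : ∀ v : E d, ∃ a ∈ V, ∃ b ∈ Vᗮ, v = a + b := fun v =>
    ⟨V.starProjection v, Submodule.starProjection_apply_mem V v, v - V.starProjection v,
      Submodule.sub_starProjection_mem_orthogonal v, by abel⟩
  have hLL : ∀ v, L (L v) = v := by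
    intro v
    obtain ⟨a, ha, b, hb, rfl⟩ := hdec v
    rw [map_add, map_add, h1 a ha, h2 b hb, h1 _ (hV a ha).1, (hV a ha).2, map_smul, h2 b hb,
      smul_smul, hεε, one_smul]
  have hn : ∀ v, ‖L v‖ = ‖v‖ := by
    intro v
    obtain ⟨a, ha, b, hb, rfl⟩ := hdec v
    have e1 : ⟪a, b⟫ = 0 := Submodule.inner_right_of_mem_orthogonal ha hb
    have e2 : ⟪A a, ε • b⟫ = 0 :=
      Submodule.inner_right_of_mem_orthogonal (hV a ha).1 (Submodule.smul_mem _ ε hb)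
    have e3 : ‖ε • b‖ = ‖b‖ := by
      rw [norm_smul]
      rcases hε with rfl | rfl <;> simp
    have e4 : ‖L (a + b)‖ * ‖L (a + b)‖ = ‖a + b‖ * ‖a + b‖ := by
      rw [map_add, h1 a ha, h2 b hb,
        norm_add_sq_eq_norm_sq_add_norm_sq_of_inner_eq_zero _ _ e2,
        norm_add_sq_eq_norm_sq_add_norm_sq_of_inner_eq_zero _ _ e1, e3, A.norm_map]
    exact (mul_self_inj (norm_nonneg _) (norm_nonneg _)).1 e4
  exact ⟨{ toLinearEquiv := LinearEquiv.ofInvolutive L hLL, norm_map' := hn }, h1, h2, hLL⟩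

end K

open K in
/-- 5.4 -/
theorem t_K : M_K := by
  intro hPL hA1 hA2 hA3 d k Γ _ _ X _ G u q hW l hul hlq g
  obtain ⟨n, hn⟩ := hA1 d k Γ X G u q hW l hul (by omega)
  obtain ⟨hAV, hAm, -⟩ := hA2 d k Γ X G u q hW l hul (by omega) n hn g
  obtain ⟨ε, hε, hAε⟩ := hA3 d k Γ X G u q hW l hul hlq n hn g
  obtain ⟨κ, hκV, hκU, hκκ⟩ := glue (G.V g (l + 2)) (G.R g n) ε hε hAV
  refine ⟨κ, ε, ⟨hε, ?_, hκU, hκκ, ?_, ?_⟩, ?_⟩
  · intro v hv
    rw [hκV v (G.V_mono g (by omega) hv)]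
    exact hv n hn.mem
  · intro v hv
    rw [hκV v hv]
    exact (hAV v hv).1
  · intro e he h0
    rw [hκV e (G.V_mono g (by omega) (G.D_le_V g l he))]
    exact hAm e he h0
  -- `κ` and `A` agree on `V (q + 1)`
  have hVq : ∀ v ∈ G.V g (q + 1), κ v = G.R g n v := by
    have h3 := (hPL d k Γ X G u q hW g).2.2 (l + 2) (q + 1) (by omega) (by omega) le_rfl
    have h4 : G.V g (l + 2) ⊔ ⨆ m ∈ Finset.Ico (l + 2) (q + 1), G.D g m ≤
        LinearMap.eqLocus κ.toLinearEquiv.toLinearMap (G.R g n).toLinearEquiv.toLinearMap := by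
      refine sup_le (fun v hv => hκV v hv) (iSup₂_le fun m hm e he => ?_)
      rw [Finset.mem_Ico] at hm
      have h5 : κ e = G.R g n e := by
        rw [hκU e (G.U_anti g hm.1 (G.D_le_U g m he)), hAε m hm.1 (by omega) e he]
      exact h5
    intro v hv
    rw [h3] at hv
    exact h4 hv
  -- `κ` commutes with `N_{l+2}`
  have hcomm : ∀ m ∈ G.Ni (l + 2), ∀ v, κ (G.R g m v) = G.R g m (κ v) := by
    intro m hm v
    obtain ⟨a, ha, b, hb, rfl⟩ : ∃ a ∈ G.V g (l + 2), ∃ b ∈ (G.V g (l + 2))ᗮ, v = a + b :=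
      ⟨(G.V g (l + 2)).starProjection v, Submodule.starProjection_apply_mem _ v,
        v - (G.V g (l + 2)).starProjection v,
        Submodule.sub_starProjection_mem_orthogonal v, by abel⟩
    rw [map_add, map_add, map_add, map_add, ha m hm, hκV a ha, hκU b hb, (hAV a ha).1 m hm,
      hκU _ (G.R_mem_U hm hb), map_smul]
  rintro _ ⟨γ, hγ, a, ha, rfl⟩
  obtain ⟨b, hb, n', hn', hγe⟩ := hW.plat γ (G.up_anti (by omega) hγ)
  have hN : b * n' * b⁻¹ ∈ G.N := G.conj_mem_N b hn'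
  have hγ' : γ = b * n' * b⁻¹ * b := by rw [hγe]; group
  have hup : b * n' * b⁻¹ ∈ G.up (l + 2) := by
    have : b * n' * b⁻¹ = γ * b⁻¹ := by rw [hγe]
    rw [this]
    exact mul_mem hγ (inv_mem (G.up_anti (by omega) hb))
  have hy : γ • a • G.x0 = (b * n' * b⁻¹) • a • G.x0 := by
    rw [hγ', mul_smul _ b, G.up_fix hb ha]
  obtain ⟨p, hp⟩ : ∃ p, p = b * n' * b⁻¹ := ⟨_, rfl⟩
  rw [← hp] at hN hup hy
  rw [hy, ← mul_smul, G.comm_up le_rfl hup, mul_smul, ← hn.act a ha, ← G.R_F g hN,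
    ← G.R_F g (G.Ni_le_N l hn.mem), ← G.R_F g hN, ← hVq _ (G.F_mem_V g ha), hcomm p ⟨hN, hup⟩]

end

end FOK
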