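import Pool.Agent.FOK.Stmts3b

/-!
# FOK, section 10.8: the signs `ε j` with `1 ≤ j ≤ l`
-/

namespace FOK

open Lib_helper64.FO FO2
open scoped RealInnerProductSpace Nat

noncomputable section

namespace MC2

variable {d k : ℕ} {Γ : Type} [Group Γ] {X : Type} [MulAction Γ X] (G : KGeo d k Γ X)

theorem eq_zero_of {v : E d} (h : v = -v) : v = 0 := by
  have h1 : (2 : ℝ) • v = 0 := by
    rw [two_smul]
    nth_rewrite 1 [h]
    exact neg_add_cancel v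
  exact (smul_eq_zero.1 h1).resolve_left two_ne_zero

theorem mid_one {l : ℕ} {n : Γ} (h : n ∈ G.mid l (l + 1)) : n = 1 ∨ n = G.ρ l := by
  refine Subgroup.closure_induction (p := fun x _ => x = 1 ∨ x = G.ρ l) ?_ ?_ ?_ ?_ h
  · rintro _ ⟨j, hj, rfl⟩
    obtain ⟨h1, h2⟩ := hj
    have e : j = l := by omega
    rw [e]
    exact Or.inr rfl
  · exact Or.inl rfl
  · rintro x y _ _ (rfl | rfl) (rfl | rfl)
    · exact Or.inl (one_mul _)
    · exact Or.inr (one_mul _)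
    · exact Or.inr (mul_one _)
    · exact Or.inl (G.sq l)
  · rintro x _ (rfl | rfl)
    · exact Or.inl inv_one
    · exact Or.inr (G.inv_ρ l)

/-- `g_l` fixes the orthogonal complement of `u_l` and `u_{l+1}` -/
theorem fixl {l : ℕ} (hT : Top G l) {gg : ℕ → (E d ≃ₗᵢ[ℝ] E d)} (hG : Gens G l gg)
    {u : OrthonormalBasis (Fin d) ℝ (E d)} {ε : ℕ → ℝ} (hA : Axes G gg u ε)
    (h0 : l < d) (h1 : l + 1 < d) (v : E d) (hv0 : ⟪u ⟨l, h0⟩, v⟫ = 0)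
    (hv1 : ⟪u ⟨l + 1, h1⟩, v⟫ = 0) : gg l v = v := by
  obtain ⟨a, ha, hR⟩ := hT.refl 1
  have hl5 := hT.l5
  have hgl : gg l = G.R 1 (G.ρ l) := hG.inN l (by omega) h0 (hT.up (G.ρ_mem_up (by omega)))
  have hsw : gg l (u ⟨l, h0⟩) = u ⟨l + 1, h1⟩ := hA.sw1 ⟨l, h0⟩ ⟨l + 1, h1⟩ rfl
  rw [hgl, hR, sref] at hsw
  have hne : u ⟨l, h0⟩ ≠ u ⟨l + 1, h1⟩ := by
    intro h
    have h2 := u.toBasis.injective
      (show u.toBasis ⟨l, h0⟩ = u.toBasis ⟨l + 1, h1⟩ by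
        rw [OrthonormalBasis.coe_toBasis]; exact h)
    rw [Fin.mk.injEq] at h2
    omega
  have hav : ⟪a, v⟫ = 0 := by
    have h3 : ⟪u ⟨l, h0⟩ - (2 * ⟪a, u ⟨l, h0⟩⟫) • a, v⟫ = ⟪u ⟨l + 1, h1⟩, v⟫ := by rw [hsw]
    rw [inner_sub_left, real_inner_smul_left, hv0, hv1, zero_sub, neg_eq_zero] at h3
    rcases mul_eq_zero.1 h3 with h4 | h4
    · exfalso
      apply hne
      rw [h4, zero_smul, sub_zero] at hsw
      exact hsw
    · exact h4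
  rw [hgl, hR, sref, hav, mul_zero, zero_smul, sub_zero]

/-- the product `w = ρ_i ρ_{i+1} … ρ_{l-1}` -/
theorem chain {l : ℕ} (hBE : S_BE1) [Finite Γ] (hT : Top G l) {gg : ℕ → (E d ≃ₗᵢ[ℝ] E d)}
    (hG : Gens G l gg)
    {u : OrthonormalBasis (Fin d) ℝ (E d)} {ε : ℕ → ℝ} (hA : Axes G gg u ε)
    (h0 : l < d) (h1 : l + 1 < d) (k' : ℕ) : ∀ (i : ℕ) (hi : i < d), i + k' = l →
    ∃ (w : Γ) (B : E d ≃ₗᵢ[ℝ] E d) (e : ℝ), w ∈ G.mid i l ∧ IsB G l w B ∧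
      B (u ⟨l, h0⟩) = u ⟨i, hi⟩ ∧ (e = 1 ∨ e = -1) ∧ B (u ⟨l + 1, h1⟩) = e • u ⟨l + 1, h1⟩ := by
  obtain ⟨-, -, hmul, hN⟩ := hBE d k Γ X G l hT
  induction k' with
  | zero =>
    intro i hi hil
    have e : i = l := by omega
    subst e
    refine ⟨1, G.R 1 1, 1, one_mem _, hN 1 (one_mem _), ?_, Or.inl rfl, ?_⟩
    · rw [G.R_one]; rfl
    · rw [G.R_one, one_smul]; rfl
  | succ k' ih =>
    intro i hi hil
    obtain ⟨w, B, e, hw, hB, hBl, he, hB1⟩ := ih (i + 1) (by omega) (by omega)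
    refine ⟨G.ρ i * w, gg i * B, e * ε i, ?_, hmul _ _ _ _ (hG.isB i hi) hB, ?_, ?_, ?_⟩
    · exact mul_mem (G.ρ_mem_mid le_rfl (by omega)) (G.mid_mono (by omega) le_rfl hw)
    · change gg i (B (u ⟨l, h0⟩)) = _
      rw [hBl]
      exact hA.sw2 ⟨i, hi⟩ ⟨i + 1, by omega⟩ rfl
    · rcases he with rfl | rfl <;> rcases hA.sgn i with h | h <;> rw [h] <;> norm_num
    · change gg i (B (u ⟨l + 1, h1⟩)) = _
      rw [hB1, map_smul, mul_smul]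
      congr 1
      exact hA.hi ⟨i, hi⟩ ⟨l + 1, h1⟩ (by change i + 2 ≤ l + 1; omega)

theorem u_ne {u : OrthonormalBasis (Fin d) ℝ (E d)} {i j : Fin d} (h : i ≠ j) :
    ⟪u i, u j⟫ = 0 := u.orthonormal.2 h

theorem main (hBE : S_BE1) [Finite Γ] {l : ℕ} (hT : Top G l) {gg : ℕ → (E d ≃ₗᵢ[ℝ] E d)}
    (hG : Gens G l gg)
    {u : OrthonormalBasis (Fin d) ℝ (E d)} {ε : ℕ → ℝ} (hA : Axes G gg u ε) {j : ℕ} (hj : 1 ≤ j)
    (hjl : j < l) (hε : ε j = -1) : False := by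
  have hl5 := hT.l5
  have hld := hT.ld
  have h0 : l < d := by omega
  have h1 : l + 1 < d := by omega
  have hjd : j < d := by omega
  have hgl : gg l = G.R 1 (G.ρ l) := hG.inN l (by omega) h0 (hT.up (G.ρ_mem_up (by omega)))
  obtain ⟨w, B, e, hw, hB, hBl, he, hB1⟩ :=
    chain G hBE hT hG hA h0 h1 (l + 1 - j) (j - 1) (by omega) (by omega)
  have hρlN : G.ρ l ∈ G.N := hT.up (G.ρ_mem_up (by omega))
  have hyT : w⁻¹ * (G.ρ j * (w * G.ρ l * w⁻¹) * (G.ρ j)⁻¹) * w ∈ TT G 0 l :=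
    ⟨w⁻¹ * G.ρ j * w, G.mem_up_zero _, by group⟩
  obtain ⟨x, hx⟩ : ∃ x, x = w * G.ρ l * w⁻¹ := ⟨_, rfl⟩
  rw [← hx] at hyT
  obtain ⟨x', hx'⟩ : ∃ x', x' = G.ρ j * x * (G.ρ j)⁻¹ := ⟨_, rfl⟩
  rw [← hx'] at hyT
  obtain ⟨y, hy⟩ : ∃ y, y = w⁻¹ * x' * w := ⟨_, rfl⟩
  rw [← hy] at hyT
  -- the three relations
  have r1 : ∀ v, B (gg l v) = G.R 1 x (B v) := by
    intro v
    rw [hx, hgl]
    exact hB (G.ρ l) ⟨1, G.mem_up_zero _, by group⟩ v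
  have r2 : ∀ v, gg j (G.R 1 x v) = G.R 1 x' (gg j v) := by
    intro v
    rw [hx']
    exact hG.isB j hjd x ⟨w, G.mem_up_zero _, hx⟩ v
  have r3 : ∀ v, B (G.R 1 y v) = G.R 1 x' (B v) := by
    intro v
    have h2 := hB y hyT v
    have h3 : w * y * w⁻¹ = x' := by rw [hy]; group
    rw [h3] at h2
    exact h2
  have glow : gg j (u ⟨j - 1, by omega⟩) = u ⟨j - 1, by omega⟩ :=
    hA.low ⟨j, hjd⟩ ⟨j - 1, by omega⟩ hj (by change j - 1 < j; omega)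
  have ghi : gg j (u ⟨l + 1, h1⟩) = -u ⟨l + 1, h1⟩ := by
    have := hA.hi ⟨j, hjd⟩ ⟨l + 1, h1⟩ (by change j + 2 ≤ l + 1; omega)
    rw [this, hε, neg_one_smul]
  have gsw1 : gg l (u ⟨l, h0⟩) = u ⟨l + 1, h1⟩ := hA.sw1 ⟨l, h0⟩ ⟨l + 1, h1⟩ rfl
  have gsw2 : gg l (u ⟨l + 1, h1⟩) = u ⟨l, h0⟩ := hA.sw2 ⟨l, h0⟩ ⟨l + 1, h1⟩ rfl
  -- `y` on `u_l`
  have yl : G.R 1 y (u ⟨l, h0⟩) = -u ⟨l + 1, h1⟩ := by
    apply B.injective
    rw [r3, hBl]
    have h2 : G.R 1 x' (u ⟨j - 1, by omega⟩) = gg j (G.R 1 x (u ⟨j - 1, by omega⟩)) := by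
      rw [r2, glow]
    rw [h2, ← hBl, ← r1, gsw1, hB1, map_smul, ghi, map_neg, hB1, smul_neg]
  -- `y` on the complement
  have yv : ∀ v, ⟪u ⟨l, h0⟩, v⟫ = 0 → ⟪u ⟨l + 1, h1⟩, v⟫ = 0 → G.R 1 y v = v := by
    intro v hv0 hv1
    apply B.injective
    rw [r3]
    obtain ⟨v1, hv1'⟩ : ∃ v1, v1 = gg j (B v) := ⟨_, rfl⟩
    have e1 : gg j v1 = B v := by rw [hv1', hG.sq j hjd]
    obtain ⟨v2, hv2⟩ : ∃ v2, B v2 = v1 := ⟨B.symm v1, B.apply_symm_apply v1⟩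
    have o0 : ⟪u ⟨l, h0⟩, v2⟫ = 0 := by
      rw [← B.inner_map_map, hBl, hv2, hv1', ← glow, (gg j).inner_map_map, ← hBl,
        B.inner_map_map, hv0]
    have o1 : ⟪u ⟨l + 1, h1⟩, v2⟫ = 0 := by
      have h3 : ⟪u ⟨l + 1, h1⟩, B v⟫ = 0 := by
        have h4 : ⟪B (u ⟨l + 1, h1⟩), B v⟫ = 0 := by rw [B.inner_map_map, hv1]
        rw [hB1, real_inner_smul_left] at h4
        rcases mul_eq_zero.1 h4 with h5 | h5
        · rcases he with h6 | h6 <;> rw [h6] at h5 <;> norm_num at h5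
        · exact h5
      have h4 : ⟪gg j (u ⟨l + 1, h1⟩), gg j (B v)⟫ = 0 := by rw [(gg j).inner_map_map, h3]
      rw [ghi, inner_neg_left, neg_eq_zero] at h4
      rw [← B.inner_map_map, hB1, hv2, hv1', real_inner_smul_left, h4, mul_zero]
    have h5 := fixl G hT hG hA h0 h1 v2 o0 o1
    rw [← e1, ← r2, ← hv2, ← r1, h5]
  -- the element `n`
  have hyN : y ∈ G.N := by
    obtain ⟨γ, -, hγ⟩ := hyT
    rw [hγ]
    exact G.conj_mem_N γ hρlN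
  have hnR : ∀ v, G.R 1 (G.ρ l * y) v = gg l (G.R 1 y v) := by
    intro v
    rw [G.R_mul_apply 1 hρlN hyN, hgl]
  have hnN : G.ρ l * y ∈ G.N := mul_mem hρlN hyN
  have hnl : G.R 1 (G.ρ l * y) (u ⟨l, h0⟩) = -u ⟨l, h0⟩ := by
    rw [hnR, yl, map_neg, gsw2]
  have hup : G.ρ l * y ∈ G.up l := by
    obtain ⟨i, rfl⟩ : ∃ i, l = i + 1 := ⟨l - 1, by omega⟩
    apply G.mem_up_of_R' (g := 1) hnN
    intro v hv
    rw [hA.V (i + 1) (by omega)] at hv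
    have o : ∀ m : Fin d, i + 1 ≤ m.val → ⟪u m, v⟫ = 0 := by
      intro m hm
      refine Submodule.span_induction (p := fun v _ => ⟪u m, v⟫ = 0) ?_ ?_ ?_ ?_ hv
      · rintro _ ⟨m', hm', rfl⟩
        apply u_ne
        intro h
        have h2 : m'.val < i + 1 := hm'
        rw [← h] at h2
        omega
      · exact inner_zero_right _
      · intro a b _ _ ha hb
        rw [inner_add_right, ha, hb, add_zero]
      · intro c a _ ha
        rw [real_inner_smul_right, ha, mul_zero]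
    have o0 := o ⟨i + 1, h0⟩ le_rfl
    have o1 := o ⟨i + 1 + 1, h1⟩ (by change i + 1 ≤ i + 1 + 1; omega)
    rw [hnR, yv v o0 o1]
    exact fixl G hT hG hA h0 h1 v o0 o1
  have hmid : G.ρ l * y ∈ G.mid (j - 1) (l + 1) := by
    have hw' : w ∈ G.mid (j - 1) (l + 1) := G.mid_mono le_rfl (by omega) hw
    have hj' : G.ρ j ∈ G.mid (j - 1) (l + 1) := G.ρ_mem_mid (by omega) (by omega)
    have hl' : G.ρ l ∈ G.mid (j - 1) (l + 1) := G.ρ_mem_mid (by omega) (by omega)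
    have hx2 : x ∈ G.mid (j - 1) (l + 1) := by
      rw [hx]; exact mul_mem (mul_mem hw' hl') (inv_mem hw')
    have hx3 : x' ∈ G.mid (j - 1) (l + 1) := by
      rw [hx']; exact mul_mem (mul_mem hj' hx2) (inv_mem hj')
    rw [hy]
    exact mul_mem hl' (mul_mem (mul_mem (inv_mem hw') hx3) hw')
  have hunit : ∀ i : Fin d, u i ≠ 0 := fun i h => by
    have := u.orthonormal.1 i
    rw [h, norm_zero] at this
    norm_num at this
  rcases mid_one G (G.mid_inf_up hmid hup (by omega)) with h2 | h2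
  · rw [h2, G.R_one] at hnl
    have h3 : u ⟨l, h0⟩ = -u ⟨l, h0⟩ := hnl
    exact hunit _ (eq_zero_of h3)
  · rw [h2, ← hgl, gsw1] at hnl
    have h3 : ⟪u ⟨l, h0⟩, u ⟨l + 1, h1⟩⟫ = 0 := by
      apply u_ne
      intro h
      rw [Fin.mk.injEq] at h
      omega
    rw [hnl, inner_neg_right, neg_eq_zero, inner_self_eq_zero] at h3
    exact hunit _ h3

end MC2

open MC2 in
/-- 10.8: the signs `ε j` with `1 ≤ j ≤ l` are `1` -/
theorem t_MC2 : M_MC2 := by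
  intro hBE1 _ d k Γ _ _ X _ G l hT gg hG u ε hA j hj hjl
  have hl5 := hT.l5
  have hld := hT.ld
  rcases Nat.lt_or_ge j l with h | h
  · rcases hA.sgn j with h2 | h2
    · exact h2
    · exact (main G hBE1 hT hG hA hj h h2).elim
  · have e : j = l := by omega
    subst e
    have h0 : j < d := by omega
    have h1 : j + 1 < d := by omega
    have h2 : j + 2 < d := by omega
    have h3 := fixl G hT hG hA h0 h1 (u ⟨j + 2, h2⟩)
      (u_ne (fun h => by rw [Fin.mk.injEq] at h; omega))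
      (u_ne (fun h => by rw [Fin.mk.injEq] at h; omega))
    have h4 := hA.hi ⟨j, h0⟩ ⟨j + 2, h2⟩ le_rfl
    rcases hA.sgn j with h5 | h5
    · exact h5
    · exfalso
      have h6 : gg j (u ⟨j + 2, h2⟩) = ε j • u ⟨j + 2, h2⟩ := h4
      rw [h3, h5, neg_one_smul] at h6
      have h7 : u ⟨j + 2, h2⟩ = 0 := eq_zero_of h6
      have := u.orthonormal.1 ⟨j + 2, h2⟩
      rw [h7, norm_zero] at this
      norm_num at this

end

end FOK
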