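import Pool.Agent.FOK.Stmts3b

/-!
# MC3: the signs are 1 for j > l (10.8)
-/

namespace FOK

open Lib_helper64.FO FO2
open scoped RealInnerProductSpace Nat

theorem t_MC3 : S_MC3 := by
  intro d k Γ _ _ X _ G l hT gg hG u ε hA hε j
  induction j using Nat.strong_induction_on with
  | _ j ih =>
  intro h1 h2
  by_cases hjl : j ≤ l
  · exact hε j h1 hjl
  rw [not_le] at hjl
  rcases hA.sgn j with h | h
  · exact h
  exfalso
  have hl := hT.l5
  have e1 : ε (j - 1) = 1 := ih (j - 1) (by omega) (by omega) (by omega)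
  have hN1 : G.ρ (j - 1) ∈ G.N := hT.up (G.ρ_mem_up (by omega))
  have hN2 : G.ρ j ∈ G.N := hT.up (G.ρ_mem_up (by omega))
  have g1 := hG.inN (j - 1) (by omega) (by omega) hN1
  have g2 := hG.inN j (by omega) (by omega) hN2
  have ht : G.ρ (j - 1) * G.ρ j ∈ G.N := mul_mem hN1 hN2
  have hR1 : ∀ v, G.R 1 (G.ρ (j - 1) * G.ρ j) v = gg (j - 1) (gg j v) := by
    intro v
    rw [G.R_mul_apply 1 hN1 hN2, g1, g2]
  obtain ⟨t, ht'⟩ : ∃ t, t = G.ρ (j - 1) * G.ρ j := ⟨_, rfl⟩
  rw [← ht'] at ht hR1
  have htt : t * (t * t) ∈ G.N := mul_mem ht (mul_mem ht ht)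
  have hR : ∀ v, G.R 1 (t * (t * t)) v =
      gg (j - 1) (gg j (gg (j - 1) (gg j (gg (j - 1) (gg j v))))) := by
    intro v
    rw [G.R_mul_apply 1 ht (mul_mem ht ht), G.R_mul_apply 1 ht ht, hR1, hR1, hR1]
  obtain ⟨a, ha⟩ : ∃ a : Fin d, a.val = j - 1 := ⟨⟨j - 1, by omega⟩, rfl⟩
  obtain ⟨b, hb⟩ : ∃ b : Fin d, b.val = j := ⟨⟨j, by omega⟩, rfl⟩
  obtain ⟨c, hc⟩ : ∃ c : Fin d, c.val = j + 1 := ⟨⟨j + 1, by omega⟩, rfl⟩
  obtain ⟨e, he⟩ : ∃ e : Fin d, e.val = j + 2 := ⟨⟨j + 2, by omega⟩, rfl⟩
  have A1 : gg (j - 1) (u a) = u b := by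
    have := hA.sw1 a b (by omega)
    rwa [ha] at this
  have A2 : gg (j - 1) (u b) = u a := by
    have := hA.sw2 a b (by omega)
    rwa [ha] at this
  have A3 : gg (j - 1) (u c) = u c := by
    have := hA.hi a c (by omega)
    rw [ha, e1, one_smul] at this
    exact this
  have A4 : gg (j - 1) (u e) = u e := by
    have := hA.hi a e (by omega)
    rw [ha, e1, one_smul] at this
    exact this
  have B1 : gg j (u a) = u a := by
    have := hA.low b a (by omega) (by omega)
    rwa [hb] at this
  have B2 : gg j (u b) = u c := by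
    have := hA.sw1 b c (by omega)
    rwa [hb] at this
  have B3 : gg j (u c) = u b := by
    have := hA.sw2 b c (by omega)
    rwa [hb] at this
  have B4 : gg j (u e) = - u e := by
    have := hA.hi b e (by omega)
    rw [hb, h, neg_one_smul] at this
    exact this
  have hup : t * (t * t) ∈ G.up (j + 2) := by
    refine G.mem_up_of_R' (g := 1) (i := j + 1) htt ?_
    intro v hv
    rw [hA.V (j + 1 + 1) (by omega)] at hv
    induction hv using Submodule.span_induction with
    | mem x hx =>
      obtain ⟨m, hm, rfl⟩ := hx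
      have hm' : m.val < j + 1 + 1 := hm
      rw [hR]
      by_cases m1 : m.val < j - 1
      · have C1 : gg j (u m) = u m := by
          have := hA.low b m (by omega) (by omega)
          rwa [hb] at this
        have C2 : gg (j - 1) (u m) = u m := by
          have := hA.low a m (by omega) (by omega)
          rwa [ha] at this
        simp only [C1, C2]
      · have hc3 : m.val = j - 1 ∨ m.val = j ∨ m.val = j + 1 := by omega
        rcases hc3 with h3 | h3 | h3
        · have : m = a := Fin.ext (by omega)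
          subst this
          simp only [A1, A3, A2, B1, B2, B3]
        · have : m = b := Fin.ext (by omega)
          subst this
          simp only [A1, A3, A2, B1, B2, B3]
        · have : m = c := Fin.ext (by omega)
          subst this
          simp only [A1, A3, A2, B1, B2, B3]
    | zero => rw [map_zero]
    | add x y _ _ hx hy => rw [map_add, hx, hy]
    | smul s x _ hx => rw [map_smul, hx]
  have hmid : t * (t * t) ∈ G.mid (j - 1) (j + 1) := by
    have : t ∈ G.mid (j - 1) (j + 1) := by
      rw [ht']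
      exact mul_mem (G.ρ_mem_mid (by omega) (by omega)) (G.ρ_mem_mid (by omega) (by omega))
    exact mul_mem this (mul_mem this this)
  have hone : t * (t * t) = 1 :=
    G.mid_eq_bot (a := j + 2) (b := j + 1) (by omega) (G.mid_inf_up hmid hup (by omega))
  have hfin := hR (u e)
  simp only [hone, G.R_one, A4, B4, map_neg, neg_neg] at hfin
  have h3 : u e = - u e := hfin
  have h4 : ‖u e‖ = 1 := u.orthonormal.1 e
  have h5 : (2 : ℝ) • u e = 0 := by
    rw [two_smul]
    nth_rewrite 1 [h3]
    exact neg_add_cancel _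
  have h6 : u e = 0 := (smul_eq_zero.1 h5).resolve_left (by norm_num)
  rw [h6, norm_zero] at h4
  exact zero_ne_one h4

end FOK
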