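import Pool.Agent.FOK.Stmts2

/-!
# Section 8.1: the products of two generators of the run are in the core
-/

namespace FOK

open Lib_helper64.FO FO2
open scoped RealInnerProductSpace Nat

noncomputable section

namespace N1

/-- 6.2 -/
theorem eq_one_of_fix_XX {d k : ℕ} {Γ : Type} [Group Γ] {X : Type} [MulAction Γ X]
    (G : KGeo d k Γ X) {q j : ℕ} (hj : j ≤ q) {γ : Γ} (h1 : γ ∈ G.up j)
    (h2 : ∀ y ∈ G.XX q j, γ • y = y) : γ = 1 := by
  let M : Subgroup Γ :=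
    { carrier := {γ | γ ∈ G.up j ∧ ∀ y ∈ G.XX q j, γ • y = y}
      mul_mem' := by
        rintro a b ⟨ha, ha'⟩ ⟨hb, hb'⟩
        refine ⟨mul_mem ha hb, fun y hy => ?_⟩
        rw [mul_smul, hb' y hy, ha' y hy]
      one_mem' := ⟨one_mem _, fun y _ => one_smul _ y⟩
      inv_mem' := by
        rintro a ⟨ha, ha'⟩
        refine ⟨inv_mem ha, fun y hy => ?_⟩
        rw [inv_smul_eq_iff, ha' y hy] }
  have hM : M = ⊥ := by
    refine G.L1 (i := j) (fun m hm => ?_) (fun δ hδ m hm => ?_)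
    · have : m ∈ G.up (q + 1) := G.mem_up_of_fix fun a ha => hm.2 _ (G.dn_mem_XX ha)
      exact G.up_anti (by omega) this
    · refine ⟨mul_mem (mul_mem hδ hm.1) (inv_mem hδ), fun y hy => ?_⟩
      rw [mul_smul, mul_smul, hm.2 _ (G.smul_mem_XX (inv_mem hδ) hy), smul_inv_smul]
  have : γ ∈ M := ⟨h1, h2⟩
  rw [hM] at this
  exact this

theorem conj_sref {d : ℕ} {a b : E d} (ha : ‖a‖ = 1) (v : E d) :
    sref a (sref b (sref a v)) = sref (sref a b) v := by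
  have h1 : ⟪b, sref a v⟫ = ⟪sref a b, v⟫ := by
    have := inner_sref ha b (sref a v)
    rw [sref_sref ha] at this
    exact this.symm
  have h2 : sref b (sref a v) = sref a v + (-(2 * ⟪b, sref a v⟫)) • b := by
    rw [neg_smul, ← sub_eq_add_neg]
    rfl
  rw [h2, sref_add, sref_smul, sref_sref ha, h1, neg_smul, ← sub_eq_add_neg]
  rfl

theorem braid {d : ℕ} {a b : E d} (ha : ‖a‖ = 1) (hb : ‖b‖ = 1) (h : ⟪a, b⟫ ^ 2 = (1 / 4 : ℝ))
    (v : E d) : sref a (sref b (sref a v)) = sref b (sref a (sref b v)) := by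
  rw [conj_sref ha, conj_sref hb]
  have h0 : ⟪b, a⟫ = (⟪a, b⟫ : ℝ) := real_inner_comm _ _
  have h1 : sref a b = b - (2 * ⟪a, b⟫) • a := rfl
  have h2 : sref b a = a - (2 * ⟪b, a⟫) • b := rfl
  rw [h0] at h2
  have h3 : (2 * ⟪a, b⟫ - 1) * (2 * ⟪a, b⟫ + 1) = (0 : ℝ) := by linear_combination 4 * h
  rcases mul_eq_zero.1 h3 with h4 | h4
  · have h5 : (2 * ⟪a, b⟫ : ℝ) = 1 := by linarith
    rw [h1, h2, h5, one_smul, one_smul, ← neg_sub a b, sref_neg]
  · have h5 : (2 * ⟪a, b⟫ : ℝ) = -1 := by linarith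
    rw [h1, h2, h5, neg_smul, neg_smul, one_smul, one_smul, sub_neg_eq_add, sub_neg_eq_add,
      add_comm]

theorem cube {d : ℕ} {a b : E d} (ha : ‖a‖ = 1) (hb : ‖b‖ = 1) (h : ⟪a, b⟫ ^ 2 = (1 / 4 : ℝ))
    (v : E d) : sref a (sref b (sref a (sref b (sref a (sref b v))))) = v := by
  rw [braid ha hb h (sref b (sref a (sref b v))), sref_sref hb, sref_sref ha, sref_sref hb]

end N1

theorem t_N1 : S_N1 := by
  intro d k Γ _ _ X _ G u q j1 j2 hk hS hR
  have hjq := hS.hjq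
  have hj := hS.hj
  have huj := hS.huj
  have part1 : ∀ l, j1 + 2 ≤ l → l + 3 ≤ j2 → (G.ρ l * G.ρ (l + 1)) ^ 3 = 1 := by
    intro l h1 h2
    obtain ⟨a, ha⟩ := (hR 1).1 l h1 (by omega)
    obtain ⟨b, hb⟩ := (hR 1).1 (l + 1) (by omega) (by omega)
    have hab := (hR 1).2 l a b h1 h2 ha hb
    have m1 : G.ρ l ∈ G.up j1 := G.ρ_mem_up (by omega)
    have m2 : G.ρ (l + 1) ∈ G.up j1 := G.ρ_mem_up (by omega)
    refine N1.eq_one_of_fix_XX G (q := q) (j := j1) (by omega) (pow_mem (mul_mem m1 m2) 3) ?_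
    intro y hy
    apply G.F_inj 1
    have y1 := G.smul_mem_XX m2 hy
    have y2 := G.smul_mem_XX m1 y1
    have y3 := G.smul_mem_XX m2 y2
    have y4 := G.smul_mem_XX m1 y3
    have y5 := G.smul_mem_XX m2 y4
    have e : (G.ρ l * G.ρ (l + 1)) ^ 3 • y =
        G.ρ l • G.ρ (l + 1) • G.ρ l • G.ρ (l + 1) • G.ρ l • G.ρ (l + 1) • y := by
      simp only [pow_succ, pow_zero, one_mul, mul_smul]
    rw [e, ha.act _ y5, hb.act _ y4, ha.act _ y3, hb.act _ y2, ha.act _ y1, hb.act _ hy]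
    exact N1.cube ha.norm hb.norm hab _
  have step : ∀ l, j1 + 2 ≤ l → l + 3 ≤ j2 → G.ρ l * G.ρ (l + 1) ∈ G.N := by
    intro l h1 h2
    have h3 := part1 l h1 h2
    have m2 : G.ρ (l + 1) ∈ G.up u := G.ρ_mem_up (by omega)
    obtain ⟨a, ha, n, hn, he⟩ := hS.win.plat _ m2
    have hc : G.ρ l * a = a * G.ρ l := G.comm_up (by omega) ha
    have h4 : G.ρ l * G.ρ (l + 1) * (G.ρ l * G.ρ (l + 1)) ∈ G.N := by
      have h5 : G.ρ l * G.ρ (l + 1) * (G.ρ l * G.ρ (l + 1)) =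
          a * (G.ρ l * n * (G.ρ l)⁻¹ * n⁻¹) * a⁻¹ := by
        have h6 : G.ρ l * G.ρ (l + 1) * (G.ρ l * G.ρ (l + 1)) =
            G.ρ l * G.ρ (l + 1) * (G.ρ l)⁻¹ * (G.ρ (l + 1))⁻¹ := by
          rw [G.inv_ρ, G.inv_ρ]
          simp only [mul_assoc]
        rw [h6, he]
        calc G.ρ l * (a * n) * (G.ρ l)⁻¹ * (a * n)⁻¹
            = (G.ρ l * a) * n * (G.ρ l)⁻¹ * n⁻¹ * a⁻¹ := by group
          _ = (a * G.ρ l) * n * (G.ρ l)⁻¹ * n⁻¹ * a⁻¹ := by rw [hc]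
          _ = a * (G.ρ l * n * (G.ρ l)⁻¹ * n⁻¹) * a⁻¹ := by group
      rw [h5]
      exact G.conj_mem_N a (mul_mem (G.conj_mem_N _ hn) (inv_mem hn))
    have h7 : G.ρ l * G.ρ (l + 1) = (G.ρ l * G.ρ (l + 1) * (G.ρ l * G.ρ (l + 1)))⁻¹ := by
      rw [eq_inv_iff_mul_eq_one, ← h3]
      simp only [pow_succ, pow_zero, one_mul, mul_assoc]
    rw [h7]
    exact inv_mem h4
  refine ⟨part1, ?_⟩
  have up : ∀ m l, j1 + 2 ≤ l → l + m + 2 ≤ j2 → G.ρ l * G.ρ (l + m) ∈ G.N := by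
    intro m
    induction m with
    | zero =>
      intro l _ _
      rw [add_zero, G.sq]
      exact one_mem _
    | succ m ih =>
      intro l h1 h2
      have h3 := ih l h1 (by omega)
      have h4 := step (l + m) (by omega) (by omega)
      have h5 : G.ρ l * G.ρ (l + (m + 1)) =
          G.ρ l * G.ρ (l + m) * (G.ρ (l + m) * G.ρ (l + m + 1)) := by
        rw [mul_assoc, ← mul_assoc (G.ρ (l + m)), G.sq, one_mul]
        rfl
      rw [h5]
      exact mul_mem h3 h4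
  intro l l' h1 h2 h1' h2'
  rcases le_total l l' with h | h
  · obtain ⟨m, rfl⟩ := Nat.exists_eq_add_of_le h
    exact up m l h1 (by omega)
  · obtain ⟨m, rfl⟩ := Nat.exists_eq_add_of_le h
    have := inv_mem (up m l' h1' (by omega))
    rwa [mul_inv_rev, G.inv_ρ, G.inv_ρ] at this

end

end FOK
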