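import Pool.Agent.FOK.Stmts2

/-! 8.3: the root does not change in the frame `g * ρ i`, `|i - l| ≥ 2`. -/

namespace FOK

open Lib_helper64.FO FO2
open scoped RealInnerProductSpace

noncomputable section

namespace N3

/-- two unit vectors with the same reflection on the second vector -/
theorem eq_or_neg {d : ℕ} {a b : E d} (ha : ‖a‖ = 1) (hb : ‖b‖ = 1)
    (h : sref a b = sref b b) : b = a ∨ b = -a := by
  rw [sref_self hb, sref] at h
  have h1 : (2 : ℝ) • b = (2 : ℝ) • (⟪a, b⟫ • a) := by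
    rw [smul_smul]
    have h2 : b + b = (2 * ⟪a, b⟫) • a := by
      have h3 : b - (2 * ⟪a, b⟫) • a + ((2 * ⟪a, b⟫) • a + b) = -b + ((2 * ⟪a, b⟫) • a + b) := by
        rw [h]
      have h4 : b - (2 * ⟪a, b⟫) • a + ((2 * ⟪a, b⟫) • a + b) = b + b := by abel
      have h5 : -b + ((2 * ⟪a, b⟫) • a + b) = (2 * ⟪a, b⟫) • a := by abel
      rw [h4, h5] at h3
      exact h3
    rw [two_smul, h2]
  have h6 : b = ⟪a, b⟫ • a := smul_right_injective (E d) (two_ne_zero' ℝ) h1
  have h7 : |⟪a, b⟫| = 1 := by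
    have h8 : ‖b‖ = |⟪a, b⟫| * ‖a‖ := by
      conv_lhs => rw [h6]
      rw [norm_smul, Real.norm_eq_abs]
    rw [ha, hb, mul_one] at h8
    exact h8.symm
  rcases (abs_eq (zero_le_one' ℝ)).1 h7 with h9 | h9
  · left
    rw [h9, one_smul] at h6
    exact h6
  · right
    rw [h9, neg_one_smul] at h6
    exact h6

variable {d k : ℕ} {Γ : Type} [Group Γ] {X : Type} [MulAction Γ X] (G : KGeo d k Γ X)

/-- `ρ i` preserves `XX q (j + 1)` for `i < j`. -/
theorem rho_XX_lt {q j i : ℕ} (hij : i < j) (hiq : i < q) {y : X} (hy : y ∈ G.XX q (j + 1)) :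
    G.ρ i • y ∈ G.XX q (j + 1) := by
  obtain ⟨γ, hγ, a, ha, rfl⟩ := hy
  refine ⟨γ, hγ, G.ρ i * a, mul_mem (G.ρ_mem_dn hiq) ha, ?_⟩
  rw [mul_smul, ← mul_smul, ← mul_smul (G.ρ i) γ, G.comm_up (by omega) hγ]

end N3

open N3

theorem t_N3 : S_N3 := by
  intro d k Γ _ _ X _ G u q j1 j2 hk hs g l i a a' hl1 hl2 hi ra ra'
  have hj := hs.hj
  have hjq := hs.hjq
  -- the choice of `j'`
  obtain ⟨j', hj1, hj2, hX⟩ : ∃ j', j1 ≤ j' ∧ j' ≤ j2 ∧
      ∀ y ∈ G.XX q j', G.ρ i • y ∈ G.XX q j' := by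
    rcases lt_trichotomy i j1 with h | h | h
    · exact ⟨j1 + 1, by omega, by omega, fun y hy => rho_XX_lt G h (by omega) hy⟩
    · exact ⟨j1, le_rfl, by omega, fun y hy => G.smul_mem_XX (G.ρ_mem_up (by omega)) hy⟩
    · exact ⟨j1 + 1, by omega, by omega, fun y hy => G.smul_mem_XX (G.ρ_mem_up (by omega)) hy⟩
  have hc : G.ρ i * G.ρ l = G.ρ l * G.ρ i := by
    rcases hi with h | h
    · exact G.comm i l h
    · exact (G.comm l i h).symm
  -- the two reflections agree on the vertices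
  have h1 : ∀ y ∈ G.XX q j', sref a (G.F g y) = sref a' (G.F g y) := by
    intro y hy
    have hy' := hX y hy
    have e1 := ra'.act (G.ρ i • y) (G.XX_anti q hj1 hy')
    have e2 := ra.act y (G.XX_anti q hj1 hy)
    have e3 : G.ρ i • G.ρ i • y = y := by rw [← mul_smul, G.sq, one_smul]
    have e4 : G.ρ i • G.ρ l • G.ρ i • y = G.ρ l • y := by
      rw [← mul_smul, hc, mul_smul, e3]
    rw [G.F_mul, G.F_mul, e3, e4, e2] at e1
    exact e1
  -- and on their span
  have h2 : ∀ w ∈ G.S q g j1, sref a w = sref a' w := by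
    intro w hw
    rw [← hs.S g j' hj1 hj2, KGeo.S] at hw
    induction hw using Submodule.span_induction with
    | mem x hx =>
      obtain ⟨y, hy, rfl⟩ := hx
      exact h1 y hy
    | zero => simp [sref]
    | add x y _ _ hx hy => rw [sref_add, sref_add, hx, hy]
    | smul c x _ hx => rw [sref_smul, sref_smul, hx]
  have h3 : ∀ p, j1 ≤ p → p ≤ j2 → G.D g p ≤ G.S q g j1 := by
    intro p hp hp'
    refine (hs.D g p hp hp' p le_rfl (by omega)).trans ?_
    rw [← hs.Y g p hp hp']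
    exact inf_le_left
  have h4 : a' ∈ G.S q g j1 := by
    have h5 := ra'.mem
    rw [G.D_frame_ρ (by omega) (by omega), G.D_frame_ρ (by omega) (by omega)] at h5
    exact sup_le (h3 l (by omega) (by omega)) (h3 (l + 1) (by omega) (by omega)) h5
  exact eq_or_neg ra.norm ra'.norm (h2 a' h4)

end

end FOK
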