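import Pool.Agent.FOK.Stmts1

/-!
# 1.4. There are no zeros far from the top
-/

namespace FOK

open Lib_helper64.FO FO2
open scoped RealInnerProductSpace Nat

noncomputable section

namespace NZ

/-- If `N` meets `up i` trivially, then `up i` embeds into the quotient by `N`. -/
theorem card_up_le {d k : ℕ} {Γ : Type} [Group Γ] [Finite Γ] {X : Type} [MulAction Γ X]
    (G : KGeo d k Γ X) {i : ℕ} (h : G.Ni i = ⊥) : Nat.card (G.up i) ≤ G.N.index := by
  rw [Subgroup.index]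
  refine Nat.card_le_card_of_injective (fun a : G.up i => ((a : Γ) : Γ ⧸ G.N)) ?_
  intro a b hab
  have h1 : (a : Γ)⁻¹ * (b : Γ) ∈ G.N := QuotientGroup.eq.1 hab
  have h2 : (a : Γ)⁻¹ * (b : Γ) ∈ G.up i := (G.up i).mul_mem ((G.up i).inv_mem a.2) b.2
  have h3 : (a : Γ)⁻¹ * (b : Γ) ∈ G.Ni i := ⟨h1, h2⟩
  rw [h, Subgroup.mem_bot] at h3
  exact Subtype.ext (inv_mul_eq_one.1 h3)

theorem card_mid_le {d k : ℕ} {Γ : Type} [Group Γ] [Finite Γ] {X : Type} [MulAction Γ X]
    (G : KGeo d k Γ X) (a b : ℕ) : Nat.card (G.mid a b) ≤ Nat.card (G.up a) :=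
  Nat.card_le_card_of_injective (Subgroup.inclusion (G.mid_le_up a b))
    (Subgroup.inclusion_injective _)

theorem k_pos {d k : ℕ} {Γ : Type} [Group Γ] [Finite Γ] {X : Type} [MulAction Γ X]
    (G : KGeo d k Γ X) : 0 < k := by
  rw [← G.idx]
  exact Nat.pos_of_ne_zero Subgroup.index_ne_zero_of_finite

end NZ

theorem t_NZ : M_NZ := by
  intro hO hI d k Γ _ _ X _ G
  refine ⟨?_, ?_⟩
  · intro i hi
    by_contra hn
    have h0 := G.Ni_eq_bot hn
    have h1 := NZ.card_up_le G h0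
    have h2 := hO d k Γ X G i d (by omega) le_rfl
    have h3 := (hI d k Γ X G).2
    have h4 : (k + 1)! ≤ k ! :=
      (Nat.factorial_le (by omega : k + 1 ≤ d - i + 1)).trans
        (h2.trans ((NZ.card_mid_le G i d).trans (h1.trans h3)))
    exact absurd h4 (not_le.2 ((Nat.factorial_lt (NZ.k_pos G)).2 (Nat.lt_succ_self k)))
  · intro l hl hN i hi
    by_contra hn
    have h0 := G.Ni_eq_bot hn
    have h1 : G.ρ (max i l) ∈ G.Ni i :=
      ⟨hN (G.ρ_mem_up (le_max_right i l)), G.ρ_mem_up (le_max_left i l)⟩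
    rw [h0, Subgroup.mem_bot] at h1
    exact G.ne_one (max i l) (max_lt hi hl) h1

end

end FOK
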