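import Pool.Agent.FOK.Stmts1

/-!
# FOK, module PG: pigeonhole for a nondecreasing function
-/

set_option autoImplicit false

namespace FOK

namespace PG

lemma mono_from (s : ℕ → ℕ) (m N : ℕ) (h : ∀ i, i < N → s (m + i) ≤ s (m + i + 1)) :
    ∀ j, j ≤ N → ∀ i, i ≤ j → s (m + i) ≤ s (m + j) := by
  intro j
  induction j with
  | zero =>
    intro _ i hi
    obtain rfl : i = 0 := by omega
    exact le_rfl
  | succ j ih =>
    intro hj i hi
    rcases Nat.lt_or_ge i (j + 1) with h1 | h1
    · exact (ih (by omega) i (by omega)).trans (h j (by omega))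
    · obtain rfl : i = j + 1 := by omega
      exact le_rfl

lemma main (L : ℕ) (s : ℕ → ℕ) : ∀ (n m : ℕ),
    (∀ i, i < (n + 1) * L → s (m + i) ≤ s (m + i + 1)) →
    s (m + (n + 1) * L) < s m + (n + 1) →
    ∃ a, m ≤ a ∧ a + L ≤ m + (n + 1) * L ∧ ∀ i, i ≤ L → s (a + i) = s a := by
  intro n
  induction n with
  | zero =>
    intro m h hlt
    have hm := mono_from s m _ h
    refine ⟨m, le_rfl, by omega, fun i hi => ?_⟩
    have h1 := hm i (by omega) 0 (by omega)
    have h2 := hm L (by omega) i hi
    have h3 : (0 + 1) * L = L := by omega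
    rw [h3] at hlt
    simp only [Nat.add_zero] at h1
    omega
  | succ n ih =>
    intro m h hlt
    have hm := mono_from s m _ h
    have e1 : (n + 1 + 1) * L = (n + 1) * L + L := by ring
    have hL : L ≤ (n + 1 + 1) * L := by omega
    rcases Nat.lt_or_ge (s m) (s (m + L)) with h1 | h1
    · obtain ⟨a, ha1, ha2, ha3⟩ := ih (m + L) (fun i hi => by
        have := h (L + i) (by omega)
        rw [show m + (L + i) = m + L + i by omega] at this
        exact this) (by
        rw [show m + L + (n + 1) * L = m + (n + 1 + 1) * L by omega]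
        omega)
      exact ⟨a, by omega, by omega, ha3⟩
    · refine ⟨m, le_rfl, by omega, fun i hi => ?_⟩
      have h2 := hm i (by omega) 0 (by omega)
      have h3 := hm L hL i hi
      simp only [Nat.add_zero] at h2
      omega

end PG

theorem t_PG : S_PG := by
  intro K L m s hK h hlt
  obtain ⟨n, rfl⟩ : ∃ n, K = n + 1 := ⟨K - 1, by omega⟩
  exact PG.main L s n m h hlt

end FOK
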