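import Pool.Agent.FOK.QRC

/-!
# Module QRX: `Rich` for the cross-polytope
-/

namespace FOK

open Lib_helper64.FO FO2
open scoped RealInnerProductSpace

noncomputable section

namespace QRX

open QRC

variable {A : Type}

theorem Pp_conj {d : ℕ} {g : Fin d → (E d ≃ₗᵢ[ℝ] E d)} {M : Mix d A}
    {u : OrthonormalBasis (Fin d) ℝ (E d)} {j : Fin d} {τ : Fin d → Fin d} (hτ : ∀ i, τ (τ i) = i)
    (hg : ∀ i, g j (u i) = u (τ i)) {i i' : Fin d} {s : ℝ} (h : Pp g M u i i' s) :
    Pp g M u (τ i) (τ i') s := by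
  obtain ⟨x, hx, h1, h2, h3⟩ := h
  refine ⟨g j * x * g j, Kp_conj j hx, ?_, ?_, ?_⟩
  · change g j (x (g j (u (τ i)))) = _
    rw [hg, hτ, h1, map_smul, hg]
  · change g j (x (g j (u (τ i')))) = _
    rw [hg, hτ, h2, map_smul, hg]
  · intro m hm hm'
    change g j (x (g j (u m))) = _
    have e1 : τ m ≠ i := by
      intro h
      apply hm
      rw [← h, hτ]
    have e2 : τ m ≠ i' := by
      intro h
      apply hm'
      rw [← h, hτ]
    rw [hg, h3 _ e1 e2, hg, hτ]

theorem Pp_perm {n : ℕ} {g : Fin (n + 1) → (E (n + 1) ≃ₗᵢ[ℝ] E (n + 1))} {M : Mix (n + 1) A}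
    {u : OrthonormalBasis (Fin (n + 1)) ℝ (E (n + 1))}
    (hg : ∀ (j : Fin n) (i : Fin (n + 1)), g j.castSucc (u i) = u (Equiv.swap j.castSucc j.succ i))
    (σ : Equiv.Perm (Fin (n + 1))) {i i' : Fin (n + 1)} {s : ℝ} (h : Pp g M u i i' s) :
    Pp g M u (σ i) (σ i') s := by
  have hσ : σ ∈ Submonoid.closure (Set.range fun i : Fin n => Equiv.swap i.castSucc i.succ) := by
    rw [Equiv.Perm.mclosure_swap_castSucc_succ]
    trivial
  induction hσ using Submonoid.closure_induction generalizing i i' with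
  | mem σ hσ =>
    obtain ⟨j, rfl⟩ := hσ
    exact Pp_conj (j := j.castSucc) (τ := Equiv.swap j.castSucc j.succ)
      (fun i => Equiv.swap_apply_self _ _ _) (fun i => hg j i) h
  | one => exact h
  | mul σ τ _ _ ih1 ih2 =>
    rw [Equiv.Perm.mul_apply, Equiv.Perm.mul_apply]
    exact ih1 (ih2 h)

/-- a vector of the form `± u i` -/
def IsU {d : ℕ} (u : OrthonormalBasis (Fin d) ℝ (E d)) (y : E d) : Prop :=
  ∃ (i : Fin d) (s : ℝ), (s = 1 ∨ s = -1) ∧ y = s • u i

theorem isU_step {d : ℕ} {g : Fin d → (E d ≃ₗᵢ[ℝ] E d)} {u : OrthonormalBasis (Fin d) ℝ (E d)}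
    (hg : ∀ j i : Fin d, g j (u i) =
      if h : j.val + 1 < d then u (Equiv.swap j ⟨j.val + 1, h⟩ i)
      else (if i = j then - u i else u i))
    (j : Fin d) {y : E d} (h : IsU u y) : IsU u (g j y) := by
  obtain ⟨i, s, hs, rfl⟩ := h
  by_cases hj : j.val + 1 < d
  · refine ⟨Equiv.swap j ⟨j.val + 1, hj⟩ i, s, hs, ?_⟩
    rw [map_smul, hg, dif_pos hj]
  · by_cases hi : i = j
    · refine ⟨i, -s, ?_, ?_⟩
      · rcases hs with h | h <;> simp [h]
      · rw [map_smul, hg, dif_neg hj, if_pos hi]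
        simp
    · refine ⟨i, s, hs, ?_⟩
      rw [map_smul, hg, dif_neg hj, if_neg hi]

theorem isU_word {d : ℕ} {g : Fin d → (E d ≃ₗᵢ[ℝ] E d)} {u : OrthonormalBasis (Fin d) ℝ (E d)}
    (hg : ∀ j i : Fin d, g j (u i) =
      if h : j.val + 1 < d then u (Equiv.swap j ⟨j.val + 1, h⟩ i)
      else (if i = j then - u i else u i))
    (w : List (Fin d)) {y : E d} (h : IsU u y) : IsU u ((w.map g).prod y) := by
  induction w with
  | nil => exact h
  | cons j w ih =>
    rw [List.map_cons, List.prod_cons]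
    exact isU_step hg j ih

theorem inO_step {d : ℕ} {y0 : E d} {g : Fin d → (E d ≃ₗᵢ[ℝ] E d)} {M : Mix d A}
    {x : E d ≃ₗᵢ[ℝ] E d} {y : E d} {a : A} (hx : Kp g M x) (h : InO y0 g M y a) :
    InO y0 g M (x y) a := by
  obtain ⟨w', hw1, hw2⟩ := hx
  obtain ⟨w, hwa, hwy⟩ := h
  refine ⟨w' ++ w, ?_, ?_⟩
  · rw [List.map_append, List.prod_append, hw2, one_mul, hwa]
  · rw [List.map_append, List.prod_append, hw1, ← hwy]
    rfl

end QRX

open QRC QRX in
theorem t_QRX : StmtQRX := by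
  intro d hd y0 g A M hC hl a
  obtain ⟨n, rfl⟩ : ∃ n, d = n + 1 := ⟨d - 1, by omega⟩
  obtain ⟨u, hy0, hg⟩ := hC
  obtain ⟨l, -, hl2, hπ⟩ := hl
  have hg1 : ∀ (j : Fin n) (i : Fin (n + 1)),
      g j.castSucc (u i) = u (Equiv.swap j.castSucc j.succ i) := by
    intro j i
    have hj : j.castSucc.val + 1 < n + 1 := by simp
    rw [hg, dif_pos hj]
    rfl
  have hg0 : ∀ i, g (Fin.last n) (u i) = if i = Fin.last n then - u i else u i := by
    intro i
    rw [hg, dif_neg (by simp)]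
  -- all the exchanges
  have h1 : ∀ i i' : Fin (n + 1), i ≠ i' → Pp g M u i i' 1 := by
    intro i i' h
    obtain ⟨l', rfl⟩ : ∃ l' : Fin n, l'.castSucc = l := ⟨⟨l.val, by omega⟩, rfl⟩
    have hne : l'.castSucc ≠ l'.succ := by
      intro e
      have := congrArg Fin.val e
      simp at this
    have h0 : Pp g M u l'.castSucc l'.succ 1 := by
      refine ⟨g l'.castSucc, ⟨[l'.castSucc], by simp, by simp [hπ]⟩, ?_, ?_, ?_⟩
      · rw [hg1, Equiv.swap_apply_left, one_smul]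
      · rw [hg1, Equiv.swap_apply_right, one_smul]
      · intro m hm hm'
        rw [hg1, Equiv.swap_apply_of_ne_of_ne hm hm']
    obtain ⟨σ, e1, e2⟩ := exists_perm hne h
    have := QRX.Pp_perm hg1 σ h0
    rwa [e1, e2] at this
  have hall : ∀ i i' : Fin (n + 1), i ≠ i' → ∀ s : ℝ, s = 1 ∨ s = -1 → Pp g M u i i' s := by
    intro i i' h s hs
    rcases hs with rfl | rfl
    · exact h1 i i' h
    · have hne : Fin.last n ≠ (0 : Fin (n + 1)) := by
        intro e
        have := congrArg Fin.val e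
        simp at this
        omega
      have h2 := Pp_zero (j := Fin.last n) hg0 hne.symm (h1 (Fin.last n) 0 hne)
      obtain ⟨σ, e1, e2⟩ := exists_perm hne h
      have := QRX.Pp_perm hg1 σ h2
      rwa [e1, e2] at this
  -- a point of the orbit over `a`
  obtain ⟨q, hq, hqa⟩ := M.trans a
  obtain ⟨w, rfl⟩ := QRC.exists_word M hq
  have hU : IsU u ((w.map g).prod y0) := by
    apply isU_word hg
    exact ⟨⟨0, by omega⟩, 1, Or.inl rfl, by rw [hy0 (by omega), one_smul]⟩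
  obtain ⟨i, t, ht, hy⟩ := hU
  have hO : InO y0 g M (t • u i) a := ⟨w, hqa, hy⟩
  -- moving
  have hmove : ∀ (k m : Fin (n + 1)) (t : ℝ), (t = 1 ∨ t = -1) → k ≠ m →
      InO y0 g M (t • u k) a → ∀ s : ℝ, s = 1 ∨ s = -1 → InO y0 g M (s • u m) a := by
    intro k m t ht hkm h s hs
    have hts : t * s = 1 ∨ t * s = -1 := by
      rcases ht with h | h <;> rcases hs with h' | h' <;> rw [h, h'] <;> norm_num
    obtain ⟨x, hx, e1, -, -⟩ := hall k m hkm (t * s) hts
    have := inO_step hx h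
    rw [map_smul, e1, smul_smul, ← mul_assoc] at this
    have htt : t * t = 1 := by rcases ht with h | h <;> rw [h] <;> norm_num
    rwa [htt, one_mul] at this
  have hev : ∀ m : Fin (n + 1), ∀ s : ℝ, s = 1 ∨ s = -1 → InO y0 g M (s • u m) a := by
    intro m s hs
    by_cases him : i = m
    · subst him
      obtain ⟨b, hb⟩ : ∃ b : Fin (n + 1), b ≠ i := by
        by_cases h : i = ⟨0, by omega⟩
        · exact ⟨⟨1, by omega⟩, by rw [h]; intro e; simp at e⟩
        · exact ⟨⟨0, by omega⟩, fun e => h e.symm⟩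
      exact hmove b i 1 (Or.inl rfl) hb (hmove i b t ht hb.symm hO 1 (Or.inl rfl)) s hs
    · exact hmove i m t ht him hO s hs
  rw [eq_top_iff, ← u.toBasis.span_eq, Submodule.span_le]
  rintro _ ⟨m, rfl⟩
  rw [OrthonormalBasis.coe_toBasis, SetLike.mem_coe]
  have h2 : (2 : ℝ) • u m ∈ Submodule.span ℝ
      {v | ∃ y y', InO y0 g M y a ∧ InO y0 g M y' a ∧ v = y - y'} := by
    apply Submodule.subset_span
    refine ⟨_, _, hev m 1 (Or.inl rfl), hev m (-1) (Or.inr rfl), ?_⟩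
    module
  have h6 := Submodule.smul_mem _ (2 : ℝ)⁻¹ h2
  rwa [smul_smul, inv_mul_cancel₀ (by norm_num), one_smul] at h6

end

end FOK
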