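import Pool.Agent.FOK.Stmts1

/-!
# Section 4.2: the dimension of the span of `XX q j`
-/

namespace FOK

open Lib_helper64.FO FO2
open scoped RealInnerProductSpace Nat

noncomputable section

namespace S2

variable {d k : ℕ} {Γ : Type} [Group Γ] {X : Type} [MulAction Γ X] (G : KGeo d k Γ X)

/-- the product `ρ (i - 1) * ρ (i - 2) * … * ρ (i - s)` -/
def gam (i : ℕ) : ℕ → Γ
  | 0 => 1
  | s + 1 => gam i s * G.ρ (i - (s + 1))

theorem gam_mem_up (i : ℕ) : ∀ s, gam G i s ∈ G.up (i - s) := by
  intro s
  induction s with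
  | zero => exact one_mem _
  | succ s ih =>
    exact mul_mem (G.up_anti (by omega) ih) (G.ρ_mem_up le_rfl)

theorem gam_mem_dn (i : ℕ) : ∀ s, s ≤ i → gam G i s ∈ G.dn i := by
  intro s
  induction s with
  | zero => intro _; exact one_mem _
  | succ s ih =>
    intro hs
    exact mul_mem (ih (by omega)) (G.ρ_mem_dn (by omega))

/-- going up with (L2) -/
theorem climb {i : ℕ} {n : Γ} (hn : n ∈ G.up i) : ∀ s, s ≤ i →
    (gam G i s)⁻¹ * n * gam G i s ∈ G.up (i - s + 1) → n ∈ G.up (i + 1) := by
  intro s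
  induction s with
  | zero =>
    intro _ h
    have e : (gam G i 0)⁻¹ * n * gam G i 0 = n := by
      rw [gam]; group
    rw [e] at h
    exact h
  | succ s ih =>
    intro hs h
    apply ih (by omega)
    have e1 : i - s + 1 = i - (s + 1) + 2 := by omega
    rw [e1]
    apply G.L2
    · have h1 : gam G i s ∈ G.up (i - (s + 1) + 1) := by
        have e2 : i - (s + 1) + 1 = i - s := by omega
        rw [e2]
        exact gam_mem_up G i s
      exact mul_mem (mul_mem (inv_mem h1) (G.up_anti (by omega) hn)) h1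
    · have e3 : (gam G i (s + 1))⁻¹ * n * gam G i (s + 1)
          = G.ρ (i - (s + 1)) * ((gam G i s)⁻¹ * n * gam G i s) * G.ρ (i - (s + 1)) := by
        rw [gam, mul_inv_rev, G.inv_ρ]
        group
      rw [e3] at h
      exact h

end S2

theorem t_S2 : M_S2 := by
  intro hSTEP d k Γ _ _ X _ G q j m hjq hqm hmd hNZ g
  -- the chain `S ⊓ V_i` is strictly increasing
  have claim : ∀ i, q + 1 ≤ i → i < m → ¬ (G.S q g j ⊓ G.V g (i + 1) ≤ G.S q g j ⊓ G.V g i) := by
    intro i hqi him hle
    apply hNZ i him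
    intro n hn
    apply S2.climb G hn.2 (i - q) (by omega)
    have e : i - (i - q) = q := by omega
    rw [e]
    apply G.mem_up_of_fix
    intro a ha
    have hup : S2.gam G i (i - q) ∈ G.up q := by
      have := S2.gam_mem_up G i (i - q)
      rwa [e] at this
    have hdn : S2.gam G i (i - q) ∈ G.dn i := S2.gam_mem_dn G i _ (by omega)
    have h1 : G.F g (S2.gam G i (i - q) • a • G.x0) ∈ G.S q g j :=
      G.F_mem_S g ⟨_, G.up_anti hjq hup, a, ha, rfl⟩
    have h2 : G.F g (S2.gam G i (i - q) • a • G.x0) ∈ G.V g (i + 1) := by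
      rw [← mul_smul]
      exact G.F_mem_V g (mul_mem hdn (G.dn_mono (by omega) ha))
    have h3 := (hle ⟨h1, h2⟩).2 n hn
    rw [G.R_F g hn.1] at h3
    have h4 := G.F_inj g h3
    rw [mul_smul, mul_smul, h4, inv_smul_smul]
  have dims : ∀ i, q + 1 ≤ i → i ≤ m →
      i ≤ Module.finrank ℝ (G.S q g j ⊓ G.V g i : Submodule ℝ (E d)) := by
    intro i hi
    induction i, hi using Nat.le_induction with
    | base =>
      intro _
      refine ((hSTEP d k Γ X G g).2.2.2 q fun i hi => hNZ i (by omega)).trans ?_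
      exact Submodule.finrank_mono (le_inf (G.W_le_S q g j) (G.W_le_V g q))
    | succ i hi ih =>
      intro him
      have h1 := ih (by omega)
      have h2 : (G.S q g j ⊓ G.V g i : Submodule ℝ (E d)) < G.S q g j ⊓ G.V g (i + 1) :=
        lt_of_le_not_ge (inf_le_inf_left _ (G.V_mono g (Nat.le_succ i))) (claim i hi (by omega))
      have h3 := Submodule.finrank_lt_finrank_of_lt h2
      omega
  exact (dims m hqm le_rfl).trans (Submodule.finrank_mono inf_le_left)

end

end FOK
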