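import Pool.Agent.FOK.Stmts3

/-!
# Module TOP: what is known after section 9
-/

namespace FOK

open Lib_helper64.FO FO2
open scoped RealInnerProductSpace Nat

namespace TOP

variable {d k : ℕ} {Γ : Type} [Group Γ] {X : Type} [MulAction Γ X]

theorem fin_E : Module.finrank ℝ (E d) = d := finrank_euclideanSpace_fin

/-- a strictly increasing chain of `d + 1` subspaces has the dimensions `0, …, d` -/
theorem dims (V : ℕ → Submodule ℝ (E d)) (h : ∀ i, i < d → V i < V (i + 1)) :
    ∀ i, i ≤ d → Module.finrank ℝ (V i) = i := by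
  have hs : ∀ i, i < d → Module.finrank ℝ (V i) + 1 ≤ Module.finrank ℝ (V (i + 1)) := fun i hi =>
    Submodule.finrank_lt_finrank_of_lt (h i hi)
  have h1 : ∀ i, i ≤ d → i ≤ Module.finrank ℝ (V i) := by
    intro i
    induction i with
    | zero => intro _; exact Nat.zero_le _
    | succ i ih =>
      intro hi
      have := ih (by omega)
      have := hs i (by omega)
      omega
  have h2 : ∀ m i, i + m = d → Module.finrank ℝ (V i) + m ≤ d := by
    intro m
    induction m with
    | zero =>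
      intro i _
      have := Submodule.finrank_le (V i)
      rw [fin_E] at this
      omega
    | succ m ih =>
      intro i hi
      have h3 := ih (i + 1) (by omega)
      have h4 := hs i (by omega)
      omega
  intro i hi
  have h5 := h1 i hi
  have h6 := h2 (d - i) i (by omega)
  omega

end TOP

open TOP in
theorem t_TOP : M_TOP := by
  intro hNZ hSTEP hS2 hRUN hN1 hN4 hNINE hFS d k Γ _ _ X _ G u q j1 j2 hk hS hq
  have e1 := hS.hj
  have e2 := hS.hjq
  have e3 := hS.hd
  have hroots : ∀ g, RootsFrom G q j1 j2 (j1 + 2) g := fun g =>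
    hRUN d k Γ X G u q j1 j2 hk hS g
  obtain ⟨h3, -⟩ := hN1 d k Γ X G u q j1 j2 hk hS hroots
  have h4 := hN4 d k Γ X G u q j1 j2 hk hS hroots
  have hnine : ∀ m, j1 + 3 ≤ m → m ≤ j1 + 5 → Nine G m :=
    hNINE d k Γ X G u q j1 j2 hk hS hroots h3 h4
  have hup4 : G.up (j1 + 4) ≤ G.N := hFS d k Γ X G (j1 + 3) (hnine _ (by omega) (by omega))
  have hup2 : G.up (j1 + 2) ≤ G.N := by
    rw [KGeo.up, gpar, Subgroup.closure_le]
    rintro _ ⟨j, hj, rfl⟩
    have hj' : j1 + 2 ≤ j := hj
    rcases Nat.lt_or_ge j (j1 + 4) with h | h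
    · exact (h4 j hj' (by omega)).1
    · exact hup4 (G.ρ_mem_up h)
  have hnz : ∀ i, i < d → G.NZ i := (hNZ d k Γ X G).2 (j1 + 2) (by omega) hup2
  have hdim : ∀ g i, i ≤ d → Module.finrank ℝ (G.V g i) = i := fun g =>
    dims (fun i => G.V g i) fun i hi => (hSTEP d k Γ X G g).2.1 i (hnz i hi)
  have htop : ∀ g, G.S q g j1 = ⊤ := by
    intro g
    have h5 := hS2 d k Γ X G q j1 d (by omega) (by omega) le_rfl hnz g
    apply Submodule.eq_top_of_finrank_eq
    have h6 := Submodule.finrank_le (G.S q g j1)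
    rw [fin_E] at h6 ⊢
    exact le_antisymm h6 h5
  have hYU : ∀ g, G.Y g (j1 + 5) = G.U g (j1 + 5) := by
    intro g
    have h7 := hS.Y g (j1 + 5) (by omega) (by omega)
    rw [htop g, top_inf_eq] at h7
    exact h7.symm
  refine ⟨by omega, by omega, by omega, ?_, hnz, hdim, ?_, ?_, ?_, ?_⟩
  · have e4 : j1 + 5 - 3 = j1 + 2 := by omega
    rw [e4]
    exact hup2
  · intro g i hi
    refine Submodule.eq_of_le_of_finrank_le (G.W_le_V g i) ?_
    rw [hdim g (i + 1) (by omega)]
    exact (hSTEP d k Γ X G g).2.2.2 i fun m hm => hnz m (by omega)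
  · intro g
    obtain ⟨a, ha⟩ := (hroots g).1 (j1 + 5) (by omega) (by omega)
    exact ⟨a, ha.norm, (h4 (j1 + 5) (by omega) (by omega)).2 g a ha⟩
  · exact fun g => (hnine (j1 + 5) (by omega) le_rfl).irr g
  · intro g
    rw [← hYU g]
    exact (hnine (j1 + 5) (by omega) le_rfl).span g

end FOK
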