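import Pool.Agent.FOK.Stmts3

/-!
# Module TRC: transitivity on the vertices of the cross-polytope (10.9)
-/

namespace FOK

open Lib_helper64.FO FO2
open scoped RealInnerProductSpace Nat

noncomputable section

namespace TRC

/-- The elements of the closure of `TT G 0 l` are in `N`. -/
theorem closure_le_N {d k : ℕ} {Γ : Type} [Group Γ] {X : Type} [MulAction Γ X]
    {G : KGeo d k Γ X} {l : ℕ} (hT : Top G l) : Subgroup.closure (TT G 0 l) ≤ G.N := by
  rw [Subgroup.closure_le]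
  rintro x ⟨γ, -, rfl⟩
  exact G.conj_mem_N γ (hT.up (G.ρ_mem_up (Nat.sub_le l 3)))

/-- A reflection in a root `(σ u i + τ u j) / √2` takes `u i` to `- σ τ u j`. -/
theorem sref_root {d : ℕ} (u : OrthonormalBasis (Fin d) ℝ (E d)) {i j : Fin d} (hij : i ≠ j)
    (s t : ℤˣ) :
    sref ((1 / √2 : ℝ) • (sg s • u i + sg t • u j)) (u i) = -(sg s * sg t) • u j := by
  have h1 : ⟪u i, u i⟫ = (1 : ℝ) := by
    rw [real_inner_self_eq_norm_sq, u.orthonormal.1 i]; norm_num
  have h2 : ⟪u j, u i⟫ = (0 : ℝ) := u.orthonormal.2 hij.symm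
  have hs : sg s * sg s = 1 := by
    rcases Int.units_eq_one_or s with rfl | rfl <;> simp [sg]
  have h3 : (1 / √2 : ℝ) * (1 / √2) = 1 / 2 := by
    rw [div_mul_div_comm, Real.mul_self_sqrt (by norm_num)]; norm_num
  rw [sref, real_inner_smul_left, inner_add_left, real_inner_smul_left, real_inner_smul_left,
    h1, h2, smul_smul, smul_add, smul_smul, smul_smul]
  have e1 : 2 * (1 / √2 * (sg s * 1 + sg t * 0)) * (1 / √2) * sg s = 1 := by
    calc 2 * (1 / √2 * (sg s * 1 + sg t * 0)) * (1 / √2) * sg s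
        = 2 * (1 / √2 * (1 / √2)) * (sg s * sg s) := by ring
      _ = 1 := by rw [h3, hs]; norm_num
  have e2 : 2 * (1 / √2 * (sg s * 1 + sg t * 0)) * (1 / √2) * sg t = sg s * sg t := by
    calc 2 * (1 / √2 * (sg s * 1 + sg t * 0)) * (1 / √2) * sg t
        = 2 * (1 / √2 * (1 / √2)) * (sg s * sg t) := by ring
      _ = sg s * sg t := by rw [h3]; ring
  rw [e1, e2]
  module

/-- One reflection: from `u i` to `ε u j` with `i ≠ j`. -/
theorem one_step {d k : ℕ} {Γ : Type} [Group Γ] {X : Type} [MulAction Γ X]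
    {G : KGeo d k Γ X} {l : ℕ} {u : OrthonormalBasis (Fin d) ℝ (E d)}
    (hD : IsD (Ph G 1 0 l) u) {i j : Fin d} (hij : i ≠ j) (ε : ℤˣ) :
    ∃ x ∈ Subgroup.closure (TT G 0 l), G.R 1 x (u i) = sg ε • u j := by
  have ha : (1 / √2 : ℝ) • (sg 1 • u i + sg (-ε) • u j) ∈ Ph G 1 0 l :=
    (hD _).2 ⟨i, j, hij, 1, -ε, rfl⟩
  obtain ⟨-, x, hx, hR⟩ := ha
  refine ⟨x, Subgroup.subset_closure hx, ?_⟩
  rw [hR, sref_root u hij]
  congr 1
  rcases Int.units_eq_one_or ε with rfl | rfl <;> simp [sg]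

/-- From `u i` to `ε u j`, for all `i` and `j`. -/
theorem two_step {d k : ℕ} {Γ : Type} [Group Γ] {X : Type} [MulAction Γ X]
    {G : KGeo d k Γ X} {l : ℕ} (hT : Top G l) {u : OrthonormalBasis (Fin d) ℝ (E d)}
    (hD : IsD (Ph G 1 0 l) u) (i j : Fin d) (ε : ℤˣ) :
    ∃ x ∈ Subgroup.closure (TT G 0 l), G.R 1 x (u i) = sg ε • u j := by
  by_cases hij : i = j
  · subst hij
    have hd : 2 ≤ d := by have := hT.ld; omega
    obtain ⟨m, hm⟩ : ∃ m : Fin d, m ≠ i := by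
      by_cases h0 : i.val = 0
      · exact ⟨⟨1, by omega⟩, fun h => by rw [← h] at h0; simp at h0⟩
      · exact ⟨⟨0, by omega⟩, fun h => h0 (by rw [← h])⟩
    obtain ⟨x, hx, hx'⟩ := one_step hD hm.symm 1
    obtain ⟨y, hy, hy'⟩ := one_step hD hm ε
    have hN := closure_le_N hT
    refine ⟨y * x, mul_mem hy hx, ?_⟩
    rw [G.R_mul_apply 1 (hN hy) (hN hx), hx', map_smul, hy']
    simp [sg]
  · exact one_step hD hij ε

/-- The words take `u i` to a vector `± u j`. -/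
theorem word {d : ℕ} (gm : ℕ → (E d ≃ₗᵢ[ℝ] E d)) (u : OrthonormalBasis (Fin d) ℝ (E d))
    (hg : ∀ j i : Fin d, gm j (u i) = if h : j.val + 1 < d then u (Equiv.swap j ⟨j.val + 1, h⟩ i)
        else (if i = j then - u i else u i)) (w : List (Fin d)) (i : Fin d) :
    ∃ (j : Fin d) (ε : ℤˣ), (w.map (fun j : Fin d => gm j)).prod (u i) = sg ε • u j := by
  induction w with
  | nil => exact ⟨i, 1, by simp [sg]⟩
  | cons a w ih =>
    obtain ⟨j, ε, h⟩ := ih
    rw [List.map_cons, List.prod_cons]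
    have e : (gm a * (w.map (fun j : Fin d => gm j)).prod) (u i) =
        gm a ((w.map (fun j : Fin d => gm j)).prod (u i)) := rfl
    rw [e, h, map_smul, hg]
    split_ifs with h1 h2
    · exact ⟨_, ε, rfl⟩
    · refine ⟨j, -ε, ?_⟩
      rcases Int.units_eq_one_or ε with rfl | rfl <;> simp [sg]
    · exact ⟨j, ε, rfl⟩

theorem list_eq {d : ℕ} (gm : ℕ → (E d ≃ₗᵢ[ℝ] E d)) (w : List (Fin d)) :
    List.map (fun j => gm j) (do let a ← w; pure a.val) = w.map (fun j : Fin d => gm j) := by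
  induction w with
  | nil => rfl
  | cons a w ih =>
    rw [List.map_cons, ← ih]
    rfl

end TRC

theorem t_TRC : S_TRC := by
  intro d k Γ _ _ X _ G l hT gm u hD hg h w w'
  obtain ⟨i, ε, hi⟩ := TRC.word gm u hg w ⟨0, h⟩
  obtain ⟨i', ε', hi'⟩ := TRC.word gm u hg w' ⟨0, h⟩
  obtain ⟨x, hx, hx'⟩ := TRC.two_step hT hD i i' (ε * ε')
  refine ⟨x, hx, ?_⟩
  rw [TRC.list_eq, TRC.list_eq, hi, hi', map_smul, hx', smul_smul]
  congr 1
  rcases Int.units_eq_one_or ε with rfl | rfl <;> rcases Int.units_eq_one_or ε' with rfl | rfl <;>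
    simp [sg]

end

end FOK
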