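import Pool.Agent.FOK.Stmts3

/-!
# 10.9, cube: two points `g_w (∑ u i)` with the same parity are conjugate under the group generated
by the reflections
-/

namespace FOK

open Lib_helper64.FO FO2
open scoped RealInnerProductSpace

noncomputable section

namespace TRD

variable {d : ℕ}

/-- the vertex of the cube with the signs `s` -/
def pt (u : OrthonormalBasis (Fin d) ℝ (E d)) (s : Fin d → ℤˣ) : E d := ∑ i, sg (s i) • u i

theorem sg_one : sg (1 : ℤˣ) = 1 := by simp [sg]

theorem sg_neg (a : ℤˣ) : sg (-a) = -sg a := by simp [sg]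

theorem sum_eq (u : OrthonormalBasis (Fin d) ℝ (E d)) : ∑ i, u i = pt u 1 := by
  unfold pt
  exact Finset.sum_congr rfl fun i _ => by rw [Pi.one_apply, sg_one, one_smul]

theorem inner_pt (u : OrthonormalBasis (Fin d) ℝ (E d)) (s : Fin d → ℤˣ) (k : Fin d) :
    ⟪u k, pt u s⟫ = sg (s k) := by
  unfold pt
  exact u.orthonormal.inner_right_fintype (fun i => sg (s i)) k

theorem ext_inner (u : OrthonormalBasis (Fin d) ℝ (E d)) {v w : E d}
    (h : ∀ k, ⟪u k, v⟫ = ⟪u k, w⟫) : v = w := by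
  apply u.repr.injective
  ext k
  rw [u.repr_apply_apply, u.repr_apply_apply]
  exact h k

/-- the generator `j` acts on the signs -/
theorem gm_pt (u : OrthonormalBasis (Fin d) ℝ (E d)) (gm : ℕ → (E d ≃ₗᵢ[ℝ] E d))
    (hg : ∀ j i : Fin d, gm j (u i) =
        if j.val = 0 then (if i = j then - u i else u i) else u (Equiv.swap (prd j) j i))
    (j : Fin d) (s : Fin d → ℤˣ) : gm j (pt u s) = pt u (m2 j s) := by
  unfold pt
  rw [map_sum]
  by_cases h : j.val = 0
  · refine Finset.sum_congr rfl fun i _ => ?_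
    rw [map_smul, hg, if_pos h, m2, if_pos h]
    by_cases hi : i = j
    · rw [if_pos hi, if_pos hi, sg_neg, smul_neg, neg_smul]
    · rw [if_neg hi, if_neg hi]
  · rw [← Equiv.sum_comp (Equiv.swap (prd j) j)]
    refine Finset.sum_congr rfl fun i _ => ?_
    rw [map_smul, hg, if_neg h, m2, if_neg h, Equiv.swap_apply_self]

theorem prod_m2 (j : Fin d) (s : Fin d → ℤˣ) :
    ∏ k, m2 j s k = (if j.val = 0 then (-1 : ℤˣ) else 1) * ∏ k, s k := by
  by_cases h : j.val = 0
  · rw [if_pos h, ← Finset.mul_prod_erase Finset.univ _ (Finset.mem_univ j),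
      ← Finset.mul_prod_erase Finset.univ s (Finset.mem_univ j), ← mul_assoc]
    congr 1
    · rw [m2, if_pos h, if_pos rfl, neg_one_mul]
    · refine Finset.prod_congr rfl fun k hk => ?_
      rw [m2, if_pos h, if_neg (Finset.ne_of_mem_erase hk)]
  · rw [if_neg h, one_mul, ← Equiv.prod_comp (Equiv.swap (prd j) j) s]
    refine Finset.prod_congr rfl fun k _ => ?_
    rw [m2, if_neg h]

/-- `w.map (fun j => f j)` for a function `f` on the naturals and a list `w` in `Fin d` -/
theorem map_coe {β : Type} (f : ℕ → β) (w : List (Fin d)) :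
    List.map (fun j => f j) (do let a ← w; pure (a : ℕ)) = w.map (fun j : Fin d => f j.val) := by
  induction w with
  | nil => rfl
  | cons a w ih =>
    rw [List.map_cons, ← ih]
    rfl

theorem word (u : OrthonormalBasis (Fin d) ℝ (E d)) (gm : ℕ → (E d ≃ₗᵢ[ℝ] E d))
    (hg : ∀ j i : Fin d, gm j (u i) =
        if j.val = 0 then (if i = j then - u i else u i) else u (Equiv.swap (prd j) j i))
    (w : List (Fin d)) : ∃ s : Fin d → ℤˣ,
      (w.map (fun j : Fin d => if j.val = 0 then (-1 : ℤˣ) else 1)).prod = ∏ k, s k ∧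
      (w.map (fun j : Fin d => gm j.val)).prod (∑ i, u i) = pt u s := by
  induction w with
  | nil =>
    refine ⟨1, ?_, ?_⟩
    · simp
    · rw [← sum_eq]
      rfl
  | cons j w ih =>
    obtain ⟨s, h1, h2⟩ := ih
    refine ⟨m2 j s, ?_, ?_⟩
    · rw [List.map_cons, List.prod_cons, h1, prod_m2]
    · rw [List.map_cons, List.prod_cons, ← gm_pt u gm hg, ← h2]
      rfl

/-- the product of the two reflections changes two signs -/
theorem flip (u : OrthonormalBasis (Fin d) ℝ (E d)) {i j : Fin d} (hij : i ≠ j)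
    (s : Fin d → ℤˣ) :
    sref ((1 / √2 : ℝ) • (sg 1 • u i + sg 1 • u j))
      (sref ((1 / √2 : ℝ) • (sg 1 • u i + sg (-1) • u j)) (pt u s)) =
    pt u ((Pi.mulSingle i (-1) * Pi.mulSingle j (-1)) * s) := by
  have h2 : (1 / √2 : ℝ) * (1 / √2) = 1 / 2 := by
    rw [div_mul_div_comm, one_mul, Real.mul_self_sqrt (by norm_num)]
  have hii : ∀ a b : Fin d, ⟪u a, u b⟫ = if a = b then (1 : ℝ) else 0 :=
    orthonormal_iff_ite.1 u.orthonormal
  rw [sg_neg, sg_one]
  have e1 : ∀ (a b c : E d) (v : E d), sref ((1 / √2 : ℝ) • c) v = v - ⟪c, v⟫ • c := by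
    intro a b c v
    rw [sref, inner_smul_left, smul_smul]
    congr 2
    simp only [conj_trivial]
    have : 2 * (1 / √2 * ⟪c, v⟫) * (1 / √2) = 2 * ((1 / √2) * (1 / √2)) * ⟪c, v⟫ := by ring
    rw [this, h2]
    ring
  rw [e1 (u i) (u i), e1 (u i) (u i)]
  apply ext_inner u
  intro k
  simp only [inner_sub_right, inner_smul_right, inner_add_right, inner_add_left, inner_pt, hii,
    Pi.mul_apply, one_smul, neg_smul, inner_neg_left, inner_neg_right]
  by_cases hki : k = i
  · subst hki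
    simp [hij, hij.symm, Pi.mulSingle_eq_same, Pi.mulSingle_eq_of_ne, sg_neg]
  · by_cases hkj : k = j
    · subst hkj
      simp [hij, hij.symm, Pi.mulSingle_eq_same, Pi.mulSingle_eq_of_ne, sg_neg]
    · simp [hij, hij.symm, hki, hkj, Pi.mulSingle_eq_of_ne]

section group

variable {k : ℕ} {Γ : Type} [Group Γ] {X : Type} [MulAction Γ X] (G : KGeo d k Γ X) {l : ℕ}

theorem closure_le (hT : Top G l) : Subgroup.closure (TT G 0 l) ≤ G.N := by
  rw [Subgroup.closure_le]
  rintro _ ⟨γ, _, rfl⟩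
  exact G.conj_mem_N γ (hT.up (G.ρ_mem_up (by omega)))

/-- the sign changes that are realised by the group generated by the reflections -/
def K (u : OrthonormalBasis (Fin d) ℝ (E d)) (hT : Top G l) : Submonoid (Fin d → ℤˣ) where
  carrier := {e | ∀ s, ∃ x ∈ Subgroup.closure (TT G 0 l), G.R 1 x (pt u s) = pt u (e * s)}
  one_mem' := by
    intro s
    refine ⟨1, one_mem _, ?_⟩
    rw [G.R_one, one_mul]
    rfl
  mul_mem' := by
    intro a b ha hb s
    obtain ⟨x, hx, h1⟩ := hb s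
    obtain ⟨y, hy, h2⟩ := ha (b * s)
    refine ⟨y * x, mul_mem hy hx, ?_⟩
    rw [G.R_mul_apply 1 (closure_le G hT hy) (closure_le G hT hx), h1, h2, mul_assoc]

theorem mem_K (u : OrthonormalBasis (Fin d) ℝ (E d)) (hT : Top G l) {e : Fin d → ℤˣ} :
    e ∈ K G u hT ↔ ∀ s, ∃ x ∈ Subgroup.closure (TT G 0 l), G.R 1 x (pt u s) = pt u (e * s) :=
  Iff.rfl

theorem pair_mem (u : OrthonormalBasis (Fin d) ℝ (E d)) (hT : Top G l)
    (hD : IsD (Ph G 1 0 l) u) {i j : Fin d} (hij : i ≠ j) :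
    Pi.mulSingle i (-1) * Pi.mulSingle j (-1) ∈ K G u hT := by
  rw [mem_K]
  intro s
  obtain ⟨_, x, hx, h1⟩ := (hD ((1 / √2 : ℝ) • (sg 1 • u i + sg 1 • u j))).2 ⟨i, j, hij, 1, 1, rfl⟩
  obtain ⟨_, y, hy, h2⟩ := (hD ((1 / √2 : ℝ) • (sg 1 • u i + sg (-1) • u j))).2
    ⟨i, j, hij, 1, -1, rfl⟩
  have hx' := Subgroup.subset_closure (k := TT G 0 l) hx
  have hy' := Subgroup.subset_closure (k := TT G 0 l) hy
  refine ⟨x * y, mul_mem hx' hy', ?_⟩
  rw [G.R_mul_apply 1 (closure_le G hT hx') (closure_le G hT hy'), h1, h2, flip u hij]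

theorem even_mem (u : OrthonormalBasis (Fin d) ℝ (E d)) (hT : Top G l)
    (hD : IsD (Ph G 1 0 l) u) (e : Fin d → ℤˣ) (he : ∏ i, e i = 1) : e ∈ K G u hT := by
  have hd : 0 < d := by have := hT.ld; omega
  set z : Fin d := ⟨0, hd⟩ with hz
  have key : e = ∏ i, (Pi.mulSingle i (e i) * Pi.mulSingle z (e i)) := by
    rw [Finset.prod_mul_distrib, Finset.univ_prod_mulSingle]
    have h1 : ∏ i, (Pi.mulSingle z (e i) : Fin d → ℤˣ) = 1 := by
      have h2 := map_prod (MonoidHom.mulSingle (fun _ : Fin d => ℤˣ) z) e Finset.univ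
      rw [he, map_one] at h2
      exact h2.symm
    rw [h1, mul_one]
  rw [key]
  refine Submonoid.prod_mem _ fun i _ => ?_
  rcases Int.units_eq_one_or (e i) with h | h
  · rw [h, Pi.mulSingle_one, Pi.mulSingle_one, mul_one]
    exact one_mem _
  · rw [h]
    by_cases hi : i = z
    · have : (Pi.mulSingle i (-1) * Pi.mulSingle z (-1) : Fin d → ℤˣ) = 1 := by
        rw [hi, ← Pi.mulSingle_mul, neg_mul_neg, one_mul, Pi.mulSingle_one]
      rw [this]
      exact one_mem _
    · exact pair_mem G u hT hD hi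

end group

end TRD

theorem t_TRD : S_TRD := by
  intro d k Γ _ _ X _ G l hT gm u hD hg w w' hw
  obtain ⟨s, h1, h2⟩ := TRD.word u gm hg w
  obtain ⟨s', h3, h4⟩ := TRD.word u gm hg w'
  rw [TRD.map_coe, TRD.map_coe, h2, h4]
  have he : ∏ i, (s' * s) i = 1 := by
    have : ∏ i, (s' * s) i = (∏ i, s' i) * ∏ i, s i := by
      rw [← Finset.prod_mul_distrib]
      rfl
    rw [this, ← h1, ← h3, ← hw, Int.units_mul_self]
  have h5 := TRD.even_mem G u hT hD _ he
  obtain ⟨x, hx, h6⟩ := (TRD.mem_K G u hT).1 h5 s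
  refine ⟨x, hx, ?_⟩
  rw [h6, mul_assoc]
  have h7 : s * s = 1 := by
    funext i
    exact Int.units_mul_self _
  rw [h7, mul_one]

end

end FOK
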