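import Pool.Agent.FOK.Stmts1

/-!
# Existence of the window
-/

namespace FOK

open Lib_helper64.FO FO2
open scoped RealInnerProductSpace Nat

namespace WIN

section

variable {d k : ℕ} {Γ : Type} [Group Γ] {X : Type} [MulAction Γ X] (G : KGeo d k Γ X)

/-- representatives of the right cosets of `H` -/
noncomputable def rep (c : Γ ⧸ G.H) : Γ := (Quotient.out c)⁻¹

theorem exists_rep (g : Γ) : ∃ c : Γ ⧸ G.H, ∃ h ∈ G.H, g = h * rep G c := by
  refine ⟨QuotientGroup.mk g⁻¹, g * (Quotient.out (QuotientGroup.mk g⁻¹ : Γ ⧸ G.H)), ?_, ?_⟩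
  · have h1 : (QuotientGroup.mk (Quotient.out (QuotientGroup.mk g⁻¹ : Γ ⧸ G.H)) : Γ ⧸ G.H)
        = QuotientGroup.mk g⁻¹ := Quotient.out_eq' _
    rw [QuotientGroup.eq] at h1
    have h2 := inv_mem h1
    rwa [mul_inv_rev, inv_inv, inv_inv] at h2
  · rw [rep, mul_inv_cancel_right]

theorem finrank_left {h : Γ} (hh : h ∈ G.H) (g : Γ) (i : ℕ) :
    Module.finrank ℝ (G.V (h * g) i) = Module.finrank ℝ (G.V g i) := by
  have h1 : G.V (h * g) i = (G.V g i).map (G.T h).toLinearEquiv.toLinearMap := by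
    ext w
    constructor
    · intro hw
      refine ⟨(G.T h).symm w, ?_, ?_⟩
      · rw [SetLike.mem_coe, ← G.V_left hh, LinearIsometryEquiv.apply_symm_apply]
        exact hw
      · exact LinearIsometryEquiv.apply_symm_apply _ _
    · rintro ⟨v, hv, rfl⟩
      exact (G.V_left hh g i).2 hv
  rw [h1]
  exact LinearEquiv.finrank_map_eq (G.T h).toLinearEquiv (G.V g i)

theorem finrank_D (g : Γ) (i : ℕ) :
    Module.finrank ℝ (G.V g i) + Module.finrank ℝ (G.D g i) = Module.finrank ℝ (G.V g (i + 1)) := by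
  have h1 := Submodule.finrank_add_inf_finrank_orthogonal (G.V_mono g (Nat.le_succ i))
  rw [inf_comm] at h1
  exact h1

end

theorem factorial_le (k : ℕ) : k ! ≤ 2 ^ (k * (k - 1)) := by
  induction k with
  | zero => exact Nat.le_refl 1
  | succ k ih =>
    have h1 : k + 1 ≤ 2 ^ k := Nat.lt_two_pow_self
    have h2 : (k + 1) ! ≤ 2 ^ k * 2 ^ (k * (k - 1)) := by
      rw [Nat.factorial_succ]
      exact Nat.mul_le_mul h1 ih
    rw [← pow_add] at h2
    refine h2.trans (Nat.pow_le_pow_right (by norm_num) ?_)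
    have h3 : k * (k - 1) ≤ k * k := Nat.mul_le_mul_left k (Nat.sub_le k 1)
    have h4 : (k + 1) * (k + 1 - 1) = k * k + k := by
      rw [Nat.add_sub_cancel]
      ring
    omega

/-- two subgroups of a finite group with the same logarithm of the index -/
theorem le_of_log {Γ : Type} [Group Γ] [Finite Γ] {A B : Subgroup Γ} (h : A ≤ B)
    (hlog : Nat.log 2 A.index = Nat.log 2 B.index) : B ≤ A := by
  have h1 := Subgroup.relIndex_mul_index h
  have hB : B.index ≠ 0 := Subgroup.index_ne_zero_of_finite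
  have hA : A.index ≠ 0 := Subgroup.index_ne_zero_of_finite
  have h2 : A.relIndex B ≠ 0 := by
    intro h0
    rw [h0, zero_mul] at h1
    exact hA h1.symm
  have h3 : A.relIndex B = 1 := by
    by_contra hne
    have h4 : 2 ≤ A.relIndex B := by omega
    have h5 : B.index * 2 ≤ A.index := by
      rw [← h1, mul_comm]
      exact Nat.mul_le_mul_right _ h4
    have h6 := Nat.log_mono_right (b := 2) h5
    rw [Nat.log_mul_base (by norm_num) hB] at h6
    omega
  exact Subgroup.relIndex_eq_one.1 h3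

/-- the arithmetic of the window -/
theorem arith (k : ℕ) (hk : 1 ≤ k) :
    2 * k ^ 2 * (2 * k ^ 2 * (6 * k + 3) + 2 * k + 4) ≤ 48 * k ^ 5 ∧ k ≤ k ^ 5 := by
  have h1 : k ≤ k ^ 5 := Nat.le_self_pow (by norm_num) k
  have h2 : k ^ 2 ≤ k ^ 5 := Nat.pow_le_pow_right hk (by norm_num)
  have h3 : k ^ 3 ≤ k ^ 5 := Nat.pow_le_pow_right hk (by norm_num)
  have h4 : k ^ 4 ≤ k ^ 5 := Nat.pow_le_pow_right hk (by norm_num)
  refine ⟨?_, h1⟩
  have e : 2 * k ^ 2 * (2 * k ^ 2 * (6 * k + 3) + 2 * k + 4)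
      = 24 * k ^ 5 + 12 * k ^ 4 + 4 * k ^ 3 + 8 * k ^ 2 := by ring
  omega

end WIN

open WIN in
theorem t_WIN : M_WIN := by
  intro hPG hIDX hNZ hSTEP d k Γ _ _ X _ G hk hd
  classical
  have hfin : Finite (Γ ⧸ G.H) := inferInstance
  let _ : Fintype (Γ ⧸ G.H) := Fintype.ofFinite _
  have hcard : Fintype.card (Γ ⧸ G.H) = k := by
    have h1 := G.idx
    rw [Subgroup.index, Nat.card_eq_fintype_card] at h1
    exact h1
  obtain ⟨har, hk5⟩ := arith k hk
  have hnz : ∀ i, i + k ≤ d → G.NZ i := (hNZ d k Γ X G).1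
  -- dimensions
  have hle : ∀ g j, Module.finrank ℝ (G.V g j) ≤ d := fun g j => by
    have h1 := Submodule.finrank_le (G.V g j)
    have h2 : Module.finrank ℝ (E d) = d := finrank_euclideanSpace_fin
    rwa [h2] at h1
  have hge : ∀ g j, j + k ≤ d + 1 → j ≤ Module.finrank ℝ (G.V g j) := fun g j hj => by
    rcases Nat.eq_zero_or_pos j with rfl | hpos
    · exact Nat.zero_le _
    · obtain ⟨m, rfl⟩ : ∃ m, j = m + 1 := ⟨j - 1, by omega⟩
      have h1 := (hSTEP d k Γ X G g).2.2.2 m fun i hi => hnz i (by omega)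
      exact h1.trans (Submodule.finrank_mono (G.W_le_V g m))
  have hstep : ∀ g j, j + k ≤ d →
      Module.finrank ℝ (G.V g j) + 1 ≤ Module.finrank ℝ (G.V g (j + 1)) := fun g j hj =>
    Submodule.finrank_lt_finrank_of_lt ((hSTEP d k Γ X G g).2.1 j (hnz j hj))
  have hup : ∀ g j n, j + n + k ≤ d + 1 →
      Module.finrank ℝ (G.V g j) + n ≤ Module.finrank ℝ (G.V g (j + n)) := by
    intro g j n
    induction n with
    | zero => intro _; exact le_refl _
    | succ n ih =>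
      intro hn
      have h1 := ih (by omega)
      have h2 := hstep g (j + n) (by omega)
      have h3 : j + (n + 1) = j + n + 1 := by omega
      rw [h3]
      omega
  have hkd : k ≤ d := by omega
  have hub : ∀ g j, j + k ≤ d + 1 → Module.finrank ℝ (G.V g j) - j ≤ k - 1 := fun g j hj => by
    have h1 := hup g j (d + 1 - k - j) (by omega)
    have h2 := hle g (j + (d + 1 - k - j))
    omega
  -- the function
  obtain ⟨s, hs⟩ : ∃ s : ℕ → ℕ, s = fun j =>
      (∑ c : Γ ⧸ G.H, (Module.finrank ℝ (G.V (rep G c) j) - j)) + Nat.log 2 (G.up j ⊔ G.N).index :=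
    ⟨_, rfl⟩
  have hAm : ∀ g j, j + k ≤ d → Module.finrank ℝ (G.V g j) - j
      ≤ Module.finrank ℝ (G.V g (j + 1)) - (j + 1) := fun g j hj => by
    have h1 := hstep g j hj
    omega
  have hBm : ∀ i j, i ≤ j → Nat.log 2 (G.up i ⊔ G.N).index ≤ Nat.log 2 (G.up j ⊔ G.N).index :=
    fun i j hij => Nat.log_mono_right (Nat.le_of_dvd
      (Nat.pos_of_ne_zero Subgroup.index_ne_zero_of_finite)
      (Subgroup.index_dvd_of_le (sup_le_sup_right (G.up_anti hij) _)))
  have hmono : ∀ i, i + k ≤ d → s i ≤ s (i + 1) := by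
    intro i hi
    rw [hs]
    exact Nat.add_le_add (Finset.sum_le_sum fun c _ => hAm _ i hi) (hBm i _ (Nat.le_succ i))
  have hsb : ∀ j, j + k ≤ d + 1 → s j ≤ k * (k - 1) + k * (k - 1) := by
    intro j hj
    rw [hs]
    refine Nat.add_le_add ?_ ?_
    · have h1 : (∑ c : Γ ⧸ G.H, (Module.finrank ℝ (G.V (rep G c) j) - j))
          ≤ ∑ _c : Γ ⧸ G.H, (k - 1) := Finset.sum_le_sum fun c _ => hub _ j hj
      refine h1.trans ?_
      rw [Finset.sum_const, Finset.card_univ, hcard, smul_eq_mul]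
    · have h1 : (G.up j ⊔ G.N).index ≤ 2 ^ (k * (k - 1)) :=
        ((Nat.le_of_dvd (hIDX d k Γ X G).1 (Subgroup.index_dvd_of_le le_sup_right)).trans
          (hIDX d k Γ X G).2).trans (factorial_le k)
      have h2 := Nat.log_mono_right (b := 2) h1
      rwa [Nat.log_pow (by norm_num)] at h2
  have hk2 : 1 ≤ k ^ 2 := Nat.pow_pos hk
  obtain ⟨a, -, ha2, ha3⟩ := hPG (2 * k ^ 2) (2 * k ^ 2 * (6 * k + 3) + 2 * k + 4) 0 s (by omega)
    (fun i hi => by
      rw [Nat.zero_add]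
      exact hmono i (by omega))
    (by
      rw [Nat.zero_add]
      have h1 := hsb (2 * k ^ 2 * (2 * k ^ 2 * (6 * k + 3) + 2 * k + 4)) (by omega)
      have h2 : k * (k - 1) + k = k ^ 2 := by
        obtain ⟨m, rfl⟩ : ∃ m, k = m + 1 := ⟨k - 1, by omega⟩
        rw [Nat.add_sub_cancel]
        ring
      omega)
  rw [Nat.zero_add] at ha2
  -- consequences of the constancy
  have hcs : ∀ i, a ≤ i → i + 1 ≤ a + (2 * k ^ 2 * (6 * k + 3) + 2 * k + 4) →
      (∀ c : Γ ⧸ G.H, Module.finrank ℝ (G.V (rep G c) i) - i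
        = Module.finrank ℝ (G.V (rep G c) (i + 1)) - (i + 1)) := by
    intro i hi1 hi2
    have h1 := ha3 (i - a) (by omega)
    have h2 := ha3 (i + 1 - a) (by omega)
    have e1 : a + (i - a) = i := by omega
    have e2 : a + (i + 1 - a) = i + 1 := by omega
    rw [e1] at h1
    rw [e2] at h2
    have h3 : s i = s (i + 1) := h1.trans h2.symm
    rw [hs] at h3
    have h4 : (∑ c : Γ ⧸ G.H, (Module.finrank ℝ (G.V (rep G c) i) - i))
        + Nat.log 2 (G.up i ⊔ G.N).index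
      = (∑ c : Γ ⧸ G.H, (Module.finrank ℝ (G.V (rep G c) (i + 1)) - (i + 1)))
        + Nat.log 2 (G.up (i + 1) ⊔ G.N).index := h3
    have h5 : ∀ c ∈ (Finset.univ : Finset (Γ ⧸ G.H)), Module.finrank ℝ (G.V (rep G c) i) - i
      ≤ Module.finrank ℝ (G.V (rep G c) (i + 1)) - (i + 1) := fun c _ => hAm _ i (by omega)
    have h6 := Finset.sum_le_sum h5
    have h7 := hBm i _ (Nat.le_succ i)
    have h8 : (∑ c : Γ ⧸ G.H, (Module.finrank ℝ (G.V (rep G c) i) - i))
      = ∑ c : Γ ⧸ G.H, (Module.finrank ℝ (G.V (rep G c) (i + 1)) - (i + 1)) := by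
      have h9 : (G.up i.succ ⊔ G.N) = (G.up (i + 1) ⊔ G.N) := rfl
      rw [h9] at h7
      omega
    intro c
    exact (Finset.sum_eq_sum_iff_of_le h5).1 h8 c (Finset.mem_univ c)
  have hlg : ∀ i, a ≤ i → i + 1 ≤ a + (2 * k ^ 2 * (6 * k + 3) + 2 * k + 4) →
      Nat.log 2 (G.up (i + 1) ⊔ G.N).index = Nat.log 2 (G.up i ⊔ G.N).index := by
    intro i hi1 hi2
    have h1 := ha3 (i - a) (by omega)
    have h2 := ha3 (i + 1 - a) (by omega)
    have e1 : a + (i - a) = i := by omega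
    have e2 : a + (i + 1 - a) = i + 1 := by omega
    rw [e1] at h1
    rw [e2] at h2
    have h3 : s i = s (i + 1) := h1.trans h2.symm
    rw [hs] at h3
    have h4 : (∑ c : Γ ⧸ G.H, (Module.finrank ℝ (G.V (rep G c) i) - i))
        + Nat.log 2 (G.up i ⊔ G.N).index
      = (∑ c : Γ ⧸ G.H, (Module.finrank ℝ (G.V (rep G c) (i + 1)) - (i + 1)))
        + Nat.log 2 (G.up (i + 1) ⊔ G.N).index := h3
    have h5 : (∑ c : Γ ⧸ G.H, (Module.finrank ℝ (G.V (rep G c) i) - i))
      = ∑ c : Γ ⧸ G.H, (Module.finrank ℝ (G.V (rep G c) (i + 1)) - (i + 1)) :=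
      Finset.sum_congr rfl fun c _ => hcs i hi1 hi2 c
    omega
  have hlg' : ∀ n, n ≤ 2 * k ^ 2 * (6 * k + 3) + 2 * k + 4 →
      Nat.log 2 (G.up (a + n) ⊔ G.N).index = Nat.log 2 (G.up a ⊔ G.N).index := by
    intro n
    induction n with
    | zero => intro _; rfl
    | succ n ih =>
      intro hn
      have h1 := hlg (a + n) (by omega) (by omega)
      exact h1.trans (ih (by omega))
  refine ⟨a, a + (2 * k ^ 2 * (6 * k + 3) + 2 * k + 3), ?_, rfl, by omega⟩
  refine ⟨by omega, by omega, hnz, ?_, ?_⟩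
  · intro g i hi1 hi2
    obtain ⟨c, h, hh, rfl⟩ := exists_rep G g
    have h1 := finrank_D G (h * rep G c) i
    rw [finrank_left G hh, finrank_left G hh] at h1
    have h2 := hcs i hi1 (by omega) c
    have h3 := hge (rep G c) i (by omega)
    have h4 := hstep (rep G c) i (by omega)
    omega
  · intro γ hγ
    have h1 := hlg' (2 * k ^ 2 * (6 * k + 3) + 2 * k + 4) le_rfl
    have h2 : G.up (a + (2 * k ^ 2 * (6 * k + 3) + 2 * k + 4)) ⊔ G.N ≤ G.up a ⊔ G.N :=
      sup_le_sup_right (G.up_anti (by omega)) _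
    have h3 := le_of_log h2 h1
    have h4 : γ ∈ G.up (a + (2 * k ^ 2 * (6 * k + 3) + 2 * k + 4)) ⊔ G.N := h3 (Subgroup.mem_sup_left hγ)
    have hN := G.N_normal
    rw [Subgroup.mem_sup_of_normal_right] at h4
    obtain ⟨b, hb, n, hn, hbn⟩ := h4
    refine ⟨b, ?_, n, hn, hbn.symm⟩
    have e : a + (2 * k ^ 2 * (6 * k + 3) + 2 * k + 3) + 1
      = a + (2 * k ^ 2 * (6 * k + 3) + 2 * k + 4) := by omega
    rw [e]
    exact hb

end FOK
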