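import Pool.Agent.FOK.Stmts1

/-!
# FOK, section 3.1, 3.2, 3.4: the modules `Y`
-/

namespace FOK

open Lib_helper64.FO FO2
open scoped RealInnerProductSpace

noncomputable section

namespace Y

variable {d k : ℕ} {Γ : Type} [Group Γ] {X : Type} [MulAction Γ X] (G : KGeo d k Γ X)

/-- the orthogonal projection on an invariant subspace commutes with the group -/
theorem proj_comm {g : Γ} {p : ℕ} {B : Submodule ℝ (E d)}
    (hB : ∀ n ∈ G.Ni p, ∀ w ∈ B, G.R g n w ∈ B) {n : Γ} (hn : n ∈ G.Ni p) (v : E d) :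
    G.R g n (B.starProjection v) = B.starProjection (G.R g n v) := by
  refine (Submodule.eq_starProjection_of_mem_of_inner_eq_zero
    (hB n hn _ (Submodule.starProjection_apply_mem B v)) ?_).symm
  intro w hw
  rw [← map_sub]
  have h1 : G.R g n (G.R g n⁻¹ w) = w := G.R_inv_apply g hn.1 w
  rw [← h1, LinearIsometryEquiv.inner_map_map]
  exact Submodule.starProjection_inner_eq_zero v _ (hB _ (inv_mem hn) w hw)

/-- the projection on an invariant subspace preserves `V_i` -/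
theorem proj_mem_V {g : Γ} {p i : ℕ} (hpi : p ≤ i) {B : Submodule ℝ (E d)}
    (hB : ∀ n ∈ G.Ni p, ∀ w ∈ B, G.R g n w ∈ B) {v : E d} (hv : v ∈ G.V g i) :
    B.starProjection v ∈ G.V g i := by
  intro n hn
  rw [proj_comm G hB (G.Ni_anti hpi hn), hv n hn]

theorem orth_inv {g : Γ} {p : ℕ} {B : Submodule ℝ (E d)}
    (hB : ∀ n ∈ G.Ni p, ∀ w ∈ B, G.R g n w ∈ B) : ∀ n ∈ G.Ni p, ∀ w ∈ Bᗮ, G.R g n w ∈ Bᗮ := by
  intro n hn w hw
  rw [Submodule.mem_orthogonal] at hw ⊢
  intro b hb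
  have h1 : G.R g n (G.R g n⁻¹ b) = b := G.R_inv_apply g hn.1 b
  rw [← h1, LinearIsometryEquiv.inner_map_map]
  exact hw _ (hB _ (inv_mem hn) b hb)

theorem exists_gen {g : Γ} {i : ℕ} (h : Module.finrank ℝ (G.D g i) = 1) :
    ∃ e ∈ G.D g i, e ≠ 0 ∧ ∀ w ∈ G.D g i, ∃ c : ℝ, w = c • e := by
  obtain ⟨v, hv, hw⟩ := finrank_eq_one_iff'.1 h
  refine ⟨v, v.2, fun h0 => hv (Subtype.ext h0), fun w hw' => ?_⟩
  obtain ⟨c, hc⟩ := hw ⟨w, hw'⟩
  exact ⟨c, (congrArg Subtype.val hc).symm⟩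

theorem dich {g : Γ} {p i : ℕ} (hpi : p ≤ i) (h1 : Module.finrank ℝ (G.D g i) = 1)
    {B : Submodule ℝ (E d)} (hB : ∀ n ∈ G.Ni p, ∀ w ∈ B, G.R g n w ∈ B) :
    G.D g i ≤ B ∨ G.D g i ≤ Bᗮ := by
  obtain ⟨e, he, he0, hgen⟩ := exists_gen G h1
  have hPV : B.starProjection e ∈ G.V g (i + 1) :=
    proj_mem_V G (by omega) hB (G.D_le_V g i he)
  have hPU : B.starProjection e ∈ G.U g i := by
    rw [KGeo.U, Submodule.mem_orthogonal]
    intro v hv
    rw [← Submodule.inner_starProjection_left_eq_right]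
    exact (Submodule.mem_orthogonal _ _).1 (G.D_le_U g i he) _ (proj_mem_V G hpi hB hv)
  obtain ⟨c, hc⟩ := hgen _ ⟨hPV, hPU⟩
  have hPP : B.starProjection (B.starProjection e) = B.starProjection e :=
    Submodule.starProjection_eq_self_iff.2 (Submodule.starProjection_apply_mem B e)
  rw [hc, map_smul, hc, smul_smul] at hPP
  have h2 : (c * c - c) • e = 0 := by rw [sub_smul, hPP, sub_self]
  have h3 : c * (c - 1) = 0 := by
    have := (smul_eq_zero.1 h2).resolve_right he0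
    linarith
  rcases mul_eq_zero.1 h3 with h4 | h4
  · right
    intro w hw
    obtain ⟨a, rfl⟩ := hgen w hw
    refine Submodule.smul_mem _ a ?_
    have h5 := Submodule.sub_starProjection_mem_orthogonal (K := B) e
    rwa [hc, h4, zero_smul, sub_zero] at h5
  · left
    intro w hw
    obtain ⟨a, rfl⟩ := hgen w hw
    refine Submodule.smul_mem _ a ?_
    have h5 := Submodule.starProjection_apply_mem B e
    have h6 : c = 1 := by linarith
    rwa [hc, h6, one_smul] at h5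

theorem Y_le_of {g : Γ} {p : ℕ} {B : Submodule ℝ (E d)}
    (hB : ∀ n ∈ G.Ni p, ∀ w ∈ B, G.R g n w ∈ B) (h : G.D g p ≤ B) : G.Y g p ≤ B := by
  rw [KGeo.Y, Submodule.span_le]
  rintro _ ⟨n, hn, e, he, rfl⟩
  exact hB n hn e (h he)

end Y

theorem t_Y : S_Y := by
  intro d k Γ _ _ X _ G u q hW g p hup hpq
  refine ⟨?_, ?_, ?_⟩
  · intro B hBY hB
    rcases Y.dich G le_rfl (hW.line g p hup hpq) hB with h | h
    · right
      exact le_antisymm hBY (Y.Y_le_of G hB h)
    · left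
      have h1 : G.Y g p ≤ Bᗮ := Y.Y_le_of G (Y.orth_inv G hB) h
      rw [eq_bot_iff]
      intro w hw
      have h2 := (Submodule.mem_orthogonal _ _).1 (h1 (hBY hw)) w hw
      rw [Submodule.mem_bot]
      exact inner_self_eq_zero.1 h2
  · intro B hB i hpi hiq
    exact Y.dich G hpi (hW.line g i (hup.trans hpi) hiq) hB
  · intro A hAY hA
    obtain ⟨e, he, he0, hgen⟩ := Y.exists_gen G (hW.line g p hup hpq)
    have heY : e ∈ G.Y g p := G.D_le_Y g p he
    have hAe : A e ∈ G.D g p := by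
      refine ⟨?_, G.Y_le_U g p (hAY e heY)⟩
      intro n hn
      have hn' : n ∈ G.Ni p := G.Ni_anti (Nat.le_succ p) hn
      rw [← hA n hn' e heY, G.D_le_V g p he n hn]
    obtain ⟨c, hc⟩ := hgen _ hAe
    refine ⟨c, fun w hw => ?_⟩
    rw [KGeo.Y] at hw
    induction hw using Submodule.span_induction with
    | mem x hx =>
      obtain ⟨n, hn, e', he', rfl⟩ := hx
      obtain ⟨a, rfl⟩ := hgen e' he'
      have h1 : A (G.R g n (a • e)) = G.R g n (A (a • e)) :=
        hA n hn _ (Submodule.smul_mem _ a heY)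
      rw [h1, map_smul, hc, smul_comm a c e, map_smul]
    | zero => rw [map_zero, smul_zero]
    | add x y _ _ hx hy => rw [map_add, hx, hy, smul_add]
    | smul a x _ hx => rw [map_smul, hx, smul_comm]

end

end FOK
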