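import Pool.Agent.FOK.ORD
import Pool.Agent.FOK.IDX
import Pool.Agent.FOK.NZ
import Pool.Agent.FOK.STEP
import Pool.Agent.FOK.PG
import Pool.Agent.FOK.CNT
import Pool.Agent.FOK.WIN
import Pool.Agent.FOK.Y
import Pool.Agent.FOK.PL
import Pool.Agent.FOK.SWAP
import Pool.Agent.FOK.SW
import Pool.Agent.FOK.DICH
import Pool.Agent.FOK.KEY
import Pool.Agent.FOK.ISO1
import Pool.Agent.FOK.ISO2
import Pool.Agent.FOK.ISO3
import Pool.Agent.FOK.IRR
import Pool.Agent.FOK.S1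
import Pool.Agent.FOK.S2
import Pool.Agent.FOK.A1
import Pool.Agent.FOK.A2
import Pool.Agent.FOK.A3
import Pool.Agent.FOK.K
import Pool.Agent.FOK.INT
import Pool.Agent.FOK.SUB
import Pool.Agent.FOK.COMP
import Pool.Agent.FOK.SL
import Pool.Agent.FOK.AD
import Pool.Agent.FOK.AUT
import Pool.Agent.FOK.FR
import Pool.Agent.FOK.VECA
import Pool.Agent.FOK.VECD
import Pool.Agent.FOK.KK
import Pool.Agent.FOK.E0
import Pool.Agent.FOK.EA0
import Pool.Agent.FOK.EA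
import Pool.Agent.FOK.ED
import Pool.Agent.FOK.EX
import Pool.Agent.FOK.EP
import Pool.Agent.FOK.RUN
import Pool.Agent.FOK.N1
import Pool.Agent.FOK.ELEM
import Pool.Agent.FOK.N2
import Pool.Agent.FOK.N3
import Pool.Agent.FOK.N4
import Pool.Agent.FOK.NINE
import Pool.Agent.FOK.BET
import Pool.Agent.FOK.FS
import Pool.Agent.FOK.TOP
import Pool.Agent.FOK.TI
import Pool.Agent.FOK.TAD
import Pool.Agent.FOK.BE1
import Pool.Agent.FOK.BE2
import Pool.Agent.FOK.GN1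
import Pool.Agent.FOK.GN2
import Pool.Agent.FOK.POS
import Pool.Agent.FOK.PRM
import Pool.Agent.FOK.MA1
import Pool.Agent.FOK.MA
import Pool.Agent.FOK.MD1
import Pool.Agent.FOK.MD
import Pool.Agent.FOK.MC1
import Pool.Agent.FOK.MC2
import Pool.Agent.FOK.MC3
import Pool.Agent.FOK.MC
import Pool.Agent.FOK.MIXG
import Pool.Agent.FOK.TRA
import Pool.Agent.FOK.TRC
import Pool.Agent.FOK.TRD
import Pool.Agent.FOK.CONCL
import Pool.Agent.FOK.QRX
import Pool.Agent.FOK.AsmQ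

/-!
# The main theorem, from the modules
-/

namespace FOK

open Lib_helper64.FO FO2

/-! ### sections 1 - 6 -/

theorem f_NZ : S_NZ := t_NZ t_ORD t_IDX
theorem f_WIN : S_WIN := t_WIN t_PG t_IDX f_NZ t_STEP
theorem f_PL : S_PL := t_PL t_STEP
theorem f_SWAP : S_SWAP := t_SWAP t_Y f_PL
theorem f_DICH : S_DICH := t_DICH t_CNT t_SW t_Y f_PL f_SWAP
theorem f_KEY : S_KEY := t_KEY t_Y
theorem f_ISO1 : S_ISO1 := t_ISO1 t_Y f_PL f_DICH f_KEY
theorem f_ISO2 : S_ISO2 := t_ISO2 t_Y f_PL f_SWAP f_DICH f_KEY f_ISO1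
theorem f_ISO3 : S_ISO3 := t_ISO3 t_Y f_PL t_IDX f_ISO2
theorem f_IRR : S_IRR := t_IRR t_ORD f_DICH f_ISO3
theorem f_S1 : S_S1 := t_S1 t_STEP t_Y f_PL f_IRR
theorem f_S2 : S_S2 := t_S2 t_STEP
theorem f_A2 : S_A2 := t_A2 t_STEP f_PL
theorem f_A3 : S_A3 := t_A3 f_PL t_CNT t_SW f_A2
theorem f_K : S_K := t_K f_PL t_A1 f_A2 f_A3
theorem f_INT : S_INT := t_INT t_PG f_S2
theorem f_SUB : S_SUB := t_SUB t_STEP f_IRR f_S1 f_S2 f_K f_INT

/-! ### sections 7 - 9 -/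

theorem f_KK : S_KK := t_KK t_Y
theorem f_RUN : S_RUN := t_RUN t_COMP t_SL t_AD t_AUT t_FR t_VECA t_VECD f_KK (t_E0 t_Y f_PL f_KK)
  (t_EA0 f_PL f_KK) (t_EA f_PL) (t_ED f_PL) (t_EX f_PL) (t_EP f_PL)
theorem f_N2 : S_N2 := t_N2 t_ELEM
theorem f_N4 : S_N4 := t_N4 t_N1 f_N2 t_N3
theorem f_NINE : S_NINE := t_NINE t_COMP t_SL f_KK f_PL
theorem f_FS : S_FS := t_FS t_BET

/-! ### section 10 -/

theorem f_TOP : S_TOP := t_TOP f_NZ t_STEP f_S2 f_RUN t_N1 f_N4 f_NINE f_FS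
theorem f_TAD : S_TAD := t_TAD t_TI
theorem f_BE1 : S_BE1 := t_BE1 t_TI f_TAD
theorem f_BE2 : S_BE2 := t_BE2 t_TI f_BE1
theorem f_GN1 : S_GN1 := t_GN1 t_STEP t_TI f_BE1 f_BE2
theorem f_POS : S_POS := t_POS t_TI t_VECA t_VECD
theorem f_MA : S_MA := t_MA t_PRM (t_MA1 t_GN2)
theorem f_MD : S_MD := t_MD t_PRM (t_MD1 t_TI t_GN2)
theorem f_MC : S_MC := t_MC t_GN2 t_MC1 (t_MC2 f_BE1 f_BE2) t_MC3
theorem f_MIXG : S_MIXG := t_MIXG f_BE2
theorem f_CONCL : S_CONCL := t_CONCL f_WIN f_SUB f_TOP f_TAD f_GN1 f_POS f_MA f_MD f_MC f_MIXG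
  t_TRA t_TRC t_TRD

theorem algAll : StmtAlg := by
  intro d k hk hd Γ _ _ X _ _ G
  obtain ⟨y0, g, A, M, h1, h2, h3, h4⟩ := f_CONCL d k Γ X G hk hd
  refine ⟨y0, g, A, M, h1, h2, h3, fun w => ?_⟩
  have h5 := h4 w
  rw [CONCL.map_coe G.ρ w] at h5
  exact h5

/-! ### the final statement -/

/-- The main theorem: for `d ≥ 100 k ^ 5` the `k`-orbit realizations of the finite regular
`d`-polytopes in `E d` are the faithful mixes of a model and a mixing datum; and there are such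
realizations if and only if `k = 1` or `k` is even. -/
def FullStatement : Prop :=
  ∀ k d : ℕ, 1 ≤ k → 100 * k ^ 5 ≤ d →
    (∀ (P : Type) [PartialOrder P] [Finite P] (rk : P → ℤ), IsRegularPolytope d rk →
      ∀ (f : P → E d) (C : Flag P) (ρ : Fin d → (P ≃o P)), IsGens rk C ρ →
        (IsOrbitRealization rk f k ↔ Faithful rk f ∧ Mixed k rk f C ρ)) ∧
    ((∃ (P : Type) (_ : PartialOrder P) (_ : Finite P) (rk : P → ℤ) (f : P → E d),
      IsRegularPolytope d rk ∧ IsOrbitRealization rk f k) ↔ k = 1 ∨ Even k)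

theorem mainThm : MainStatement := main_of_alg t_QRX algAll

theorem fullThm : FullStatement := fun k d hk hd =>
  ⟨fun P _ _ rk hP f C ρ hρ => (mainThm k d hk hd P rk hP f C ρ hρ).1,
    spectrum_of_main mainThm k d hk hd⟩

end FOK
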