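import Pool.Agent.FOK.Stmts4

/-!
# The regular simplex and its generators
-/

namespace FOK

open Lib_helper64.FO FO2
open scoped RealInnerProductSpace

namespace QSI

theorem exists_simplex (d : ℕ) (hd : 2 ≤ d) : ∃ v : Fin (d + 1) → E d, IsSimplex v := by
  have hd0 : (0 : ℝ) < d := by
    have : 0 < d := by omega
    exact_mod_cast this
  set D : ℝ := (d : ℝ) with hD
  obtain ⟨c, hc⟩ : ∃ c : ℝ, D * c ^ 2 = 1 := by
    refine ⟨√(1 / D), ?_⟩
    rw [Real.sq_sqrt (by positivity)]
    field_simp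
  have hc' : c ^ 2 = 1 / D := by
    rw [eq_div_iff (ne_of_gt hd0)]
    linarith
  obtain ⟨α, hα⟩ : ∃ α : ℝ, α ^ 2 = 1 + c ^ 2 := ⟨√(1 + c ^ 2), Real.sq_sqrt (by positivity)⟩
  set β : ℝ := c ^ 2 * (c - α) with hβ
  let u := EuclideanSpace.basisFun (Fin d) ℝ
  have hu : ∀ i j, ⟪u i, u j⟫ = if i = j then (1 : ℝ) else 0 := orthonormal_iff_ite.mp u.orthonormal
  obtain ⟨s, hs⟩ : ∃ s : E d, s = ∑ i, u i := ⟨_, rfl⟩
  have h1 : ∀ i, ⟪u i, s⟫ = (1 : ℝ) := by
    intro i
    rw [hs, inner_sum]
    simp [hu]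
  have h2 : ∀ i, ⟪s, u i⟫ = (1 : ℝ) := by
    intro i
    rw [real_inner_comm, h1]
  have h3 : ⟪s, s⟫ = D := by
    conv_lhs => rw [hs]
    rw [sum_inner, ← hs]
    simp [h1, hD]
  have key : β * (2 * α + D * β) = - c ^ 2 := by
    have e : D * β = c - α := by rw [hβ]; linear_combination (c - α) * hc
    rw [e, hβ]
    linear_combination - c ^ 2 * hα
  refine ⟨Fin.snoc (fun i => α • u i + β • s) (-(c • s)), ?_⟩
  have i1 : ∀ i j : Fin d, ⟪α • u i + β • s, α • u j + β • s⟫ =
      if i = j then (1 : ℝ) else -1 / D := by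
    intro i j
    simp only [inner_add_left, inner_add_right, real_inner_smul_left, real_inner_smul_right, hu,
      h1, h2, h3]
    split_ifs with h
    · linear_combination key + hα
    · linear_combination key - hc'
  have i2 : ∀ i : Fin d, ⟪α • u i + β • s, -(c • s)⟫ = (-1 / D : ℝ) := by
    intro i
    simp only [inner_add_left, inner_neg_right, real_inner_smul_left, real_inner_smul_right,
      h1, h3]
    have e : D * β = c - α := by rw [hβ]; linear_combination (c - α) * hc
    linear_combination (-c) * e - hc'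
  intro i j
  refine Fin.lastCases ?_ (fun i => ?_) i
  · refine Fin.lastCases ?_ (fun j => ?_) j
    · rw [if_pos rfl, Fin.snoc_last, inner_neg_left, inner_neg_right, real_inner_smul_left,
        real_inner_smul_right, h3]
      linear_combination hc
    · rw [if_neg (Fin.castSucc_lt_last j).ne', Fin.snoc_last, Fin.snoc_castSucc, real_inner_comm, i2]
  · refine Fin.lastCases ?_ (fun j => ?_) j
    · rw [if_neg (Fin.castSucc_lt_last i).ne, Fin.snoc_last, Fin.snoc_castSucc, i2]
    · rw [Fin.snoc_castSucc, Fin.snoc_castSucc, i1]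
      by_cases h : i = j
      · rw [if_pos h, if_pos (by rw [h])]
      · rw [if_neg h, if_neg (fun e => h (Fin.castSucc_injective _ e))]

end QSI

theorem t_QSI : StmtQSI := by
  intro d hd
  obtain ⟨v, hv⟩ := QSI.exists_simplex d hd
  refine ⟨v, hv, ?_⟩
  have hn : ∀ i, ‖v i‖ = 1 := by
    intro i
    have h := hv i i
    rw [if_pos rfl, real_inner_self_eq_norm_sq] at h
    nlinarith [norm_nonneg (v i)]
  refine ⟨fun j => (ℝ ∙ (v j.castSucc - v j.succ))ᗮ.reflection, ?_⟩
  intro j i
  have hjj : ‖v j.castSucc‖ = ‖v j.succ‖ := by rw [hn, hn]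
  have r1 : (ℝ ∙ (v j.castSucc - v j.succ))ᗮ.reflection (v j.castSucc) = v j.succ :=
    Submodule.reflection_sub hjj
  by_cases h1 : i = j.castSucc
  · rw [h1, r1, Equiv.swap_apply_left]
  by_cases h2 : i = j.succ
  · rw [h2, Equiv.swap_apply_right]
    conv_lhs => rw [← r1]
    exact Submodule.reflection_reflection _ _
  rw [Equiv.swap_apply_of_ne_of_ne h1 h2]
  apply Submodule.reflection_mem_subspace_eq_self
  rw [Submodule.mem_orthogonal_singleton_iff_inner_left, inner_sub_right, hv, hv, if_neg h1,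
    if_neg h2, sub_self]

end FOK
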