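import Pool.Agent.FOK.Stmts4

/-!
# Block Q: module QCT (counting)
-/

namespace FOK

open Lib_helper64.FO FO2
open scoped RealInnerProductSpace

noncomputable section

namespace QCT

/-- every element of the free group has the same image as a positive word, under all
homomorphisms which send the generators to involutions -/
theorem word {d : ℕ} {Γ Δ : Type} [Group Γ] [Group Δ] (ρ : Fin d → Γ) (σ : Fin d → Δ)
    (hρ : ∀ j, ρ j * ρ j = 1) (hσ : ∀ j, σ j * σ j = 1) (x : FreeGroup (Fin d)) :
    ∃ w : List (Fin d), FreeGroup.lift ρ x = (w.map ρ).prod ∧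
      FreeGroup.lift σ x = (w.map σ).prod := by
  induction x using FreeGroup.induction_on with
  | C1 => exact ⟨[], by simp, by simp⟩
  | of j => exact ⟨[j], by simp, by simp⟩
  | inv_of j _ =>
    refine ⟨[j], ?_, ?_⟩
    · simp [inv_eq_iff_mul_eq_one.2 (hρ j)]
    · simp [inv_eq_iff_mul_eq_one.2 (hσ j)]
  | mul x y hx hy =>
    obtain ⟨w, h1, h2⟩ := hx
    obtain ⟨w', h3, h4⟩ := hy
    exact ⟨w ++ w', by simp [h1, h3], by simp [h2, h4]⟩

/-- the isometry with centre `c` and linear part `L` -/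
def iso {d : ℕ} (c : E d) (L : E d ≃ₗᵢ[ℝ] E d) : E d ≃ᵢ E d :=
  (IsometryEquiv.subRight c).trans (L.toIsometryEquiv.trans (IsometryEquiv.addLeft c))

theorem iso_apply {d : ℕ} (c : E d) (L : E d ≃ₗᵢ[ℝ] E d) (v : E d) :
    iso c L v = c + L (v - c) := rfl

/-- the radii are preserved up to a sign -/
def Sg {d : ℕ} {A : Type} (M : Mix d A) (q : Equiv.Perm A) : Prop :=
  (∀ a, M.r (q a) = M.r a) ∨ (∀ a, M.r (q a) = - M.r a)

/-- the subgroup `HC` of `C` -/
def HCs {d : ℕ} {A : Type} (M : Mix d A) : Subgroup M.C where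
  carrier := {q | Sg M q.1}
  one_mem' := Or.inl fun _ => rfl
  mul_mem' := by
    rintro ⟨q, hq⟩ ⟨q', hq'⟩ h h'
    rcases h with h | h <;> rcases h' with h' | h'
    · exact Or.inl fun a => (h (q' a)).trans (h' a)
    · exact Or.inr fun a => (h (q' a)).trans (h' a)
    · exact Or.inr fun a => (h (q' a)).trans (congrArg Neg.neg (h' a))
    · exact Or.inl fun a => ((h (q' a)).trans (congrArg Neg.neg (h' a))).trans (neg_neg _)
  inv_mem' := by
    rintro ⟨q, hq⟩ h
    rcases h with h | h
    · refine Or.inl fun a => ?_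
      have := h (q⁻¹ a)
      have e : q (q⁻¹ a) = a := q.apply_symm_apply a
      change M.r (q (q⁻¹ a)) = _ at this
      rw [e] at this
      exact this.symm
    · refine Or.inr fun a => ?_
      have := h (q⁻¹ a)
      have e : q (q⁻¹ a) = a := q.apply_symm_apply a
      change M.r (q (q⁻¹ a)) = _ at this
      rw [e] at this
      change M.r (q⁻¹ a) = - M.r a
      rw [this, neg_neg]

theorem card_HCs {d : ℕ} {A : Type} (M : Mix d A) : Nat.card (HCs M) = Nat.card M.HC := by
  refine Nat.card_congr ⟨fun x => ⟨x.1.1, x.1.2, x.2⟩, fun x => ⟨⟨x.1, x.2.1⟩, x.2.2⟩, ?_, ?_⟩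
  · intro x; rfl
  · intro x; rfl

section key

variable {d : ℕ} {Γ : Type} [Group Γ] {X : Type} [MulAction Γ X] {ρ : Fin d → Γ}
  {x0 : X} {f : X → E d} {c y0 : E d} {g : Fin d → (E d ≃ₗᵢ[ℝ] E d)} {A : Type} {M : Mix d A}

/-- from the radii to an isometry -/
theorem key1 (hs : ∀ x : X, ∃ w : List (Fin d), x = (w.map ρ).prod • x0)
    (hf : ∀ w : List (Fin d), f ((w.map ρ).prod • x0) =
      c + M.r ((w.map M.π).prod M.a0) • ((w.map g).prod y0))
    (w : List (Fin d)) (h : Sg M (w.map M.π).prod) :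
    ∃ T : E d ≃ᵢ E d, ∀ x, T (f x) = f ((w.map ρ).prod • x) := by
  have hww : ∀ w' : List (Fin d), f ((w.map ρ).prod • (w'.map ρ).prod • x0) =
      c + M.r ((w.map M.π).prod ((w'.map M.π).prod M.a0)) •
        ((w.map g).prod ((w'.map g).prod y0)) := by
    intro w'
    have := hf (w ++ w')
    rw [List.map_append, List.map_append, List.map_append, List.prod_append, List.prod_append,
      List.prod_append, mul_smul] at this
    exact this
  rcases h with h | h
  · refine ⟨iso c (w.map g).prod, fun x => ?_⟩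
    obtain ⟨w', rfl⟩ := hs x
    rw [hww, hf, iso_apply, h, add_sub_cancel_left, map_smul]
  · refine ⟨iso c ((w.map g).prod.trans (LinearIsometryEquiv.neg ℝ)), fun x => ?_⟩
    obtain ⟨w', rfl⟩ := hs x
    rw [hww, hf, iso_apply, h, add_sub_cancel_left, map_smul, neg_smul, ← smul_neg]
    rfl

/-- from an isometry to the radii -/
theorem key2 (hd : 1 ≤ d) (hR : Rich y0 g M)
    (hf : ∀ w : List (Fin d), f ((w.map ρ).prod • x0) =
      c + M.r ((w.map M.π).prod M.a0) • ((w.map g).prod y0))
    (w : List (Fin d)) (h : ∃ T : E d ≃ᵢ E d, ∀ x, T (f x) = f ((w.map ρ).prod • x)) :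
    Sg M (w.map M.π).prod := by
  obtain ⟨T, hT⟩ := h
  set L := T.toRealAffineIsometryEquiv.linearIsometryEquiv with hL
  have hLT : ∀ u v : E d, L (u - v) = T u - T v := by
    intro u v
    have := T.toRealAffineIsometryEquiv.map_vsub u v
    rw [T.coeFn_toRealAffineIsometryEquiv] at this
    exact this
  have hTw : ∀ w' : List (Fin d), T (c + M.r ((w'.map M.π).prod M.a0) • ((w'.map g).prod y0)) =
      c + M.r ((w.map M.π).prod ((w'.map M.π).prod M.a0)) •
        ((w.map g).prod ((w'.map g).prod y0)) := by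
    intro w'
    have := hf (w ++ w')
    rw [List.map_append, List.map_append, List.map_append, List.prod_append, List.prod_append,
      List.prod_append, mul_smul] at this
    rw [← hf, hT]
    exact this
  have hlin : ∀ a : A, ∀ v : E d,
      L v = (M.r ((w.map M.π).prod a) / M.r a) • (w.map g).prod v := by
    intro a
    have hne := M.ne a
    have e : (L.toLinearEquiv : E d →ₗ[ℝ] E d) =
        (M.r ((w.map M.π).prod a) / M.r a) • ((w.map g).prod.toLinearEquiv : E d →ₗ[ℝ] E d) := by
      refine LinearMap.ext_on (hR a) ?_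
      rintro v ⟨y, y', ⟨w1, h1, h1'⟩, ⟨w2, h2, h2'⟩, rfl⟩
      have e1 := hTw w1
      have e2 := hTw w2
      rw [h1, h1'] at e1
      rw [h2, h2'] at e2
      have e3 := hLT (c + M.r a • y) (c + M.r a • y')
      rw [e1, e2, add_sub_add_left_eq_sub, add_sub_add_left_eq_sub, ← smul_sub, ← smul_sub,
        map_smul, ← map_sub] at e3
      change L (y - y') = (M.r ((w.map M.π).prod a) / M.r a) • (w.map g).prod (y - y')
      have e4 : L (y - y') = (M.r a)⁻¹ • (M.r a • L (y - y')) := by
        rw [smul_smul, inv_mul_cancel₀ hne, one_smul]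
      rw [e4, e3, smul_smul, div_eq_inv_mul]
    intro v
    exact LinearMap.congr_fun e v
  have hv : ∃ v : E d, v ≠ 0 := by
    refine ⟨EuclideanSpace.single ⟨0, hd⟩ 1, fun h => ?_⟩
    have := congrArg (fun v : E d => v ⟨0, hd⟩) h
    simp at this
  obtain ⟨v, hv⟩ := hv
  have hGv : (w.map g).prod v ≠ 0 := by
    intro h
    apply hv
    have := (w.map g).prod.norm_map v
    rw [h, norm_zero] at this
    exact norm_eq_zero.1 this.symm
  set s := M.r ((w.map M.π).prod M.a0) / M.r M.a0 with hs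
  have hconst : ∀ a, M.r ((w.map M.π).prod a) = s * M.r a := by
    intro a
    have e1 := hlin a v
    rw [hlin M.a0 v, ← hs, ← sub_eq_zero, ← sub_smul] at e1
    have e2 := (smul_eq_zero.1 e1).resolve_right hGv
    have hne := M.ne a
    have e3 : s = M.r ((w.map M.π).prod a) / M.r a := by linarith
    rw [e3, div_mul_cancel₀ _ hne]
  have hs1 : s = 1 ∨ s = -1 := by
    have e1 := congrArg norm (hlin M.a0 v)
    rw [L.norm_map, norm_smul, (w.map g).prod.norm_map, ← hs, Real.norm_eq_abs] at e1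
    have hn : ‖v‖ ≠ 0 := norm_ne_zero_iff.2 hv
    have e2 : |s| = 1 := by
      have : (|s| - 1) * ‖v‖ = 0 := by linarith
      rcases mul_eq_zero.1 this with h | h
      · linarith
      · exact absurd h hn
    exact eq_or_eq_neg_of_abs_eq e2
  rcases hs1 with h | h
  · exact Or.inl fun a => by rw [hconst a, h, one_mul]
  · exact Or.inr fun a => by rw [hconst a, h, neg_one_mul]

end key

end QCT

open QCT in
theorem t_QCT : StmtQCT := by
  intro d hd Γ _ X _ ρ x0 f c y0 g A _ M H hR hgen hρ _ htr hf hH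
  have hmem : ∀ j, M.π j ∈ M.C := fun j => Subgroup.subset_closure ⟨j, rfl⟩
  let σ : Fin d → M.C := fun j => ⟨M.π j, hmem j⟩
  have hσ : ∀ j, σ j * σ j = 1 := fun j => Subtype.ext (M.sq j)
  have hα : Function.Surjective (FreeGroup.lift ρ) := by
    rw [← MonoidHom.range_eq_top, FreeGroup.range_lift_eq_closure, hgen]
  have hσπ : ∀ w : List (Fin d), ((w.map σ).prod : Equiv.Perm A) = (w.map M.π).prod := by
    intro w
    induction w with
    | nil => rfl
    | cons j w ih =>
      rw [List.map_cons, List.map_cons, List.prod_cons, List.prod_cons, Subgroup.coe_mul, ih]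
  have hβ : Function.Surjective (FreeGroup.lift σ) := by
    intro q
    have h1 : (q : Equiv.Perm A) ∈ (FreeGroup.lift M.π).range := by
      rw [FreeGroup.range_lift_eq_closure]
      exact q.2
    obtain ⟨x, hx⟩ := h1
    obtain ⟨w, h2, h3⟩ := word M.π σ M.sq hσ x
    refine ⟨x, Subtype.ext ?_⟩
    rw [h3, hσπ, ← h2, hx]
  have hs : ∀ x : X, ∃ w : List (Fin d), x = (w.map ρ).prod • x0 := by
    intro x
    obtain ⟨γ, rfl⟩ := htr x
    obtain ⟨y, rfl⟩ := hα γ
    obtain ⟨w, h1, -⟩ := word ρ ρ hρ hρ y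
    exact ⟨w, by rw [h1]⟩
  have hcomap : H.comap (FreeGroup.lift ρ) = (HCs M).comap (FreeGroup.lift σ) := by
    ext x
    obtain ⟨w, h1, h2⟩ := word ρ σ hρ hσ x
    rw [Subgroup.mem_comap, Subgroup.mem_comap, h1, h2, hH]
    change _ ↔ Sg M ((w.map σ).prod : M.C).1
    rw [hσπ]
    exact ⟨key2 hd hR hf w, key1 hs hf w⟩
  have hidx : H.index = (HCs M).index := by
    rw [← Subgroup.index_comap_of_surjective H hα, hcomap,
      Subgroup.index_comap_of_surjective (HCs M) hβ]
  rw [hidx, ← card_HCs, mul_comm]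
  exact Subgroup.card_mul_index (HCs M)

end

end FOK
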