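import Pool.Agent.FOK.Stmts4
import Pool.Agent.FO2.RLF

/-!
# Module QEF: faithfulness of a polytope that matches the data `FaiC`
-/

namespace FOK

open Lib_helper64.FO FO2
open scoped RealInnerProductSpace

noncomputable section

open FO2.RLF in
theorem t_QEF : StmtQEF := by
  intro d Y S y0 F hd _ hS hR P _ _ rk _ f hM
  obtain ⟨c, φ, hrk, hval⟩ := hM
  intro m
  induction m with
  | zero =>
    intro A B hA hB e
    have hA' : rkC (φ A) = ((0 : ℕ) : ℤ) := by rw [hrk]; exact_mod_cast hA
    have hB' : rkC (φ B) = ((0 : ℕ) : ℤ) := by rw [hrk]; exact_mod_cast hB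
    rcases cases_rk _ hA' with ⟨-, h⟩ | ⟨K, hK, hKr⟩
    · omega
    rcases cases_rk _ hB' with ⟨-, h⟩ | ⟨L, hL, hLr⟩
    · omega
    obtain ⟨g, hg⟩ := coset_ne K
    obtain ⟨g', hg'⟩ := coset_ne L
    have e1 := hval A K (by exact_mod_cast hA) hK g hg
    have e2 := hval B L (by exact_mod_cast hB) hL g' hg'
    have e3 : f A = f B := e
    rw [e1, e2] at e3
    have e4 := hR.inj (add_left_cancel e3)
    have hr : K.rank = L.rank := by rw [Fin.ext_iff, hKr, hLr]
    have h5 : g⁻¹ * g' ∈ S.par {j | j.val ≠ 0} := by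
      refine hR.stab _ (mul_mem (inv_mem (coset_sub K hg)) (coset_sub L hg')) ?_
      change g.symm (g' y0) = y0
      rw [← e4]
      exact g.symm_apply_apply _
    have h6 : K = L := by
      refine eq_of_mem hr hg hg' (par_mono ?_ h5)
      intro j hj
      change j ≠ K.rank
      intro hh
      exact hj (by rw [hh, hKr])
    apply φ.injective
    rw [hK, hL, h6]
  | succ m ih =>
    intro A B hA hB e
    have hA' : rkC (φ A) = ((m + 1 : ℕ) : ℤ) := by rw [hrk]; exact_mod_cast hA
    have hB' : rkC (φ B) = ((m + 1 : ℕ) : ℤ) := by rw [hrk]; exact_mod_cast hB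
    rcases cases_rk _ hA' with ⟨h1, h1'⟩ | ⟨K, hK, hKr⟩
    · rcases cases_rk _ hB' with ⟨h2, h2'⟩ | ⟨L, hL, hLr⟩
      · apply φ.injective
        rw [h1, h2]
      · have := L.rank.isLt
        omega
    rcases cases_rk _ hB' with ⟨h2, h2'⟩ | ⟨L, hL, hLr⟩
    · have := K.rank.isLt
      omega
    have hr : K.rank = L.rank := by rw [Fin.ext_iff, hKr, hLr]
    have hKL : K = L := by
      refine key hS K.rank (by omega) (hR.edge K.rank (by omega)) K L rfl hr.symm ?_
      intro M hM hle
      have hMv : M.rank.val = m := by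
        rw [hM]
        change K.rank.val - 1 = m
        omega
      set C : P := φ.symm (some (some M)) with hC
      have hφC : φ C = some (some M) := φ.apply_symm_apply _
      have hCr : rk C = (m : ℤ) := by
        rw [← hrk, hφC]
        change ((M.rank.val : ℕ) : ℤ) = m
        rw [hMv]
      have hCA : C ≤ A := by
        rw [← φ.le_iff_le, hφC, hK]
        have e0 : ((M : WithTop (CFace S)) : CPos S) ≤ ((K : WithTop (CFace S)) : CPos S) :=
          WithBot.coe_le_coe.2 (WithTop.coe_le_coe.2 hle)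
        exact e0
      have hmem : faceImg rk f m C ∈
          ({x | ∃ G : P, rk G = (m : ℤ) ∧ G ≤ A ∧ faceImg rk f m G = x} : Set (FaceImg d m)) :=
        ⟨C, hCr, hCA, rfl⟩
      have e' : ({x | ∃ G : P, rk G = (m : ℤ) ∧ G ≤ A ∧ faceImg rk f m G = x} :
          Set (FaceImg d m)) = {x | ∃ G : P, rk G = (m : ℤ) ∧ G ≤ B ∧ faceImg rk f m G = x} := e
      rw [e'] at hmem
      obtain ⟨C', hC'r, hC'B, e'⟩ := hmem
      have hCC : C' = C := ih C' C hC'r hCr e'
      rw [hCC, ← φ.le_iff_le, hφC, hL] at hC'B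
      exact WithTop.coe_le_coe.1 (WithBot.coe_le_coe.1 hC'B)
    apply φ.injective
    rw [hK, hL, hKL]

end

end FOK
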