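import Pool.Agent.FOK.QEC
import Pool.Agent.FO2.E1

/-!
# The mix of the simplex with the `k`-gon: the conditions for faithfulness (12.2 of PAPER12.md)
-/

namespace FOK

open Lib_helper64.FO Equiv FO2
open scoped RealInnerProductSpace

noncomputable section

namespace QER

open QEC

variable {d k : ℕ}

/-- normal form of the elements of the whole group -/
theorem all (g : Perm (Fin (d + 1) × ZMod k)) (hg : g ∈ (S5 k d).par Set.univ) :
    ∃ (π : Perm (Fin (d + 1))) (e : Perm (ZMod k)), g = ph π e ∧
      ∃ ε c : ZMod k, (ε = 1 ∨ ε = -1) ∧ ∀ a, e a = ε * a + c := by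
  refine Subgroup.closure_induction (p := fun g _ => ∃ (π : Perm (Fin (d + 1)))
      (e : Perm (ZMod k)), g = ph π e ∧ ∃ ε c : ZMod k, (ε = 1 ∨ ε = -1) ∧ ∀ a, e a = ε * a + c)
      ?_ ?_ ?_ ?_ hg
  · rintro _ ⟨j, -, rfl⟩
    refine ⟨_, _, σ_eq j, ?_⟩
    by_cases h0 : j.val = 0
    · refine ⟨-1, 1, Or.inr rfl, fun a => ?_⟩
      unfold fl
      rw [if_pos h0, om_apply]
      ring
    · rcases fl_pos (k := k) (j := j) (by omega) with h | h
      · refine ⟨1, 0, Or.inl rfl, fun a => ?_⟩
        rw [h, one_mul, add_zero]; rfl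
      · refine ⟨-1, 0, Or.inr rfl, fun a => ?_⟩
        rw [h, ng_apply]
        ring
  · exact ⟨1, 1, ph_one.symm, 1, 0, Or.inl rfl, fun a => by rw [one_mul, add_zero]; rfl⟩
  · rintro x y - - ⟨π, e, rfl, ε, c, hε, hc⟩ ⟨π', e', rfl, ε', c', hε', hc'⟩
    refine ⟨π * π', e * e', ph_mul _ _ _ _, ε * ε', ε * c' + c, ?_, fun a => ?_⟩
    · rcases hε with rfl | rfl <;> rcases hε' with rfl | rfl <;> simp
    · rw [Perm.mul_apply, hc', hc]
      ring
  · rintro x - ⟨π, e, rfl, ε, c, hε, hc⟩
    refine ⟨π⁻¹, e⁻¹, ph_inv _ _, ε, - (ε * c), hε, fun a => ?_⟩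
    rw [Perm.inv_eq_iff_eq, hc]
    rcases hε with rfl | rfl <;> ring

theorem mem_univ_of {I : Set (Fin d)} {g : Perm (Fin (d + 1) × ZMod k)}
    (hg : g ∈ (S5 k d).par I) : g ∈ (S5 k d).par Set.univ :=
  Subgroup.closure_mono (Set.image_mono (Set.subset_univ I)) hg

/-- the translations are in the group -/
theorem tr_one (hA : StmtAdj) (hd : 4 ≤ d) :
    ph (1 : Perm (Fin (d + 1))) (Equiv.addRight (1 : ZMod k)) ∈ (S5 k d).par Set.univ := by
  set j0 : Fin d := ⟨0, by omega⟩ with hj0
  set j1 : Fin d := ⟨1, by omega⟩ with hj1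
  have m0 : (S5 k d).σ j0 ∈ (S5 k d).par Set.univ :=
    Subgroup.subset_closure ⟨j0, Set.mem_univ _, rfl⟩
  have mB : ph (1 : Perm (Fin (d + 1))) (ng : Perm (ZMod k)) ∈ (S5 k d).par Set.univ :=
    mem_univ_of (neg_mem (k := k) 3 le_rfl (by omega))
  have mA : ph (Equiv.swap j1.castSucc j1.succ) (1 : Perm (ZMod k)) ∈
      (S5 k d).par Set.univ := by
    refine mem_univ_of (bwd1 hA 3 le_rfl (by omega) _ ?_ 1 (Or.inl rfl))
    intro t ht
    refine swap_fix ?_ ?_ <;> simp only [hj1] <;> omega
  have hs1 : j1.castSucc = j0.succ := by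
    apply Fin.ext; simp [hj0, hj1]
  have hab : j0.castSucc ≠ j0.succ := by
    intro h; have := congrArg Fin.val h; simp at this
  have hac : j0.castSucc ≠ j1.succ := by
    intro h; have := congrArg Fin.val h; simp [hj0, hj1] at this
  have hbc : j0.succ ≠ j1.succ := by
    intro h; have := congrArg Fin.val h; simp [hj0, hj1] at this
  have e0 : (S5 k d).σ j0 * ph 1 ng =
      ph (Equiv.swap j0.castSucc j0.succ) (Equiv.addRight (1 : ZMod k)) := by
    have hf : (fl j0 : Perm (ZMod k)) = om := by unfold fl; rw [if_pos rfl]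
    rw [σ_eq, hf, ph_mul, mul_one]
    congr 1
    ext1 a
    rw [Perm.mul_apply, ng_apply, om_apply, Equiv.coe_addRight]
    ring
  have mT := mul_mem m0 mB
  rw [e0] at mT
  have m2 := mul_mem mT mT
  have m3 := mul_mem (mul_mem mT mA) (mul_mem (mul_mem mT mA) (mul_mem mT mA))
  have m4 := mul_mem m3 (inv_mem m2)
  have key : ph (1 : Perm (Fin (d + 1))) (Equiv.addRight (1 : ZMod k)) =
      ph (Equiv.swap j0.castSucc j0.succ) (Equiv.addRight 1) *
        ph (Equiv.swap j1.castSucc j1.succ) 1 *
      (ph (Equiv.swap j0.castSucc j0.succ) (Equiv.addRight 1) *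
        ph (Equiv.swap j1.castSucc j1.succ) 1 *
      (ph (Equiv.swap j0.castSucc j0.succ) (Equiv.addRight 1) *
        ph (Equiv.swap j1.castSucc j1.succ) 1)) *
      (ph (Equiv.swap j0.castSucc j0.succ) (Equiv.addRight 1) *
        ph (Equiv.swap j0.castSucc j0.succ) (Equiv.addRight 1))⁻¹ := by
    rw [eq_mul_inv_iff_mul_eq]
    simp only [ph_mul, mul_one, one_mul]
    congr 1
    rw [hs1]
    generalize j0.castSucc = a at hab hac
    generalize j0.succ = b at hab hbc
    generalize j1.succ = c at hac hbc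
    ext1 x
    simp only [Perm.mul_apply]
    by_cases ha : x = a
    · subst ha
      simp [Equiv.swap_apply_def, hab, hac, hbc, hab.symm, hac.symm, hbc.symm]
    · by_cases hb : x = b
      · subst hb
        simp [Equiv.swap_apply_def, hab, hac, hbc, hab.symm, hac.symm, hbc.symm]
      · by_cases hc : x = c
        · subst hc
          simp [Equiv.swap_apply_def, hab, hac, hbc, hab.symm, hac.symm, hbc.symm]
        · simp [Equiv.swap_apply_def, ha, hb, hc]
  rw [key]
  exact m4

theorem tr_nat (hA : StmtAdj) (hd : 4 ≤ d) (n : ℕ) :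
    ph (1 : Perm (Fin (d + 1))) (Equiv.addRight (n : ZMod k)) ∈ (S5 k d).par Set.univ := by
  induction n with
  | zero =>
    have : (Equiv.addRight ((0 : ℕ) : ZMod k)) = (1 : Perm (ZMod k)) := by
      ext1 a
      simp
    rw [this, ph_one]
    exact one_mem _
  | succ n ih =>
    have h : ph (1 : Perm (Fin (d + 1))) (Equiv.addRight ((n + 1 : ℕ) : ZMod k)) =
        ph 1 (Equiv.addRight (1 : ZMod k)) * ph 1 (Equiv.addRight (n : ZMod k)) := by
      rw [ph_mul, mul_one]
      congr 1
      ext1 a
      rw [Perm.mul_apply]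
      simp only [Equiv.coe_addRight]
      push_cast
      ring
    rw [h]
    exact mul_mem (tr_one hA hd) ih

/-- the permutations of the first coordinate are in the group -/
theorem perm_mem (hA : StmtAdj) (hd : 4 ≤ d) (π : Perm (Fin (d + 1))) :
    ph π (1 : Perm (ZMod k)) ∈ (S5 k d).par Set.univ := by
  refine bwd hA 0 d (Nat.zero_le _) le_rfl _ ?_ π (fun t ht => by omega)
  intro j _ _
  by_cases h0 : j.val = 0
  · have m0 : (S5 k d).σ j ∈ (S5 k d).par Set.univ :=
      Subgroup.subset_closure ⟨j, Set.mem_univ _, rfl⟩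
    have mB : ph (1 : Perm (Fin (d + 1))) (ng : Perm (ZMod k)) ∈ (S5 k d).par Set.univ :=
      mem_univ_of (neg_mem (k := k) 3 le_rfl (by omega))
    have h1 := mul_mem (mul_mem m0 mB) (inv_mem (tr_one (k := k) hA hd))
    have e : ph (Equiv.swap j.castSucc j.succ) (1 : Perm (ZMod k)) =
        (S5 k d).σ j * ph 1 ng * (ph 1 (Equiv.addRight (1 : ZMod k)))⁻¹ := by
      have hf : (fl j : Perm (ZMod k)) = om := by unfold fl; rw [if_pos h0]
      rw [eq_mul_inv_iff_mul_eq, σ_eq, hf, ph_mul, ph_mul, mul_one, one_mul]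
      congr 1
      ext1 a
      rw [Perm.mul_apply, ng_apply, om_apply, Equiv.coe_addRight]
      ring
    rw [e]
    exact h1
  · refine mem_univ_of (bwd1 hA d (by omega) le_rfl _ ?_ 1 (Or.inl rfl))
    intro t ht
    refine swap_fix ?_ ?_ <;> omega

end QER

theorem t_QER : StmtAdj → StmtQER := by
  intro hA k d hk hd v r hv hr hr0
  have : NeZero k := ⟨by omega⟩
  constructor
  · -- trans
    rintro ⟨i, a⟩
    refine ⟨QEC.ph (Equiv.swap 0 i) 1 * QEC.ph 1 (Equiv.addRight ((a.val : ℕ) : ZMod k)),
      mul_mem (QER.perm_mem hA hd _) (QER.tr_nat hA hd _), ?_⟩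
    rw [QEC.ph_mul, QEC.ph_apply, mul_one, one_mul, Equiv.swap_apply_left]
    change (i, 0 + ((a.val : ℕ) : ZMod k)) = (i, a)
    rw [zero_add, ZMod.natCast_zmod_val]
  · -- stab
    intro g hg h0
    obtain ⟨π, e, rfl, ε, c, hε, hc⟩ := QER.all g hg
    rw [QEC.ph_apply] at h0
    have hp : π 0 = 0 := congrArg Prod.fst h0
    have he : e 0 = 0 := congrArg Prod.snd h0
    rw [hc, mul_zero, zero_add] at he
    subst he
    have he1 : e = 1 ∨ e = QEC.ng := by
      rcases hε with rfl | rfl
      · left
        ext1 a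
        rw [hc, one_mul, add_zero]; rfl
      · right
        ext1 a
        rw [hc, QEC.ng_apply]
        ring
    have := QEC.bwd1 hA d (by omega) le_rfl π (by
      intro t ht
      have : t = 0 := by apply Fin.ext; change t.val = 0; omega
      rw [this, hp]) e he1
    have e2 : ({j | 1 ≤ j.val ∧ j.val < d} : Set (Fin d)) = {j | j.val ≠ 0} := by
      ext j
      simp only [Set.mem_ofPred_eq]
      omega
    rw [← QEC.par_congr (S5 k d) e2]
    exact this
  · -- stab'
    intro j hj
    rw [QEC.σ_eq, QEC.ph_apply]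
    have h1 : Equiv.swap j.castSucc j.succ 0 = 0 := by
      refine QEC.swap_fix ?_ ?_ <;> change 0 ≠ _ <;> omega
    have h2 : (QEC.fl j : Perm (ZMod k)) 0 = 0 := by
      rcases QEC.fl_pos (k := k) (j := j) (by omega) with h | h
      · rw [h]; rfl
      · rw [h, QEC.ng_apply, neg_zero]
    rw [h1, h2]
  · -- inj
    rintro ⟨s, a⟩ ⟨t, b⟩ h
    have h' : r a • v s = r b • v t := h
    have hd2 : (4 : ℝ) ≤ d := by exact_mod_cast hd
    by_cases hst : s = t
    · subst hst
      have h1 : r a = r b := by
        have := congrArg (fun z => ⟪z, v s⟫) h'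
        simp only [inner_smul_left, E1.inner_same hv, mul_one] at this
        exact this
      rw [hr h1]
    · exfalso
      have hn : |r a| = |r b| := by
        have := congrArg norm h'
        rw [norm_smul, norm_smul, E1.norm_v hv, E1.norm_v hv, mul_one, mul_one,
          Real.norm_eq_abs, Real.norm_eq_abs] at this
        exact this
      have h1 : r a = r b * (-1 / d) := by
        have := congrArg (fun z => ⟪z, v s⟫) h'
        simp only [inner_smul_left, E1.inner_same hv, mul_one] at this
        rw [hv, if_neg (fun h => hst h.symm)] at this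
        exact this
      have h2 : |r a| = |r b| * (1 / d) := by
        rw [h1, abs_mul, abs_div, abs_neg, abs_one, abs_of_pos (by linarith : (0 : ℝ) < d)]
      have h3 : 0 < |r b| := abs_pos.2 (hr0 b)
      have h4 : (1 : ℝ) / d < 1 := by
        rw [div_lt_one (by linarith)]
        linarith
      rw [hn] at h2
      nlinarith
  · -- edge
    intro m hm g hg hc
    have e1 : ({j | m ≤ j} : Set (Fin d)) = {j | m.val ≤ j.val ∧ j.val < d} := by
      ext j
      simp only [Set.mem_ofPred_eq, Fin.le_def]
      omega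
    rw [QEC.par_congr _ e1] at hg hc
    obtain ⟨π, e, rfl, hπ, he, he2⟩ := QEC.fwd _ _ _ hg
    obtain ⟨π', e', h', hπ', he', -⟩ := QEC.fwd _ _ _ hc
    rw [QEC.σ_eq, QEC.ph_mul, QEC.ph_mul] at h'
    obtain ⟨hπe, hee⟩ := QEC.ph_inj h'
    have he1 : e = 1 := by
      rcases Nat.lt_or_ge m.val 2 with h2 | h2
      · rcases he hm with h | h
        · exact h
        · have hf : (QEC.fl (prd m) : Perm (ZMod k)) = QEC.om := by
            unfold QEC.fl
            rw [if_pos (by simp only [prd]; omega)]
          have h5 : (2 : ZMod k) = 0 := by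
            have h6 : e' 0 = 0 := by
              rcases he' hm with h | h
              · rw [h]; rfl
              · rw [h, QEC.ng_apply, neg_zero]
            rw [← hee, hf, h, Perm.mul_apply, Perm.mul_apply, QEC.om_apply, QEC.ng_apply,
              QEC.om_apply] at h6
            calc (2 : ZMod k) = 1 - -(1 - 0) := by ring
              _ = 0 := h6
          rw [h]
          ext1 a
          rw [QEC.ng_apply]
          change -a = a
          linear_combination (-a) * h5
      · exact he2 h2
    subst he1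
    set s := Equiv.swap (prd m).castSucc (prd m).succ with hs
    have hsucc : (prd m).succ = m.castSucc := by
      apply Fin.ext; simp [prd]; omega
    have h5 : π' (prd m).castSucc = (prd m).castSucc := by
      apply hπ'
      left
      simp [prd]; omega
    rw [← hπe, Perm.mul_apply, Perm.mul_apply, hs, Equiv.swap_apply_left, ← hs] at h5
    have h6 : π (prd m).succ = (prd m).succ := by
      have := congrArg s h5
      rw [hs, Equiv.swap_apply_self, Equiv.swap_apply_left] at this
      exact this
    have h7 := QEC.bwd2 (k := k) hA (m.val + 1) d (by omega) (by omega) le_rfl π (by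
      intro t ht
      rcases ht with ht | ht
      · rcases Nat.lt_succ_iff_lt_or_eq.1 ht with h | h
        · exact hπ t (Or.inl h)
        · have : t = (prd m).succ := by
            rw [hsucc]; apply Fin.ext; simpa using h
          rw [this, h6]
      · omega)
    have e2 : ({j | m.val + 1 ≤ j.val ∧ j.val < d} : Set (Fin d)) = {j | m < j} := by
      ext j
      simp only [Set.mem_ofPred_eq, Fin.lt_def]
      omega
    rw [← QEC.par_congr (S5 k d) e2]
    exact h7

end

end FOK
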