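import Pool.Agent.FOK.Stmts4

/-!
# At most four elements preserve the radii up to sign
-/

namespace FOK

open Lib_helper64.FO FO2

namespace QH4

/-- two elements with the same sign act in the same way on `r` -/
theorem same {A B : Type} [Neg B] (r : A → B) (q q' : Equiv.Perm A)
    (hq : (∀ a, r (q a) = r a) ∨ ∀ a, r (q a) = - r a)
    (hq' : (∀ a, r (q' a) = r a) ∨ ∀ a, r (q' a) = - r a)
    (h : (∀ a, r (q a) = r a) ↔ ∀ a, r (q' a) = r a) (a : A) : r (q a) = r (q' a) := by
  by_cases h1 : ∀ a, r (q a) = r a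
  · rw [h1 a, h.1 h1 a]
  · have h2 := hq.resolve_left h1
    have h3 := hq'.resolve_left fun h4 => h1 (h.2 h4)
    rw [h2 a, h3 a]

theorem core {d : ℕ} {A : Type} (M : Mix d A) (p : A → ℤˣ)
    (hp : ∀ q ∈ M.C, (∀ a, p (q a) = p a) ∨ ∀ a, p (q a) = - p a)
    (hinj : ∀ a b, p a = p b → M.r a = M.r b → a = b) : Nat.card M.HC ≤ 4 := by
  classical
  have h4 : Nat.card (Bool × Bool) = 4 := by
    rw [Nat.card_eq_fintype_card, Fintype.card_prod, Fintype.card_bool]
  rw [← h4]
  refine Nat.card_le_card_of_injective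
    (fun q : M.HC => (decide (∀ a, M.r (q.1 a) = M.r a), decide (∀ a, p (q.1 a) = p a))) ?_
  rintro ⟨q, hq1, hq2⟩ ⟨q', hq1', hq2'⟩ h
  have h1 := (Prod.ext_iff.1 h).1
  have h2 := (Prod.ext_iff.1 h).2
  have h1' : (∀ a, M.r (q a) = M.r a) ↔ ∀ a, M.r (q' a) = M.r a := decide_eq_decide.1 h1
  have h2' : (∀ a, p (q a) = p a) ↔ ∀ a, p (q' a) = p a := decide_eq_decide.1 h2
  apply Subtype.ext
  apply Equiv.ext
  intro a
  exact hinj _ _ (same p q q' (hp q hq1) (hp q' hq1') h2' a) (same M.r q q' hq2 hq2' h1' a)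

theorem signs {d : ℕ} {A : Type} (M : Mix d A) (p : A → ℤˣ)
    (hp : ∀ (j : Fin d) (a : A), p (M.π j a) = if j.val = 0 then - p a else p a) :
    ∀ q ∈ M.C, (∀ a, p (q a) = p a) ∨ ∀ a, p (q a) = - p a := by
  intro q hq
  refine Subgroup.closure_induction
    (p := fun q _ => (∀ a, p (q a) = p a) ∨ ∀ a, p (q a) = - p a) ?_ ?_ ?_ ?_ hq
  · rintro _ ⟨j, rfl⟩
    by_cases hj : j.val = 0
    · right
      intro a
      rw [hp, if_pos hj]
    · left
      intro a
      rw [hp, if_neg hj]
  · left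
    intro a
    rfl
  · intro x y _ _ hx hy
    rcases hx with hx | hx <;> rcases hy with hy | hy
    · left
      intro a
      rw [Equiv.Perm.mul_apply, hx, hy]
    · right
      intro a
      rw [Equiv.Perm.mul_apply, hx, hy]
    · right
      intro a
      rw [Equiv.Perm.mul_apply, hx, hy]
    · left
      intro a
      rw [Equiv.Perm.mul_apply, hx, hy, neg_neg]
  · intro x _ hx
    rcases hx with hx | hx
    · left
      intro a
      have := hx (x⁻¹ a)
      rw [show x (x⁻¹ a) = a from Equiv.apply_symm_apply x a] at this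
      exact this.symm
    · right
      intro a
      have := hx (x⁻¹ a)
      rw [show x (x⁻¹ a) = a from Equiv.apply_symm_apply x a] at this
      rw [this, neg_neg]

end QH4

open QH4 in
theorem t_QH4 : StmtQH4 := by
  intro d y0 g A _ M hM
  have key : Function.Injective M.r → Nat.card M.HC ≤ 4 := fun h =>
    core M (fun _ => 1) (fun _ _ => Or.inl fun _ => rfl) fun a b _ hab => h hab
  rcases hM with ⟨_, h⟩ | ⟨_, h⟩ | ⟨_, p, hp, h⟩
  · exact key h
  · exact key h
  · exact core M p (signs M p hp) h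

end FOK
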