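import Pool.Agent.FOK.Stmts4
import Pool.Agent.FO2.GE1

/-!
# Module QIX: the number of flag orbits is the index of the symmetry group
-/

namespace FOK

open Lib_helper64.FO FO2

theorem t_QIX : StmtPoly → StmtQIX := by
  intro hP d P _ _ rk hR f
  obtain ⟨b, -⟩ := hR.bot
  obtain ⟨C, -⟩ := Flag.exists_mem b
  obtain ⟨ρ, hρ⟩ := hP d P rk hR C
  exact card_orbits_eq_index C (fun D => hR.regular C D) hρ.free (symGroup rk f)

end FOK
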