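import Pool.Agent.FOK.Stmts4
import Pool.Agent.FO2.GE1

/-!
# From a k-orbit realization to its algebraic form
-/

namespace FOK

open Lib_helper64.FO FO2
open scoped RealInnerProductSpace

theorem t_QKG : StmtFlag → StmtPoly → StmtQLI → StmtQIX → StmtQKG := by
  intro _ _ hL hI d k hd hk P _ _ rk hP f hf C ρ hρ
  obtain ⟨hfa, horb⟩ := hf
  obtain ⟨x0, h0, hr0⟩ := hP.flags C 0 (by norm_num) (by positivity)
  let _ := GE1.act hρ.rank
  have hsm : ∀ (γ : P ≃o P) (x : {v : P // rk v = 0}), (γ • x).1 = γ x.1 := fun _ _ => rfl
  have : Nonempty {v : P // rk v = 0} := ⟨⟨x0, hr0⟩⟩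
  obtain ⟨c, T, hT1, hT2, hT3⟩ := hL d (P ≃o P) {v : P // rk v = 0} (fun x => f x.1)
    (symGroup rk f) (by
      rintro γ ⟨_, T, hT⟩
      exact ⟨T, fun x => hT x.1 x.2⟩)
  let G : KGeo d k (P ≃o P) {v : P // rk v = 0} :=
    { ρ := ρ
      x0 := ⟨x0, hr0⟩
      H := symGroup rk f
      f := fun x => f x.1 - c
      T := T
      one_of_ge := hρ.one_of_ge
      ne_one := hρ.ne_one
      sq := hρ.sq
      comm := hρ.comm
      gen := hρ.gen
      inter := hρ.inter
      trans := by
        rintro ⟨v, hv⟩
        obtain ⟨D, hD⟩ := Flag.exists_mem v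
        obtain ⟨γ, hγ⟩ := hP.regular C D
        refine ⟨γ, Subtype.ext ?_⟩
        rw [hsm]
        exact GE1.flag_unique hP D (GE1.smul_mem hγ h0) hD (by rw [hρ.rank, hr0, hv])
      stab := by
        intro j hj
        apply Subtype.ext
        rw [hsm]
        exact hρ.moves j x0 h0 (by rw [hr0]; omega)
      fix := by
        intro m γ hγ
        apply hρ.stab
        intro x hx i hi him
        have him' : i ≤ m := by
          by_contra hcon
          exact him (by simpa using hcon)
        refine GE1.fix_below hρ hfa γ x (fun v hv hvx => ?_) i x hi le_rfl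
        obtain ⟨g, hg, rfl⟩ := GE1.vertex_trans hP hρ h0 hr0 hx hi hv hvx
        have hg' : g ∈ gpar ρ {j | j < m} :=
          Subgroup.closure_mono (Set.image_mono fun j (hj : j < i) => lt_of_lt_of_le hj him') hg
        have := congrArg Subtype.val (hγ g hg')
        exact this
      inj := by
        rintro ⟨v, hv⟩ ⟨w, hw⟩ e
        apply Subtype.ext
        have e' : f v = f w := by
          have e2 : f v - c = f w - c := e
          exact sub_left_injective e2
        exact hfa 0 v w (by simpa using hv) (by simpa using hw) e'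
      idx := by
        rw [← hI d P rk hP f]
        exact horb
      T_mul := hT1
      equiv := hT2
      perp := hT3
      noiso := by
        rintro γ hγ ⟨g, hg⟩
        apply hγ
        refine ⟨hρ.rank γ, (IsometryEquiv.subRight c).trans
          (g.toIsometryEquiv.trans (IsometryEquiv.addRight c)), fun v hv => ?_⟩
        have := hg ⟨v, hv⟩
        have h2 : g (f v - c) = f (γ v) - c := this
        change g (f v - c) + c = f (γ v)
        rw [h2, sub_add_cancel] }
  exact ⟨{v : P // rk v = 0}, inferInstance, inferInstance, G, Subtype.val, c,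
    { inj := Subtype.val_injective
      equiv := fun _ _ => rfl
      base := h0
      rank := fun x => x.2
      surj := fun v hv => ⟨⟨v, hv⟩, rfl⟩
      gens := rfl
      fval := fun _ => rfl
      sym := rfl }⟩

end FOK
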