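import Pool.Agent.FOK.Stmts4
import Pool.Agent.FO2.LIN

/-!
# Centring and linearising, with the identity on the orthogonal complement
-/

namespace FOK

open Lib_helper64.FO FO2 FO2.LINP
open scoped RealInnerProductSpace

noncomputable section

theorem t_QLI : StmtQLI := by
  intro d Γ _ X _ _ _ f H hH
  classical
  haveI : Fintype X := Fintype.ofFinite X
  have h1 : ∀ h ∈ H, ∃ L : E d ≃ₗᵢ[ℝ] E d, ∀ x, L (f x - cen f) = f (h • x) - cen f :=
    fun h hh => exists_lin f h (hH h hh)
  choose! L hL using h1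
  have h2 : ∀ h ∈ H, ∃ M : E d ≃ₗᵢ[ℝ] E d, ∀ v, M v = mk f (L h) v := by
    intro h hh
    let M0 : E d →ₗᵢ[ℝ] E d := ⟨mk f (L h), norm_mk f (hL h hh)⟩
    exact ⟨M0.toLinearIsometryEquiv rfl, fun v => rfl⟩
  choose! M hM using h2
  refine ⟨cen f, M, ?_, ?_, ?_⟩
  · intro g hg h hh
    have hgh : g * h ∈ H := H.mul_mem hg hh
    ext1 v
    show M (g * h) v = M g (M h v)
    rw [hM _ hgh, hM _ hh, hM _ hg]
    set p := (W f).starProjection v with hp
    have h0 : p ∈ W f := Submodule.starProjection_apply_mem _ _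
    have h3 : v - p ∈ (W f)ᗮ := Submodule.sub_starProjection_mem_orthogonal _
    have e1 : mk f (L g) (v - p) = v - p := by
      rw [mk_apply, (Submodule.starProjection_apply_eq_zero_iff _).2 h3, map_zero, sub_zero,
        zero_add]
    have e2 : mk f (L h) v = L h p + (v - p) := mk_apply f _ v
    have e3 : mk f (L (g * h)) v = L (g * h) p + (v - p) := mk_apply f _ v
    rw [e2, e3, map_add, e1, mk_of_mem f _ (mem_W f (hL h hh) h0)]
    congr 1
    refine eq_on_W f (L := ((L (g * h)).toLinearEquiv : E d →ₗ[ℝ] E d))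
      (L' := ((L g).toLinearEquiv : E d →ₗ[ℝ] E d) ∘ₗ ((L h).toLinearEquiv : E d →ₗ[ℝ] E d))
      (fun x => ?_) h0
    show L (g * h) (f x - cen f) = L g (L h (f x - cen f))
    rw [hL _ hgh, hL _ hh, hL _ hg, mul_smul]
  · intro h hh x
    rw [hM _ hh, mk_of_mem f _ (Submodule.subset_span ⟨x, rfl⟩), hL h hh]
  · intro h hh v hv
    have h3 : v ∈ (W f)ᗮ := by
      rw [Submodule.mem_orthogonal]
      intro u hu
      refine Submodule.span_induction (p := fun u _ => ⟪u, v⟫ = 0) ?_ ?_ ?_ ?_ hu
      · rintro _ ⟨x, rfl⟩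
        exact hv x
      · exact inner_zero_left _
      · intro a b _ _ ha hb
        rw [inner_add_left, ha, hb, add_zero]
      · intro a b _ hb
        rw [inner_smul_left, hb, mul_zero]
    rw [hM _ hh, mk_apply, (Submodule.starProjection_apply_eq_zero_iff _).2 h3, map_zero, sub_zero,
      zero_add]

end

end FOK
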