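import Pool.Agent.FOK.Stmts4

/-!
# QOD: no odd `k ≥ 3`
-/

namespace FOK

open Lib_helper64.FO FO2
open scoped RealInnerProductSpace

namespace QOD

theorem ais {A : Type} (x : Equiv.Perm A) (a : A) : x (x⁻¹ a) = a := x.apply_symm_apply a

/-- `HC` as a subgroup -/
def HCs {d : ℕ} {A : Type} (M : Mix d A) : Subgroup (Equiv.Perm A) where
  carrier := M.HC
  one_mem' := ⟨M.C.one_mem, Or.inl fun _ => rfl⟩
  mul_mem' := by
    rintro x y ⟨hx, hx'⟩ ⟨hy, hy'⟩
    refine ⟨M.C.mul_mem hx hy, ?_⟩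
    rcases hx' with hx' | hx' <;> rcases hy' with hy' | hy'
    · left; intro a; rw [Equiv.Perm.mul_apply, hx', hy']
    · right; intro a; rw [Equiv.Perm.mul_apply, hx', hy']
    · right; intro a; rw [Equiv.Perm.mul_apply, hx', hy']
    · left; intro a; rw [Equiv.Perm.mul_apply, hx', hy', neg_neg]
  inv_mem' := by
    rintro x ⟨hx, hx'⟩
    refine ⟨M.C.inv_mem hx, ?_⟩
    rcases hx' with hx' | hx'
    · left; intro a
      have := hx' (x⁻¹ a)
      rw [QOD.ais] at this
      exact this.symm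
    · right; intro a
      have := hx' (x⁻¹ a)
      rw [QOD.ais] at this
      rw [this, neg_neg]

theorem card_HCs {d : ℕ} {A : Type} (M : Mix d A) : Nat.card (HCs M) = Nat.card M.HC := rfl

theorem HCs_le {d : ℕ} {A : Type} (M : Mix d A) : HCs M ≤ M.C := fun _ h => h.1

/-- the sign of an element of `C` -/
theorem sgn {d : ℕ} {A : Type} (M : Mix d A) (p : A → ℤˣ)
    (hp : ∀ j a, p (M.π j a) = if j.val = 0 then - p a else p a) (q : Equiv.Perm A) (hq : q ∈ M.C) :
    ∃ s : ℤˣ, ∀ a, p (q a) = s * p a := by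
  unfold Mix.C at hq
  induction hq using Subgroup.closure_induction with
  | mem x hx =>
    obtain ⟨j, rfl⟩ := hx
    by_cases h : j.val = 0
    · exact ⟨-1, fun a => by rw [hp, if_pos h]; simp⟩
    · exact ⟨1, fun a => by rw [hp, if_neg h]; simp⟩
  | one => exact ⟨1, fun a => by simp⟩
  | mul x y _ _ hx hy =>
    obtain ⟨s, hs⟩ := hx
    obtain ⟨t, ht⟩ := hy
    exact ⟨s * t, fun a => by rw [Equiv.Perm.mul_apply, hs, ht, mul_assoc]⟩
  | inv x _ hx =>
    obtain ⟨s, hs⟩ := hx
    refine ⟨s⁻¹, fun a => ?_⟩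
    have := hs (x⁻¹ a)
    rw [QOD.ais] at this
    rw [this, inv_mul_cancel_left]

/-- an involution in `C` acts on the cosets with a fixed point, if their number is odd -/
theorem fixed {G : Type} [Group G] [Finite G] (H : Subgroup G) (hodd : ¬ 2 ∣ H.index) (h : G)
    (hh : h * h = 1) : ∃ c : G, c⁻¹ * (h * c) ∈ H := by
  classical
  let _ : Fintype (G ⧸ H) := Fintype.ofFinite _
  have h1 : ¬ 2 ∣ Fintype.card (G ⧸ H) := by
    rw [← Nat.card_eq_fintype_card]
    exact hodd
  have h2 : (MulAction.toPerm h : Equiv.Perm (G ⧸ H)) ^ 2 ^ 1 = 1 := by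
    ext x
    rw [pow_one, pow_two, Equiv.Perm.mul_apply, MulAction.toPerm_apply, MulAction.toPerm_apply,
      smul_smul, hh, one_smul]
    rfl
  have : Fact (Nat.Prime 2) := ⟨Nat.prime_two⟩
  obtain ⟨x, hx⟩ := Equiv.Perm.exists_fixed_point_of_prime h1 h2
  obtain ⟨c, rfl⟩ := QuotientGroup.mk_surjective x
  refine ⟨c, ?_⟩
  rw [MulAction.toPerm_apply] at hx
  have h3 : ((h * c : G) : G ⧸ H) = (c : G ⧸ H) := hx
  have h4 := QuotientGroup.eq.1 h3.symm
  exact h4

theorem pi_eq_one {d k : ℕ} {y0 : E d} {g : Fin d → (E d ≃ₗᵢ[ℝ] E d)} {A : Type} [Finite A]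
    (M : Mix d A) (hM : ModelOK y0 g M) (hk : k * Nat.card M.HC = Nat.card M.C) (hodd : ¬ Even k)
    (j : Fin d) (hj : 1 ≤ j.val) : M.π j = 1 := by
  classical
  -- the index
  have hidx : ((HCs M).subgroupOf M.C).index = k := by
    have h1 := Subgroup.card_mul_index ((HCs M).subgroupOf M.C)
    have h2 : Nat.card ((HCs M).subgroupOf M.C) = Nat.card (HCs M) :=
      Nat.card_congr (Subgroup.subgroupOfEquivOfLe (HCs_le M)).toEquiv
    rw [h2, card_HCs, ← hk, mul_comm k] at h1
    have h3 : 0 < Nat.card M.HC := by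
      rw [← card_HCs]
      exact Nat.card_pos
    exact Nat.eq_of_mul_eq_mul_left h3 h1
  have hmem : M.π j ∈ M.C := Subgroup.subset_closure ⟨j, rfl⟩
  have hnd : ¬ 2 ∣ ((HCs M).subgroupOf M.C).index := by
    rw [hidx]
    intro h
    exact hodd (even_iff_two_dvd.2 h)
  obtain ⟨⟨c, hc⟩, hcc⟩ := fixed ((HCs M).subgroupOf M.C) hnd ⟨M.π j, hmem⟩
    (Subtype.ext (M.sq j))
  have hin : c⁻¹ * (M.π j * c) ∈ M.HC := by
    have := Subgroup.mem_subgroupOf.1 hcc
    exact this
  have hval : ∀ a, (c⁻¹ * (M.π j * c)) a = c⁻¹ (M.π j (c a)) := fun a => rfl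
  have hr : ∀ a, M.r (c⁻¹ (M.π j (c a))) = M.r a := by
    rcases hin.2 with h | h
    · exact fun a => by rw [← hval]; exact h a
    · exfalso
      have h1 := h (c⁻¹ M.a0)
      rw [hval, QOD.ais, M.fix j hj] at h1
      have h2 := M.ne (c⁻¹ M.a0)
      apply h2
      linarith
  have key : ∀ a, c⁻¹ (M.π j (c a)) = a := by
    rcases hM with ⟨_, hinj⟩ | ⟨_, hinj⟩ | ⟨_, p, hp, hpr⟩
    · exact fun a => hinj (hr a)
    · exact fun a => hinj (hr a)
    · intro a
      apply hpr _ _ _ (hr a)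
      obtain ⟨s, hs⟩ := sgn M p hp c hc
      have h1 := hs (c⁻¹ (M.π j (c a)))
      rw [QOD.ais, hp, if_neg (by omega), hs] at h1
      exact (mul_left_cancel h1).symm
  ext a
  have h1 := key (c⁻¹ a)
  rw [QOD.ais] at h1
  have h2 := c⁻¹.injective h1
  rw [h2]
  rfl

end QOD

theorem t_QOD : StmtQOD := by
  intro d k y0 g A _ M hM hk
  by_cases hodd : Even k
  · exact Or.inr hodd
  classical
  left
  have hpi := QOD.pi_eq_one M hM hk hodd
  let x : Equiv.Perm A := if h : 0 < d then M.π ⟨0, h⟩ else 1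
  have hx : x * x = 1 := by
    by_cases h : 0 < d
    · simp only [x, dif_pos h]
      exact M.sq _
    · simp only [x, dif_neg h]
      exact mul_one 1
  have hle : M.C ≤ Subgroup.zpowers x := by
    unfold Mix.C
    rw [Subgroup.closure_le]
    rintro _ ⟨j, rfl⟩
    by_cases hj : 1 ≤ j.val
    · rw [hpi j hj]
      exact Subgroup.one_mem _
    · have h0 : 0 < d := by have := j.isLt; omega
      have h1 : M.π j = x := by
        simp only [x, dif_pos h0]
        congr 1
        apply Fin.ext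
        show j.val = 0
        omega
      rw [h1]
      exact Subgroup.mem_zpowers x
  have h1 : Nat.card M.C ∣ 2 := by
    have h2 : Nat.card M.C ∣ Nat.card (Subgroup.zpowers x) := Subgroup.card_dvd_of_le hle
    rw [Nat.card_zpowers] at h2
    exact h2.trans (orderOf_dvd_of_pow_eq_one (by rw [pow_two]; exact hx))
  have h2 : k ∣ 2 := (Dvd.intro _ hk).trans h1
  have h3 := Nat.le_of_dvd (by norm_num) h2
  interval_cases k
  · exact absurd (by decide : Even 0) hodd
  · rfl
  · exact absurd (by decide : Even 2) hodd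

end FOK
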