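import Pool.Agent.FOK.Stmts4

/-!
# Module QRC: `Rich` for the cube
-/

namespace FOK

open Lib_helper64.FO FO2
open scoped RealInnerProductSpace

noncomputable section

namespace QRC

variable {d : ℕ} {A : Type}

/-- `x` is the value of a word whose permutation is the identity -/
def Kp (g : Fin d → (E d ≃ₗᵢ[ℝ] E d)) (M : Mix d A) (x : E d ≃ₗᵢ[ℝ] E d) : Prop :=
  ∃ w : List (Fin d), (w.map g).prod = x ∧ (w.map M.π).prod = 1

/-- `x` in `Kp` exchanges `u i` and `s • u i'` and fixes the other `u m` -/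
def Pp (g : Fin d → (E d ≃ₗᵢ[ℝ] E d)) (M : Mix d A) (u : OrthonormalBasis (Fin d) ℝ (E d))
    (i i' : Fin d) (s : ℝ) : Prop :=
  ∃ x, Kp g M x ∧ x (u i) = s • u i' ∧ x (u i') = s • u i ∧ ∀ m, m ≠ i → m ≠ i' → x (u m) = u m

theorem Kp_conj {g : Fin d → (E d ≃ₗᵢ[ℝ] E d)} {M : Mix d A} {x : E d ≃ₗᵢ[ℝ] E d} (j : Fin d)
    (h : Kp g M x) : Kp g M (g j * x * g j) := by
  obtain ⟨w, h1, h2⟩ := h
  refine ⟨j :: (w ++ [j]), ?_, ?_⟩
  · simp [h1, mul_assoc]
  · simp [h2, M.sq]

theorem Pp_swap {g : Fin d → (E d ≃ₗᵢ[ℝ] E d)} {M : Mix d A}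
    {u : OrthonormalBasis (Fin d) ℝ (E d)} {j : Fin d}
    (hg : ∀ i, g j (u i) = u (Equiv.swap (prd j) j i)) {i i' : Fin d} {s : ℝ}
    (h : Pp g M u i i' s) :
    Pp g M u (Equiv.swap (prd j) j i) (Equiv.swap (prd j) j i') s := by
  obtain ⟨x, hx, h1, h2, h3⟩ := h
  refine ⟨g j * x * g j, Kp_conj j hx, ?_, ?_, ?_⟩
  · change g j (x (g j (u (Equiv.swap (prd j) j i)))) = _
    rw [hg, Equiv.swap_apply_self, h1, map_smul, hg]
  · change g j (x (g j (u (Equiv.swap (prd j) j i')))) = _
    rw [hg, Equiv.swap_apply_self, h2, map_smul, hg]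
  · intro m hm hm'
    change g j (x (g j (u m))) = _
    have e1 : Equiv.swap (prd j) j m ≠ i := by
      intro h
      apply hm
      rw [← h, Equiv.swap_apply_self]
    have e2 : Equiv.swap (prd j) j m ≠ i' := by
      intro h
      apply hm'
      rw [← h, Equiv.swap_apply_self]
    rw [hg, h3 _ e1 e2, hg, Equiv.swap_apply_self]

theorem Pp_zero {g : Fin d → (E d ≃ₗᵢ[ℝ] E d)} {M : Mix d A}
    {u : OrthonormalBasis (Fin d) ℝ (E d)} {j : Fin d}
    (hg : ∀ i, g j (u i) = if i = j then - u i else u i) {i' : Fin d} {s : ℝ} (hne : i' ≠ j)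
    (h : Pp g M u j i' s) : Pp g M u j i' (-s) := by
  obtain ⟨x, hx, h1, h2, h3⟩ := h
  have hj : g j (u j) = - u j := by rw [hg, if_pos rfl]
  have hi : ∀ m, m ≠ j → g j (u m) = u m := fun m hm => by rw [hg, if_neg hm]
  refine ⟨g j * x * g j, Kp_conj j hx, ?_, ?_, ?_⟩
  · change g j (x (g j (u j))) = _
    rw [hj, map_neg, map_neg, h1, map_smul, hi _ hne, neg_smul]
  · change g j (x (g j (u i'))) = _
    rw [hi _ hne, h2, map_smul, hj, smul_neg, neg_smul]
  · intro m hm hm'
    change g j (x (g j (u m))) = _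
    rw [hi _ hm, h3 _ hm hm', hi _ hm]

theorem Pp_perm {n : ℕ} {g : Fin (n + 1) → (E (n + 1) ≃ₗᵢ[ℝ] E (n + 1))} {M : Mix (n + 1) A}
    {u : OrthonormalBasis (Fin (n + 1)) ℝ (E (n + 1))}
    (hg : ∀ j i : Fin (n + 1), j.val ≠ 0 → g j (u i) = u (Equiv.swap (prd j) j i))
    (σ : Equiv.Perm (Fin (n + 1))) {i i' : Fin (n + 1)} {s : ℝ} (h : Pp g M u i i' s) :
    Pp g M u (σ i) (σ i') s := by
  have hσ : σ ∈ Submonoid.closure (Set.range fun i : Fin n => Equiv.swap i.castSucc i.succ) := by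
    rw [Equiv.Perm.mclosure_swap_castSucc_succ]
    trivial
  induction hσ using Submonoid.closure_induction generalizing i i' with
  | mem σ hσ =>
    obtain ⟨j, rfl⟩ := hσ
    have e : prd j.succ = j.castSucc := by
      apply Fin.ext
      simp [prd]
    have := Pp_swap (j := j.succ) (fun i => hg j.succ i (by simp)) h
    rw [e] at this
    exact this
  | one => exact h
  | mul σ τ _ _ ih1 ih2 =>
    rw [Equiv.Perm.mul_apply, Equiv.Perm.mul_apply]
    exact ih1 (ih2 h)

/-- two different indices can be moved to two different indices -/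
theorem exists_perm {α : Type} [DecidableEq α] {a b i i' : α} (hab : a ≠ b) (h : i ≠ i') :
    ∃ σ : Equiv.Perm α, σ a = i ∧ σ b = i' := by
  have hne : Equiv.swap a i b ≠ i := by
    intro e
    apply hab
    have := congrArg (Equiv.swap a i) e
    rw [Equiv.swap_apply_self, Equiv.swap_apply_right] at this
    exact this.symm
  refine ⟨Equiv.swap (Equiv.swap a i b) i' * Equiv.swap a i, ?_, ?_⟩
  · rw [Equiv.Perm.mul_apply, Equiv.swap_apply_left,
      Equiv.swap_apply_of_ne_of_ne hne.symm h]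
  · rw [Equiv.Perm.mul_apply, Equiv.swap_apply_left]

theorem Pp_all {n : ℕ} {g : Fin (n + 1) → (E (n + 1) ≃ₗᵢ[ℝ] E (n + 1))} {M : Mix (n + 1) A}
    {u : OrthonormalBasis (Fin (n + 1)) ℝ (E (n + 1))}
    (hg : ∀ j i : Fin (n + 1), j.val ≠ 0 → g j (u i) = u (Equiv.swap (prd j) j i))
    (hg0 : ∀ i, g 0 (u i) = if i = 0 then - u i else u i) (l : Fin (n + 1)) (hl : 1 ≤ l.val)
    (hπ : M.π l = 1) {i i' : Fin (n + 1)} (h : i ≠ i') {s : ℝ} (hs : s = 1 ∨ s = -1) :
    Pp g M u i i' s := by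
  have hpl : prd l ≠ l := by
    intro e
    have := congrArg Fin.val e
    simp [prd] at this
    omega
  have h0 : Pp g M u (prd l) l 1 := by
    refine ⟨g l, ⟨[l], by simp, by simp [hπ]⟩, ?_, ?_, ?_⟩
    · rw [hg _ _ (by omega), Equiv.swap_apply_left, one_smul]
    · rw [hg _ _ (by omega), Equiv.swap_apply_right, one_smul]
    · intro m hm hm'
      rw [hg _ _ (by omega), Equiv.swap_apply_of_ne_of_ne hm hm']
  have h1 : ∀ i i' : Fin (n + 1), i ≠ i' → Pp g M u i i' 1 := by
    intro i i' h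
    obtain ⟨σ, e1, e2⟩ := exists_perm hpl h
    have := Pp_perm hg σ h0
    rwa [e1, e2] at this
  rcases hs with rfl | rfl
  · exact h1 i i' h
  · have hl0 : l ≠ 0 := by
      intro e
      rw [e] at hl
      simp at hl
    have h2 := Pp_zero (j := 0) hg0 hl0 (h1 0 l hl0.symm)
    obtain ⟨σ, e1, e2⟩ := exists_perm hl0.symm h
    have := Pp_perm hg σ h2
    rwa [e1, e2] at this

/-- a vector with coordinates `± 1` -/
def IsS (u : OrthonormalBasis (Fin d) ℝ (E d)) (y : E d) : Prop :=
  ∃ s : Fin d → ℝ, (∀ i, s i = 1 ∨ s i = -1) ∧ y = ∑ i, s i • u i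

theorem isS_step {g : Fin d → (E d ≃ₗᵢ[ℝ] E d)} {u : OrthonormalBasis (Fin d) ℝ (E d)}
    (hg : ∀ j i : Fin d, g j (u i) =
      if j.val = 0 then (if i = j then - u i else u i) else u (Equiv.swap (prd j) j i))
    (j : Fin d) {y : E d} (h : IsS u y) : IsS u (g j y) := by
  obtain ⟨s, hs, rfl⟩ := h
  by_cases hj : j.val = 0
  · refine ⟨fun i => if i = j then - s i else s i, fun i => ?_, ?_⟩
    · by_cases hi : i = j
      · simp only [hi, if_true]
        rcases hs j with h | h <;> simp [h]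
      · simp only [hi, if_false]
        exact hs i
    · rw [map_sum]
      refine Finset.sum_congr rfl fun i _ => ?_
      rw [map_smul, hg, if_pos hj]
      by_cases hi : i = j
      · simp [hi]
      · simp [hi]
  · refine ⟨fun i => s (Equiv.swap (prd j) j i), fun i => hs _, ?_⟩
    rw [map_sum, ← Equiv.sum_comp (Equiv.swap (prd j) j)]
    refine Finset.sum_congr rfl fun i _ => ?_
    rw [map_smul, hg, if_neg hj, Equiv.swap_apply_self]

theorem isS_word {g : Fin d → (E d ≃ₗᵢ[ℝ] E d)} {u : OrthonormalBasis (Fin d) ℝ (E d)}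
    (hg : ∀ j i : Fin d, g j (u i) =
      if j.val = 0 then (if i = j then - u i else u i) else u (Equiv.swap (prd j) j i))
    (w : List (Fin d)) {y : E d} (h : IsS u y) : IsS u ((w.map g).prod y) := by
  induction w with
  | nil => exact h
  | cons j w ih =>
    rw [List.map_cons, List.prod_cons]
    exact isS_step hg j ih

theorem rev_word (M : Mix d A) (w : List (Fin d)) :
    (w.reverse.map M.π).prod = ((w.map M.π).prod)⁻¹ := by
  induction w with
  | nil => simp
  | cons j w ih =>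
    have hj : (M.π j)⁻¹ = M.π j := inv_eq_of_mul_eq_one_left (M.sq j)
    rw [List.reverse_cons, List.map_append, List.prod_append, ih, List.map_cons (l := w),
      List.prod_cons (l := List.map M.π w), mul_inv_rev, hj]
    simp

/-- a permutation of the group is the value of a word -/
theorem exists_word (M : Mix d A) {q : Equiv.Perm A} (hq : q ∈ Subgroup.closure (Set.range M.π)) :
    ∃ w : List (Fin d), (w.map M.π).prod = q := by
  induction hq using Subgroup.closure_induction with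
  | mem x hx =>
    obtain ⟨j, rfl⟩ := hx
    exact ⟨[j], by simp⟩
  | one => exact ⟨[], rfl⟩
  | mul x y _ _ ihx ihy =>
    obtain ⟨w, hw⟩ := ihx
    obtain ⟨w', hw'⟩ := ihy
    exact ⟨w ++ w', by simp [hw, hw']⟩
  | inv x _ ih =>
    obtain ⟨w, rfl⟩ := ih
    exact ⟨w.reverse, rev_word M w⟩

/-- the effect of an element of `Pp` on a sign vector -/
theorem sub_eq {u : OrthonormalBasis (Fin d) ℝ (E d)} {x : E d ≃ₗᵢ[ℝ] E d} {i i' : Fin d}
    {s : Fin d → ℝ} (hne : i ≠ i') (hs : ∀ i, s i = 1 ∨ s i = -1)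
    (h1 : x (u i) = (-(s i * s i')) • u i') (h2 : x (u i') = (-(s i * s i')) • u i)
    (h3 : ∀ m, m ≠ i → m ≠ i' → x (u m) = u m) :
    (∑ m, s m • u m) - x (∑ m, s m • u m) = (2 : ℝ) • (s i • u i + s i' • u i') := by
  rw [map_sum, ← Finset.sum_sub_distrib]
  have e : ∀ m ∈ Finset.univ, m ∉ ({i, i'} : Finset (Fin d)) →
      s m • u m - x (s m • u m) = 0 := by
    intro m _ hm
    simp only [Finset.mem_insert, Finset.mem_singleton, not_or] at hm
    rw [map_smul, h3 m hm.1 hm.2, sub_self]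
  rw [← Finset.sum_subset (Finset.subset_univ ({i, i'} : Finset (Fin d))) e,
    Finset.sum_pair hne, map_smul, map_smul, h1, h2]
  have q1 : s i * s i = 1 := by rcases hs i with h | h <;> rw [h] <;> norm_num
  have q2 : s i' * s i' = 1 := by rcases hs i' with h | h <;> rw [h] <;> norm_num
  have e1 : s i * -(s i * s i') = - s i' := by
    calc s i * -(s i * s i') = -((s i * s i) * s i') := by ring
      _ = - s i' := by rw [q1, one_mul]
  have e2 : s i' * -(s i * s i') = - s i := by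
    calc s i' * -(s i * s i') = -((s i' * s i') * s i) := by ring
      _ = - s i := by rw [q2, one_mul]
  rw [smul_smul, smul_smul, e1, e2]
  module

end QRC

open QRC in
theorem t_QRC : StmtQRC := by
  intro d hd y0 g A M hC hl a
  obtain ⟨n, rfl⟩ : ∃ n, d = n + 1 := ⟨d - 1, by omega⟩
  obtain ⟨u, hy0, hg⟩ := hC
  obtain ⟨l, hl1, -, hπ⟩ := hl
  have hg1 : ∀ j i : Fin (n + 1), j.val ≠ 0 → g j (u i) = u (Equiv.swap (prd j) j i) := by
    intro j i hj
    rw [hg, if_neg hj]
  have hg0 : ∀ i, g 0 (u i) = if i = 0 then - u i else u i := by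
    intro i
    rw [hg, if_pos (by simp)]
  -- a point of the orbit over `a`
  obtain ⟨q, hq, hqa⟩ := M.trans a
  obtain ⟨w, rfl⟩ := exists_word M hq
  have hS : IsS u ((w.map g).prod y0) := by
    apply isS_word hg
    exact ⟨fun _ => 1, fun _ => Or.inl rfl, by rw [hy0]; simp⟩
  obtain ⟨s, hs, hsy⟩ := hS
  set Sp := Submodule.span ℝ {v | ∃ y y', InO y0 g M y a ∧ InO y0 g M y' a ∧ v = y - y'} with hSp
  have key : ∀ i i' : Fin (n + 1), i ≠ i' → s i • u i + s i' • u i' ∈ Sp := by
    intro i i' hne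
    have hsgn : -(s i * s i') = 1 ∨ -(s i * s i') = -1 := by
      rcases hs i with h | h <;> rcases hs i' with h' | h' <;> rw [h, h'] <;> norm_num
    obtain ⟨x, ⟨w', hw1, hw2⟩, h1, h2, h3⟩ := Pp_all hg1 hg0 l hl1 hπ hne hsgn
    have h4 := sub_eq hne hs h1 h2 h3
    have h5 : (2 : ℝ) • (s i • u i + s i' • u i') ∈ Sp := by
      rw [← h4, hSp]
      apply Submodule.subset_span
      refine ⟨_, _, ⟨w, hqa, hsy⟩, ⟨w' ++ w, ?_, ?_⟩, rfl⟩
      · rw [List.map_append, List.prod_append, hw2, one_mul, hqa]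
      · rw [List.map_append, List.prod_append, hw1, ← hsy]
        rfl
    have h6 := Submodule.smul_mem Sp (2 : ℝ)⁻¹ h5
    rwa [smul_smul, inv_mul_cancel₀ (by norm_num), one_smul] at h6
  have hu : ∀ i, u i ∈ Sp := by
    intro i
    -- two other indices
    obtain ⟨b, hb⟩ : ∃ b : Fin (n + 1), b ≠ i := by
      by_cases h : i = ⟨0, by omega⟩
      · exact ⟨⟨1, by omega⟩, by rw [h]; intro e; simp at e⟩
      · exact ⟨⟨0, by omega⟩, fun e => h e.symm⟩
    obtain ⟨c, hc, hc'⟩ : ∃ c : Fin (n + 1), c ≠ i ∧ c ≠ b := by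
      have hcard : ({i, b} : Finset (Fin (n + 1))).card < Fintype.card (Fin (n + 1)) := by
        rw [Fintype.card_fin]
        have := Finset.card_le_two (a := i) (b := b)
        omega
      obtain ⟨c, hc⟩ := Finset.exists_mem_notMem_of_card_lt_card
        (s := ({i, b} : Finset (Fin (n + 1)))) (t := Finset.univ) (by simpa using hcard)
      simp only [Finset.mem_univ, Finset.mem_insert, Finset.mem_singleton, not_or,
        true_and] at hc
      exact ⟨c, hc.1, hc.2⟩
    have h1 := key i b hb.symm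
    have h2 := key i c hc.symm
    have h3 := key b c hc'.symm
    have h4 : s i • u i = (2 : ℝ)⁻¹ • ((s i • u i + s b • u b) + (s i • u i + s c • u c)
        - (s b • u b + s c • u c)) := by module
    have h5 : s i • u i ∈ Sp := by
      rw [h4]
      exact Submodule.smul_mem _ _ (Submodule.sub_mem _ (Submodule.add_mem _ h1 h2) h3)
    have h6 : u i = s i • (s i • u i) := by
      rw [smul_smul]
      have : s i * s i = 1 := by rcases hs i with h | h <;> rw [h] <;> norm_num
      rw [this, one_smul]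
    rw [h6]
    exact Submodule.smul_mem _ _ h5
  rw [eq_top_iff, ← u.toBasis.span_eq, Submodule.span_le]
  rintro _ ⟨i, rfl⟩
  rw [OrthonormalBasis.coe_toBasis]
  exact hu i

end

end FOK
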