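import Pool.Agent.FOK.QEX
import Pool.Agent.FOK.QLI
import Pool.Agent.FOK.QGE
import Pool.Agent.FOK.QIX
import Pool.Agent.FOK.QKG
import Pool.Agent.FOK.QRS
import Pool.Agent.FOK.QRC
import Pool.Agent.FOK.QCT
import Pool.Agent.FOK.QH4
import Pool.Agent.FOK.QOD
import Pool.Agent.FOK.QEC
import Pool.Agent.FOK.QEF
import Pool.Agent.FOK.QER
import Pool.Agent.FOK.QEG
import Pool.Agent.FOK.QSI
import Pool.Agent.FOK.QEN
import Pool.Agent.FO2.FLG
import Pool.Agent.FO2.CNN
import Pool.Agent.FO2.POL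
import Pool.Agent.FO2.INT
import Pool.Agent.FO2.COA
import Pool.Agent.FO2.COB
import Pool.Agent.FO2.ADJ

/-!
# Block Q, assembled
-/

namespace FOK

open Lib_helper64.FO FO2

theorem poly' : StmtPoly := FO2.poly FO2.flg (FO2.cnn FO2.flg)

theorem main_of_alg (hX : StmtQRX) (h : StmtAlg) : MainStatement :=
  t_QAS FO2.flg poly' (t_QGE FO2.flg poly') (t_QIX poly')
    (t_QKG FO2.flg poly' t_QLI (t_QIX poly')) t_QRS hX t_QRC t_QCT t_QH4 t_QOD h

theorem exist : ExistStatement := by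
  intro k d hk h hd
  obtain ⟨M, hM, hr, hc⟩ := t_QEN k d hk h (by omega)
  exact t_QEX FO2.flg poly' (FO2.cosB FO2.cosA) (t_QGE FO2.flg poly') (t_QIX poly') t_QRS t_QCT
    (t_QEC FO2.int FO2.adjT) t_QEF (t_QER FO2.adjT) t_QEG t_QSI k d hk hd M hM hr hc

theorem spectrum_of_main (h : MainStatement) : SpectrumStatement := t_QSP FO2.flg poly' h exist

end FOK
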