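import Pool.Agent.FO2.Fam

/-!
# k-orbit realizations of finite regular polytopes: definitions

* the three models: a base vertex `y0` and the distinguished generators `g j` of the group of the
  regular simplex, the cube and the cross-polytope;
* `Mix d A`: a string of `d` involutions of a finite set `A` with radii `r`;
* `Mixed k rk f C ρ`: the realization `f` is the mix of a model and a mixing datum.
-/

namespace FOK

open Lib_helper64.FO FO2

/-- The distinguished generators with respect to the base flag `C`: the automorphism `ρ j` moves `C`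
and fixes all its faces except the one of rank `j`. -/
def IsGens {d : ℕ} {P : Type} [PartialOrder P] (rk : P → ℤ) (C : Flag P) (ρ : Fin d → (P ≃o P)) :
    Prop :=
  ∀ j, ρ j • C ≠ C ∧ ∀ x ∈ C, rk x ≠ (j.val : ℤ) → ρ j x = x

/-- The regular simplex with centre `0` and circumradius `1`: the base vertex is `v 0`, and `g j`
exchanges the vertices `v j` and `v (j + 1)`. -/
def SimplexModel {d : ℕ} (y0 : E d) (g : Fin d → (E d ≃ₗᵢ[ℝ] E d)) : Prop :=
  ∃ v : Fin (d + 1) → E d, IsSimplex v ∧ y0 = v 0 ∧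
    ∀ (j : Fin d) (i : Fin (d + 1)), g j (v i) = v (Equiv.swap j.castSucc j.succ i)

/-- The cube with the vertices `± u 0 ± … ± u (d - 1)`: the base vertex is the sum of all `u i`,
`g 0` changes the sign of `u 0`, and `g j` with `j ≥ 1` exchanges `u (j - 1)` and `u j`. -/
def CubeModel {d : ℕ} (y0 : E d) (g : Fin d → (E d ≃ₗᵢ[ℝ] E d)) : Prop :=
  ∃ u : OrthonormalBasis (Fin d) ℝ (E d), y0 = ∑ i, u i ∧
    ∀ j i : Fin d, g j (u i) =
      if j.val = 0 then (if i = j then - u i else u i) else u (Equiv.swap (prd j) j i)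

/-- The cross-polytope with the vertices `± u i`: the base vertex is `u 0`, `g j` with `j < d - 1`
exchanges `u j` and `u (j + 1)`, and `g (d - 1)` changes the sign of `u (d - 1)`. -/
def CrossModel {d : ℕ} (y0 : E d) (g : Fin d → (E d ≃ₗᵢ[ℝ] E d)) : Prop :=
  ∃ u : OrthonormalBasis (Fin d) ℝ (E d), (∀ h : 0 < d, y0 = u ⟨0, h⟩) ∧
    ∀ j i : Fin d, g j (u i) =
      if h : j.val + 1 < d then u (Equiv.swap j ⟨j.val + 1, h⟩ i)
      else (if i = j then - u i else u i)

/-- A string of `d` involutions (or identities) of `A` generating a transitive group, all except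
`π 0` fixing the base point `a0`, and nonzero radii `r a`. -/
structure Mix (d : ℕ) (A : Type) where
  π : Fin d → Equiv.Perm A
  a0 : A
  r : A → ℝ
  sq : ∀ j, π j * π j = 1
  comm : ∀ i j : Fin d, i.val + 2 ≤ j.val → π i * π j = π j * π i
  fix : ∀ j : Fin d, 1 ≤ j.val → π j a0 = a0
  trans : ∀ a, ∃ q ∈ Subgroup.closure (Set.range π), q a0 = a
  ne : ∀ a, r a ≠ 0

/-- The group generated by the `π j`. -/
def Mix.C {d : ℕ} {A : Type} (M : Mix d A) : Subgroup (Equiv.Perm A) :=
  Subgroup.closure (Set.range M.π)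

/-- The elements of the group which preserve the radii, or change the signs of all the radii. -/
def Mix.HC {d : ℕ} {A : Type} (M : Mix d A) : Set (Equiv.Perm A) :=
  {q | q ∈ M.C ∧ ((∀ a, M.r (q a) = M.r a) ∨ (∀ a, M.r (q a) = - M.r a))}

/-- The realization `f` of the polytope `P` with base flag `C` and distinguished generators `ρ` is
the mix, with centre `c`, of a model and a mixing datum: for every word `w` in `0, …, d - 1` the
vertex `ρ_w F0` goes to `c + r (π_w a0) g_w y0`. In the case of the cube the set `A` has in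
addition a parity. -/
def Mixed {d : ℕ} {P : Type} [PartialOrder P] (k : ℕ) (rk : P → ℤ) (f : P → E d) (C : Flag P)
    (ρ : Fin d → (P ≃o P)) : Prop :=
  ∃ F0 ∈ C, rk F0 = 0 ∧ ∃ (c y0 : E d) (g : Fin d → (E d ≃ₗᵢ[ℝ] E d)) (A : Type) (M : Mix d A),
    Finite A ∧ (∀ j : Fin d, 48 * k ^ 5 ≤ j.val → M.π j = 1) ∧
    k * Nat.card M.HC = Nat.card M.C ∧ Nat.card M.C ≤ 4 * k ∧
    ((SimplexModel y0 g ∧ Function.Injective M.r) ∨ (CrossModel y0 g ∧ Function.Injective M.r) ∨
      (CubeModel y0 g ∧ ∃ p : A → ℤˣ, (∀ j a, p (M.π j a) = if j.val = 0 then - p a else p a) ∧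
        ∀ a b, p a = p b → M.r a = M.r b → a = b)) ∧
    ∀ w : List (Fin d), f ((w.map ρ).prod F0) =
      c + M.r ((w.map M.π).prod M.a0) • ((w.map g).prod y0)

/-- The main theorem. -/
def MainStatement : Prop :=
  ∀ k d : ℕ, 1 ≤ k → 100 * k ^ 5 ≤ d →
    ∀ (P : Type) [PartialOrder P] [Finite P] (rk : P → ℤ), IsRegularPolytope d rk →
    ∀ (f : P → E d) (C : Flag P) (ρ : Fin d → (P ≃o P)), IsGens rk C ρ →
      (IsOrbitRealization rk f k ↔ Faithful rk f ∧ Mixed k rk f C ρ) ∧
      (IsOrbitRealization rk f k → k = 1 ∨ Even k)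

end FOK
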