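import Pool.Agent.FOK.Defs
import Pool.Agent.FO2.Geo

/-!
# The algebraic form of a k-orbit realization

`KGeo d k Γ X`: a group `Γ` (the automorphism group of the polytope) with its distinguished generators
`ρ 0, …, ρ (d - 1)` acting on the set `X` of vertices, base vertex `x0`, the subgroup `H` of index
`k` of the automorphisms induced by isometries, the centred vertex map `f : X → E d` and the
isometries `T h`, `h ∈ H`.

For a *frame* `g : Γ` we have the vertex map `F g y = f (g • y)` and the isometries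
`R g n = T (g * n * g⁻¹)` for `n` in the core `N` of `H`.
-/

namespace FOK

open Lib_helper64.FO FO2
open scoped RealInnerProductSpace

noncomputable section

/-- A `k`-orbit realization in `E d` of a finite regular `d`-polytope, in algebraic form. -/
structure KGeo (d k : ℕ) (Γ : Type) [Group Γ] (X : Type) [MulAction Γ X] where
  ρ : ℕ → Γ
  x0 : X
  H : Subgroup Γ
  f : X → E d
  T : Γ → (E d ≃ₗᵢ[ℝ] E d)
  one_of_ge : ∀ i, d ≤ i → ρ i = 1
  ne_one : ∀ i, i < d → ρ i ≠ 1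
  sq : ∀ i, ρ i * ρ i = 1
  comm : ∀ i j, i + 2 ≤ j → ρ i * ρ j = ρ j * ρ i
  gen : gpar ρ Set.univ = ⊤
  inter : ∀ I J : Set ℕ, gpar ρ I ⊓ gpar ρ J = gpar ρ (I ∩ J)
  trans : ∀ x : X, ∃ g : Γ, g • x0 = x
  stab : ∀ j, 1 ≤ j → ρ j • x0 = x0
  fix : ∀ (m : ℕ) (γ : Γ), (∀ g ∈ gpar ρ {j | j < m}, γ • g • x0 = g • x0) →
    γ ∈ gpar ρ {j | m < j}
  inj : Function.Injective f
  idx : H.index = k
  T_mul : ∀ g ∈ H, ∀ h ∈ H, T (g * h) = T g * T h
  equiv : ∀ h ∈ H, ∀ x, T h (f x) = f (h • x)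
  perp : ∀ h ∈ H, ∀ v : E d, (∀ x, ⟪f x, v⟫ = 0) → T h v = v
  noiso : ∀ γ, γ ∉ H → ¬ ∃ g : E d ≃ₗᵢ[ℝ] E d, ∀ x, g (f x) = f (γ • x)

namespace KGeo

variable {d k : ℕ} {Γ : Type} [Group Γ] {X : Type} [MulAction Γ X] (G : KGeo d k Γ X)

/-- the subgroup generated by the `ρ j` with `i ≤ j` -/
def up (i : ℕ) : Subgroup Γ := gpar G.ρ {j | i ≤ j}

/-- the subgroup generated by the `ρ j` with `j < i` -/
def dn (i : ℕ) : Subgroup Γ := gpar G.ρ {j | j < i}

/-- the subgroup generated by the `ρ j` with `a ≤ j < b` -/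
def mid (a b : ℕ) : Subgroup Γ := gpar G.ρ {j | a ≤ j ∧ j < b}

/-- the core of `H` -/
def N : Subgroup Γ := G.H.normalCore

/-- `N_i`, the stabiliser in `N` of the faces of rank `< i` of the base flag -/
def Ni (i : ℕ) : Subgroup Γ := G.N ⊓ G.up i

/-- the vertex map in the frame `g` -/
def F (g : Γ) (y : X) : E d := G.f (g • y)

/-- the action of `N` in the frame `g` -/
def R (g n : Γ) : E d ≃ₗᵢ[ℝ] E d := G.T (g * n * g⁻¹)

/-- `V_i` in the frame `g`: the fixed space of `N_i` -/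
def V (g : Γ) (i : ℕ) : Submodule ℝ (E d) where
  carrier := {v | ∀ n ∈ G.Ni i, G.R g n v = v}
  add_mem' := by
    intro a b ha hb h hh
    rw [map_add, ha h hh, hb h hh]
  zero_mem' := by
    intro h _
    exact map_zero _
  smul_mem' := by
    intro c a ha h hh
    rw [map_smul, ha h hh]

theorem mem_V {g : Γ} {i : ℕ} {v : E d} : v ∈ G.V g i ↔ ∀ n ∈ G.Ni i, G.R g n v = v := Iff.rfl

/-- the orthogonal complement of `V_i` -/
def U (g : Γ) (i : ℕ) : Submodule ℝ (E d) := (G.V g i)ᗮ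

/-- the orthogonal complement of `V_i` in `V_{i+1}` -/
def D (g : Γ) (i : ℕ) : Submodule ℝ (E d) := G.V g (i + 1) ⊓ G.U g i

/-- the `N_p`-module generated by `D_p` -/
def Y (g : Γ) (p : ℕ) : Submodule ℝ (E d) :=
  Submodule.span ℝ {w | ∃ n ∈ G.Ni p, ∃ e ∈ G.D g p, G.R g n e = w}

/-- the span of the vertices of the base face of rank `i` -/
def W (g : Γ) (i : ℕ) : Submodule ℝ (E d) :=
  Submodule.span ℝ {w | ∃ a ∈ G.dn i, G.F g (a • G.x0) = w}

/-- the images under `up j` of the vertices of the base face of rank `q` -/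
def XX (q j : ℕ) : Set X := {y | ∃ γ ∈ G.up j, ∃ a ∈ G.dn q, γ • a • G.x0 = y}

/-- the span of `XX q j` in the frame `g` -/
def S (q : ℕ) (g : Γ) (j : ℕ) : Submodule ℝ (E d) :=
  Submodule.span ℝ {w | ∃ y ∈ G.XX q j, G.F g y = w}

/-- `N_i` moves a vertex of the base face of rank `i` (there is no zero at `i`) -/
def NZ (i : ℕ) : Prop := ¬ G.Ni i ≤ G.up (i + 1)

/-! ### the generators -/

theorem inv_ρ (i : ℕ) : (G.ρ i)⁻¹ = G.ρ i := by
  rw [inv_eq_iff_mul_eq_one]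
  exact G.sq i

theorem ρ_mem_up {i j : ℕ} (h : i ≤ j) : G.ρ j ∈ G.up i := Subgroup.subset_closure ⟨j, h, rfl⟩

theorem ρ_mem_dn {i j : ℕ} (h : j < i) : G.ρ j ∈ G.dn i := Subgroup.subset_closure ⟨j, h, rfl⟩

theorem ρ_mem_mid {a b j : ℕ} (h1 : a ≤ j) (h2 : j < b) : G.ρ j ∈ G.mid a b :=
  Subgroup.subset_closure ⟨j, ⟨h1, h2⟩, rfl⟩

theorem up_anti {i j : ℕ} (h : i ≤ j) : G.up j ≤ G.up i :=
  Subgroup.closure_mono (Set.image_mono fun _ (hk : j ≤ _) => h.trans hk)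

theorem dn_mono {i j : ℕ} (h : i ≤ j) : G.dn i ≤ G.dn j :=
  Subgroup.closure_mono (Set.image_mono fun _ (hk : _ < i) => lt_of_lt_of_le hk h)

theorem mid_le_up (a b : ℕ) : G.mid a b ≤ G.up a :=
  Subgroup.closure_mono (Set.image_mono fun _ hk => hk.1)

theorem mid_le_dn (a b : ℕ) : G.mid a b ≤ G.dn b :=
  Subgroup.closure_mono (Set.image_mono fun _ hk => hk.2)

theorem mid_mono {a a' b b' : ℕ} (h : a ≤ a') (h' : b' ≤ b) : G.mid a' b' ≤ G.mid a b :=
  Subgroup.closure_mono (Set.image_mono fun _ hk => ⟨h.trans hk.1, lt_of_lt_of_le hk.2 h'⟩)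

theorem up_zero : G.up 0 = ⊤ := by
  have e : {j : ℕ | 0 ≤ j} = Set.univ := by ext; simp
  rw [up, e, G.gen]

theorem mem_up_zero (g : Γ) : g ∈ G.up 0 := by rw [G.up_zero]; trivial

/-- `ρ i` commutes with `up j` for `i + 2 ≤ j`. -/
theorem comm_up {i j : ℕ} (h : i + 2 ≤ j) {g : Γ} (hg : g ∈ G.up j) : G.ρ i * g = g * G.ρ i := by
  have h1 : G.up j ≤ Subgroup.centralizer ({G.ρ i} : Set Γ) := by
    rw [up, gpar, Subgroup.closure_le]
    rintro _ ⟨k, hk, rfl⟩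
    rw [SetLike.mem_coe, Subgroup.mem_centralizer_iff]
    intro h' hh
    rw [Set.mem_singleton_iff] at hh
    subst hh
    exact G.comm i k (h.trans hk)
  exact Subgroup.mem_centralizer_iff.1 (h1 hg) (G.ρ i) rfl

/-- `dn i` commutes with `up j` for `i < j`. -/
theorem comm_dn_up {i j : ℕ} (h : i < j) {a : Γ} (ha : a ∈ G.dn i) {g : Γ} (hg : g ∈ G.up j) :
    a * g = g * a := by
  have h1 : G.dn i ≤ Subgroup.centralizer (G.up j : Set Γ) := by
    rw [dn, gpar, Subgroup.closure_le]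
    rintro _ ⟨k, hk, rfl⟩
    rw [SetLike.mem_coe, Subgroup.mem_centralizer_iff]
    intro g hg
    have hk' : k < i := hk
    exact (G.comm_up (by omega) hg).symm
  exact (Subgroup.mem_centralizer_iff.1 (h1 ha) g hg).symm

theorem up_fix_x0 {g : Γ} (hg : g ∈ G.up 1) : g • G.x0 = G.x0 := by
  have h1 : G.up 1 ≤ MulAction.stabilizer Γ G.x0 := by
    rw [up, gpar, Subgroup.closure_le]
    rintro _ ⟨k, hk, rfl⟩
    exact G.stab k hk
  exact h1 hg

/-- `up (i + 1)` fixes the vertices of the base face of rank `i`. -/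
theorem up_fix {i : ℕ} {g : Γ} (hg : g ∈ G.up (i + 1)) {a : Γ} (ha : a ∈ G.dn i) :
    g • a • G.x0 = a • G.x0 := by
  rw [← mul_smul, ← G.comm_dn_up (Nat.lt_succ_self i) ha hg, mul_smul,
    G.up_fix_x0 (G.up_anti (by omega) hg)]

/-- An element that fixes the vertices of the base face of rank `i` is in `up (i + 1)`. -/
theorem mem_up_of_fix {i : ℕ} {γ : Γ} (h : ∀ a ∈ G.dn i, γ • a • G.x0 = a • G.x0) :
    γ ∈ G.up (i + 1) := by
  have := G.fix i γ h
  have e : {j : ℕ | i < j} = {j | i + 1 ≤ j} := by ext; simp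
  rw [e] at this
  exact this

theorem one_mem_up_d {g : Γ} (hg : g ∈ G.up d) : g = 1 := by
  have h2 : G.up d ≤ ⊥ := by
    rw [up, gpar, Subgroup.closure_le]
    rintro _ ⟨k, hk, rfl⟩
    exact G.one_of_ge k hk
  exact h2 hg

include G in
/-- `Γ` acts faithfully on `X`. -/
theorem eq_one_of_fix {γ : Γ} (h : ∀ x : X, γ • x = x) : γ = 1 :=
  G.one_mem_up_d (G.up_anti (by omega) (G.mem_up_of_fix (i := d) fun _ _ => h _))

/-- intersection property for an upper subgroup and a middle subgroup -/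
theorem mid_inf_up {a b c : ℕ} {γ : Γ} (h1 : γ ∈ G.mid a b) (h2 : γ ∈ G.up c) (hac : a ≤ c) :
    γ ∈ G.mid c b := by
  have : γ ∈ gpar G.ρ {j | a ≤ j ∧ j < b} ⊓ gpar G.ρ {j | c ≤ j} := ⟨h1, h2⟩
  rw [G.inter] at this
  have e : ({j : ℕ | a ≤ j ∧ j < b} ∩ {j | c ≤ j}) = {j | c ≤ j ∧ j < b} := by
    ext j
    simp only [Set.mem_inter_iff, Set.mem_ofPred_eq]
    omega
  rw [e] at this
  exact this

theorem mid_eq_bot {a b : ℕ} (h : b ≤ a) {γ : Γ} (hγ : γ ∈ G.mid a b) : γ = 1 := by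
  have e : {j : ℕ | a ≤ j ∧ j < b} = ∅ := by
    ext j
    simp only [Set.mem_ofPred_eq, Set.mem_empty_iff_false, iff_false]
    omega
  rw [mid, e, gpar, Set.image_empty, Subgroup.closure_empty, Subgroup.mem_bot] at hγ
  exact hγ

/-- (L2) -/
theorem L2 {i : ℕ} {γ : Γ} (h1 : γ ∈ G.up (i + 1)) (h2 : G.ρ i * γ * G.ρ i ∈ G.up (i + 1)) :
    γ ∈ G.up (i + 2) := by
  apply G.mem_up_of_fix
  -- all elements of `dn (i + 1)` are moved past `γ` and `γ' = ρ i γ ρ i`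
  have key : ∀ a ∈ G.dn (i + 1), ∀ δ : Γ, (δ = γ ∨ δ = G.ρ i * γ * G.ρ i) →
      ∃ δ' : Γ, (δ' = γ ∨ δ' = G.ρ i * γ * G.ρ i) ∧ δ * a = a * δ' := by
    intro a ha
    refine Subgroup.closure_induction (p := fun a _ => ∀ δ : Γ, (δ = γ ∨ δ = G.ρ i * γ * G.ρ i) →
      ∃ δ' : Γ, (δ' = γ ∨ δ' = G.ρ i * γ * G.ρ i) ∧ δ * a = a * δ') ?_ ?_ ?_ ?_ ha
    · rintro _ ⟨j, hj, rfl⟩ δ hδ
      have hj' : j < i + 1 := hj
      rcases Nat.lt_succ_iff_lt_or_eq.1 hj' with hlt | rfl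
      · refine ⟨δ, hδ, ?_⟩
        have hδ' : δ ∈ G.up (i + 1) := by
          rcases hδ with rfl | rfl
          · exact h1
          · exact h2
        exact (G.comm_up (by omega) hδ').symm
      · rcases hδ with rfl | rfl
        · refine ⟨G.ρ j * δ * G.ρ j, Or.inr rfl, ?_⟩
          rw [← mul_assoc, ← mul_assoc, G.sq, one_mul]
        · refine ⟨γ, Or.inl rfl, ?_⟩
          rw [mul_assoc, mul_assoc, G.sq, mul_one]
    · intro δ hδ
      exact ⟨δ, hδ, by simp⟩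
    · intro a b _ _ iha ihb δ hδ
      obtain ⟨δ1, h3, h4⟩ := iha δ hδ
      obtain ⟨δ2, h5, h6⟩ := ihb δ1 h3
      exact ⟨δ2, h5, by rw [← mul_assoc, h4, mul_assoc, h6, mul_assoc]⟩
    · intro a _ iha δ hδ
      -- conjugation by `a` permutes the two elements
      by_cases hγ : G.ρ i * γ * G.ρ i = γ
      · obtain ⟨δ1, h3, h4⟩ := iha δ hδ
        have e1 : δ1 = δ := by
          rcases h3 with h3 | h3 <;> rcases hδ with hδ | hδ <;> simp [h3, hδ, hγ]
        refine ⟨δ, hδ, ?_⟩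
        rw [e1] at h4
        have h7 : a⁻¹ * (δ * a) * a⁻¹ = a⁻¹ * (a * δ) * a⁻¹ := by rw [h4]
        simp only [mul_assoc, inv_mul_cancel_left, mul_inv_cancel, mul_one] at h7
        exact h7.symm
      · obtain ⟨α, hα, hα'⟩ := iha γ (Or.inl rfl)
        obtain ⟨β, hβ, hβ'⟩ := iha (G.ρ i * γ * G.ρ i) (Or.inr rfl)
        have hne : α ≠ β := by
          intro e
          rw [e, ← hβ'] at hα'
          exact hγ (mul_right_cancel hα').symm
        have hc : δ = α ∨ δ = β := by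
          rcases hα with rfl | rfl <;> rcases hβ with rfl | rfl <;> rcases hδ with rfl | rfl <;>
            simp_all
        rcases hc with rfl | rfl
        · refine ⟨γ, Or.inl rfl, ?_⟩
          have h7 : a⁻¹ * (γ * a) * a⁻¹ = a⁻¹ * (a * δ) * a⁻¹ := by rw [hα']
          simp only [mul_assoc, inv_mul_cancel_left, mul_inv_cancel, mul_one] at h7
          exact h7.symm
        · refine ⟨G.ρ i * γ * G.ρ i, Or.inr rfl, ?_⟩
          have h7 : a⁻¹ * (G.ρ i * γ * G.ρ i * a) * a⁻¹ = a⁻¹ * (a * δ) * a⁻¹ := by rw [hβ']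
          have h8 : a⁻¹ * (G.ρ i * γ * G.ρ i * a) * a⁻¹ = a⁻¹ * (G.ρ i * γ * G.ρ i) := by group
          have h9 : a⁻¹ * (a * δ) * a⁻¹ = δ * a⁻¹ := by group
          rw [h8, h9] at h7
          exact h7.symm
  intro a ha
  obtain ⟨δ', h3, h4⟩ := key a ha γ (Or.inl rfl)
  have h5 : δ' ∈ G.up 1 := by
    rcases h3 with rfl | rfl
    · exact G.up_anti (by omega) h1
    · exact G.up_anti (by omega) h2
  rw [← mul_smul, h4, mul_smul, G.up_fix_x0 h5]

/-- (L1) -/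
theorem L1 {i : ℕ} {M : Subgroup Γ} (h1 : M ≤ G.up (i + 1))
    (h2 : ∀ γ ∈ G.up i, ∀ m ∈ M, γ * m * γ⁻¹ ∈ M) : M = ⊥ := by
  have key : ∀ n, M ≤ G.up (i + 1 + n) := by
    intro n
    induction n with
    | zero => exact h1
    | succ n ih =>
      intro m hm
      have e1 : i + n + 1 = i + 1 + n := by omega
      have e2 : i + 1 + (n + 1) = i + n + 2 := by omega
      have h3 := h2 (G.ρ (i + n)) (G.ρ_mem_up (by omega)) m hm
      rw [G.inv_ρ] at h3
      rw [e2]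
      exact G.L2 (i := i + n) (by rw [e1]; exact ih hm) (by rw [e1]; exact ih h3)
  rw [eq_bot_iff]
  intro m hm
  exact G.one_mem_up_d (G.up_anti (by omega) (key d hm))

/-! ### the core and the frames -/

theorem N_le : G.N ≤ G.H := Subgroup.normalCore_le _

theorem N_normal : G.N.Normal := Subgroup.normalCore_normal _

theorem conj_mem_N (g : Γ) {n : Γ} (hn : n ∈ G.N) : g * n * g⁻¹ ∈ G.N := G.N_normal.conj_mem n hn g

theorem conj_mem_N' (g : Γ) {n : Γ} (hn : n ∈ G.N) : g⁻¹ * n * g ∈ G.N := by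
  have := G.conj_mem_N g⁻¹ hn
  rwa [inv_inv] at this

/-- an element all of whose conjugates are in `H` is in `N` -/
theorem mem_N {n : Γ} (h : ∀ g, g * n * g⁻¹ ∈ G.H) : n ∈ G.N := h

theorem Ni_le_N (i : ℕ) : G.Ni i ≤ G.N := inf_le_left

theorem Ni_le_up (i : ℕ) : G.Ni i ≤ G.up i := inf_le_right

theorem Ni_anti {i j : ℕ} (h : i ≤ j) : G.Ni j ≤ G.Ni i := inf_le_inf le_rfl (G.up_anti h)

theorem T_one : G.T 1 = 1 := by
  have h := G.T_mul 1 (one_mem _) 1 (one_mem _)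
  rw [one_mul] at h
  exact mul_eq_left.1 h.symm

theorem T_inv {h : Γ} (hh : h ∈ G.H) : G.T h⁻¹ = (G.T h)⁻¹ := by
  have := G.T_mul h⁻¹ (inv_mem hh) h hh
  rw [inv_mul_cancel, G.T_one] at this
  exact (eq_inv_of_mul_eq_one_left this.symm)

theorem R_one (g : Γ) : G.R g 1 = 1 := by rw [R, mul_one, mul_inv_cancel, G.T_one]

theorem R_mul (g : Γ) {m n : Γ} (hm : m ∈ G.N) (hn : n ∈ G.N) :
    G.R g (m * n) = G.R g m * G.R g n := by
  rw [R, R, R, ← G.T_mul _ (G.N_le (G.conj_mem_N g hm)) _ (G.N_le (G.conj_mem_N g hn))]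
  congr 1
  group

theorem R_mul_apply (g : Γ) {m n : Γ} (hm : m ∈ G.N) (hn : n ∈ G.N) (v : E d) :
    G.R g (m * n) v = G.R g m (G.R g n v) := by
  rw [G.R_mul g hm hn]; rfl

theorem R_inv (g : Γ) {n : Γ} (hn : n ∈ G.N) : G.R g n⁻¹ = (G.R g n)⁻¹ := by
  have := G.R_mul g (inv_mem hn) hn
  rw [inv_mul_cancel, G.R_one] at this
  exact (eq_inv_of_mul_eq_one_left this.symm)

theorem R_inv_apply (g : Γ) {n : Γ} (hn : n ∈ G.N) (v : E d) : G.R g n (G.R g n⁻¹ v) = v := by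
  rw [← G.R_mul_apply g hn (inv_mem hn), mul_inv_cancel, G.R_one]; rfl

theorem R_inv_apply' (g : Γ) {n : Γ} (hn : n ∈ G.N) (v : E d) : G.R g n⁻¹ (G.R g n v) = v := by
  rw [← G.R_mul_apply g (inv_mem hn) hn, inv_mul_cancel, G.R_one]; rfl

/-- equivariance -/
theorem R_F (g : Γ) {n : Γ} (hn : n ∈ G.N) (y : X) : G.R g n (G.F g y) = G.F g (n • y) := by
  rw [R, F, G.equiv _ (G.N_le (G.conj_mem_N g hn)), F, ← mul_smul, ← mul_smul]
  congr 2
  group

theorem F_mul (g γ : Γ) (y : X) : G.F (g * γ) y = G.F g (γ • y) := by rw [F, F, mul_smul]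

theorem F_inj (g : Γ) {y z : X} (h : G.F g y = G.F g z) : y = z := by
  have := G.inj h
  exact MulAction.injective g this

/-- change of the frame by an element on the right -/
theorem R_mul_right (g γ n : Γ) : G.R (g * γ) n = G.R g (γ * n * γ⁻¹) := by
  rw [R, R]
  congr 1
  group

/-- change of the frame by an element of `H` on the left -/
theorem F_left {h : Γ} (hh : h ∈ G.H) (g : Γ) (y : X) : G.F (h * g) y = G.T h (G.F g y) := by
  rw [F, F, G.equiv h hh, mul_smul]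

theorem R_left {h : Γ} (hh : h ∈ G.H) (g : Γ) {n : Γ} (hn : n ∈ G.N) (v : E d) :
    G.R (h * g) n (G.T h v) = G.T h (G.R g n v) := by
  have h1 : G.R (h * g) n * G.T h = G.T h * G.R g n := by
    rw [R, R, ← G.T_mul _ (G.N_le (G.conj_mem_N _ hn)) _ hh,
      ← G.T_mul _ hh _ (G.N_le (G.conj_mem_N g hn))]
    congr 1
    group
  exact congrArg (fun e : E d ≃ₗᵢ[ℝ] E d => e v) h1

/-- `N` acts faithfully -/
theorem eq_one_of_R {g n : Γ} (hn : n ∈ G.N) (h : ∀ y, G.R g n (G.F g y) = G.F g y) : n = 1 := by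
  apply G.eq_one_of_fix
  intro y
  have := h y
  rw [G.R_F g hn] at this
  exact G.F_inj g this

/-- maximality of `N` -/
theorem mem_N_of_iso {γ : Γ}
    (h : ∀ g, ∃ κ : E d ≃ₗᵢ[ℝ] E d, ∀ y, G.F g (γ • y) = κ (G.F g y)) : γ ∈ G.N := by
  apply G.mem_N
  intro g
  by_contra hcon
  apply G.noiso _ hcon
  obtain ⟨κ, hκ⟩ := h g
  refine ⟨κ, fun x => ?_⟩
  have := hκ (g⁻¹ • x)
  rw [F, F, smul_inv_smul] at this
  rw [← this, mul_smul, mul_smul]

theorem V_mono (g : Γ) {i j : ℕ} (h : i ≤ j) : G.V g i ≤ G.V g j :=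
  fun _ hv n hn => hv n (G.Ni_anti h hn)

theorem U_anti (g : Γ) {i j : ℕ} (h : i ≤ j) : G.U g j ≤ G.U g i :=
  Submodule.orthogonal_le (G.V_mono g h)

/-- the frame `g * γ` for `γ` normalising `N_i` -/
theorem V_frame {g γ : Γ} {i : ℕ} (h : ∀ n ∈ G.Ni i, γ * n * γ⁻¹ ∈ G.Ni i)
    (h' : ∀ n ∈ G.Ni i, γ⁻¹ * n * γ ∈ G.Ni i) : G.V (g * γ) i = G.V g i := by
  ext v
  constructor
  · intro hv n hn
    have := hv _ (h' n hn)
    rw [G.R_mul_right] at this
    have e : γ * (γ⁻¹ * n * γ) * γ⁻¹ = n := by group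
    rwa [e] at this
  · intro hv n hn
    rw [G.R_mul_right]
    exact hv _ (h n hn)

theorem conj_up {i : ℕ} {γ : Γ} (hγ : γ ∈ G.up i) {n : Γ} (hn : n ∈ G.Ni i) :
    γ * n * γ⁻¹ ∈ G.Ni i :=
  ⟨G.conj_mem_N γ hn.1, (G.up i).mul_mem ((G.up i).mul_mem hγ hn.2) ((G.up i).inv_mem hγ)⟩

theorem V_frame_up {g γ : Γ} {i : ℕ} (hγ : γ ∈ G.up i) : G.V (g * γ) i = G.V g i :=
  G.V_frame (fun _ hn => G.conj_up hγ hn) (fun n hn => by
    have := G.conj_up ((G.up i).inv_mem hγ) hn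
    rwa [inv_inv] at this)

theorem V_frame_dn {g γ : Γ} {i j : ℕ} (hγ : γ ∈ G.dn j) (h : j < i) : G.V (g * γ) i = G.V g i := by
  apply G.V_frame
  · intro n hn
    rw [G.comm_dn_up h hγ hn.2, mul_inv_cancel_right]
    exact hn
  · intro n hn
    rw [G.comm_dn_up h (inv_mem hγ) hn.2, inv_mul_cancel_right]
    exact hn

/-- `ρ j` changes only `V_{j+1}`. -/
theorem V_frame_ρ {g : Γ} {i j : ℕ} (h : i ≠ j + 1) : G.V (g * G.ρ j) i = G.V g i := by
  rcases Nat.lt_or_ge j i with h1 | h1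
  · exact G.V_frame_dn (j := j + 1) (G.ρ_mem_dn (Nat.lt_succ_self j)) (by omega)
  · exact G.V_frame_up (G.ρ_mem_up h1)

theorem U_frame_ρ {g : Γ} {i j : ℕ} (h : i ≠ j + 1) : G.U (g * G.ρ j) i = G.U g i := by
  rw [U, U, G.V_frame_ρ h]

theorem D_frame_ρ {g : Γ} {i j : ℕ} (h : i ≠ j + 1) (h' : i ≠ j) :
    G.D (g * G.ρ j) i = G.D g i := by
  rw [D, D, G.U_frame_ρ h, G.V_frame_ρ (by omega)]

/-- the frame `g * n` with `n ∈ N` -/
theorem V_frame_N {g n : Γ} (hn : n ∈ G.N) (i : ℕ) {v : E d} :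
    G.R g n v ∈ G.V (g * n) i ↔ v ∈ G.V g i := by
  rw [mem_V, mem_V]
  have key : ∀ m ∈ G.Ni i, G.R (g * n) m (G.R g n v) = G.R g n (G.R g m v) := by
    intro m hm
    rw [G.R_mul_right, ← G.R_mul_apply g (G.conj_mem_N n hm.1) hn, ← G.R_mul_apply g hn hm.1]
    congr 2
    group
  constructor
  · intro h m hm
    have := h m hm
    rw [key m hm] at this
    exact (G.R g n).injective this
  · intro h m hm
    rw [key m hm, h m hm]

/-- the frame `h * g` with `h ∈ H` -/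
theorem V_left {h : Γ} (hh : h ∈ G.H) (g : Γ) (i : ℕ) {v : E d} :
    G.T h v ∈ G.V (h * g) i ↔ v ∈ G.V g i := by
  rw [mem_V, mem_V]
  constructor
  · intro h1 m hm
    have := h1 m hm
    rw [G.R_left hh g hm.1] at this
    exact (G.T h).injective this
  · intro h1 m hm
    rw [G.R_left hh g hm.1, h1 m hm]

/-- the vertices of the base face of rank `i` are in `V_{i+1}` -/
theorem F_mem_V (g : Γ) {i : ℕ} {a : Γ} (ha : a ∈ G.dn i) : G.F g (a • G.x0) ∈ G.V g (i + 1) := by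
  intro n hn
  rw [G.R_F g hn.1, G.up_fix hn.2 ha]

theorem W_le_V (g : Γ) (i : ℕ) : G.W g i ≤ G.V g (i + 1) := by
  rw [W, Submodule.span_le]
  rintro _ ⟨a, ha, rfl⟩
  exact G.F_mem_V g ha

/-- an element of `N` that fixes the vertices of the base face of rank `i` is in `up (i + 1)` -/
theorem mem_up_of_R {g n : Γ} {i : ℕ} (hn : n ∈ G.N)
    (h : ∀ a ∈ G.dn i, G.R g n (G.F g (a • G.x0)) = G.F g (a • G.x0)) : n ∈ G.up (i + 1) := by
  apply G.mem_up_of_fix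
  intro a ha
  have := h a ha
  rw [G.R_F g hn] at this
  exact G.F_inj g this

theorem mem_up_of_R' {g n : Γ} {i : ℕ} (hn : n ∈ G.N)
    (h : ∀ v ∈ G.V g (i + 1), G.R g n v = v) : n ∈ G.up (i + 1) :=
  G.mem_up_of_R hn fun _ ha => h _ (G.F_mem_V g ha)

/-- a zero -/
theorem Ni_eq_bot {i : ℕ} (h : ¬ G.NZ i) : G.Ni i = ⊥ := by
  rw [NZ, not_not] at h
  exact G.L1 h fun γ hγ m hm => G.conj_up hγ hm

/-- elements of `N_i` preserve `U_i` -/
theorem R_mem_U {g n : Γ} {i : ℕ} (hn : n ∈ G.Ni i) {w : E d} (hw : w ∈ G.U g i) :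
    G.R g n w ∈ G.U g i := by
  rw [U, Submodule.mem_orthogonal] at hw ⊢
  intro v hv
  have h1 := hv n hn
  rw [← h1, LinearIsometryEquiv.inner_map_map]
  exact hw v hv

/-- elements of `N_i` preserve `V_j`, if they normalise `N_j` -/
theorem R_mem_V {g n : Γ} {i : ℕ} (hn : n ∈ G.N) (h : ∀ m ∈ G.Ni i, n⁻¹ * m * n ∈ G.Ni i) {v : E d}
    (hv : v ∈ G.V g i) : G.R g n v ∈ G.V g i := by
  intro m hm
  have h1 := hv _ (h m hm)
  have e : m * n = n * (n⁻¹ * m * n) := by group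
  rw [← G.R_mul_apply g hm.1 hn, e, G.R_mul_apply g hn (G.conj_mem_N' n hm.1), h1]

theorem D_le_V (g : Γ) (i : ℕ) : G.D g i ≤ G.V g (i + 1) := inf_le_left

theorem D_le_U (g : Γ) (i : ℕ) : G.D g i ≤ G.U g i := inf_le_right

theorem D_le_Y (g : Γ) (p : ℕ) : G.D g p ≤ G.Y g p := by
  intro e he
  exact Submodule.subset_span ⟨1, one_mem _, e, he, by rw [G.R_one]; rfl⟩

theorem Y_le_U (g : Γ) (p : ℕ) : G.Y g p ≤ G.U g p := by
  rw [Y, Submodule.span_le]
  rintro _ ⟨n, hn, e, he, rfl⟩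
  exact G.R_mem_U hn (G.D_le_U g p he)

theorem R_mem_Y {g n : Γ} {p : ℕ} (hn : n ∈ G.Ni p) {w : E d} (hw : w ∈ G.Y g p) :
    G.R g n w ∈ G.Y g p := by
  rw [Y] at hw
  induction hw using Submodule.span_induction with
  | mem x hx =>
    obtain ⟨m, hm, e, he, rfl⟩ := hx
    rw [← G.R_mul_apply g hn.1 hm.1]
    exact Submodule.subset_span ⟨n * m, mul_mem hn hm, e, he, rfl⟩
  | zero => rw [map_zero]; exact zero_mem _
  | add x y _ _ hx hy => rw [map_add]; exact add_mem hx hy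
  | smul c x _ hx => rw [map_smul]; exact Submodule.smul_mem _ c hx

theorem F_mem_S {q : ℕ} (g : Γ) {j : ℕ} {y : X} (hy : y ∈ G.XX q j) : G.F g y ∈ G.S q g j :=
  Submodule.subset_span ⟨y, hy, rfl⟩

theorem XX_anti (q : ℕ) {i j : ℕ} (h : i ≤ j) : G.XX q j ⊆ G.XX q i := by
  rintro _ ⟨γ, hγ, a, ha, rfl⟩
  exact ⟨γ, G.up_anti h hγ, a, ha, rfl⟩

theorem S_anti (q : ℕ) (g : Γ) {i j : ℕ} (h : i ≤ j) : G.S q g j ≤ G.S q g i := by
  rw [S, Submodule.span_le]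
  rintro _ ⟨y, hy, rfl⟩
  exact G.F_mem_S g (G.XX_anti q h hy)

theorem smul_mem_XX {q j : ℕ} {γ : Γ} (hγ : γ ∈ G.up j) {y : X} (hy : y ∈ G.XX q j) :
    γ • y ∈ G.XX q j := by
  obtain ⟨δ, hδ, a, ha, rfl⟩ := hy
  exact ⟨γ * δ, mul_mem hγ hδ, a, ha, by rw [mul_smul]⟩

theorem dn_mem_XX {q j : ℕ} {a : Γ} (ha : a ∈ G.dn q) : a • G.x0 ∈ G.XX q j :=
  ⟨1, one_mem _, a, ha, one_smul _ _⟩

theorem W_le_S (q : ℕ) (g : Γ) (j : ℕ) : G.W g q ≤ G.S q g j := by
  rw [W, Submodule.span_le]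
  rintro _ ⟨a, ha, rfl⟩
  exact G.F_mem_S g (G.dn_mem_XX ha)

theorem R_mem_S {q : ℕ} {g n : Γ} {j : ℕ} (hn : n ∈ G.Ni j) {w : E d} (hw : w ∈ G.S q g j) :
    G.R g n w ∈ G.S q g j := by
  rw [S] at hw
  induction hw using Submodule.span_induction with
  | mem x hx =>
    obtain ⟨y, hy, rfl⟩ := hx
    rw [G.R_F g hn.1]
    exact G.F_mem_S g (G.smul_mem_XX hn.2 hy)
  | zero => rw [map_zero]; exact zero_mem _
  | add x y _ _ hx hy => rw [map_add]; exact add_mem hx hy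
  | smul c x _ hx => rw [map_smul]; exact Submodule.smul_mem _ c hx

end KGeo

end

end FOK
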