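import Pool.Agent.FOK.QAS

/-!
# QEX, QSP: existence and the spectrum
-/

namespace FOK

open Lib_helper64.FO FO2
open scoped RealInnerProductSpace

namespace QEX

theorem finite_CPos {d : ℕ} {Y : Type} [Finite Y] (S : SGen d Y) : Finite (CPos S) := by
  have h1 : Finite (CFace S) := by
    refine Finite.of_injective (fun F : CFace S => (F.rank, F.coset)) ?_
    intro F G h
    have h' := Prod.ext_iff.1 h
    exact CFace.ext' h'.1 h'.2
  have h2 : Finite (WithTop (CFace S)) := inferInstanceAs (Finite (Option (CFace S)))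
  exact inferInstanceAs (Finite (Option (WithTop (CFace S))))

theorem word {d k : ℕ} {M : Mix d (ZMod k)} (hM : Is5 M) {v : Fin (d + 1) → E d}
    {g : Fin d → (E d ≃ₗᵢ[ℝ] E d)}
    (hg : ∀ (j : Fin d) (i : Fin (d + 1)), g j (v i) = v (Equiv.swap j.castSucc j.succ i))
    (w : List (Fin d)) :
    v ((w.map (S5 k d).σ).prod (0, 0)).1 = (w.map g).prod (v 0) ∧
      ((w.map (S5 k d).σ).prod (0, 0)).2 = (w.map M.π).prod M.a0 := by
  induction w with
  | nil => exact ⟨rfl, hM.a0.symm⟩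
  | cons j w ih =>
    obtain ⟨h1, h2⟩ := ih
    rw [List.map_cons, List.map_cons, List.map_cons, List.prod_cons, List.prod_cons,
      List.prod_cons]
    constructor
    · show v (Equiv.swap j.castSucc j.succ _) = g j ((w.map g).prod (v 0))
      rw [← h1, hg]
    · show (if j.val = 0 then _ else if j.val = 1 then _ else _) = M.π j ((w.map M.π).prod M.a0)
      rw [hM.π, ← h2]

end QEX

theorem t_QEX : StmtFlag → StmtQEX := by
  intro hFl hPo hCo hGE hIX hRS hCT hEC hEF hER hEG hSI k d hk hd M hM hr hc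
  have : NeZero k := ⟨by omega⟩
  obtain ⟨v, hv, g, hg⟩ := hSI d (by omega)
  have hS := hEC k d hk hd
  have hFa := hER k d hk hd v M.r hv hr M.ne
  have hfin : Finite (CPos (S5 k d)) := QEX.finite_CPos _
  have hP := hCo d _ (S5 k d) (by omega) inferInstance hS
  obtain ⟨f, C, ρ, F0, hMa, hgen, hF0, hr0, hw⟩ :=
    hEG d _ (S5 k d) (0, 0) _ (by omega) inferInstance hS hFa
  have hFai : Faithful rkC f :=
    hEF d _ (S5 k d) (0, 0) _ (by omega) inferInstance hS hFa _ rkC hP f hMa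
  have hPG := hGE d _ rkC hP C ρ hgen
  have hmod : SimplexModel (v 0) g := ⟨v, hv, rfl, hg⟩
  have hR : Rich (v 0) g M := by
    refine hRS d hd (v 0) g _ M hmod ⟨⟨2, by omega⟩, by show 1 ≤ 2; omega,
      by show 2 + 2 ≤ d; omega, ?_⟩
    ext1 a
    rw [hM.π]
    rfl
  have hcount := QAS.count hFl hCT (by omega) hP f C ρ hPG hF0 hr0 0 (v 0) g (ZMod k) M hR
    (QAS.sq_simplex hmod) (by
      intro w
      obtain ⟨h1, h2⟩ := QEX.word hM hg w
      rw [hw, zero_add, h2, h1])
  refine ⟨CPos (S5 k d), inferInstance, hfin, rkC, f, hP, hFai, ?_⟩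
  rw [hIX d _ rkC hP f]
  rw [← hc] at hcount
  exact Nat.eq_of_mul_eq_mul_right (QAS.card_HC_pos M) hcount

theorem t_QSP : StmtQSP := by
  intro hFl hPo hMain hEx k d hk hd
  have hK : 1 ≤ k ^ 5 := Nat.one_le_pow _ _ hk
  constructor
  · rintro ⟨P, _, _, rk, f, hP, hO⟩
    obtain ⟨-, -, -, hF4, -⟩ := hFl d P rk hP
    obtain ⟨C, -⟩ := hF4 ∅ (by simp)
    obtain ⟨ρ, hρ⟩ := hPo d P rk hP C
    refine (hMain k d hk hd P rk hP f C (fun j => ρ j.val) ?_).2 hO
    intro j
    exact ⟨fun e => hρ.ne_one j.val j.isLt (hρ.free _ e), fun x hx hr => hρ.moves _ x hx hr⟩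
  · intro h
    exact hEx k d hk h (by omega)

end FOK
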