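import Pool.Agent.FOK.Geo
import Pool.Agent.FO2.Stmts

/-!
# Statements of the modules, part 1: sections 1 - 6 of the paper

`S_X` is the statement of module `X`; the module proves `theorem x : M_X`, where `M_X` is `S_X` with
the statements of other modules as hypotheses.
-/

namespace FOK

open Lib_helper64.FO FO2
open scoped RealInnerProductSpace Nat

noncomputable section

/-! ## Section 1 -/

/-- 1.3. Orders. -/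
def S_ORD : Prop :=
  ∀ (d k : ℕ) (Γ : Type) [Group Γ] [Finite Γ] (X : Type) [MulAction Γ X] (G : KGeo d k Γ X)
    (a b : ℕ), a ≤ b → b ≤ d → (b - a + 1)! ≤ Nat.card (G.mid a b)

/-- The index of the core. (`normalCore_eq_ker`: `Γ ⧸ N` acts faithfully on the `k` cosets.) -/
def S_IDX : Prop :=
  ∀ (d k : ℕ) (Γ : Type) [Group Γ] [Finite Γ] (X : Type) [MulAction Γ X] (G : KGeo d k Γ X),
    0 < G.N.index ∧ G.N.index ≤ k !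

/-- 1.4. There are no zeros far from the top; and no zeros at all if `N` contains some `up l`. -/
def S_NZ : Prop :=
  ∀ (d k : ℕ) (Γ : Type) [Group Γ] [Finite Γ] (X : Type) [MulAction Γ X] (G : KGeo d k Γ X),
    (∀ i, i + k ≤ d → G.NZ i) ∧ ∀ l, l < d → G.up l ≤ G.N → ∀ i, i < d → G.NZ i

def M_NZ : Prop := S_ORD → S_IDX → S_NZ

/-- 1.7, 1.8. -/
def S_STEP : Prop :=
  ∀ (d k : ℕ) (Γ : Type) [Group Γ] [Finite Γ] (X : Type) [MulAction Γ X] (G : KGeo d k Γ X) (g : Γ),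
    (∀ i, G.NZ i → ¬ G.W g i ≤ G.V g i) ∧ (∀ i, G.NZ i → G.V g i < G.V g (i + 1)) ∧
    (∀ i, G.NZ (i + 1) → G.V (g * G.ρ i) (i + 1) ≠ G.V g (i + 1)) ∧
    ∀ m, (∀ i ≤ m, G.NZ i) → m + 1 ≤ Module.finrank ℝ (G.W g m)

/-! ## Section 2 -/

/-- The window `[u, q + 1]` (`v = q + 1`). -/
structure Win {d k : ℕ} {Γ : Type} [Group Γ] {X : Type} [MulAction Γ X] (G : KGeo d k Γ X)
    (u q : ℕ) : Prop where
  huq : u + (2 * k + 3) ≤ q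
  hq : q + k ≤ d
  nz : ∀ i, i + k ≤ d → G.NZ i
  line : ∀ g i, u ≤ i → i ≤ q → Module.finrank ℝ (G.D g i) = 1
  plat : ∀ γ ∈ G.up u, ∃ a ∈ G.up (q + 1), ∃ n ∈ G.N, γ = a * n

/-- PIGEONHOLE: a nondecreasing function that grows by less than `K` is constant on an interval of
length `L`. -/
def S_PG : Prop :=
  ∀ (K L m : ℕ) (s : ℕ → ℕ), 1 ≤ K → (∀ i, i < K * L → s (m + i) ≤ s (m + i + 1)) →
    s (m + K * L) < s m + K →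
    ∃ a, m ≤ a ∧ a + L ≤ m + K * L ∧ ∀ i, i ≤ L → s (a + i) = s a

/-- The number of values of a function that is constant on the cosets `H g`. -/
def S_CNT : Prop :=
  ∀ (Γ : Type) [Group Γ] [Finite Γ] (H : Subgroup Γ) (α : Type) (s : Γ → α),
    (∀ h ∈ H, ∀ g, s (h * g) = s g) → (Set.range s).ncard ≤ H.index

/-- 2. Existence of the window. Sum over the right cosets: `∑ c : Γ ⧸ H, _ (c.out)⁻¹`; use S_PG with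
`K = 2 * k ^ 2`, `L = 2 * k ^ 2 * (6 * k + 3) + 2 * k + 4`, `m = 0` for
`s i = ∑ c, (dim V_i - i) + Nat.log 2 (up i ⊔ N).index` and `k ! ≤ 2 ^ (k * (k - 1))`. -/
def S_WIN : Prop :=
  ∀ (d k : ℕ) (Γ : Type) [Group Γ] [Finite Γ] (X : Type) [MulAction Γ X] (G : KGeo d k Γ X),
    1 ≤ k → 100 * k ^ 5 ≤ d →
    ∃ u q, Win G u q ∧ q = u + (2 * k ^ 2 * (6 * k + 3) + 2 * k + 3) ∧ q + 1 ≤ 48 * k ^ 5

def M_WIN : Prop := S_PG → S_IDX → S_NZ → S_STEP → S_WIN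

/-! ## Section 3 -/

/-- 3.1, 3.2, 3.4 -/
def S_Y : Prop :=
  ∀ (d k : ℕ) (Γ : Type) [Group Γ] [Finite Γ] (X : Type) [MulAction Γ X] (G : KGeo d k Γ X)
    (u q : ℕ), Win G u q → ∀ (g : Γ) (p : ℕ), u ≤ p → p ≤ q →
    (∀ B ≤ G.Y g p, (∀ n ∈ G.Ni p, ∀ w ∈ B, G.R g n w ∈ B) → B = ⊥ ∨ B = G.Y g p) ∧
    (∀ B : Submodule ℝ (E d), (∀ n ∈ G.Ni p, ∀ w ∈ B, G.R g n w ∈ B) →
      ∀ i, p ≤ i → i ≤ q → G.D g i ≤ B ∨ G.D g i ≤ Bᗮ) ∧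
    ∀ A : E d →ₗ[ℝ] E d, (∀ w ∈ G.Y g p, A w ∈ G.Y g p) →
      (∀ n ∈ G.Ni p, ∀ w ∈ G.Y g p, A (G.R g n w) = G.R g n (A w)) →
      ∃ c : ℝ, ∀ w ∈ G.Y g p, A w = c • w

/-- The plane `D_i + D_{i+1}` in the frames `g` and `g ρ_i`, and the decomposition of `V_j`. -/
def S_PL : Prop :=
  ∀ (d k : ℕ) (Γ : Type) [Group Γ] [Finite Γ] (X : Type) [MulAction Γ X] (G : KGeo d k Γ X)
    (u q : ℕ), Win G u q → ∀ (g : Γ),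
    (∀ i, u ≤ i → i < q →
      G.D (g * G.ρ i) i ⊔ G.D (g * G.ρ i) (i + 1) = G.D g i ⊔ G.D g (i + 1) ∧
      G.D (g * G.ρ i) i ≠ G.D g i ∧
      (G.D (g * G.ρ i) i = G.D g (i + 1) → G.D (g * G.ρ i) (i + 1) = G.D g i)) ∧
    (∀ i j, u ≤ i → i < j → j ≤ q → G.D g i ≤ (G.D g j)ᗮ ∧ G.D g j ≤ (G.D g i)ᗮ) ∧
    ∀ i j, u ≤ i → i ≤ j → j ≤ q + 1 → G.V g j = G.V g i ⊔ ⨆ m ∈ Finset.Ico i j, G.D g m

def M_PL : Prop := S_STEP → S_PL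

/-- 3.3. The transposition of the set `Λ`. -/
def S_SWAP : Prop :=
  ∀ (d k : ℕ) (Γ : Type) [Group Γ] [Finite Γ] (X : Type) [MulAction Γ X] (G : KGeo d k Γ X)
    (u q : ℕ), Win G u q → ∀ (g : Γ) (p i : ℕ), u ≤ p → p < i → i < q →
    G.Y (g * G.ρ i) p = G.Y g p ∧
    (G.D (g * G.ρ i) i ≤ G.Y g p ↔ G.D g (i + 1) ≤ G.Y g p) ∧
    (G.D (g * G.ρ i) (i + 1) ≤ G.Y g p ↔ G.D g i ≤ G.Y g p)

def M_SWAP : Prop := S_Y → S_PL → S_SWAP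

/-- (SW) -/
def S_SW : Prop :=
  ∀ (L : ℕ) (O : Set (Fin L → Bool)),
    (∀ w ∈ O, ∀ (i : ℕ) (h : i + 1 < L),
      (fun x => w (Equiv.swap (⟨i, by omega⟩ : Fin L) ⟨i + 1, h⟩ x)) ∈ O) →
    (∃ w ∈ O, ∃ a b, w a ≠ w b) → L ≤ O.ncard

/-- 3.3. The dichotomy. -/
def S_DICH : Prop :=
  ∀ (d k : ℕ) (Γ : Type) [Group Γ] [Finite Γ] (X : Type) [MulAction Γ X] (G : KGeo d k Γ X)
    (u q : ℕ), Win G u q → ∀ (p : ℕ), u ≤ p → p + k + 1 ≤ q → ∀ g : Γ,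
    (∀ i, p < i → i ≤ q → G.D g i ≤ G.Y g p) ∨ (∀ i, p < i → i ≤ q → G.D g i ≤ (G.Y g p)ᗮ)

def M_DICH : Prop := S_CNT → S_SW → S_Y → S_PL → S_SWAP → S_DICH

/-- the frame `g` is isolated at `p` -/
def Isol {d k : ℕ} {Γ : Type} [Group Γ] {X : Type} [MulAction Γ X] (G : KGeo d k Γ X) (q p : ℕ)
    (g : Γ) : Prop := ∀ i, p < i → i ≤ q → G.D g i ≤ (G.Y g p)ᗮ

/-- 3.3, the argument used in (i) and (iii). The frames `g1` and `g2` are in `g (up p)`, so that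
the modules `Y g1 p` and `Y g2 p` are modules of the same group. -/
def S_KEY : Prop :=
  ∀ (d k : ℕ) (Γ : Type) [Group Γ] [Finite Γ] (X : Type) [MulAction Γ X] (G : KGeo d k Γ X)
    (u q : ℕ), Win G u q → ∀ (p i : ℕ), u ≤ p → p ≤ q → p ≤ i → ∀ g g1 g2 : Γ,
    (∃ γ ∈ G.up p, g1 = g * γ) → (∃ γ ∈ G.up p, g2 = g * γ) → ∀ (e e' : E d) (α β : ℝ),
    e ∈ G.D g i → e ≠ 0 → e' ∈ G.D g (i + 1) → α ≠ 0 → β ≠ 0 → α • e + β • e' ∈ G.D g1 p →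
    e ∈ G.D g2 p → e' ∈ (G.Y g2 p)ᗮ → e' = 0

def M_KEY : Prop := S_Y → S_KEY

/-- 3.3 (i) -/
def S_ISO1 : Prop :=
  ∀ (d k : ℕ) (Γ : Type) [Group Γ] [Finite Γ] (X : Type) [MulAction Γ X] (G : KGeo d k Γ X)
    (u q : ℕ), Win G u q → ∀ (p : ℕ), u ≤ p → p + k + 1 ≤ q → ∀ g, Isol G q p g →
    G.D (g * G.ρ p) p = G.D g (p + 1) ∧ Isol G q p (g * G.ρ p)

def M_ISO1 : Prop := S_Y → S_PL → S_DICH → S_KEY → S_ISO1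

/-- 3.3 (ii), (iii) -/
def S_ISO2 : Prop :=
  ∀ (d k : ℕ) (Γ : Type) [Group Γ] [Finite Γ] (X : Type) [MulAction Γ X] (G : KGeo d k Γ X)
    (u q : ℕ), Win G u q → ∀ (p : ℕ), u ≤ p → p + k + 1 ≤ q → ∀ g, Isol G q p g →
    ∀ γ ∈ G.mid p q, Isol G q p (g * γ) ∧ ∀ i, p ≤ i → i < q →
      G.D (g * γ * G.ρ i) i = G.D (g * γ) (i + 1) ∧ G.D (g * γ * G.ρ i) (i + 1) = G.D (g * γ) i

def M_ISO2 : Prop := S_Y → S_PL → S_SWAP → S_DICH → S_KEY → S_ISO1 → S_ISO2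

/-- 3.3 (iv) -/
def S_ISO3 : Prop :=
  ∀ (d k : ℕ) (Γ : Type) [Group Γ] [Finite Γ] (X : Type) [MulAction Γ X] (G : KGeo d k Γ X)
    (u q : ℕ), Win G u q → ∀ (p : ℕ), u ≤ p → p + k + 1 ≤ q → ∀ g, Isol G q p g →
    Nat.card (G.mid p q) ≤ k ! * 2 ^ (q + 1 - p)

def M_ISO3 : Prop := S_Y → S_PL → S_IDX → S_ISO2 → S_ISO3

/-- 3.3 -/
def S_IRR : Prop :=
  ∀ (d k : ℕ) (Γ : Type) [Group Γ] [Finite Γ] (X : Type) [MulAction Γ X] (G : KGeo d k Γ X)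
    (u q : ℕ), 1 ≤ k → Win G u q → ∀ (g : Γ) (p : ℕ), u ≤ p → p + (2 * k + 3) ≤ q →
    ∀ i, p ≤ i → i ≤ q → G.D g i ≤ G.Y g p

def M_IRR : Prop := S_ORD → S_DICH → S_ISO3 → S_IRR

/-! ## Section 4 -/

/-- 4.1 -/
def S_S1 : Prop :=
  ∀ (d k : ℕ) (Γ : Type) [Group Γ] [Finite Γ] (X : Type) [MulAction Γ X] (G : KGeo d k Γ X)
    (u q : ℕ), 1 ≤ k → Win G u q → ∀ (g : Γ) (p : ℕ), u ≤ p → p + (2 * k + 3) ≤ q →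
    G.Y g p ≤ G.S q g p ∧ G.S q g p ≤ G.V g p ⊔ G.Y g p ∧ G.S q g p ⊓ G.U g p = G.Y g p

def M_S1 : Prop := S_STEP → S_Y → S_PL → S_IRR → S_S1

/-- 4.2 -/
def S_S2 : Prop :=
  ∀ (d k : ℕ) (Γ : Type) [Group Γ] [Finite Γ] (X : Type) [MulAction Γ X] (G : KGeo d k Γ X)
    (q j m : ℕ), j ≤ q → q + 1 ≤ m → m ≤ d → (∀ i, i < m → G.NZ i) → ∀ g,
    m ≤ Module.finrank ℝ (G.S q g j)

def M_S2 : Prop := S_STEP → S_S2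

/-! ## Section 5 -/

/-- `κ` is an isometry as in 5.4 for the index `l` and the frame `g`. -/
structure IsK {d k : ℕ} {Γ : Type} [Group Γ] {X : Type} [MulAction Γ X] (G : KGeo d k Γ X)
    (g : Γ) (l : ℕ) (κ : E d ≃ₗᵢ[ℝ] E d) (ε : ℝ) : Prop where
  sgn : ε = 1 ∨ ε = -1
  fix : ∀ v ∈ G.V g l, κ v = v
  scal : ∀ w ∈ G.U g (l + 2), κ w = ε • w
  inv : ∀ v, κ (κ v) = v
  pres : ∀ v ∈ G.V g (l + 2), κ v ∈ G.V g (l + 2)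
  moves : ∀ e ∈ G.D g l, e ≠ 0 → κ e ∉ G.D g l

/-- `n` is an element `n_l` as in 5.1 -/
structure IsN {d k : ℕ} {Γ : Type} [Group Γ] {X : Type} [MulAction Γ X] (G : KGeo d k Γ X)
    (q l : ℕ) (n : Γ) : Prop where
  mem : n ∈ G.Ni l
  act : ∀ a ∈ G.dn q, n • a • G.x0 = G.ρ l • a • G.x0
  comm : ∀ i, l + 2 ≤ i → i < q → G.ρ i * n * G.ρ i = n
  V : ∀ g i v, i ≤ q + 1 → (G.R g n v ∈ G.V (g * G.ρ l) i ↔ v ∈ G.V g i)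

/-- 5.1 -/
def S_A1 : Prop :=
  ∀ (d k : ℕ) (Γ : Type) [Group Γ] [Finite Γ] (X : Type) [MulAction Γ X] (G : KGeo d k Γ X)
    (u q : ℕ), Win G u q → ∀ l, u ≤ l → l < q → ∃ n, IsN G q l n

/-- 5.2: `A = R g n` on `V_{l+2}` -/
def S_A2 : Prop :=
  ∀ (d k : ℕ) (Γ : Type) [Group Γ] [Finite Γ] (X : Type) [MulAction Γ X] (G : KGeo d k Γ X)
    (u q : ℕ), Win G u q → ∀ l, u ≤ l → l < q → ∀ n, IsN G q l n → ∀ g,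
      (∀ v ∈ G.V g (l + 2), G.R g n v ∈ G.V g (l + 2) ∧ G.R g n (G.R g n v) = v) ∧
      (∀ e ∈ G.D g l, e ≠ 0 → G.R g n e ∉ G.D g l) ∧
      ∀ i, l + 2 ≤ i → i ≤ q → ∃ δ : ℝ, (δ = 1 ∨ δ = -1) ∧ ∀ e ∈ G.D g i, G.R g n e = δ • e

def M_A2 : Prop := S_STEP → S_PL → S_A2

/-- 5.3: the signs are constant -/
def S_A3 : Prop :=
  ∀ (d k : ℕ) (Γ : Type) [Group Γ] [Finite Γ] (X : Type) [MulAction Γ X] (G : KGeo d k Γ X)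
    (u q : ℕ), Win G u q → ∀ l, u ≤ l → l + k + 2 ≤ q → ∀ n, IsN G q l n →
    ∀ g, ∃ ε : ℝ, (ε = 1 ∨ ε = -1) ∧ ∀ i, l + 2 ≤ i → i ≤ q → ∀ e ∈ G.D g i, G.R g n e = ε • e

def M_A3 : Prop := S_PL → S_CNT → S_SW → S_A2 → S_A3

/-- 5.4 -/
def S_K : Prop :=
  ∀ (d k : ℕ) (Γ : Type) [Group Γ] [Finite Γ] (X : Type) [MulAction Γ X] (G : KGeo d k Γ X)
    (u q : ℕ), Win G u q → ∀ l, u ≤ l → l + k + 2 ≤ q → ∀ g,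
    ∃ κ ε, IsK G g l κ ε ∧ ∀ y ∈ G.XX q (l + 2), G.F g (G.ρ l • y) = κ (G.F g y)

def M_K : Prop := S_PL → S_A1 → S_A2 → S_A3 → S_K

/-! ## Section 6 -/

/-- the interval `[j1, j2]` -/
structure Sub {d k : ℕ} {Γ : Type} [Group Γ] {X : Type} [MulAction Γ X] (G : KGeo d k Γ X)
    (u q j1 j2 : ℕ) : Prop where
  win : Win G u q
  huj : u ≤ j1
  hj : j2 = j1 + (6 * k + 3)
  hjq : j2 + (2 * k + 3) ≤ q
  /-- the space `S` is constant -/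
  S : ∀ g j, j1 ≤ j → j ≤ j2 → G.S q g j = G.S q g j1
  /-- dimensions -/
  dim : ∀ g, d + 1 ≤ Module.finrank ℝ (G.S q g j1) + k
  hd : 2 * q + 2 ≤ d
  dimY : ∀ g p, j1 ≤ p → p ≤ j1 + 5 → 12 * k + 20 ≤ Module.finrank ℝ (G.Y g p)
  /-- 3.3 and 4.1 -/
  D : ∀ g p, j1 ≤ p → p ≤ j2 → ∀ i, p ≤ i → i ≤ q → G.D g i ≤ G.Y g p
  Y : ∀ g p, j1 ≤ p → p ≤ j2 → G.S q g j1 ⊓ G.U g p = G.Y g p
  VY : ∀ g p, j1 ≤ p → p ≤ j2 → G.S q g j1 ≤ G.V g p ⊔ G.Y g p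
  /-- 6.1 -/
  kap : ∀ g l, j1 ≤ l → l + 2 ≤ j2 → ∃ κ ε, IsK G g l κ ε ∧
    (∀ y ∈ G.XX q j1, G.F g (G.ρ l • y) = κ (G.F g y)) ∧ ∀ w ∈ G.S q g j1, κ w ∈ G.S q g j1

/-- `E_j(g, g')` -/
def EqI {d k : ℕ} {Γ : Type} [Group Γ] {X : Type} [MulAction Γ X] (G : KGeo d k Γ X) (q j : ℕ)
    (g g' : Γ) : Prop :=
  ∀ y ∈ G.XX q j, ∀ z ∈ G.XX q j, ⟪G.F g y, G.F g z⟫ = ⟪G.F g' y, G.F g' z⟫

/-- 6, first part: the interval. Use S_PG with `K = 2 * k ^ 2`, `L = 6 * k + 3`, `m = u`. -/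
def S_INT : Prop :=
  ∀ (d k : ℕ) (Γ : Type) [Group Γ] [Finite Γ] (X : Type) [MulAction Γ X] (G : KGeo d k Γ X)
    (u q : ℕ), 1 ≤ k → Win G u q → q = u + (2 * k ^ 2 * (6 * k + 3) + 2 * k + 3) →
    ∃ j1, u ≤ j1 ∧ j1 + (6 * k + 3) + (2 * k + 3) ≤ q ∧
      ∀ j, j1 ≤ j → j ≤ j1 + (6 * k + 3) → (∀ g, G.S q g j = G.S q g j1) ∧
        ∀ g g', EqI G q j g g' → EqI G q j1 g g'

def M_INT : Prop := S_PG → S_S2 → S_INT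

/-- 6.1. `dimY`: `dim S ≥ d - k + 1`, `S ≤ V_p ⊔ Y_p`, and `dim V_p ≤ p + k - 1` (the dimensions of
`V_i` increase strictly up to `i = d - k + 1`). -/
def S_SUB : Prop :=
  ∀ (d k : ℕ) (Γ : Type) [Group Γ] [Finite Γ] (X : Type) [MulAction Γ X] (G : KGeo d k Γ X)
    (u q : ℕ), 1 ≤ k → 100 * k ^ 5 ≤ d → Win G u q →
    q = u + (2 * k ^ 2 * (6 * k + 3) + 2 * k + 3) → q + 1 ≤ 48 * k ^ 5 →
    ∃ j1 j2, Sub G u q j1 j2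

def M_SUB : Prop := S_STEP → S_IRR → S_S1 → S_S2 → S_K → S_INT → S_SUB

end

end FOK
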